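import Pool.Agent.Helper98.RS.Defs
import Pool.Agent.Helper41.Gap.TowerBasic

set_option autoImplicit false

open scoped Pointwise commutatorElement

namespace Pool.Agent.Helper98.RS

private theorem c4_mul_right {P : Type} [Group P] (a x y : P) :
    ⁅a, x * y⁆ = ⁅a, x⁆ * (x * ⁅a, y⁆ * x⁻¹) := by
  simp only [commutatorElement_def]; group

private theorem c4_mul_left {P : Type} [Group P] (a b x : P) :
    ⁅a * b, x⁆ = a * ⁅b, x⁆ * a⁻¹ * ⁅a, x⁆ := by
  simp only [commutatorElement_def]; group

private theorem c4_comm {P : Type} [Group P] (M : Subgroup P) (S A : Set P)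
    (hS : Subgroup.closure S = ⊤) (hLc : ∀ l ∈ ⁅M, (⊤ : Subgroup P)⁆, ∀ x, x * l = l * x)
    (hA : A ⊆ M) (hM : ∀ m ∈ M, ∃ a ∈ Subgroup.closure A, ∃ l ∈ ⁅M, (⊤ : Subgroup P)⁆, m = a * l) :
    ⁅M, (⊤ : Subgroup P)⁆ = Subgroup.closure {y | ∃ a ∈ A, ∃ s ∈ S, y = ⁅a, s⁆} := by
  set C := Subgroup.closure {y | ∃ a ∈ A, ∃ s ∈ S, y = ⁅a, s⁆} with hC
  have hin : ∀ m ∈ M, ∀ x : P, ⁅m, x⁆ ∈ ⁅M, (⊤ : Subgroup P)⁆ := fun m hm x =>
    Subgroup.commutator_mem_commutator hm (Subgroup.mem_top x)
  have hr : ∀ m ∈ M, ∀ x y : P, ⁅m, x * y⁆ = ⁅m, x⁆ * ⁅m, y⁆ := by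
    intro m hm x y
    rw [c4_mul_right, hLc _ (hin m hm y) x, mul_inv_cancel_right]
  have hl : ∀ m ∈ M, ∀ m' ∈ M, ∀ x : P, ⁅m * m', x⁆ = ⁅m', x⁆ * ⁅m, x⁆ := by
    intro m hm m' hm' x
    rw [c4_mul_left, hLc _ (hin m' hm' x) m, mul_inv_cancel_right]
  have h1 : ∀ a ∈ A, ∀ x : P, ⁅a, x⁆ ∈ C := by
    intro a ha x
    have hx : x ∈ Subgroup.closure S := by rw [hS]; exact Subgroup.mem_top x
    induction hx using Subgroup.closure_induction with
    | mem s hs => exact Subgroup.subset_closure ⟨a, ha, s, hs, rfl⟩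
    | one => simp
    | mul x y _ _ hx hy => rw [hr a (hA ha)]; exact C.mul_mem hx hy
    | inv x _ hx =>
      have h2 := hr a (hA ha) x x⁻¹
      rw [mul_inv_cancel, commutatorElement_one_right] at h2
      rw [eq_inv_of_mul_eq_one_right h2.symm]
      exact C.inv_mem hx
  have hAM : Subgroup.closure A ≤ M := (Subgroup.closure_le M).2 hA
  have h2 : ∀ a ∈ Subgroup.closure A, ∀ x : P, ⁅a, x⁆ ∈ C := by
    intro a ha x
    induction ha using Subgroup.closure_induction with
    | mem s hs => exact h1 s hs x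
    | one => simp
    | mul a b ha hb hx hy => rw [hl a (hAM ha) b (hAM hb)]; exact C.mul_mem hy hx
    | inv a ha hx =>
      have h2 := hl a (hAM ha) a⁻¹ (M.inv_mem (hAM ha)) x
      rw [mul_inv_cancel, commutatorElement_one_left] at h2
      rw [eq_inv_of_mul_eq_one_left h2.symm]
      exact C.inv_mem hx
  apply le_antisymm
  · rw [Subgroup.commutator_le]
    intro m hm x _
    obtain ⟨a, ha, l, hl', rfl⟩ := hM m hm
    have h3 : ⁅l, x⁆ = 1 := by
      rw [commutatorElement_eq_one_iff_mul_comm]; exact (hLc l hl' x).symm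
    rw [c4_mul_left, h3, mul_one, mul_inv_cancel, one_mul]
    exact h2 a ha x
  · rw [hC, Subgroup.closure_le]
    rintro y ⟨a, ha, s, _, rfl⟩
    exact hin a (hA ha) s


open Pool.Agent.Helper41.Gap in
/-- Subgroups of finitely generated nilpotent groups are finitely generated. -/
theorem c4_fg : ∀ (c : ℕ) (P : Type) [Group P], Group.FG P →
    (⊤ : Subgroup P).lowerCentralSeries c = ⊥ → ∀ K : Subgroup P, K.FG := by
  intro c
  induction c with
  | zero =>
    intro P _ hP hc K
    rw [Subgroup.lowerCentralSeries_zero] at hc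
    have h1 : K = ⊥ := le_bot_iff.1 (hc ▸ le_top)
    rw [h1]; exact Subgroup.FG.bot
  | succ c ih =>
    intro P _ hP hc K
    set L := (⊤ : Subgroup P).lowerCentralSeries c with hL
    have hLc : ∀ l ∈ L, ∀ x : P, x * l = l * x := by
      intro l hl x
      have h1 : ⁅l, x⁆ ∈ (⊤ : Subgroup P).lowerCentralSeries (c + 1) :=
        Subgroup.commutator_mem_commutator hl (Subgroup.mem_top x)
      rw [hc, Subgroup.mem_bot, commutatorElement_eq_one_iff_mul_comm] at h1
      exact h1.symm
    have hLn : L.Normal := by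
      refine ⟨fun l hl x => ?_⟩
      rw [hLc l hl x, mul_inv_cancel_right]; exact hl
    -- the quotient
    have hQ : ∀ K' : Subgroup (P ⧸ L), K'.FG := by
      refine ih (P ⧸ L) (Group.fg_of_surjective (QuotientGroup.mk'_surjective L)) ?_
      have h1 := Subgroup.map_lowerCentralSeries (⊤ : Subgroup P) (QuotientGroup.mk' L) c
      rw [Subgroup.map_top_of_surjective _ (QuotientGroup.mk'_surjective L)] at h1
      rw [← h1, ← hL, eq_bot_iff, Subgroup.map_le_iff_le_comap]
      intro l hl
      rw [Subgroup.mem_comap, Subgroup.mem_bot]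
      exact (QuotientGroup.eq_one_iff l).2 hl
    -- the last term is finitely generated
    have hLfg : L.FG := by
      rcases Nat.eq_zero_or_pos c with h0 | hpos
      · subst h0
        rw [hL, Subgroup.lowerCentralSeries_zero]
        exact (Group.fg_def).1 hP
      · obtain ⟨d, rfl⟩ : ∃ d, c = d + 1 := ⟨c - 1, by omega⟩
        obtain ⟨S, hS⟩ := (Group.fg_def).1 hP
        set M := (⊤ : Subgroup P).lowerCentralSeries d with hM
        have hLM : L = ⁅M, (⊤ : Subgroup P)⁆ := rfl
        have hLleM : L ≤ M := Subgroup.lowerCentralSeries_antitone _ (Nat.le_succ d)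
        obtain ⟨B, hB⟩ := hQ (M.map (QuotientGroup.mk' L))
        -- lift the generators
        have h2 : ∀ b : P ⧸ L, ∃ a : P, b ∈ B → (a ∈ M ∧ QuotientGroup.mk' L a = b) := by
          intro b
          by_cases hb : b ∈ B
          · have : b ∈ M.map (QuotientGroup.mk' L) := by
              rw [← hB]; exact Subgroup.subset_closure hb
            obtain ⟨a, ha, hab⟩ := this
            exact ⟨a, fun _ => ⟨ha, hab⟩⟩
          · exact ⟨1, fun h => absurd h hb⟩
        choose φ hφ using h2
        classical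
        set A : Finset P := B.image φ with hA
        have hAM : (A : Set P) ⊆ M := by
          intro a ha
          rw [hA, Finset.coe_image] at ha
          obtain ⟨b, hb, rfl⟩ := ha
          exact (hφ b hb).1
        have hMA : ∀ m ∈ M, ∃ a ∈ Subgroup.closure (A : Set P), ∃ l ∈ L, m = a * l := by
          intro m hm
          have h3 : (QuotientGroup.mk' L) m ∈ (Subgroup.closure (A : Set P)).map
              (QuotientGroup.mk' L) := by
            rw [MonoidHom.map_closure]
            have h4 : (B : Set (P ⧸ L)) ⊆ (QuotientGroup.mk' L) '' (A : Set P) := by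
              intro b hb
              refine ⟨φ b, ?_, (hφ b hb).2⟩
              rw [hA, Finset.coe_image]
              exact ⟨b, hb, rfl⟩
            refine Subgroup.closure_mono h4 ?_
            rw [hB]
            exact ⟨m, hm, rfl⟩
          obtain ⟨a, ha, ham⟩ := h3
          refine ⟨a, ha, a⁻¹ * m, ?_, by group⟩
          rw [← QuotientGroup.eq]
          exact ham
        have h5 := c4_comm M (S : Set P) (A : Set P) hS hLc hAM hMA
        rw [hLM, h5]
        have h6 : ({y | ∃ a ∈ (A : Set P), ∃ s ∈ (S : Set P), y = ⁅a, s⁆} : Set P).Finite := by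
          refine ((A ×ˢ S).image (fun q : P × P => ⁅q.1, q.2⁆)).finite_toSet.subset ?_
          rintro y ⟨a, ha, s, hs, rfl⟩
          rw [Finset.coe_image]
          exact ⟨(a, s), by simp only [Finset.coe_product, Set.mem_prod]; exact ⟨ha, hs⟩, rfl⟩
        refine ⟨h6.toFinset, ?_⟩
        rw [Set.Finite.coe_toFinset]
    -- extension
    have hL2 : Group.FG L := (Group.fg_iff_subgroup_fg L).2 hLfg
    have hKL : (K ⊓ L).FG := by
      have h1 := tb_sub_fg_comm (Q := L) (fun a b => Subtype.ext (hLc b b.2 a)) hL2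
        (K.subgroupOf L)
      have h2 := tb_fg_map L.subtype h1
      rwa [Subgroup.subgroupOf_map_subtype] at h2
    have hker : ((QuotientGroup.mk' L).comp K.subtype).ker.FG := by
      have h1 : ((QuotientGroup.mk' L).comp K.subtype).ker = L.subgroupOf K := by
        ext x
        rw [MonoidHom.mem_ker, Subgroup.mem_subgroupOf]
        exact QuotientGroup.eq_one_iff (x : P)
      rw [h1]
      have h2 : ((L.subgroupOf K).map K.subtype).FG := by
        rw [Subgroup.subgroupOf_map_subtype, inf_comm]; exact hKL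
      have h3 : Group.FG ((L.subgroupOf K).map K.subtype) := (Group.fg_iff_subgroup_fg _).2 h2
      rw [← Group.fg_iff_subgroup_fg]
      exact Group.fg_of_surjective
        (f := ((L.subgroupOf K).equivMapOfInjective K.subtype K.subtype_injective).symm.toMonoidHom)
        ((L.subgroupOf K).equivMapOfInjective K.subtype K.subtype_injective).symm.surjective
    have h4 := tb_fg_ext ((QuotientGroup.mk' L).comp K.subtype) hker (hQ _)
    rw [← Group.fg_def] at h4
    exact (Group.fg_iff_subgroup_fg K).1 h4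


private theorem c4_fg_surj {P Q : Type} [Group P] [Group Q] (f : P →* Q)
    (hf : Function.Surjective f) (hfg : ∀ K : Subgroup P, K.FG) (K : Subgroup Q) : K.FG := by
  rw [← Group.fg_iff_subgroup_fg]
  have : Group.FG (K.comap f) := (Group.fg_iff_subgroup_fg _).2 (hfg _)
  exact Group.fg_of_surjective (f := f.subgroupComap K)
    (MonoidHom.subgroupComap_surjective_of_surjective f K hf)

private theorem c4_center_finite {P : Type} [Group P] (hfg : ∀ K : Subgroup P, K.FG)
    (h : ∀ z ∈ Subgroup.center P, IsOfFinOrder z) : Finite (Subgroup.center P) := by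
  have : Group.FG (Subgroup.center P) := (Group.fg_iff_subgroup_fg _).2 (hfg _)
  let _ : CommGroup (Subgroup.center P) :=
    { (inferInstance : Group (Subgroup.center P)) with
      mul_comm := fun a b => Subtype.ext ((Subgroup.mem_center_iff.1 b.2) a) }
  refine CommGroup.finite_of_fg_isMulTorsion _ ?_
  intro x
  obtain ⟨n, hn, hx⟩ := isOfFinOrder_iff_pow_eq_one.1 (h x x.2)
  exact isOfFinOrder_iff_pow_eq_one.2 ⟨n, hn, Subtype.ext hx⟩

/-- a nilpotent group with finite centre all of whose subgroups are finitely generated is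
finite -/
private theorem c4_finite (P : Type) [Group P] [Group.IsNilpotent P] :
    (∀ K : Subgroup P, K.FG) → Finite (Subgroup.center P) → Finite P := by
  refine Group.nilpotent_center_quotient_ind
    (P := fun (P : Type) [Group P] [Group.IsNilpotent P] =>
      (∀ K : Subgroup P, K.FG) → Finite (Subgroup.center P) → Finite P) P ?_ ?_
  · intro P _ _ _ _
    infer_instance
  · intro P _ _ ih hfg hZ
    have hfgQ := c4_fg_surj (QuotientGroup.mk' (Subgroup.center P))
      (QuotientGroup.mk'_surjective _) hfg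
    have h1 : Finite (P ⧸ Subgroup.center P) := by
      refine ih hfgQ (c4_center_finite hfgQ ?_)
      intro z hz
      obtain ⟨x, rfl⟩ := QuotientGroup.mk'_surjective _ z
      have hcen : ∀ y : P, ⁅x, y⁆ ∈ Subgroup.center P := by
        intro y
        have h2 := Subgroup.mem_center_iff.1 hz ((QuotientGroup.mk' (Subgroup.center P)) y)
        rw [← QuotientGroup.eq_one_iff]
        change (QuotientGroup.mk' (Subgroup.center P)) ⁅x, y⁆ = 1
        rw [map_commutatorElement, commutatorElement_eq_one_iff_mul_comm]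
        exact h2.symm
      have hpow : ∀ (n : ℕ) (y : P), ⁅x ^ n, y⁆ = ⁅x, y⁆ ^ n := by
        intro n y
        induction n with
        | zero => simp
        | succ n ihn =>
          rw [pow_succ', c4_mul_left, ihn, pow_succ]
          have h3 : ⁅x, y⁆ ^ n ∈ Subgroup.center P := (Subgroup.center P).pow_mem (hcen y) n
          rw [Subgroup.mem_center_iff.1 h3 x, mul_inv_cancel_right]
      refine isOfFinOrder_iff_pow_eq_one.2
        ⟨Nat.card (Subgroup.center P), Nat.card_pos, ?_⟩
      rw [← map_pow]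
      refine (QuotientGroup.eq_one_iff _).2 ?_
      rw [Subgroup.mem_center_iff]
      intro y
      have h4 : ⁅x, y⁆ ^ Nat.card (Subgroup.center P) = 1 := by
        have h5 : (⟨⁅x, y⁆, hcen y⟩ : Subgroup.center P) ^ Nat.card (Subgroup.center P) = 1 :=
          pow_card_eq_one'
        exact congrArg Subtype.val h5
      rw [← hpow, commutatorElement_eq_one_iff_mul_comm] at h4
      exact h4.symm
    exact Finite.of_equiv _ (Subgroup.groupEquivQuotientProdSubgroup (s := Subgroup.center P)).symm

/-- Finitely generated nilpotent groups are residually finite. -/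
theorem nil_resfinite {P : Type} [Group P] (hfg : Group.FG P) (hn : Group.IsNilpotent P) (g : P)
    (hg : g ≠ 1) : ∃ N : Subgroup P, N.Normal ∧ N.FiniteIndex ∧ g ∉ N := by
  obtain ⟨N, hN⟩ : ∃ N, Maximal (fun N : Subgroup P => N.Normal ∧ g ∉ N) N := by
    refine zorn_le₀ {N : Subgroup P | N.Normal ∧ g ∉ N} ?_
    intro c hc hch
    rcases c.eq_empty_or_nonempty with h0 | hne
    · exact ⟨⊥, ⟨inferInstance, by rwa [Subgroup.mem_bot]⟩, by simp [h0]⟩
    · refine ⟨sSup c, ⟨⟨?_⟩, ?_⟩, fun K hK => le_sSup hK⟩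
      · intro x hx y
        rw [Subgroup.mem_sSup_of_directedOn hne hch.directedOn] at hx ⊢
        obtain ⟨K, hK, hxK⟩ := hx
        exact ⟨K, hK, (hc hK).1.conj_mem x hxK y⟩
      · rw [Subgroup.mem_sSup_of_directedOn hne hch.directedOn]
        rintro ⟨K, hK, hgK⟩
        exact (hc hK).2 hgK
  have hNn : N.Normal := hN.1.1
  have hgN : g ∉ N := hN.1.2
  refine ⟨N, hNn, ?_, hgN⟩
  have hnP := hn
  obtain ⟨c, hc⟩ := Subgroup.nilpotent_iff_lowerCentralSeries.1 hn
  have hsub := c4_fg c P hfg hc
  have hsubQ := c4_fg_surj (QuotientGroup.mk' N) (QuotientGroup.mk'_surjective _) hsub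
  have hg1 : (QuotientGroup.mk' N) g ≠ 1 := fun h => hgN ((QuotientGroup.eq_one_iff g).1 h)
  -- every nontrivial normal subgroup of the quotient contains the image of `g`
  have hmono : ∀ K : Subgroup (P ⧸ N), K.Normal → K ≠ ⊥ → (QuotientGroup.mk' N) g ∈ K := by
    intro K hK hKne
    by_contra hgK
    have h1 : N ≤ K.comap (QuotientGroup.mk' N) := by
      intro x hx
      have h0 : (QuotientGroup.mk' N) x = 1 := (QuotientGroup.eq_one_iff x).2 hx
      rw [Subgroup.mem_comap, h0]
      exact K.one_mem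
    have h2 := hN.2 (y := K.comap (QuotientGroup.mk' N)) ⟨hK.comap _, hgK⟩ h1
    apply hKne
    rw [eq_bot_iff]
    intro k hk
    obtain ⟨x, rfl⟩ := QuotientGroup.mk'_surjective _ k
    rw [Subgroup.mem_bot]
    exact (QuotientGroup.eq_one_iff x).2 (h2 hk)
  have hZt : ∀ z ∈ Subgroup.center (P ⧸ N), IsOfFinOrder z := by
    intro z hz
    by_contra hinf
    have hnorm : ∀ m : ℕ, (Subgroup.zpowers (z ^ m)).Normal := by
      intro m
      refine ⟨fun x hx y => ?_⟩
      have h1 : x ∈ Subgroup.center (P ⧸ N) := by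
        have h2 : Subgroup.zpowers (z ^ m) ≤ Subgroup.center (P ⧸ N) :=
          Subgroup.zpowers_le.2 ((Subgroup.center _).pow_mem hz m)
        exact h2 hx
      rw [Subgroup.mem_center_iff.1 h1 y, mul_inv_cancel_right]
      exact hx
    have hne : ∀ m : ℕ, 0 < m → Subgroup.zpowers (z ^ m) ≠ ⊥ := by
      intro m hm h
      rw [Subgroup.zpowers_eq_bot] at h
      exact hinf (isOfFinOrder_iff_pow_eq_one.2 ⟨m, hm, h⟩)
    obtain ⟨k, hk⟩ := Subgroup.mem_zpowers_iff.1 (hmono _ (hnorm 1) (hne 1 one_pos))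
    rw [pow_one] at hk
    have hk0 : k ≠ 0 := by
      rintro rfl
      rw [zpow_zero] at hk
      exact hg1 hk.symm
    obtain ⟨j, hj⟩ := Subgroup.mem_zpowers_iff.1
      (hmono _ (hnorm (2 * k.natAbs)) (hne (2 * k.natAbs) (by omega)))
    have h3 : z ^ k = z ^ (((2 * k.natAbs : ℕ) : ℤ) * j) := by
      rw [hk, ← hj, zpow_mul, zpow_natCast]
    have h4 : k = ((2 * k.natAbs : ℕ) : ℤ) * j := injective_zpow_iff_not_isOfFinOrder.2 hinf h3
    have h5 : ((2 * k.natAbs : ℕ) : ℤ) ∣ k := ⟨j, h4⟩
    have h6 := Int.natAbs_dvd_natAbs.2 h5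
    rw [Int.natAbs_natCast] at h6
    have h7 := Nat.le_of_dvd (Int.natAbs_pos.2 hk0) h6
    have h8 := Int.natAbs_pos.2 hk0
    omega
  have hfin : Finite (P ⧸ N) := c4_finite (P ⧸ N) hsubQ (c4_center_finite hsubQ hZt)
  exact Subgroup.finiteIndex_of_finite_quotient

/-- Virtually nilpotent finitely generated groups are residually finite. -/
theorem vnil_resfinite {G : Type} [Group G] (hfg : Group.FG G)
    (h : ∃ H : Subgroup G, H.FiniteIndex ∧ Group.IsNilpotent H) (g : G) (hg : g ≠ 1) :
    ∃ N : Subgroup G, N.Normal ∧ N.FiniteIndex ∧ g ∉ N := by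
  obtain ⟨H, hH, hn⟩ := h
  by_cases hgH : g ∈ H
  · have hHfg : Group.FG H := inferInstance
    obtain ⟨N, _, hNf, hgN⟩ := nil_resfinite hHfg hn ⟨g, hgH⟩
      (fun h => hg (congrArg Subtype.val h))
    have hfi : (N.map H.subtype).FiniteIndex := by
      refine ⟨?_⟩
      rw [Subgroup.index_map_subtype]
      exact Nat.mul_ne_zero hNf.index_ne_zero hH.index_ne_zero
    refine ⟨(N.map H.subtype).normalCore, inferInstance, inferInstance, fun hmem => ?_⟩
    obtain ⟨x, hx, hxg⟩ := (Subgroup.normalCore_le _) hmem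
    have : x = ⟨g, hgH⟩ := Subtype.ext hxg
    exact hgN (this ▸ hx)
  · exact ⟨H.normalCore, inferInstance, inferInstance, fun hmem => hgH (H.normalCore_le hmem)⟩

end Pool.Agent.Helper98.RS
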