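import Pool.Agent.Helper98.RS.LO0

/-!
# RS6: left ordered groups of subexponential growth are not perfect

The proof is elementary.  A left ordered group without free subsemigroup is Conradian
(ping pong), the elements which are infinitely small relative to the largest generator form a
convex normal subgroup (ping pong again, in the ordered set of its cosets), and the quotient is an
archimedean left ordered group, hence abelian by Hölder.
-/

set_option autoImplicit false

open scoped Pointwise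

namespace Pool.Agent.Helper98.RS

section

variable {P : Type} [Group P] [LinearOrder P]

private theorem mulle (hmul : ∀ z x y : P, x < y → z * x < z * y) (z x y : P) (hxy : x ≤ y) :
    z * x ≤ z * y := by
  rcases hxy.lt_or_eq with h | h
  · exact (hmul z x y h).le
  · rw [h]

private theorem pow_mono (hmul : ∀ z x y : P, x < y → z * x < z * y) (g : P) (hg : 1 < g)
    {m n : ℕ} (hmn : m ≤ n) : g ^ m ≤ g ^ n := by
  induction n, hmn using Nat.le_induction with
  | base => exact le_rfl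
  | succ k _ ih =>
    refine ih.trans ?_
    have := hmul (g ^ k) 1 g hg
    rw [mul_one, ← pow_succ] at this
    exact this.le

private theorem one_le_pow' (hmul : ∀ z x y : P, x < y → z * x < z * y) (g : P) (hg : 1 < g)
    (n : ℕ) : 1 ≤ g ^ n := by
  have := pow_mono hmul g hg (Nat.zero_le n)
  rwa [pow_zero] at this

private theorem lt_pow (hmul : ∀ z x y : P, x < y → z * x < z * y) (g : P) (hg : 1 < g)
    (n : ℕ) : g ^ n < g ^ (n + 1) := by
  have := hmul (g ^ n) 1 g hg
  rwa [mul_one, ← pow_succ] at this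

/-- Conrad's property. -/
private theorem conrad (hmul : ∀ z x y : P, x < y → z * x < z * y) (h : SubExp' P) (f g : P)
    (hf : 1 < f) (hg : 1 < g) : ∃ n : ℕ, g ≤ f * g ^ n := by
  by_contra hcon
  push Not at hcon
  refine lo_pp h f g 1 {x | 1 ≤ x ∧ ∃ n : ℕ, x < g ^ n} ⟨le_rfl, 1, by rwa [pow_one]⟩ ?_ ?_ ?_
  · rintro x ⟨h1, n, hn⟩
    refine ⟨?_, 1, ?_⟩
    · have := mulle hmul f 1 x h1
      rw [mul_one] at this
      exact hf.le.trans this
    · rw [pow_one]
      exact (hmul f _ _ hn).trans (hcon n)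
  · rintro x ⟨h1, n, hn⟩
    refine ⟨?_, n + 1, ?_⟩
    · have := mulle hmul g 1 x h1
      rw [mul_one] at this
      exact hg.le.trans this
    · rw [pow_succ']
      exact hmul g _ _ hn
  · rintro x ⟨h1, n, hn⟩ y ⟨h2, -⟩ he
    have h3 : f * x < g := (hmul f _ _ hn).trans (hcon n)
    have h4 := mulle hmul g 1 y h2
    rw [mul_one] at h4
    exact absurd (he ▸ h3) (not_lt.2 h4)

private theorem mul_le_pow (hmul : ∀ z x y : P, x < y → z * x < z * y) (h : SubExp' P)
    (z g : P) (hg : 1 < g) (hz : z ≤ g) : ∃ k : ℕ, z * g ≤ g ^ k := by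
  rcases hz.lt_or_eq with hz | hz
  · have h1 : 1 < z⁻¹ * g := by
      have := hmul z⁻¹ _ _ hz
      rwa [inv_mul_cancel] at this
    obtain ⟨n, hn⟩ := conrad hmul h _ _ h1 hg
    refine ⟨n + 1, ?_⟩
    have h2 := mulle hmul z _ _ hn
    rwa [← mul_assoc, mul_inv_cancel_left, ← pow_succ'] at h2
  · exact ⟨2, by rw [hz, pow_two]⟩

/-- The subgroup of elements bounded by powers of `g`. -/
private def D (hmul : ∀ z x y : P, x < y → z * x < z * y) (h : SubExp' P) (g : P) (hg : 1 < g) :
    Subgroup P where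
  carrier := {z | (∃ m : ℕ, z ≤ g ^ m) ∧ ∃ m : ℕ, z⁻¹ ≤ g ^ m}
  one_mem' := ⟨⟨0, by simp⟩, 0, by simp⟩
  inv_mem' := by
    rintro z ⟨h1, h2⟩
    exact ⟨h2, by rwa [inv_inv]⟩
  mul_mem' := by
    have key : ∀ z w : P, (∃ m : ℕ, z ≤ g ^ m) → (∃ m : ℕ, w ≤ g ^ m) →
        ∃ m : ℕ, z * w ≤ g ^ m := by
      rintro z w ⟨m, hm⟩ ⟨n, hn⟩
      set G := g ^ (max m n + 1) with hG
      have hG1 : 1 < G := (one_le_pow' hmul g hg _).trans_lt (lt_pow hmul g hg _)
      have hz : z ≤ G := hm.trans (pow_mono hmul g hg (by omega))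
      have hw : w ≤ G := hn.trans (pow_mono hmul g hg (by omega))
      obtain ⟨k, hk⟩ := mul_le_pow hmul h z G hG1 hz
      exact ⟨(max m n + 1) * k, by rw [pow_mul]; exact (mulle hmul z _ _ hw).trans hk⟩
    rintro z w ⟨h1, h2⟩ ⟨h3, h4⟩
    exact ⟨key z w h1 h3, by rw [mul_inv_rev]; exact key _ _ h4 h2⟩

private theorem mem_D (hmul : ∀ z x y : P, x < y → z * x < z * y) (h : SubExp' P) (g : P)
    (hg : 1 < g) (z : P) :
    z ∈ D hmul h g hg ↔ (∃ m : ℕ, z ≤ g ^ m) ∧ ∃ m : ℕ, z⁻¹ ≤ g ^ m := Iff.rfl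

/-- `z` is infinitely small relative to `g`. -/
private def Sm (g z : P) : Prop := ∀ m : ℕ, z ^ m < g ∧ z⁻¹ ^ m < g

private theorem sm_of_le (hmul : ∀ z x y : P, x < y → z * x < z * y) (h : SubExp' P) (g a z : P)
    (ha : 1 < a) (hs : Sm g a) (hz : z ∈ D hmul h a ha) : Sm g z := by
  intro m
  obtain ⟨k, hk⟩ := ((mem_D hmul h a ha _).1 (pow_mem hz m)).1
  obtain ⟨l, hl⟩ := ((mem_D hmul h a ha _).1 (pow_mem (inv_mem hz) m)).1
  exact ⟨hk.trans_lt (hs k).1, hl.trans_lt (hs l).1⟩

private theorem inv_gt (hmul : ∀ z x y : P, x < y → z * x < z * y) (x : P) (hx : x < 1) :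
    1 < x⁻¹ := by
  have := hmul x⁻¹ x 1 hx
  rwa [inv_mul_cancel, mul_one] at this

private theorem inv_lt (hmul : ∀ z x y : P, x < y → z * x < z * y) (x : P) (hx : 1 < x) :
    x⁻¹ < 1 := by
  have := hmul x⁻¹ 1 x hx
  rwa [inv_mul_cancel, mul_one] at this

/-- The subgroup of infinitely small elements. -/
private def Cs (hmul : ∀ z x y : P, x < y → z * x < z * y) (h : SubExp' P) (g : P) (hg : 1 < g) :
    Subgroup P where
  carrier := {z | Sm g z}
  one_mem' := fun m => by simpa using hg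
  inv_mem' := by
    intro z hz m
    rw [inv_inv]
    exact ⟨(hz m).2, (hz m).1⟩
  mul_mem' := by
    intro z w hz hw
    -- the largest of the four
    have hinvs : ∀ x : P, Sm g x → Sm g x⁻¹ := fun x hx m => by
      rw [inv_inv]
      exact ⟨(hx m).2, (hx m).1⟩
    have hmax : ∀ x y : P, Sm g x → Sm g y → Sm g (max x y) := fun x y hx hy => by
      rcases max_choice x y with h | h <;> rw [h] <;> assumption
    set a := max (max z z⁻¹) (max w w⁻¹) with ha
    have hsa : Sm g a := hmax _ _ (hmax _ _ hz (hinvs _ hz)) (hmax _ _ hw (hinvs _ hw))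
    have hza : z ≤ a := (le_max_left _ _).trans (le_max_left _ _)
    have hza' : z⁻¹ ≤ a := (le_max_right _ _).trans (le_max_left _ _)
    have hwa : w ≤ a := (le_max_left _ _).trans (le_max_right _ _)
    have hwa' : w⁻¹ ≤ a := (le_max_right _ _).trans (le_max_right _ _)
    by_cases h1 : 1 < a
    · refine sm_of_le hmul h g a _ h1 hsa (mul_mem ?_ ?_)
      · exact ⟨⟨1, by rwa [pow_one]⟩, 1, by rwa [pow_one]⟩
      · exact ⟨⟨1, by rwa [pow_one]⟩, 1, by rwa [pow_one]⟩
    · have hone : ∀ x : P, x ≤ a → x⁻¹ ≤ a → x = 1 := by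
        intro x hx hx'
        rcases lt_trichotomy x 1 with h2 | h2 | h2
        · exact absurd ((inv_gt hmul x h2).trans_le hx') h1
        · exact h2
        · exact absurd (h2.trans_le hx) h1
      rw [hone z hza hza', one_mul]
      exact hw

private theorem mem_Cs (hmul : ∀ z x y : P, x < y → z * x < z * y) (h : SubExp' P) (g : P)
    (hg : 1 < g) (z : P) : z ∈ Cs hmul h g hg ↔ ∀ m : ℕ, z ^ m < g ∧ z⁻¹ ^ m < g := Iff.rfl

private theorem Cs_convex (hmul : ∀ z x y : P, x < y → z * x < z * y) (h : SubExp' P) (g : P)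
    (hg : 1 < g) (x c : P) (hc : c ∈ Cs hmul h g hg) (h1 : 1 ≤ x) (h2 : x ≤ c) :
    x ∈ Cs hmul h g hg := by
  rcases h1.eq_or_lt with h3 | h3
  · rw [← h3]
    exact one_mem _
  · have hc1 : 1 < c := h3.trans_le h2
    exact sm_of_le hmul h g c x hc1 hc
      ⟨⟨1, by rwa [pow_one]⟩, 1, by rw [pow_one]; exact (inv_lt hmul x h3).le.trans hc1.le⟩

set_option linter.unusedSectionVars false

/-- The order modulo a convex subgroup. -/
private def Lt (C : Subgroup P) (u v : P) : Prop := ∀ c ∈ C, u * c < v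

section Convex

variable (hmul : ∀ z x y : P, x < y → z * x < z * y) (C : Subgroup P)
  (hconv : ∀ x c : P, c ∈ C → 1 ≤ x → x ≤ c → x ∈ C)

include hmul hconv

private theorem Lt_mul {u v : P} (h : Lt C u v) (z : P) : Lt C (z * u) (z * v) := fun c hc => by
  rw [mul_assoc]
  exact hmul z _ _ (h c hc)

private theorem Lt_right {u v : P} (h : Lt C u v) {c c' : P} (hc : c ∈ C) (hc' : c' ∈ C) :
    Lt C (u * c) (v * c') := by
  intro d hd
  rw [mul_assoc]
  have hcd : c * d ∈ C := mul_mem hc hd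
  by_contra hcon
  push Not at hcon
  -- `t = v⁻¹ * (u * (c * d))`
  set t := v⁻¹ * (u * (c * d)) with ht
  have h1 : t < 1 := by
    have := hmul v⁻¹ _ _ (h _ hcd)
    rwa [inv_mul_cancel] at this
  have h2 : c' ≤ t := by
    have := mulle hmul v⁻¹ _ _ hcon
    rwa [inv_mul_cancel_left] at this
  have h3 : 1 ≤ c'⁻¹ * t := by
    have := mulle hmul c'⁻¹ _ _ h2
    rwa [inv_mul_cancel] at this
  have h4 : c'⁻¹ * t ≤ c'⁻¹ := by
    have := mulle hmul c'⁻¹ _ _ h1.le
    rwa [mul_one] at this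
  have h5 := hconv _ _ (inv_mem hc') h3 h4
  have h6 : t ∈ C := by
    have := mul_mem hc' h5
    rwa [mul_inv_cancel_left] at this
  have h7 := h (c * d * t⁻¹) (mul_mem hcd (inv_mem h6))
  have h8 : u * (c * d * t⁻¹) = v := by rw [ht]; group
  rw [h8] at h7
  exact lt_irrefl _ h7

private theorem Lt_trans {u v w : P} (h1 : Lt C u v) (h2 : Lt C v w) : Lt C u w := fun c hc =>
  (h1 c hc).trans (by simpa using h2 1 (one_mem C))

private theorem Lt_irrefl (u : P) : ¬ Lt C u u := fun h => by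
  have := h 1 (one_mem C)
  rw [mul_one] at this
  exact lt_irrefl _ this

private theorem Lt_tri (hmax : ∀ x c c' : P, c ∈ C → c' ∈ C → x ≤ c → x⁻¹ ≤ c' → x ∈ C) {u v : P}
    (h1 : ¬ Lt C u v) (h2 : ¬ Lt C v u) : u⁻¹ * v ∈ C := by
  unfold Lt at h1 h2
  push Not at h1 h2
  obtain ⟨c, hc, h1⟩ := h1
  obtain ⟨c', hc', h2⟩ := h2
  refine hmax _ c c' hc hc' ?_ ?_
  · have := mulle hmul u⁻¹ _ _ h1
    rwa [inv_mul_cancel_left] at this
  · have := mulle hmul v⁻¹ _ _ h2
    rw [inv_mul_cancel_left] at this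
    rwa [mul_inv_rev, inv_inv]

private theorem Lt_neg (hmax : ∀ x c c' : P, c ∈ C → c' ∈ C → x ≤ c → x⁻¹ ≤ c' → x ∈ C) {u v w : P}
    (h1 : ¬ Lt C u v) (h2 : Lt C u w) : Lt C v w := by
  by_cases h3 : Lt C v u
  · exact Lt_trans hmul C hconv h3 h2
  · have h4 := Lt_tri hmul C hconv hmax h1 h3
    have h5 := Lt_right hmul C hconv h2 h4 (one_mem C)
    rwa [mul_inv_cancel_left, mul_one] at h5

end Convex

private theorem Cs_max (hmul : ∀ z x y : P, x < y → z * x < z * y) (h : SubExp' P) (g : P)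
    (hg : 1 < g) (x c c' : P) (hc : c ∈ Cs hmul h g hg) (hc' : c' ∈ Cs hmul h g hg) (h1 : x ≤ c)
    (h2 : x⁻¹ ≤ c') : x ∈ Cs hmul h g hg := by
  have ha : max c c' ∈ Cs hmul h g hg := by
    rcases max_choice c c' with h | h <;> rw [h] <;> assumption
  have h3 : x ≤ max c c' := h1.trans (le_max_left _ _)
  have h4 : x⁻¹ ≤ max c c' := h2.trans (le_max_right _ _)
  by_cases h5 : 1 < max c c'
  · exact sm_of_le hmul h g _ x h5 ha ⟨⟨1, by rwa [pow_one]⟩, 1, by rwa [pow_one]⟩
  · rcases lt_trichotomy x 1 with h6 | h6 | h6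
    · exact absurd ((inv_gt hmul x h6).trans_le h4) h5
    · rw [h6]
      exact one_mem _
    · exact absurd (h6.trans_le h3) h5

/-- Powers of a positive element outside `C` are cofinal. -/
private theorem cofinal (hmul : ∀ z x y : P, x < y → z * x < z * y) (h : SubExp' P) (g : P)
    (hg : 1 < g) (htop : D hmul h g hg = ⊤) (z : P) (hz : 1 < z) (hzC : z ∉ Cs hmul h g hg)
    (w : P) : ∃ n : ℕ, w < z ^ n := by
  have h1 : ∃ m : ℕ, g ≤ z ^ m := by
    by_contra hcon
    push Not at hcon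
    refine hzC fun m => ⟨hcon m, ?_⟩
    have h2 : z⁻¹ ^ m ≤ 1 := by
      have := mulle hmul (z ^ m)⁻¹ _ _ (one_le_pow' hmul z hz m)
      rwa [inv_mul_cancel, mul_one, ← inv_pow] at this
    exact h2.trans_lt hg
  obtain ⟨m, hm⟩ := h1
  have h2 : g ∈ D hmul h z hz :=
    ⟨⟨m, hm⟩, 0, by rw [pow_zero]; exact (inv_lt hmul g hg).le⟩
  have h3 : w ∈ D hmul h g hg := by rw [htop]; trivial
  obtain ⟨k, hk⟩ := h3.1
  obtain ⟨l, hl⟩ := ((mem_D hmul h z hz _).1 (pow_mem h2 k)).1
  exact ⟨l + 1, (hk.trans hl).trans_lt (lt_pow hmul z hz l)⟩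

private theorem Cs_normal (hmul : ∀ z x y : P, x < y → z * x < z * y) (h : SubExp' P) (g : P)
    (hg : 1 < g) (htop : D hmul h g hg = ⊤) : (Cs hmul h g hg).Normal := by
  set C := Cs hmul h g hg with hC
  have hconv : ∀ x c : P, c ∈ C → 1 ≤ x → x ≤ c → x ∈ C := fun x c hc h1 h2 =>
    Cs_convex hmul h g hg x c hc h1 h2
  have hmax : ∀ x c c' : P, c ∈ C → c' ∈ C → x ≤ c → x⁻¹ ≤ c' → x ∈ C :=
    fun x c c' hc hc' h1 h2 => Cs_max hmul h g hg x c c' hc hc' h1 h2
  have hCg : ∀ c ∈ C, c < g := fun c hc => by simpa using (hc 1).1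
  -- the main step
  have main : ∀ c ∈ C, ∀ x : P, 1 < x⁻¹ * c * x → x⁻¹ * c * x ∈ C := by
    intro c hc x hy1
    by_contra hy
    have hcof : ∀ w : P, ∃ n : ℕ, w < c ^ n * x := by
      intro w
      obtain ⟨n, hn⟩ := cofinal hmul h g hg htop _ hy1 hy (x⁻¹ * w)
      refine ⟨n, ?_⟩
      have h1 := hmul x _ _ hn
      have h2 : x * (x⁻¹ * c * x) ^ n = c ^ n * x := by
        have := conj_pow (a := x⁻¹) (b := c) (i := n)
        rw [inv_inv] at this
        rw [this]
        group
      rwa [mul_inv_cancel_left, h2] at h1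
    have hxC : x ∉ C := fun hx => hy (mul_mem (mul_mem (inv_mem hx) hc) hx)
    have hx1 : 1 < x := by
      by_contra hcon
      push Not at hcon
      obtain ⟨n, hn⟩ := hcof g
      have h1 := mulle hmul (c ^ n) _ _ hcon
      rw [mul_one] at h1
      exact absurd (hn.trans_le h1) (not_lt.2 (hCg _ (pow_mem hc n)).le)
    have h1x : Lt C 1 x := by
      intro c' hc'
      rw [one_mul]
      by_contra hcon
      push Not at hcon
      exact hxC (hconv x c' hc' hx1.le hcon)
    have hmulg : ∀ u : P, Lt C u (u * g) := fun u c' hc' => hmul u _ _ (hCg c' hc')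
    set k := x * g with hk
    have hxk : Lt C x k := hmulg x
    obtain ⟨N, hN⟩ := hcof (max (k * x * g) (x * g))
    have hN1 : Lt C (k * x) (c ^ N * x) := fun c' hc' =>
      ((hmulg (k * x) c' hc').trans_le (le_max_left _ _)).trans hN
    have hN2 : Lt C x (c ^ N * x) := fun c' hc' =>
      ((hmulg x c' hc').trans_le (le_max_right _ _)).trans hN
    set f := (c ^ N)⁻¹ with hf
    have hfC : f ∈ C := inv_mem (pow_mem hc N)
    have hfx : Lt C (f * x) x := by
      have := Lt_mul hmul C hconv hN2 f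
      rwa [hf, inv_mul_cancel_left] at this
    have hwx : Lt C (f * k * x) x := by
      have := Lt_mul hmul C hconv hN1 f
      rwa [hf, inv_mul_cancel_left, ← hf, ← mul_assoc] at this
    have h1k : Lt C 1 k := Lt_trans hmul C hconv h1x hxk
    -- `f u ⊲ 1` implies `u ⊲ 1`
    have hf1 : ∀ u : P, Lt C (f * u) 1 → Lt C u 1 := by
      intro u hu
      have h2 := Lt_mul hmul C hconv hu f⁻¹
      rw [inv_mul_cancel_left] at h2
      have h3 := Lt_right hmul C hconv h2 (one_mem C) hfC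
      rwa [mul_one, mul_one, inv_mul_cancel] at h3
    refine lo_pp h f (f * k) 1 {u | ¬ Lt C u 1 ∧ Lt C u x} ⟨Lt_irrefl hmul C hconv 1, h1x⟩ ?_ ?_ ?_
    · rintro u ⟨hu1, hu2⟩
      exact ⟨fun h2 => hu1 (hf1 u h2),
        Lt_trans hmul C hconv (Lt_mul hmul C hconv hu2 f) hfx⟩
    · rintro u ⟨hu1, hu2⟩
      refine ⟨fun h2 => ?_, Lt_trans hmul C hconv (Lt_mul hmul C hconv hu2 (f * k)) hwx⟩
      rw [mul_assoc] at h2
      have h3 := hf1 _ h2
      have h4 := Lt_trans hmul C hconv h3 h1k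
      have h5 := Lt_mul hmul C hconv h4 k⁻¹
      rw [inv_mul_cancel_left, inv_mul_cancel] at h5
      exact hu1 h5
    · rintro u ⟨hu1, hu2⟩ v ⟨hv1, hv2⟩ he
      have h2 : Lt C (f * u) (f * k) :=
        Lt_trans hmul C hconv (Lt_mul hmul C hconv hu2 f) (Lt_mul hmul C hconv hxk f)
      rw [he] at h2
      have h3 := Lt_mul hmul C hconv h2 (f * k)⁻¹
      rw [inv_mul_cancel_left, inv_mul_cancel] at h3
      exact hv1 h3
  have main2 : ∀ c ∈ C, ∀ x : P, x⁻¹ * c * x ∈ C := by
    intro c hc x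
    rcases lt_trichotomy (x⁻¹ * c * x) 1 with h1 | h1 | h1
    · have h2 := inv_gt hmul _ h1
      have h3 : (x⁻¹ * c * x)⁻¹ = x⁻¹ * c⁻¹ * x := by group
      rw [h3] at h2
      have h4 := main c⁻¹ (inv_mem hc) x h2
      rw [← h3] at h4
      exact inv_mem_iff.1 h4
    · rw [h1]
      exact one_mem C
    · exact main c hc x h1
  exact ⟨fun c hc x => by simpa using main2 c hc x⁻¹⟩

/-- The quotient by the infinitely small elements is abelian. -/
private theorem comm_le (hmul : ∀ z x y : P, x < y → z * x < z * y) (h : SubExp' P) (g : P)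
    (hg : 1 < g) (htop : D hmul h g hg = ⊤) : commutator P ≤ Cs hmul h g hg := by
  classical
  have hnorm := Cs_normal hmul h g hg htop
  set C := Cs hmul h g hg with hC
  have hconv : ∀ x c : P, c ∈ C → 1 ≤ x → x ≤ c → x ∈ C := fun x c hc h1 h2 =>
    Cs_convex hmul h g hg x c hc h1 h2
  have hmax : ∀ x c c' : P, c ∈ C → c' ∈ C → x ≤ c → x⁻¹ ≤ c' → x ∈ C :=
    fun x c c' hc hc' h1 h2 => Cs_max hmul h g hg x c c' hc hc' h1 h2
  have hCg : ∀ c ∈ C, c < g := fun c hc => by simpa using (hc 1).1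
  let r : P ⧸ C → P ⧸ C → Prop := fun q q' => Lt C q.out q'.out
  have hr : ∀ u v : P, r (u : P ⧸ C) (v : P ⧸ C) ↔ Lt C u v := by
    intro u v
    obtain ⟨⟨c, hc⟩, h1⟩ := QuotientGroup.mk_out_eq_mul C u
    obtain ⟨⟨c', hc'⟩, h2⟩ := QuotientGroup.mk_out_eq_mul C v
    show Lt C _ _ ↔ _
    rw [h1, h2]
    constructor
    · intro h3
      have h4 := Lt_right hmul C hconv h3 (inv_mem hc) (inv_mem hc')
      rwa [mul_inv_cancel_right, mul_inv_cancel_right] at h4
    · intro h3
      exact Lt_right hmul C hconv h3 hc hc'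
  have : IsStrictTotalOrder (P ⧸ C) r :=
    { trichotomous := fun q q' h1 h2 => by
        have h3 := Lt_tri hmul C hconv hmax h1 h2
        rw [← QuotientGroup.out_eq' q, ← QuotientGroup.out_eq' q']
        exact QuotientGroup.eq.2 h3
      irrefl := fun q => Lt_irrefl hmul C hconv _
      trans := fun _ _ _ h1 h2 => Lt_trans hmul C hconv h1 h2 }
  let _ : LinearOrder (P ⧸ C) := linearOrderOfSTO r
  have hlt : ∀ u v : P, (u : P ⧸ C) < (v : P ⧸ C) ↔ Lt C u v := hr
  have hcomm : ∀ a b : P ⧸ C, a * b = b * a := by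
    refine lo_hoelder ?_ ?_
    · intro z x y
      induction z using QuotientGroup.induction_on
      induction x using QuotientGroup.induction_on
      induction y using QuotientGroup.induction_on
      intro hxy
      rw [← QuotientGroup.mk_mul, ← QuotientGroup.mk_mul, hlt]
      exact Lt_mul hmul C hconv ((hlt _ _).1 hxy) _
    · intro a b
      induction a using QuotientGroup.induction_on with | _ z
      induction b using QuotientGroup.induction_on with | _ w
      intro hz
      rw [← QuotientGroup.mk_one, hlt] at hz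
      have hz1 : 1 < z := by simpa using hz 1 (one_mem C)
      have hzC : z ∉ C := fun hzC => by
        have := hz z hzC
        rw [one_mul] at this
        exact lt_irrefl _ this
      obtain ⟨n, hn⟩ := cofinal hmul h g hg htop z hz1 hzC (w * g)
      refine ⟨n, ?_⟩
      rw [← QuotientGroup.mk_pow, hlt]
      intro c hc
      exact (hmul w _ _ (hCg c hc)).trans hn
  rw [commutator_def, Subgroup.commutator_le]
  intro a _ b _
  have h1 := hcomm (a : P ⧸ C) (b : P ⧸ C)
  rw [← QuotientGroup.eq_one_iff, commutatorElement_def, QuotientGroup.mk_mul,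
    QuotientGroup.mk_mul, QuotientGroup.mk_mul, QuotientGroup.mk_inv, QuotientGroup.mk_inv, h1]
  group

end

/-- A non-trivial finitely generated left ordered group of subexponential growth is not perfect. -/
theorem lo_not_perfect {P : Type} [Group P] (hfg : Group.FG P) (h : SubExp' P)
    (lt : P → P → Prop) (htot : ∀ x y, lt x y ∨ x = y ∨ lt y x) (hirr : ∀ x, ¬ lt x x)
    (htr : ∀ x y z, lt x y → lt y z → lt x z) (hinv : ∀ z x y, lt x y → lt (z * x) (z * y))
    (hne : Nontrivial P) : commutator P ≠ ⊤ := by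
  classical
  have : IsStrictTotalOrder P lt :=
    { trichotomous := fun x y h1 h2 => ((htot x y).resolve_left h1).resolve_right h2
      irrefl := hirr
      trans := htr }
  let _ : LinearOrder P := linearOrderOfSTO lt
  have hmul : ∀ z x y : P, x < y → z * x < z * y := hinv
  obtain ⟨S, hS⟩ := hfg.out
  -- the largest generator
  have hSne : ∃ s ∈ S, s ≠ 1 := by
    by_contra hcon
    push Not at hcon
    have h1 : Subgroup.closure (S : Set P) ≤ ⊥ := by
      rw [Subgroup.closure_le]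
      intro s hs
      exact hcon s hs
    rw [hS] at h1
    obtain ⟨x, hx⟩ := exists_ne (1 : P)
    exact hx (Subgroup.mem_bot.1 (h1 (Subgroup.mem_top x)))
  obtain ⟨s, hs, hs1⟩ := hSne
  obtain ⟨g, hgS, hgmax⟩ := (S ∪ S.image (·⁻¹)).exists_max_image id
    ⟨s, Finset.mem_union_left _ hs⟩
  have h1 : ∀ x ∈ S, x ≤ g ∧ x⁻¹ ≤ g := fun x hx =>
    ⟨hgmax x (Finset.mem_union_left _ hx),
      hgmax x⁻¹ (Finset.mem_union_right _ (Finset.mem_image_of_mem _ hx))⟩
  have hg : 1 < g := by
    rcases lt_trichotomy s 1 with h2 | h2 | h2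
    · exact (inv_gt hmul s h2).trans_le (h1 s hs).2
    · exact absurd h2 hs1
    · exact h2.trans_le (h1 s hs).1
  have htop : D hmul h g hg = ⊤ := by
    rw [eq_top_iff, ← hS, Subgroup.closure_le]
    intro x hx
    exact ⟨⟨1, by rw [pow_one]; exact (h1 x hx).1⟩, 1, by rw [pow_one]; exact (h1 x hx).2⟩
  intro hP
  have h2 := comm_le hmul h g hg htop
  rw [hP] at h2
  have h3 : g ∈ Cs hmul h g hg := h2 (Subgroup.mem_top g)
  have h4 := (h3 1).1
  rw [pow_one] at h4
  exact lt_irrefl _ h4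

end Pool.Agent.Helper98.RS
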