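import Pool.Agent.Helper98.RS.C2

/-!
# The derived series of groups with small growth: auxiliary results
-/

set_option autoImplicit false

open scoped Pointwise

namespace Pool.Agent.Helper98.RS

/-- All terms of the derived series are finitely generated. -/
theorem fg_derived {G : Type} [Group G] (hfg : Group.FG G) (h : SubExp' G) (k : ℕ) :
    (derivedSeries G k).FG := by
  induction k with
  | zero =>
    rw [derivedSeries_zero]
    exact Group.fg_def.1 hfg
  | succ k ih =>
    have h1 : Group.FG (derivedSeries G k) := (Group.fg_iff_subgroup_fg _).2 ih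
    have h2 : SubExp' (derivedSeries G k) :=
      Pool.Agent.Helper41.Gap.subexp_of_injective _ (derivedSeries G k).subtype_injective h
    have h3 := fg_commutator h1 h2
    have h4 : (commutator (derivedSeries G k)).map (derivedSeries G k).subtype =
        derivedSeries G (k + 1) := by
      rw [derivedSeries_succ, Subgroup.map_subtype_commutator]
    rw [← h4]
    exact Pool.Agent.Helper41.Gap.tb_fg_map _ h3

/-- One step of the stabilisation of the derived series. -/
theorem perf_step {G : Type} [Group G] (D A B : Subgroup G) [D.Normal] [A.Normal] [B.Normal]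
    (hAA : ⁅A, A⁆ ≤ B) (hAD : A ≤ D) (hD : D ≤ ⁅D, D⁆ ⊔ A) :
    ⁅D, D⁆ ≤ ⁅⁅D, D⁆, ⁅D, D⁆⁆ ⊔ B := by
  set X : Subgroup G := ⁅⁅D, D⁆, ⁅D, D⁆⁆ ⊔ B with hX
  have hXn : X.Normal := inferInstance
  set φ := QuotientGroup.mk' X with hφ
  have hker : φ.ker = X := QuotientGroup.ker_mk' X
  have hle : ∀ K : Subgroup G, K.map φ = ⊥ ↔ K ≤ X := fun K => by
    rw [Subgroup.map_eq_bot_iff, hker]
  rw [← hle, Subgroup.map_commutator]
  set Dq := D.map φ with hDq
  set Aq := A.map φ with hAq
  set E := ⁅Dq, Dq⁆ with hE
  have hEm : E = (⁅D, D⁆).map φ := by rw [hE, hDq, Subgroup.map_commutator]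
  have hDEA : Dq = E ⊔ Aq := by
    apply le_antisymm
    · rw [hEm, hAq, hDq, ← Subgroup.map_sup]
      exact Subgroup.map_mono hD
    · have h1 : E ≤ Dq := by
        rw [hEm]
        exact Subgroup.map_mono (Subgroup.commutator_le_left D D)
      exact sup_le h1 (Subgroup.map_mono hAD)
  have hEE : ⁅E, E⁆ = ⊥ := by
    rw [hEm, ← Subgroup.map_commutator, hle]
    exact le_sup_left
  have hAAq : ⁅Aq, Aq⁆ = ⊥ := by
    rw [hAq, ← Subgroup.map_commutator, hle]
    exact hAA.trans le_sup_right
  have hADE : ⁅Aq, Dq⁆ ≤ E := Subgroup.commutator_mono (Subgroup.map_mono hAD) le_rfl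
  have hADA : ⁅Aq, Dq⁆ ≤ Aq := by
    rw [hAq, hDq, ← Subgroup.map_commutator]
    exact Subgroup.map_mono (Subgroup.commutator_le_left A D)
  have hc : ⁅Aq, Dq⁆ ≤ Subgroup.centralizer (Dq : Set _) := by
    have h1 : Dq ≤ Subgroup.centralizer ((⁅Aq, Dq⁆ : Subgroup (G ⧸ X)) : Set (G ⧸ X)) := by
      conv_lhs => rw [hDEA]
      refine sup_le ?_ ?_
      · exact (Subgroup.commutator_eq_bot_iff_le_centralizer.1 hEE).trans
          (Subgroup.centralizer_le hADE)
      · exact (Subgroup.commutator_eq_bot_iff_le_centralizer.1 hAAq).trans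
          (Subgroup.centralizer_le hADA)
    exact Subgroup.le_centralizer_iff.1 h1
  have hc1 : ⁅⁅Aq, Dq⁆, Dq⁆ = ⊥ := Subgroup.commutator_eq_bot_iff_le_centralizer.2 hc
  have hEA : ⁅E, Aq⁆ = ⊥ := by
    rw [hE]
    refine Subgroup.commutator_commutator_eq_bot_of_rotate ?_ hc1
    rw [Subgroup.commutator_comm Dq Aq]
    exact hc1
  have hEC : E ≤ Subgroup.centralizer (Dq : Set _) := by
    have h1 : Dq ≤ Subgroup.centralizer (E : Set _) := by
      conv_lhs => rw [hDEA]
      refine sup_le (Subgroup.commutator_eq_bot_iff_le_centralizer.1 hEE) ?_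
      exact Subgroup.commutator_eq_bot_iff_le_centralizer.1
        ((Subgroup.commutator_comm Aq E).trans hEA)
    exact Subgroup.le_centralizer_iff.1 h1
  have hAC : Aq ≤ Subgroup.centralizer (Dq : Set _) := by
    have h1 : Dq ≤ Subgroup.centralizer (Aq : Set _) := by
      conv_lhs => rw [hDEA]
      exact sup_le (Subgroup.commutator_eq_bot_iff_le_centralizer.1 hEA)
        (Subgroup.commutator_eq_bot_iff_le_centralizer.1 hAAq)
    exact Subgroup.le_centralizer_iff.1 h1
  have hDC : Dq ≤ Subgroup.centralizer (Dq : Set _) := by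
    conv_lhs => rw [hDEA]
    exact sup_le hEC hAC
  exact Subgroup.commutator_eq_bot_iff_le_centralizer.2 hDC


private theorem lcs_normal {G : Type} [Group G] (F : Subgroup G) [F.Normal] (i : ℕ) :
    (F.lowerCentralSeries i).Normal := by
  induction i with
  | zero => rw [Subgroup.lowerCentralSeries_zero]; infer_instance
  | succ i ih => rw [Subgroup.lowerCentralSeries_succ]; infer_instance

/-- In a virtually nilpotent group the derived series becomes stationary. -/
theorem stab {G : Type} [Group G] (F : Subgroup G) [F.Normal] (hFi : F.FiniteIndex)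
    (hF : Group.IsNilpotent F) : ∃ k, derivedSeries G (k + 1) = derivedSeries G k := by
  obtain ⟨c, hc⟩ := (Subgroup.isNilpotent_iff_lowerCentralSeries F).1 hF
  have key : ∀ i, ∃ n, derivedSeries G n ≤ derivedSeries G (n + 1) ⊔ F.lowerCentralSeries i := by
    intro i
    induction i with
    | zero =>
      have hfin : Finite (G ⧸ F) := Subgroup.finite_quotient_of_finiteIndex
      let a : ℕ →o (Subgroup (G ⧸ F))ᵒᵈ :=
        ⟨fun n => OrderDual.toDual ((derivedSeries G n).map (QuotientGroup.mk' F)), fun m n hmn =>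
          Subgroup.map_mono (derivedSeries_antitone G hmn)⟩
      obtain ⟨n, hn⟩ := WellFoundedGT.monotone_chain_condition a
      refine ⟨n, ?_⟩
      have h1 : (derivedSeries G n).map (QuotientGroup.mk' F) =
          (derivedSeries G (n + 1)).map (QuotientGroup.mk' F) := hn (n + 1) (Nat.le_succ n)
      have h2 : derivedSeries G n ≤
          ((derivedSeries G (n + 1)).map (QuotientGroup.mk' F)).comap (QuotientGroup.mk' F) := by
        rw [← h1]
        exact Subgroup.le_comap_map _ _
      rw [Subgroup.comap_map_eq, QuotientGroup.ker_mk'] at h2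
      exact h2
    | succ i ih =>
      obtain ⟨n, hn⟩ := ih
      have := lcs_normal F i
      have := lcs_normal F (i + 1)
      refine ⟨n + 1, ?_⟩
      have h1 := perf_step (derivedSeries G n) (derivedSeries G n ⊓ F.lowerCentralSeries i)
        (F.lowerCentralSeries (i + 1)) ?_ inf_le_left ?_
      · rw [derivedSeries_succ G (n + 1), derivedSeries_succ G n]
        exact h1
      · rw [Subgroup.lowerCentralSeries_succ]
        exact Subgroup.commutator_mono inf_le_right
          (inf_le_right.trans (F.lowerCentralSeries_antitone (Nat.zero_le i)))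
      · intro d hd
        have h2 := hn hd
        rw [Subgroup.mem_sup_of_normal_right] at h2
        obtain ⟨y, hy, z, hz, hyz⟩ := h2
        have hy' : y ∈ derivedSeries G n := derivedSeries_antitone G (Nat.le_succ n) hy
        have hz' : z ∈ derivedSeries G n := by
          have : z = y⁻¹ * d := by rw [← hyz]; group
          rw [this]
          exact mul_mem (inv_mem hy') hd
        rw [← hyz]
        exact Subgroup.mul_mem_sup (by rw [derivedSeries_succ] at hy; exact hy) ⟨hz', hz⟩
  obtain ⟨n, hn⟩ := key c
  rw [hc, sup_bot_eq] at hn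
  exact ⟨n, le_antisymm (derivedSeries_antitone G (Nat.le_succ n)) hn⟩

private theorem finite_homs' {G K : Type} [Group G] [Group K] [Finite K] (hfg : Group.FG G) :
    Finite (G →* K) := by
  obtain ⟨n, S, hSc, hS⟩ := Group.fg_iff'.1 hfg
  refine Finite.of_injective (fun f : G →* K => fun s : S => f s) ?_
  intro f g h
  apply MonoidHom.eq_of_eqOn_dense hS
  intro x hx
  exact congrFun h ⟨x, hx⟩

/-- A finitely generated virtually nilpotent normal subgroup contains a nilpotent subgroup of finite
index which is normal in the whole group. -/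
private theorem char_nil {G : Type} [Group G] (W : Subgroup G) [W.Normal] (hWfg : W.FG)
    (hW : ∃ H : Subgroup W, H.FiniteIndex ∧ Group.IsNilpotent H) :
    ∃ R : Subgroup G, R.Normal ∧ R ≤ W ∧ R.relIndex W ≠ 0 ∧ Group.IsNilpotent R := by
  obtain ⟨H, hHf, hHn⟩ := hW
  have hWfg' : Group.FG W := (Group.fg_iff_subgroup_fg _).2 hWfg
  have hfin : Finite (W →* Equiv.Perm (Fin H.index)) := finite_homs' hWfg'
  set R0 : Subgroup W := ⨅ f : W →* Equiv.Perm (Fin H.index), f.ker with hR0
  have hR0f : R0.FiniteIndex := Subgroup.finiteIndex_iInf fun f => inferInstance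
  have hR0H : R0 ≤ H := by
    let e : W ⧸ H ≃ Fin H.index := by
      have : Finite (W ⧸ H) := Subgroup.finite_quotient_of_finiteIndex
      exact Finite.equivFinOfCardEq rfl
    let f : W →* Equiv.Perm (Fin H.index) :=
      (e.permCongrHom.toMonoidHom).comp (MulAction.toPermHom W (W ⧸ H))
    have hk : f.ker ≤ H := by
      intro x hx
      have h1 : (MulAction.toPermHom W (W ⧸ H)) x = 1 := by
        apply e.permCongrHom.injective
        rw [map_one]
        exact hx
      have h2 : x ∈ (MulAction.toPermHom W (W ⧸ H)).ker := h1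
      rw [← Subgroup.normalCore_eq_ker] at h2
      exact H.normalCore_le h2
    exact (iInf_le _ f).trans hk
  refine ⟨R0.map W.subtype, ?_, Subgroup.map_subtype_le _, ?_, ?_⟩
  · refine ⟨?_⟩
    rintro _ ⟨r, hr, rfl⟩ g
    refine ⟨MulAut.conjNormal g r, ?_, by simp⟩
    rw [SetLike.mem_coe, hR0, Subgroup.mem_iInf] at hr ⊢
    intro f
    exact hr (f.comp (MulAut.conjNormal g : MulAut W).toMonoidHom)
  · rw [Subgroup.relIndex, Subgroup.subgroupOf, Subgroup.comap_map_eq_self_of_injective
      W.subtype_injective]
    exact hR0f.index_ne_zero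
  · have h1 : Group.IsNilpotent R0 := by
      have : Group.IsNilpotent (R0.subgroupOf H) := inferInstance
      exact Group.nilpotent_of_mulEquiv (Subgroup.subgroupOfEquivOfLe hR0H)
    exact Group.nilpotent_of_mulEquiv (R0.equivMapOfInjective W.subtype W.subtype_injective)

private theorem cent_fin {Q : Type} [Group Q] (N : Subgroup Q) [N.Normal] [Finite N] :
    (Subgroup.centralizer (N : Set Q)).FiniteIndex := by
  have h1 : (MulAut.conjNormal : Q →* MulAut N).ker ≤ Subgroup.centralizer (N : Set Q) := by
    intro g hg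
    rw [Subgroup.mem_centralizer_iff]
    intro n hn
    have h2 : (MulAut.conjNormal g : MulAut N) ⟨n, hn⟩ = ⟨n, hn⟩ := by
      rw [MonoidHom.mem_ker.1 hg]
      rfl
    have h3 := congrArg Subtype.val h2
    rw [MulAut.conjNormal_apply] at h3
    have h4 : g * n * g⁻¹ = n := h3
    calc n * g = g * n * g⁻¹ * g := by rw [h4]
      _ = g * n := by group
  have : Finite (MulAut N) := DFunLike.finite _
  exact Subgroup.finiteIndex_of_le h1

/-- Virtually nilpotent-by-virtually nilpotent groups of subexponential growth are virtually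
nilpotent. -/
theorem vn_ext {G : Type} [Group G] (hfg : Group.FG G) (h : SubExp' G) (W : Subgroup G) [W.Normal]
    (hWfg : W.FG) (hW : ∃ H : Subgroup W, H.FiniteIndex ∧ Group.IsNilpotent H)
    (hQ : ∃ H : Subgroup (G ⧸ W), H.FiniteIndex ∧ Group.IsNilpotent H) :
    ∃ H : Subgroup G, H.FiniteIndex ∧ Group.IsNilpotent H := by
  obtain ⟨R, hRn, hRW, hRi, hRnil⟩ := char_nil W hWfg hW
  obtain ⟨K, hKf, hKn⟩ := hQ
  have hWq : Finite (W.map (QuotientGroup.mk' R)) := by
    apply Nat.finite_of_card_ne_zero
    rw [← Subgroup.relIndex_ker, QuotientGroup.ker_mk']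
    exact hRi
  have hCn : (W.map (QuotientGroup.mk' R)).Normal :=
    Subgroup.Normal.map inferInstance _ (QuotientGroup.mk'_surjective R)
  have hCf := cent_fin (W.map (QuotientGroup.mk' R))
  set C : Subgroup G := (Subgroup.centralizer ((W.map (QuotientGroup.mk' R) :
    Subgroup (G ⧸ R)) : Set (G ⧸ R))).comap (QuotientGroup.mk' R) with hC
  have hCf' : C.FiniteIndex := ⟨by
    rw [hC, Subgroup.index_comap_of_surjective _ (QuotientGroup.mk'_surjective R)]
    exact hCf.index_ne_zero⟩
  have hKf' : (K.comap (QuotientGroup.mk' W)).FiniteIndex := ⟨by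
    rw [Subgroup.index_comap_of_surjective _ (QuotientGroup.mk'_surjective W)]
    exact hKf.index_ne_zero⟩
  set G3 : Subgroup G := C ⊓ K.comap (QuotientGroup.mk' W) with hG3
  have hG3f : G3.FiniteIndex := inferInstance
  let L : Subgroup G3 := W.subgroupOf G3
  have hRs : Group.IsSolvable R := inferInstance
  have hKs : Group.IsSolvable K := inferInstance
  -- commutators of `L` lie in `R`
  have hLR : ∀ x ∈ commutator L, ((x : G3) : G) ∈ R := by
    have h1 : commutator L ≤ R.comap (G3.subtype.comp L.subtype) := by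
      rw [commutator_def, Subgroup.commutator_le]
      intro x _ y _
      have hx : ((x : G3) : G) ∈ C := x.1.2.1
      have hy : ((y : G3) : G) ∈ W := y.2
      rw [hC, Subgroup.mem_comap, Subgroup.mem_centralizer_iff] at hx
      have h2 := hx _ (Subgroup.mem_map_of_mem (QuotientGroup.mk' R) hy)
      rw [Subgroup.mem_comap, ← QuotientGroup.ker_mk' R, MonoidHom.mem_ker, map_commutatorElement,
        map_commutatorElement, commutatorElement_eq_one_iff_mul_comm]
      exact h2.symm
    exact fun x hx => h1 hx
  have hcs : Group.IsSolvable (commutator L) := by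
    let f : commutator L →* R :=
      { toFun := fun x => ⟨((x.1 : G3) : G), hLR x.1 x.2⟩
        map_one' := rfl
        map_mul' := fun _ _ => rfl }
    have hf : Function.Injective f := by
      intro x y hxy
      have h1 : ((f x : R) : G) = ((f y : R) : G) := by rw [hxy]
      exact Subtype.ext (Subtype.ext (Subtype.ext h1))
    exact Group.isSolvable_of_isSolvable_injective hf
  have hLs : Group.IsSolvable L := by
    refine Group.isSolvable_of_ker_le_range (commutator L).subtype (Abelianization.of (G := L)) ?_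
    rw [Abelianization.ker_of, Subgroup.range_subtype]
  have hG3s : Group.IsSolvable G3 := by
    let g : G3 →* K :=
      { toFun := fun x => ⟨QuotientGroup.mk' W x, x.2.2⟩
        map_one' := rfl
        map_mul' := fun _ _ => rfl }
    refine Group.isSolvable_of_ker_le_range L.subtype g ?_
    intro x hx
    rw [Subgroup.range_subtype]
    have h1 : QuotientGroup.mk' W (x : G) = 1 := congrArg Subtype.val (MonoidHom.mem_ker.1 hx)
    show (x : G) ∈ W
    rw [← QuotientGroup.ker_mk' W]
    exact h1
  have hG3fg : Group.FG G3 := inferInstance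
  obtain ⟨H, hHf, hHn⟩ := milnor_wolf hG3fg hG3s
    (Pool.Agent.Helper41.Gap.subexp_of_injective _ G3.subtype_injective h)
  refine ⟨H.map G3.subtype, ⟨?_⟩, ?_⟩
  · rw [Subgroup.index_map_subtype]
    exact Nat.mul_ne_zero hHf.index_ne_zero hG3f.index_ne_zero
  · exact Group.nilpotent_of_mulEquiv (H.equivMapOfInjective G3.subtype G3.subtype_injective)

end Pool.Agent.Helper98.RS
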