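import Pool.Agent.Helper94.RS4.FinalVN
import Pool.Agent.Helper98.RS.Perf
import Pool.Agent.Helper98.RS.LO

/-!
# RS6: the statement for all finitely generated groups
-/

set_option autoImplicit false

open scoped Pointwise

namespace Pool.Agent.Helper98.RS

private theorem all_finite {G : Type} [Group G] {S : Set G} (hS : S.Finite) (n : ℕ) :
    (({1} : Set G) ∪ S ∪ S⁻¹ : Set G).Finite ∧ ((({1} : Set G) ∪ S ∪ S⁻¹) ^ n).Finite := by
  have h1 : (({1} : Set G) ∪ S ∪ S⁻¹ : Set G).Finite := ((Set.finite_singleton 1).union hS).union hS.inv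
  refine ⟨h1, ?_⟩
  induction n with
  | zero => simp
  | succ n ih =>
    rw [pow_succ]
    exact ih.mul h1

/-- The growth bound passes to quotients. -/
private theorem all_quot {G Q : Type} [Group G] [Group Q] (f : G →* Q) (S : Set G) (hS : S.Finite)
    (n : ℕ) : Nat.card ↥((({1} : Set Q) ∪ f '' S ∪ (f '' S)⁻¹) ^ n) ≤
      Nat.card ↥((({1} : Set G) ∪ S ∪ S⁻¹) ^ n) := by
  have h1 : (({1} : Set Q) ∪ f '' S ∪ (f '' S)⁻¹) ^ n = f '' ((({1} : Set G) ∪ S ∪ S⁻¹) ^ n) := by
    rw [Set.image_pow, Set.image_union, Set.image_union, Set.image_singleton, map_one,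
      Set.image_inv]
  rw [h1]
  have h2 := (all_finite hS n).2
  have := h2.to_subtype
  exact Nat.card_image_le h2

theorem all_perfect {G : Type} [Group G]
    (hres : ∀ g : G, g ≠ 1 → ∃ (N : Subgroup G) (_ : N.Normal), g ∉ N ∧ Group.IsSolvable (G ⧸ N))
    (P : Subgroup G) (hP : P ≤ ⁅P, P⁆) : P = ⊥ := by
  have hd : ∀ n, P ≤ derivedSeries G n := by
    intro n
    induction n with
    | zero => rw [derivedSeries_zero]; exact le_top
    | succ n ih =>
      rw [derivedSeries_succ]
      exact hP.trans (Subgroup.commutator_mono ih ih)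
  rw [eq_bot_iff]
  intro g hg
  rw [Subgroup.mem_bot]
  by_contra hg1
  obtain ⟨N, hN, hgN, hs⟩ := hres g hg1
  obtain ⟨k, hk⟩ := (Group.isSolvable_def (G ⧸ N)).1 hs
  have h1 : QuotientGroup.mk' N g ∈ derivedSeries (G ⧸ N) k :=
    (map_derivedSeries_le_derivedSeries (QuotientGroup.mk' N) k)
      (Subgroup.mem_map_of_mem _ (hd k hg))
  rw [hk, Subgroup.mem_bot] at h1
  exact hgN ((QuotientGroup.eq_one_iff g).1 h1)

/-- Finitely generated groups of growth at most `exp (n ^ α)`, `α < 1 / 4`: the derived series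
becomes stationary after finitely many steps, and the corresponding quotient is virtually
nilpotent. -/
theorem all_main (G : Type) [Group G] (S : Set G) (hSf : S.Finite) (hS : Subgroup.closure S = ⊤)
    (α : ℝ) (hα : α < 1 / 4)
    (hgr : ∃ C : ℝ, 0 < C ∧ ∀ n : ℕ, (Nat.card ↥((({1} : Set G) ∪ S ∪ S⁻¹) ^ n) : ℝ) ≤
      C * Real.exp ((C * n) ^ α)) :
    (∃ k : ℕ, (derivedSeries G k).FG ∧ derivedSeries G (k + 1) = derivedSeries G k ∧
      ∃ H : Subgroup (G ⧸ derivedSeries G k), H.FiniteIndex ∧ Group.IsNilpotent H) ∧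
    ((∀ P : Subgroup G, P.FG → ⁅P, P⁆ = P →
        ∃ H : Subgroup P, H.FiniteIndex ∧ Group.IsNilpotent H) →
      ∃ H : Subgroup G, H.FiniteIndex ∧ Group.IsNilpotent H) := by
  have hfg : Group.FG G := by
    rw [Group.fg_iff]
    exact ⟨S, hS, hSf⟩
  have hsub : SubExp' G := by
    obtain ⟨C, hC, hgr⟩ := hgr
    have hα4 : max α 0 < 1 / 4 := max_lt hα (by norm_num)
    obtain ⟨β, hβ1, hβ2⟩ := _root_.exists_between hα4
    have hβ0 : 0 < β := (le_max_right _ _).trans_lt hβ1
    have hαβ : α < β := (le_max_left _ _).trans_lt hβ1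
    have hG : GB S β := by
      obtain ⟨n0, hn0⟩ := Pool.Agent.Helper94.RS4.fin_rpow C α β hC hβ0 hαβ
      exact ⟨n0, fun n hn => (hgr n).trans (hn0 n hn)⟩
    exact subexp_of_gb S hSf hS β (hβ2.trans (by norm_num)) hG
  -- the soluble residual
  set W : Subgroup G := ⨅ n, derivedSeries G n with hW
  have hWn : W.Normal := Subgroup.normal_iInf_normal fun n => inferInstance
  have hWle : ∀ n, W ≤ derivedSeries G n := fun n => iInf_le _ n
  have hker : (QuotientGroup.mk' W).ker = W := QuotientGroup.ker_mk' W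
  have hmap : ∀ n, derivedSeries (G ⧸ W) n = (derivedSeries G n).map (QuotientGroup.mk' W) :=
    fun n => (map_derivedSeries_eq (QuotientGroup.mk'_surjective W) n).symm
  have hback : ∀ n, ((derivedSeries G n).map (QuotientGroup.mk' W)).comap (QuotientGroup.mk' W) =
      derivedSeries G n := by
    intro n
    rw [Subgroup.comap_map_eq, hker, sup_eq_left]
    exact hWle n
  have hresQ : ∀ q : G ⧸ W, q ≠ 1 → ∃ (N : Subgroup (G ⧸ W)) (_ : N.Normal), q ∉ N ∧
      Group.IsSolvable ((G ⧸ W) ⧸ N) := by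
    intro q hq
    obtain ⟨g, rfl⟩ := QuotientGroup.mk'_surjective W q
    have hg : g ∉ W := fun h => hq ((QuotientGroup.eq_one_iff g).2 h)
    rw [hW, Subgroup.mem_iInf] at hg
    push Not at hg
    obtain ⟨n, hn⟩ := hg
    refine ⟨derivedSeries (G ⧸ W) n, inferInstance, ?_, ?_⟩
    · intro h
      apply hn
      rw [← hback n, Subgroup.mem_comap, ← hmap]
      exact h
    · rw [Group.isSolvable_def]
      refine ⟨n, ?_⟩
      rw [← map_derivedSeries_eq (QuotientGroup.mk'_surjective (derivedSeries (G ⧸ W) n)) n,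
        Subgroup.map_eq_bot_iff, QuotientGroup.ker_mk']
  have hQ : ∃ H : Subgroup (G ⧸ W), H.FiniteIndex ∧ Group.IsNilpotent H := by
    refine Pool.Agent.Helper94.RS4.final_vn (G ⧸ W) (QuotientGroup.mk' W '' S) (hSf.image _) ?_
      hresQ α hα ?_
    · rw [← MonoidHom.map_closure, hS, ← MonoidHom.range_eq_map, MonoidHom.range_eq_top]
      exact QuotientGroup.mk'_surjective W
    · obtain ⟨C, hC, hgr⟩ := hgr
      refine ⟨C, hC, fun n => le_trans ?_ (hgr n)⟩
      exact_mod_cast all_quot (QuotientGroup.mk' W) S hSf n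
  obtain ⟨k, hk⟩ : ∃ k, derivedSeries (G ⧸ W) (k + 1) = derivedSeries (G ⧸ W) k := by
    obtain ⟨H, hHf, hHn⟩ := hQ
    have h1 : Group.IsNilpotent H.normalCore := by
      have : Group.IsNilpotent (H.normalCore.subgroupOf H) := inferInstance
      exact Group.nilpotent_of_mulEquiv (Subgroup.subgroupOfEquivOfLe H.normalCore_le)
    exact stab H.normalCore inferInstance h1
  have hk0 : derivedSeries (G ⧸ W) k = ⊥ := by
    refine all_perfect hresQ _ ?_
    rw [← derivedSeries_succ, hk]
  have hWk : W = derivedSeries G k := by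
    refine le_antisymm (hWle k) ?_
    rw [hmap, Subgroup.map_eq_bot_iff, hker] at hk0
    exact hk0
  have hstab : derivedSeries G (k + 1) = derivedSeries G k := by
    refine le_antisymm (derivedSeries_antitone G (Nat.le_succ k)) ?_
    rw [← hWk]
    exact hWle (k + 1)
  have hQk : ∃ H : Subgroup (G ⧸ derivedSeries G k), H.FiniteIndex ∧ Group.IsNilpotent H := by
    have key : ∀ (W' : Subgroup G) [W'.Normal], W = W' →
        ∃ H : Subgroup (G ⧸ W'), H.FiniteIndex ∧ Group.IsNilpotent H := by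
      intro W' _ h
      subst h
      exact hQ
    exact key _ hWk
  refine ⟨⟨k, fg_derived hfg hsub k, hstab, hQk⟩, fun hP => ?_⟩
  have h1 := hP (derivedSeries G k) (fg_derived hfg hsub k) (by rw [← derivedSeries_succ, hstab])
  exact vn_ext hfg hsub (derivedSeries G k) (fg_derived hfg hsub k) h1 hQk

end Pool.Agent.Helper98.RS
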