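import Pool.Agent.Helper98.RS.Defs

set_option autoImplicit false

open scoped Pointwise

namespace Pool.Agent.Helper98.RS

variable {k : Type} [Field k] {H : Type} [Group H] {V : Type} [AddCommGroup V] [Module k V]

/-- invariant submodule -/
def A2inv (ρ : Representation k H V) (W : Submodule k V) : Prop := ∀ h, ∀ v ∈ W, ρ h v ∈ W

/-- irreducible invariant submodule -/
structure A2irr (ρ : Representation k H V) (I : Submodule k V) : Prop where
  inv : A2inv ρ I
  ne : I ≠ ⊥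
  min : ∀ J : Submodule k V, A2inv ρ J → J ≤ I → J = ⊥ ∨ J = I

theorem A2inv_inf {ρ : Representation k H V} {A B : Submodule k V} (hA : A2inv ρ A)
    (hB : A2inv ρ B) : A2inv ρ (A ⊓ B) := fun h v hv => ⟨hA h v hv.1, hB h v hv.2⟩

theorem A2inv_sup {ρ : Representation k H V} {A B : Submodule k V} (hA : A2inv ρ A)
    (hB : A2inv ρ B) : A2inv ρ (A ⊔ B) := by
  intro h v hv
  obtain ⟨a, ha, b, hb, rfl⟩ := Submodule.mem_sup.1 hv
  rw [map_add]
  exact Submodule.add_mem _ (Submodule.mem_sup_left (hA h a ha))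
    (Submodule.mem_sup_right (hB h b hb))

theorem A2inv_sSup {ρ : Representation k H V} {s : Set (Submodule k V)}
    (hs : ∀ h, ∀ A ∈ s, ∃ B ∈ s, A.map (ρ h) ≤ B) : A2inv ρ (sSup s) := by
  intro h v hv
  have h1 : sSup s ≤ (sSup s).comap (ρ h) := by
    apply sSup_le
    intro A hA
    obtain ⟨B, hB, hAB⟩ := hs h A hA
    rw [← Submodule.map_le_iff_le_comap]
    exact hAB.trans (le_sSup hB)
  exact h1 hv

/-- every nonzero invariant submodule contains an irreducible one -/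
theorem A2exists_irr [FiniteDimensional k V] (ρ : Representation k H V) (W : Submodule k V)
    (hW : A2inv ρ W) (h0 : W ≠ ⊥) : ∃ I, A2irr ρ I ∧ I ≤ W := by
  obtain ⟨I, ⟨hI1, hI2, hI3⟩, hI4⟩ := (wellFounded_lt (α := Submodule k V)).has_min
    {J | A2inv ρ J ∧ J ≠ ⊥ ∧ J ≤ W} ⟨W, hW, h0, le_rfl⟩
  refine ⟨I, ⟨hI1, hI2, ?_⟩, hI3⟩
  intro J hJ hJI
  by_cases hJ0 : J = ⊥
  · exact Or.inl hJ0
  · right
    by_contra hne
    exact hI4 J ⟨hJ, hJ0, hJI.trans hI3⟩ (lt_of_le_of_ne hJI hne)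

/-- if no proper invariant submodule contains all irreducible ones: complete reducibility -/
theorem A2cr_of_irr [FiniteDimensional k V] (ρ : Representation k H V)
    (h : ∀ W : Submodule k V, A2inv ρ W → W ≠ ⊤ → ∃ I, A2irr ρ I ∧ ¬ I ≤ W) : CR ρ := by
  intro W hW
  obtain ⟨W', ⟨h1, h2⟩, h3⟩ := (wellFounded_gt (α := Submodule k V)).has_min
    {J | A2inv ρ J ∧ Disjoint W J} ⟨⊥, fun h v hv => by
      rw [Submodule.mem_bot] at hv ⊢; rw [hv, map_zero], disjoint_bot_right⟩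
  refine ⟨W', h1, ⟨h2, ?_⟩⟩
  rw [codisjoint_iff]
  by_contra hne
  obtain ⟨I, hI, hIW⟩ := h (W ⊔ W') (A2inv_sup hW h1) hne
  have h4 : I ⊓ (W ⊔ W') = ⊥ := by
    rcases hI.min _ (A2inv_inf hI.inv (A2inv_sup hW h1)) inf_le_left with h5 | h5
    · exact h5
    · exact absurd (inf_eq_left.1 h5) hIW
  apply h3 (W' ⊔ I)
  · refine ⟨A2inv_sup h1 hI.inv, ?_⟩
    rw [Submodule.disjoint_def]
    intro x hx hx'
    obtain ⟨a, ha, i, hi, hai⟩ := Submodule.mem_sup.1 hx'
    have h5 : i ∈ I ⊓ (W ⊔ W') := by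
      refine ⟨hi, ?_⟩
      have : i = x - a := by rw [← hai]; abel
      rw [this]
      exact Submodule.sub_mem _ (Submodule.mem_sup_left hx) (Submodule.mem_sup_right ha)
    rw [h4, Submodule.mem_bot] at h5
    rw [h5, add_zero] at hai
    rw [← hai] at hx ⊢
    exact (Submodule.disjoint_def.1 h2) a hx ha
  · refine lt_of_le_of_ne le_sup_left ?_
    intro h5
    apply hIW
    rw [h5]
    exact le_sup_of_le_right le_sup_right

/-- converse -/
theorem A2irr_of_cr [FiniteDimensional k V] (ρ : Representation k H V) (hρ : CR ρ)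
    (W : Submodule k V) (hW : A2inv ρ W) (hne : W ≠ ⊤) : ∃ I, A2irr ρ I ∧ ¬ I ≤ W := by
  obtain ⟨W', h1, h2⟩ := hρ W hW
  have h3 : W' ≠ ⊥ := by
    rintro rfl
    exact hne (by simpa using h2.sup_eq_top)
  obtain ⟨I, hI, hIW⟩ := A2exists_irr ρ W' h1 h3
  refine ⟨I, hI, fun h => hI.ne ?_⟩
  rw [eq_bot_iff, ← h2.inf_eq_bot]
  exact le_inf h hIW

theorem cr_of_irr (ρ : Representation k H V) (h : Irr ρ) : CR ρ := by
  intro W hW
  rcases h.2 W hW with rfl | rfl
  · exact ⟨⊤, fun _ _ _ => trivial, isCompl_bot_top⟩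
  · exact ⟨⊥, fun h v hv => by rw [Submodule.mem_bot] at hv ⊢; rw [hv, map_zero],
      isCompl_top_bot⟩

/-- Clifford. -/
theorem cr_restrict [FiniteDimensional k V] (ρ : Representation k H V) (hρ : CR ρ)
    (K : Subgroup H) [hK : K.Normal] : CR (resrep ρ K) := by
  apply A2cr_of_irr
  intro W hW hne
  by_contra hcon
  push Not at hcon
  set s : Set (Submodule k V) := {I | A2irr (resrep ρ K) I} with hs
  have hsW : sSup s ≤ W := sSup_le fun I hI => hcon I hI
  have hinv : A2inv ρ (sSup s) := by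
    apply A2inv_sSup
    intro h A hA
    refine ⟨A.map (ρ h), ?_, le_rfl⟩
    have hcomp : ∀ (a b : H) (v : V), ρ a (ρ b v) = ρ (a * b) v := by
      intro a b v; rw [map_mul]; rfl
    have hid : ∀ v : V, ρ h⁻¹ (ρ h v) = v := by
      intro v; rw [hcomp, inv_mul_cancel, map_one]; rfl
    have hid' : ∀ v : V, ρ h (ρ h⁻¹ v) = v := by
      intro v; rw [hcomp, mul_inv_cancel, map_one]; rfl
    refine ⟨?_, ?_, ?_⟩
    · rintro κ _ ⟨v, hv, rfl⟩
      have hmem : h⁻¹ * κ * h ∈ K := by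
        simpa using hK.conj_mem κ κ.2 h⁻¹
      refine ⟨ρ (h⁻¹ * κ * h) v, hA.inv ⟨_, hmem⟩ v hv, ?_⟩
      change ρ h (ρ (h⁻¹ * κ * h) v) = ρ κ (ρ h v)
      rw [hcomp, hcomp]
      congr 2
      group
    · intro h0
      apply hA.ne
      rw [eq_bot_iff]
      intro v hv
      have : ρ h v ∈ A.map (ρ h) := ⟨v, hv, rfl⟩
      rw [h0, Submodule.mem_bot] at this
      rw [Submodule.mem_bot, ← hid v, this, map_zero]
    · intro J hJ hJA
      have hJ' : A2inv (resrep ρ K) (J.map (ρ h⁻¹)) := by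
        rintro κ _ ⟨v, hv, rfl⟩
        have hmem : h * κ * h⁻¹ ∈ K := hK.conj_mem κ κ.2 h
        refine ⟨ρ (h * κ * h⁻¹) v, hJ ⟨_, hmem⟩ v hv, ?_⟩
        change ρ h⁻¹ (ρ (h * κ * h⁻¹) v) = ρ κ (ρ h⁻¹ v)
        rw [hcomp, hcomp]
        congr 2
        group
      have hle : J.map (ρ h⁻¹) ≤ A := by
        rintro _ ⟨v, hv, rfl⟩
        obtain ⟨w, hw, rfl⟩ := hJA hv
        rw [hid]
        exact hw
      rcases hA.min _ hJ' hle with h1 | h1
      · left
        rw [eq_bot_iff]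
        intro v hv
        have : ρ h⁻¹ v ∈ J.map (ρ h⁻¹) := ⟨v, hv, rfl⟩
        rw [h1, Submodule.mem_bot] at this
        rw [Submodule.mem_bot, ← hid' v, this, map_zero]
      · right
        apply le_antisymm hJA
        rw [← h1]
        rintro _ ⟨w, ⟨v, hv, rfl⟩, rfl⟩
        rw [hid']
        exact hv
  have hne' : sSup s ≠ ⊤ := fun h => hne (top_le_iff.1 (h ▸ hsW))
  obtain ⟨I, hI, hIs⟩ := A2irr_of_cr ρ hρ (sSup s) hinv hne'
  have h4 : I ⊓ sSup s = ⊥ := by
    rcases hI.min _ (A2inv_inf hI.inv hinv) inf_le_left with h5 | h5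
    · exact h5
    · exact absurd (inf_eq_left.1 h5) hIs
  obtain ⟨J, hJ, hJI⟩ := A2exists_irr (resrep ρ K) I (fun κ v hv => hI.inv κ v hv) hI.ne
  apply hJ.ne
  rw [eq_bot_iff, ← h4]
  exact le_inf hJI (le_sSup hJ)

theorem cr_sub (ρ : Representation k H V) (hρ : CR ρ) (W : Submodule k V)
    (hW : ∀ h, ∀ v ∈ W, ρ h v ∈ W) : CR (subrep ρ W hW) := by
  intro A hA
  obtain ⟨C, hC, hAC⟩ := hρ (A.map W.subtype) (by
    rintro h _ ⟨a, ha, rfl⟩
    exact ⟨subrep ρ W hW h a, hA h a ha, rfl⟩)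
  refine ⟨C.comap W.subtype, ?_, ?_, ?_⟩
  · intro h v hv
    exact hC h _ hv
  · rw [Submodule.disjoint_def]
    intro x hx hx'
    have h1 := (Submodule.disjoint_def.1 hAC.disjoint) (x : V) ⟨x, hx, rfl⟩ hx'
    exact Subtype.ext h1
  · rw [codisjoint_iff, eq_top_iff]
    intro x _
    have hx : (x : V) ∈ A.map W.subtype ⊔ C := by rw [hAC.sup_eq_top]; trivial
    obtain ⟨_, ⟨a, ha, rfl⟩, c, hc, hac⟩ := Submodule.mem_sup.1 hx
    have hcW : c ∈ W := by
      have : c = (x : V) - (a : V) := by rw [← hac]; simp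
      rw [this]
      exact W.sub_mem x.2 a.2
    refine Submodule.mem_sup.2 ⟨a, ha, ⟨c, hcW⟩, hc, ?_⟩
    exact Subtype.ext hac

/-- An equivariant quotient of a completely reducible representation is completely reducible. -/
theorem cr_map {U : Type} [AddCommGroup U] [Module k U] (ρ : Representation k H V) (hρ : CR ρ)
    (σ : Representation k H U) (f : V →ₗ[k] U) (hf : Function.Surjective f)
    (hc : ∀ h v, f (ρ h v) = σ h (f v)) : CR σ := by
  intro W hW
  obtain ⟨C, hC, hWC⟩ := hρ (W.comap f) (by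
    intro h v hv
    rw [Submodule.mem_comap, hc]
    exact hW h _ hv)
  refine ⟨C.map f, ?_, ?_, ?_⟩
  · rintro h _ ⟨c, hcC, rfl⟩
    exact ⟨ρ h c, hC h c hcC, hc h c⟩
  · rw [Submodule.disjoint_def]
    rintro _ hx ⟨c, hcC, rfl⟩
    have h1 := (Submodule.disjoint_def.1 hWC.disjoint) c hx hcC
    rw [h1, map_zero]
  · rw [codisjoint_iff, eq_top_iff]
    intro x _
    obtain ⟨v, rfl⟩ := hf x
    have hv : v ∈ W.comap f ⊔ C := by rw [hWC.sup_eq_top]; trivial
    obtain ⟨a, ha, c, hcC, rfl⟩ := Submodule.mem_sup.1 hv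
    rw [map_add]
    exact Submodule.add_mem _ (Submodule.mem_sup_left ha) (Submodule.mem_sup_right ⟨c, hcC, rfl⟩)

theorem cr_irr [FiniteDimensional k V] (ρ : Representation k H V) (hρ : CR ρ) (g : H)
    (hg : ρ g ≠ 1) : ∃ (W : Submodule k V) (hW : ∀ h, ∀ v ∈ W, ρ h v ∈ W),
      Irr (subrep ρ W hW) ∧ subrep ρ W hW g ≠ 1 := by
  by_contra hcon
  push Not at hcon
  apply hg
  have hfix : ∀ I, A2irr ρ I → ∀ v ∈ I, ρ g v = v := by
    intro I hI v hv
    have h1 : Irr (subrep ρ I hI.inv) := by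
      refine ⟨?_, ?_⟩
      · rw [Submodule.nontrivial_iff_ne_bot]; exact hI.ne
      · intro J hJ
        have h2 : A2inv ρ (J.map I.subtype) := by
          rintro h _ ⟨a, ha, rfl⟩
          exact ⟨subrep ρ I hI.inv h a, hJ h a ha, rfl⟩
        rcases hI.min _ h2 (Submodule.map_subtype_le I J) with h3 | h3
        · left
          rw [eq_bot_iff]
          intro x hx
          have h4 : (x : V) ∈ J.map I.subtype := ⟨x, hx, rfl⟩
          rw [h3, Submodule.mem_bot] at h4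
          rw [Submodule.mem_bot]
          exact Subtype.ext h4
        · right
          rw [eq_top_iff]
          intro x _
          have : (x : V) ∈ J.map I.subtype := by rw [h3]; exact x.2
          obtain ⟨y, hy, hyx⟩ := this
          have : y = x := Subtype.ext hyx
          rw [← this]
          exact hy
    have h2 := hcon I hI.inv h1
    have h3 := congrArg (fun φ => ((φ ⟨v, hv⟩ : I) : V)) h2
    exact h3
  set s : Set (Submodule k V) := {I | A2irr ρ I} with hs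
  have hinv : A2inv ρ (sSup s) := by
    apply A2inv_sSup
    intro h A hA
    refine ⟨A, hA, ?_⟩
    rintro _ ⟨v, hv, rfl⟩
    exact hA.inv h v hv
  have htop : sSup s = ⊤ := by
    by_contra hne
    obtain ⟨I, hI, hIs⟩ := A2irr_of_cr ρ hρ (sSup s) hinv hne
    exact hIs (le_sSup hI)
  have hle : sSup s ≤ LinearMap.ker (ρ g - 1) := by
    apply sSup_le
    intro I hI v hv
    rw [LinearMap.mem_ker, LinearMap.sub_apply, hfix I hI v hv]
    simp
  ext v
  have hv : v ∈ LinearMap.ker (ρ g - 1) := hle (by rw [htop]; trivial)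
  rw [LinearMap.mem_ker, LinearMap.sub_apply, sub_eq_zero] at hv
  exact hv

end Pool.Agent.Helper98.RS
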