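import Mathlib

/-!
# RS: definitions for the growth gap for residually soluble groups
-/

set_option autoImplicit false

open scoped Pointwise

namespace Pool.Agent.Helper98.RS

/-- Ball of radius `n` in the word metric. -/
def Bl {G : Type} [Group G] (S : Set G) (n : ℕ) : Set G := (({1} : Set G) ∪ S ∪ S⁻¹) ^ n

/-- The commutator of `x` with its conjugate by `z`. -/
def cc {G : Type} [Group G] (x z : G) : G := x⁻¹ * (z⁻¹ * x * z)⁻¹ * x * (z⁻¹ * x * z)

/-- Completely reducible representation. -/
def CR {k : Type} [Field k] {H : Type} [Group H] {V : Type} [AddCommGroup V] [Module k V]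
    (ρ : Representation k H V) : Prop :=
  ∀ W : Submodule k V, (∀ h, ∀ v ∈ W, ρ h v ∈ W) →
    ∃ W' : Submodule k V, (∀ h, ∀ v ∈ W', ρ h v ∈ W') ∧ IsCompl W W'

/-- Irreducible representation. -/
def Irr {k : Type} [Field k] {H : Type} [Group H] {V : Type} [AddCommGroup V] [Module k V]
    (ρ : Representation k H V) : Prop :=
  Nontrivial V ∧ ∀ W : Submodule k V, (∀ h, ∀ v ∈ W, ρ h v ∈ W) → W = ⊥ ∨ W = ⊤

/-- A class of groups closed under subgroups and quotients, consisting of soluble groups. -/
structure Cls (P : ∀ (H : Type) [Group H], Prop) : Prop where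
  of_inj : ∀ {H K : Type} [Group H] [Group K] (f : H →* K), Function.Injective f → P K → P H
  of_surj : ∀ {H K : Type} [Group H] [Group K] (f : H →* K), Function.Surjective f → P H → P K
  solv : ∀ {H : Type} [Group H], P H → Group.IsSolvable H

/-- The class of soluble groups. -/
def Sol (H : Type) [Group H] : Prop := Group.IsSolvable H

/-- The class of nilpotent groups. -/
def Nil (H : Type) [Group H] : Prop := Group.IsNilpotent H

/-- All finite permutation groups of degree at most `n` in the class have derived length at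
most `m`. -/
def PermDL (P : ∀ (H : Type) [Group H], Prop) (n m : ℕ) : Prop :=
  ∀ (H : Type) [Group H] [Finite H] (X : Type) [Finite X] [MulAction H X], P H →
    (∀ h : H, (∀ x : X, h • x = x) → h = 1) → Nat.card X ≤ n → derivedSeries H m = ⊥

/-- All finite completely reducible linear groups of degree at most `a` over the field with `p`
elements, in the class, have derived length at most `m`. -/
def LinDL (P : ∀ (H : Type) [Group H], Prop) (p a m : ℕ) : Prop :=
  ∀ [Fact p.Prime] (H : Type) [Group H] [Finite H] (V : Type) [AddCommGroup V] [Module (ZMod p) V]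
    [Finite V] (ρ : Representation (ZMod p) H V), P H → Function.Injective ρ → CR ρ →
    Module.finrank (ZMod p) V ≤ a → derivedSeries H m = ⊥

/-- The algebra of operators generated by a subgroup. -/
def alg {p : ℕ} [Fact p.Prime] {H : Type} [Group H] {V : Type} [AddCommGroup V] [Module (ZMod p) V]
    (ρ : Representation (ZMod p) H V) (A : Subgroup H) : Subalgebra (ZMod p) (Module.End (ZMod p) V) :=
  Algebra.adjoin (ZMod p) (ρ '' (A : Set H))

/-- A primitive quotient: `G / N` is a finite soluble group with a self centralising minimal normal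
subgroup `M / N` of order `p ^ d`. -/
structure Prim {G : Type} [Group G] (p d : ℕ) (N M : Subgroup G) : Prop where
  prime : p.Prime
  nN : N.Normal
  nM : M.Normal
  le : N ≤ M
  ne : N ≠ M
  fin : N.FiniteIndex
  exp : ∀ m ∈ M, m ^ p ∈ N
  comm : ∀ m ∈ M, ∀ m' ∈ M, m * m' * m⁻¹ * m'⁻¹ ∈ N
  card : N.relIndex M = p ^ d
  min : ∀ K : Subgroup G, K.Normal → N ≤ K → K ≤ M → K = N ∨ K = M
  cent : ∀ g : G, (∀ m ∈ M, g * m * g⁻¹ * m⁻¹ ∈ N) → g ∈ M
  solv : ∃ k, derivedSeries G k ≤ N

section Rep

variable {k : Type} [Field k] {H : Type} [Group H] {V : Type} [AddCommGroup V] [Module k V]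

/-- Subrepresentation. -/
def subrep (ρ : Representation k H V) (W : Submodule k V) (hW : ∀ h, ∀ v ∈ W, ρ h v ∈ W) :
    Representation k H W where
  toFun h := (ρ h).restrict (hW h)
  map_one' := by ext v; simp
  map_mul' g h := by ext v; simp

/-- Restriction of a representation to a subgroup. -/
def resrep (ρ : Representation k H V) (K : Subgroup H) : Representation k K V :=
  MonoidHom.comp ρ K.subtype

end Rep

/-- Structure of a soluble group above a maximal abelian normal subgroup. -/
structure Soc {H : Type} [Group H] (A T : Subgroup H) : Prop where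
  nT : T.Normal
  le : A ≤ T
  ne : A ≠ T
  cent : T ≤ Subgroup.centralizer (A : Set H)
  comm : ∀ x ∈ T, ∀ y ∈ T, x * y * x⁻¹ * y⁻¹ ∈ A
  center : ∀ x ∈ T, (∀ y ∈ T, x * y = y * x) → x ∈ A
  center' : ∀ x ∈ Subgroup.centralizer (A : Set H), (∀ y ∈ T, x * y = y * x) → x ∈ A
  cr : ∀ W : Subgroup H, W.Normal → A ≤ W → W ≤ T → ∃ W' : Subgroup H, W'.Normal ∧ A ≤ W' ∧
    W' ≤ T ∧ W ⊓ W' = A ∧ W ⊔ W' = T
  sqf : ∃ k : ℕ, Squarefree k ∧ ∀ x ∈ T, x ^ k ∈ A

/-- The bound for linear groups of small degree. -/
def fr (r a : ℕ) : ℕ :=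
  if r = 2 then (if a ≤ 1 then 0 else if a ≤ 3 then 2 else a + 1) else (if a ≤ 1 then a else 2 * a)

/-- Growth bound used throughout. -/
def GB {G : Type} [Group G] (S : Set G) (α : ℝ) : Prop :=
  ∃ n0 : ℕ, ∀ n : ℕ, n0 ≤ n → (Nat.card ↥(Bl S n) : ℝ) ≤ Real.exp ((n : ℝ) ^ α)

/-- Subexponential growth (helper41's definition is `Pool.Agent.Helper41.Gap.SubExp`). -/
def SubExp' (G : Type) [Group G] : Prop :=
  ∀ T : Set G, T.Finite → ∀ a : ℝ, 1 < a → ∃ C : ℝ, ∀ r : ℕ, ((T ^ r).ncard : ℝ) ≤ C * a ^ r

end Pool.Agent.Helper98.RS
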