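import Pool.Agent.Helper98.RS.Defs

set_option autoImplicit false

open scoped Pointwise

namespace Pool.Agent.Helper98.RS

private lemma h36c1_mem {G : Type} [Group G] (S : Set G) (hS : Subgroup.closure S = ⊤) (x : G) :
    ∃ n, x ∈ Bl S n := by
  have hx : x ∈ Subgroup.closure S := by rw [hS]; trivial
  have hinv : (({1} : Set G) ∪ S ∪ S⁻¹)⁻¹ = ({1} : Set G) ∪ S ∪ S⁻¹ := by
    ext y
    simp only [Set.mem_inv, Set.mem_union, Set.mem_singleton_iff, inv_eq_one, inv_inv]
    tauto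
  induction hx using Subgroup.closure_induction with
  | mem y hy => exact ⟨1, by simp [Bl, hy]⟩
  | one => exact ⟨0, by simp [Bl]⟩
  | mul y z _ _ hy hz =>
    obtain ⟨m, hm⟩ := hy
    obtain ⟨n, hn⟩ := hz
    refine ⟨m + n, ?_⟩
    unfold Bl at *
    rw [pow_add]
    exact Set.mul_mem_mul hm hn
  | inv y _ hy =>
    obtain ⟨m, hm⟩ := hy
    refine ⟨m, ?_⟩
    unfold Bl at *
    rw [← hinv, inv_pow]
    exact Set.inv_mem_inv.mpr hm

private lemma h36c1_mono {G : Type} [Group G] (S : Set G) {m n : ℕ} (h : m ≤ n) :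
    Bl S m ⊆ Bl S n := by
  unfold Bl
  exact Set.pow_subset_pow_right (by simp) h

private lemma h36c1_fin {G : Type} [Group G] (S : Set G) (hSf : S.Finite) (n : ℕ) :
    (Bl S n).Finite := by
  unfold Bl
  have h0 : (({1} : Set G) ∪ S ∪ S⁻¹).Finite := ((Set.finite_singleton 1).union hSf).union hSf.inv
  induction n with
  | zero => rw [pow_zero]; exact Set.finite_one
  | succ n ih => rw [pow_succ]; exact ih.mul h0

private lemma h36c1_sub {G : Type} [Group G] (S : Set G) (hS : Subgroup.closure S = ⊤)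
    (T : Set G) (hT : T.Finite) : ∃ k, T ⊆ Bl S k := by
  induction T, hT using Set.Finite.induction_on with
  | empty => exact ⟨0, Set.empty_subset _⟩
  | insert _ _ ih =>
    rename_i a s _ _
    obtain ⟨k, hk⟩ := ih
    obtain ⟨m, hm⟩ := h36c1_mem S hS a
    refine ⟨max m k, ?_⟩
    rw [Set.insert_subset_iff]
    exact ⟨h36c1_mono S (le_max_left _ _) hm, hk.trans (h36c1_mono S (le_max_right _ _))⟩

theorem subexp_of_gb {G : Type} [Group G] (S : Set G) (hSf : S.Finite)
    (hS : Subgroup.closure S = ⊤) (α : ℝ) (hα1 : α < 1) (hG : GB S α) : SubExp' G := by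
  intro T hT a ha
  obtain ⟨n0, hn0⟩ := hG
  obtain ⟨k0, hk0⟩ := h36c1_sub S hS T hT
  set k := k0 + 1 with hkdef
  have hk : T ⊆ Bl S k := hk0.trans (h36c1_mono S (Nat.le_succ _))
  have hkpos : (0 : ℝ) < k := by rw [hkdef]; positivity
  have hloga : 0 < Real.log a := Real.log_pos ha
  have hε : 0 < Real.log a / k := div_pos hloga hkpos
  -- eventually x ^ α ≤ ε x
  have hev : ∀ᶠ x : ℝ in Filter.atTop, x ^ α ≤ (Real.log a / k) * x := by
    have ho : Filter.Tendsto (fun x : ℝ => x ^ (-(1 - α))) Filter.atTop (nhds 0) :=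
      tendsto_rpow_neg_atTop (by linarith)
    have h2 := ho.eventually (gt_mem_nhds hε)
    filter_upwards [h2, Filter.eventually_ge_atTop (1 : ℝ)] with x hx hx1
    have h3 : x ^ α = x ^ (-(1 - α)) * x := by
      nth_rw 3 [← Real.rpow_one x]
      rw [← Real.rpow_add (by linarith)]
      congr 1
      ring
    rw [h3]
    exact mul_le_mul_of_nonneg_right hx.le (by linarith)
  obtain ⟨x0, hx0⟩ := Filter.eventually_atTop.mp hev
  obtain ⟨R, hR⟩ := exists_nat_ge (max (n0 : ℝ) x0)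
  have hTr : ∀ r : ℕ, T ^ r ⊆ Bl S (k * r) := by
    intro r
    have h1 : T ^ r ⊆ (Bl S k) ^ r := Set.pow_subset_pow_left hk
    refine h1.trans ?_
    unfold Bl
    rw [← pow_mul]
  refine ⟨1 + ∑ r ∈ Finset.range R, ((T ^ r).ncard : ℝ), ?_⟩
  intro r
  have hsum : 0 ≤ ∑ r ∈ Finset.range R, ((T ^ r).ncard : ℝ) :=
    Finset.sum_nonneg fun _ _ => Nat.cast_nonneg _
  have har : (1 : ℝ) ≤ a ^ r := one_le_pow₀ ha.le
  by_cases hr : r < R
  · have h1 : ((T ^ r).ncard : ℝ) ≤ ∑ r ∈ Finset.range R, ((T ^ r).ncard : ℝ) :=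
      Finset.single_le_sum (f := fun r => ((T ^ r).ncard : ℝ)) (fun _ _ => Nat.cast_nonneg _)
        (Finset.mem_range.mpr hr)
    nlinarith
  · have hrR : R ≤ r := not_lt.mp hr
    have hkr : r ≤ k * r := Nat.le_mul_of_pos_left r (by omega)
    have hrn0 : n0 ≤ k * r := by
      have : (n0 : ℝ) ≤ R := (le_max_left _ _).trans hR
      have : n0 ≤ R := by exact_mod_cast this
      omega
    have hrx0 : x0 ≤ ((k * r : ℕ) : ℝ) := by
      have h3 : x0 ≤ (R : ℝ) := (le_max_right _ _).trans hR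
      have h4 : (R : ℝ) ≤ ((k * r : ℕ) : ℝ) := by exact_mod_cast hrR.trans hkr
      linarith
    have h5 := hn0 (k * r) hrn0
    have h6 := hx0 _ hrx0
    have h7 : ((T ^ r).ncard : ℝ) ≤ (Nat.card ↥(Bl S (k * r)) : ℝ) := by
      rw [Nat.card_coe_set_eq]
      exact_mod_cast Set.ncard_le_ncard (hTr r) (h36c1_fin S hSf _)
    have h8 : Real.exp (((k * r : ℕ) : ℝ) ^ α) ≤ a ^ r := by
      have h9 : Real.log a / k * ((k * r : ℕ) : ℝ) = r * Real.log a := by
        push_cast
        field_simp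
      rw [h9] at h6
      calc Real.exp (((k * r : ℕ) : ℝ) ^ α) ≤ Real.exp (r * Real.log a) := Real.exp_le_exp.mpr h6
        _ = a ^ r := by
          rw [mul_comm, Real.exp_mul, Real.exp_log (by linarith), Real.rpow_natCast]
    have h10 : ((T ^ r).ncard : ℝ) ≤ a ^ r := h7.trans (h5.trans h8)
    nlinarith

end Pool.Agent.Helper98.RS
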