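import Pool.Agent.Helper98.RS.Defs
import Pool.Agent.Helper41.Gap.SubexpBasic
import Pool.Agent.Helper41.Gap.TowerBasic
import Pool.Agent.Helper41.Gap.VnilStep

/-!
# RS: the theorem of Milnor and Wolf
-/

set_option autoImplicit false

open scoped Pointwise

namespace Pool.Agent.Helper98.RS

open Pool.Agent.Helper41.Gap (SubExp subexp_relation subexp_of_injective Tower VNil vnil_of_tower
  tb_sub_fg_comm tb_fg_ext tb_fg_map cm)

section Conj

variable {G : Type} [Group G]

/-- Conjugates of `x` by the powers of `g`. -/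
private def mwx (g x : G) (i : ℕ) : G := g ^ i * x * g⁻¹ ^ i

private theorem mwx_zero (g x : G) : mwx g x 0 = x := by simp [mwx]

private theorem mwx_conj (g x : G) (i : ℕ) : g * mwx g x i * g⁻¹ = mwx g x (i + 1) := by
  rw [mwx, mwx, pow_succ' g i, pow_succ g⁻¹ i]
  group

private theorem mwx_conj' (g x : G) (i : ℕ) : g⁻¹ * mwx g x (i + 1) * g = mwx g x i := by
  rw [← mwx_conj]
  group

private theorem mw_prod_mem (g x : G) (e : ℕ → ℕ) (n : ℕ) :
    ((List.range n).map (fun i => g ^ i * x ^ e i * g⁻¹ ^ i)).prod ∈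
      Subgroup.closure (mwx g x '' Set.Iio n) := by
  induction n with
  | zero => simp
  | succ n ih =>
    rw [List.range_succ, List.map_append, List.prod_append]
    refine mul_mem (Subgroup.closure_mono (Set.image_mono (Set.Iio_subset_Iio n.le_succ)) ih) ?_
    simp only [List.map_cons, List.map_nil, List.prod_cons, List.prod_nil, mul_one]
    have h1 : g ^ n * x ^ e n * g⁻¹ ^ n = (mwx g x n) ^ e n := by
      have h2 : ∀ k : ℕ, (mwx g x n) ^ k = g ^ n * x ^ k * g⁻¹ ^ n := by
        intro k
        rw [mwx, inv_pow, conj_pow]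
      rw [h2]
    rw [h1]
    exact pow_mem (Subgroup.subset_closure
      (Set.mem_image_of_mem (mwx g x) (Set.mem_Iio.2 n.lt_succ_self))) _

private theorem mw_rel_aux (g x : G) (e e' : ℕ → ℕ) (he : ∀ i, e i ≤ 1) (he' : ∀ i, e' i ≤ 1)
    (n : ℕ) (hne : ∃ i < n, e i ≠ e' i)
    (heq : ((List.range n).map (fun i => g ^ i * x ^ e i * g⁻¹ ^ i)).prod =
        ((List.range n).map (fun i => g ^ i * x ^ e' i * g⁻¹ ^ i)).prod) :
    ∃ m : ℕ, mwx g x m ∈ Subgroup.closure (mwx g x '' Set.Iio m) := by
  induction n with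
  | zero =>
    obtain ⟨i, hi, -⟩ := hne
    omega
  | succ n ih =>
    rw [List.range_succ, List.map_append, List.prod_append, List.map_append,
      List.prod_append] at heq
    simp only [List.map_cons, List.map_nil, List.prod_cons, List.prod_nil, mul_one] at heq
    have hA := mw_prod_mem g x e n
    have hB := mw_prod_mem g x e' n
    by_cases h : e n = e' n
    · rw [h] at heq
      refine ih ?_ (mul_right_cancel heq)
      obtain ⟨i, hi, hi2⟩ := hne
      refine ⟨i, ?_, hi2⟩
      rcases Nat.lt_succ_iff_lt_or_eq.1 hi with h1 | h1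
      · exact h1
      · exact absurd (h1 ▸ h) hi2
    · refine ⟨n, ?_⟩
      rcases Nat.le_one_iff_eq_zero_or_eq_one.1 (he n) with h1 | h1 <;>
        rcases Nat.le_one_iff_eq_zero_or_eq_one.1 (he' n) with h2 | h2
      · exact absurd (h1.trans h2.symm) h
      · rw [h1, h2, pow_zero, pow_one, mul_one, inv_pow, mul_inv_cancel, mul_one] at heq
        rw [mwx, inv_pow, eq_inv_mul_iff_mul_eq.2 heq.symm]
        exact mul_mem (inv_mem hB) hA
      · rw [h1, h2, pow_zero, pow_one, mul_one, inv_pow, mul_inv_cancel, mul_one] at heq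
        rw [mwx, inv_pow, eq_inv_mul_iff_mul_eq.2 heq]
        exact mul_mem (inv_mem hA) hB
      · exact absurd (h1.trans h2.symm) h

private theorem mw_rel (h : SubExp G) (g x : G) :
    ∃ m : ℕ, mwx g x m ∈ Subgroup.closure (mwx g x '' Set.Iio m) := by
  obtain ⟨n, e, e', he, he', hne, heq⟩ := subexp_relation h g x
  exact mw_rel_aux g x e e' he he' n hne heq

private theorem mw_succ_mem (g x : G) (m : ℕ)
    (hm : mwx g x m ∈ Subgroup.closure (mwx g x '' Set.Iio m)) :
    mwx g x (m + 1) ∈ Subgroup.closure (mwx g x '' Set.Iic m) := by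
  have h1 : mwx g x (m + 1) ∈
      (Subgroup.closure (mwx g x '' Set.Iio m)).map (MulAut.conj g).toMonoidHom :=
    ⟨mwx g x m, hm, by
      rw [MulEquiv.coe_toMonoidHom, MulAut.conj_apply, mwx_conj]⟩
  rw [MonoidHom.map_closure] at h1
  refine Subgroup.closure_mono ?_ h1
  rintro _ ⟨_, ⟨i, hi, rfl⟩, rfl⟩
  refine ⟨i + 1, ?_, ?_⟩
  · simp only [Set.mem_Iio] at hi
    simp only [Set.mem_Iic]
    omega
  · rw [MulEquiv.coe_toMonoidHom, MulAut.conj_apply, mwx_conj]

/-- A finitely generated subgroup that contains `x` and is normalised by `g`. -/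
private theorem mw_fg (h : SubExp G) (g x : G) : ∃ L : Subgroup G, L.FG ∧ x ∈ L ∧
    (∀ y ∈ L, g * y * g⁻¹ ∈ L) ∧ (∀ y ∈ L, g⁻¹ * y * g ∈ L) ∧
    (∀ P : Subgroup G, P.Normal → x ∈ P → L ≤ P) := by
  classical
  obtain ⟨m, hm⟩ := mw_rel h g x
  obtain ⟨m', hm'⟩ := mw_rel h g⁻¹ x
  have h1 := mw_succ_mem g x m hm
  have h1' := mw_succ_mem g⁻¹ x m' hm'
  set L : Subgroup G := Subgroup.closure (mwx g x '' Set.Iic m ∪ mwx g⁻¹ x '' Set.Iic m') with hL
  have hl1 : Subgroup.closure (mwx g x '' Set.Iic m) ≤ L :=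
    Subgroup.closure_mono Set.subset_union_left
  have hl2 : Subgroup.closure (mwx g⁻¹ x '' Set.Iic m') ≤ L :=
    Subgroup.closure_mono Set.subset_union_right
  have hs1 : ∀ i ≤ m + 1, mwx g x i ∈ L := by
    intro i hi
    rcases Nat.lt_or_ge m i with h2 | h2
    · rw [show i = m + 1 by omega]
      exact hl1 h1
    · exact hl1 (Subgroup.subset_closure ⟨i, h2, rfl⟩)
  have hs2 : ∀ i ≤ m' + 1, mwx g⁻¹ x i ∈ L := by
    intro i hi
    rcases Nat.lt_or_ge m' i with h2 | h2
    · rw [show i = m' + 1 by omega]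
      exact hl2 h1'
    · exact hl2 (Subgroup.subset_closure ⟨i, h2, rfl⟩)
  have key1 : L ≤ L.comap (MulAut.conj g).toMonoidHom := by
    rw [hL, Subgroup.closure_le, ← hL]
    rintro y (⟨i, hi, rfl⟩ | ⟨i, hi, rfl⟩)
    · rw [SetLike.mem_coe, Subgroup.mem_comap, MulEquiv.coe_toMonoidHom, MulAut.conj_apply,
        mwx_conj]
      exact hs1 _ (by simpa using hi)
    · rw [SetLike.mem_coe, Subgroup.mem_comap, MulEquiv.coe_toMonoidHom, MulAut.conj_apply]
      rcases Nat.eq_zero_or_pos i with h2 | h2
      · rw [h2, mwx_zero, ← mwx_zero g x, mwx_conj]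
        exact hs1 _ (by omega)
      · obtain ⟨j, rfl⟩ : ∃ j, i = j + 1 := ⟨i - 1, by omega⟩
        have h3 := mwx_conj' g⁻¹ x j
        rw [inv_inv] at h3
        rw [h3]
        simp only [Set.mem_Iic] at hi
        exact hs2 _ (by omega)
  have key2 : L ≤ L.comap (MulAut.conj g⁻¹).toMonoidHom := by
    rw [hL, Subgroup.closure_le, ← hL]
    rintro y (⟨i, hi, rfl⟩ | ⟨i, hi, rfl⟩)
    · rw [SetLike.mem_coe, Subgroup.mem_comap, MulEquiv.coe_toMonoidHom, MulAut.conj_apply]
      rcases Nat.eq_zero_or_pos i with h2 | h2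
      · rw [h2, mwx_zero, ← mwx_zero g⁻¹ x, mwx_conj]
        exact hs2 _ (by omega)
      · obtain ⟨j, rfl⟩ : ∃ j, i = j + 1 := ⟨i - 1, by omega⟩
        rw [inv_inv, mwx_conj']
        simp only [Set.mem_Iic] at hi
        exact hs1 _ (by omega)
    · rw [SetLike.mem_coe, Subgroup.mem_comap, MulEquiv.coe_toMonoidHom, MulAut.conj_apply,
        mwx_conj]
      exact hs2 _ (by simpa using hi)
  refine ⟨L, ?_, ?_, ?_, ?_, ?_⟩
  · have hfin : (mwx g x '' Set.Iic m ∪ mwx g⁻¹ x '' Set.Iic m').Finite :=
      ((Set.finite_Iic m).image _).union ((Set.finite_Iic m').image _)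
    exact ⟨hfin.toFinset, by rw [hfin.coe_toFinset]⟩
  · have := hs1 0 (by omega)
    rwa [mwx_zero] at this
  · intro y hy
    have := key1 hy
    rwa [Subgroup.mem_comap, MulEquiv.coe_toMonoidHom, MulAut.conj_apply] at this
  · intro y hy
    have := key2 hy
    rwa [Subgroup.mem_comap, MulEquiv.coe_toMonoidHom, MulAut.conj_apply, inv_inv] at this
  · intro P hP hx
    rw [hL, Subgroup.closure_le]
    rintro y (⟨i, hi, rfl⟩ | ⟨i, hi, rfl⟩)
    · rw [mwx, inv_pow]
      exact hP.conj_mem x hx _
    · rw [mwx, inv_pow g⁻¹ i]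
      exact hP.conj_mem x hx _

/-- Milnor: the kernel of a map onto a cyclic group is finitely generated. -/
private theorem mw_cyclic (h : SubExp G) (N : Subgroup G) (hN : N.Normal) (g : G) (T : Set G)
    (hT : T.Finite) (hTN : T ⊆ N) (hgen : Subgroup.closure (insert g T) = ⊤) : N.FG := by
  classical
  choose L hLfg hLx hL1 hL2 hLP using fun x => mw_fg h g x
  set K : Subgroup G := ⨆ t ∈ hT.toFinset, L t with hK
  have hKfg : K.FG := by
    rw [hK]
    exact Subgroup.FG.biSup_finset _ _ (fun t _ => hLfg t)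
  have hTK : T ⊆ K := by
    intro t ht
    have : L t ≤ K := le_iSup₂_of_le t (by simpa using ht) le_rfl
    exact this (hLx t)
  have hKN : K ≤ N := by
    rw [hK]
    exact iSup₂_le (fun t ht => hLP t N hN (hTN (by simpa using ht)))
  have hg1 : K ≤ K.comap (MulAut.conj g).toMonoidHom := by
    conv_lhs => rw [hK]
    refine iSup₂_le (fun t ht y hy => ?_)
    have h2 : L t ≤ K := le_iSup₂_of_le t ht le_rfl
    rw [Subgroup.mem_comap, MulEquiv.coe_toMonoidHom, MulAut.conj_apply]
    exact h2 (hL1 t y hy)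
  have hg2 : K ≤ K.comap (MulAut.conj g⁻¹).toMonoidHom := by
    conv_lhs => rw [hK]
    refine iSup₂_le (fun t ht y hy => ?_)
    have h2 : L t ≤ K := le_iSup₂_of_le t ht le_rfl
    rw [Subgroup.mem_comap, MulEquiv.coe_toMonoidHom, MulAut.conj_apply, inv_inv]
    exact h2 (hL2 t y hy)
  have hKn : K.Normal := by
    refine ⟨fun y hy u => ?_⟩
    have hu : u ∈ Subgroup.closure (insert g T) := by rw [hgen]; trivial
    have key : (∀ y ∈ K, u * y * u⁻¹ ∈ K) ∧ (∀ y ∈ K, u⁻¹ * y * u ∈ K) := by
      induction hu using Subgroup.closure_induction with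
      | mem a ha =>
        rcases ha with rfl | ha
        · refine ⟨fun y hy => ?_, fun y hy => ?_⟩
          · have := hg1 hy
            rwa [Subgroup.mem_comap, MulEquiv.coe_toMonoidHom, MulAut.conj_apply] at this
          · have := hg2 hy
            rwa [Subgroup.mem_comap, MulEquiv.coe_toMonoidHom, MulAut.conj_apply,
              inv_inv] at this
        · have hak := hTK ha
          exact ⟨fun y hy => mul_mem (mul_mem hak hy) (inv_mem hak),
            fun y hy => mul_mem (mul_mem (inv_mem hak) hy) hak⟩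
      | one => exact ⟨fun y hy => by simpa using hy, fun y hy => by simpa using hy⟩
      | mul a b _ _ ha hb =>
        refine ⟨fun y hy => ?_, fun y hy => ?_⟩
        · have := ha.1 _ (hb.1 y hy)
          rwa [show a * (b * y * b⁻¹) * a⁻¹ = a * b * y * (a * b)⁻¹ by group] at this
        · have := hb.2 _ (ha.2 y hy)
          rwa [show b⁻¹ * (a⁻¹ * y * a) * b = (a * b)⁻¹ * y * (a * b) by group] at this
      | inv a _ ha =>
        refine ⟨fun y hy => ?_, fun y hy => ?_⟩
        · rw [inv_inv]; exact ha.2 y hy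
        · rw [inv_inv]; exact ha.1 y hy
    exact key.1 y hy
  -- the quotient is cyclic
  have hcyc : ∀ q : G ⧸ K, q ∈ Subgroup.zpowers (QuotientGroup.mk g : G ⧸ K) := by
    intro q
    obtain ⟨u, rfl⟩ := QuotientGroup.mk_surjective q
    have hu : u ∈ Subgroup.closure (insert g T) := by rw [hgen]; trivial
    have h3 : Subgroup.closure (insert g T) ≤
        (Subgroup.zpowers (QuotientGroup.mk g : G ⧸ K)).comap (QuotientGroup.mk' K) := by
      rw [Subgroup.closure_le]
      rintro a (rfl | ha)
      · exact Subgroup.mem_zpowers _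
      · have : (QuotientGroup.mk a : G ⧸ K) = 1 := by
          rw [QuotientGroup.eq_one_iff]
          exact hTK ha
        rw [SetLike.mem_coe, Subgroup.mem_comap, QuotientGroup.mk'_apply, this]
        exact one_mem _
    exact h3 hu
  have hcomm : ∀ a b : G ⧸ K, a * b = b * a := by
    intro a b
    obtain ⟨i, rfl⟩ := hcyc a
    obtain ⟨j, rfl⟩ := hcyc b
    exact (Commute.refl _).zpow_zpow i j
  have hQfg : Group.FG (G ⧸ K) := by
    rw [Group.fg_def]
    refine ⟨{(QuotientGroup.mk g : G ⧸ K)}, ?_⟩
    rw [eq_top_iff]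
    intro q _
    rw [Finset.coe_singleton, ← Subgroup.zpowers_eq_closure]
    exact hcyc q
  set f : N →* G ⧸ K := (QuotientGroup.mk' K).comp N.subtype with hf
  have hr : f.range.FG := tb_sub_fg_comm hcomm hQfg _
  have hk : f.ker.FG := by
    have h4 : f.ker = K.subgroupOf N := by
      ext y
      rw [MonoidHom.mem_ker, hf, MonoidHom.comp_apply, QuotientGroup.mk'_apply,
        QuotientGroup.eq_one_iff, Subgroup.mem_subgroupOf, Subgroup.coe_subtype]
    rw [h4, ← Group.fg_iff_subgroup_fg]
    have h5 : Group.FG K := (Group.fg_iff_subgroup_fg K).2 hKfg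
    exact Group.fg_of_surjective (f := (Subgroup.subgroupOfEquivOfLe hKN).symm.toMonoidHom)
      (Subgroup.subgroupOfEquivOfLe hKN).symm.surjective
  have h6 := tb_fg_ext f hk hr
  rw [← Group.fg_iff_subgroup_fg, Group.fg_def]
  exact h6

end Conj

private theorem mw_abelian (n : ℕ) : ∀ {G : Type} [Group G], SubExp G → ∀ (N : Subgroup G),
    N.Normal → (∀ a b : G, a * b * a⁻¹ * b⁻¹ ∈ N) → ∀ (T : Set G), T.Finite → T ⊆ N →
    ∀ l : List G, l.length = n → Subgroup.closure ({y | y ∈ l} ∪ T) = ⊤ → N.FG := by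
  classical
  induction n with
  | zero =>
    intro G _ h N hN hc T hT hTN l hl hgen
    rw [List.length_eq_zero_iff] at hl
    subst hl
    simp only [List.not_mem_nil, Set.setOf_false, Set.empty_union] at hgen
    have h1 : N = ⊤ := by
      rw [eq_top_iff, ← hgen, Subgroup.closure_le]
      exact hTN
    rw [h1]
    exact ⟨hT.toFinset, by rw [hT.coe_toFinset, hgen]⟩
  | succ n ih =>
    intro G _ h N hN hc T hT hTN l hl hgen
    obtain ⟨g, l', rfl⟩ : ∃ g l', l = g :: l' := by
      cases l with
      | nil => simp at hl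
      | cons g l' => exact ⟨g, l', rfl⟩
    simp only [List.length_cons, Nat.add_right_cancel_iff] at hl
    set M : Subgroup G := Subgroup.closure {y | y ∈ l'} ⊔ N with hM
    have hNM : N ≤ M := le_sup_right
    have hMn : M.Normal := by
      refine ⟨fun y hy u => ?_⟩
      have h1 := hNM (hc u y)
      have h2 := mul_mem h1 hy
      rwa [show u * y * u⁻¹ * y⁻¹ * y = u * y * u⁻¹ by group] at h2
    have hMfg : M.FG := by
      refine mw_cyclic h M hMn g ({y | y ∈ l'} ∪ T)
        ((List.finite_toSet l').union hT) ?_ ?_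
      · rintro y (hy | hy)
        · exact (le_sup_left : _ ≤ M) (Subgroup.subset_closure hy)
        · exact hNM (hTN hy)
      · rw [← hgen]
        congr 1
        ext y
        simp only [Set.mem_insert_iff, Set.mem_union, Set.mem_setOf_eq, List.mem_cons, or_assoc]
    -- generators of `M`
    obtain ⟨U, hU⟩ := hMfg
    have hdec : ∀ u ∈ M, ∃ w ∈ Subgroup.closure {y | y ∈ l'}, ∃ v ∈ N, w * v = u := by
      intro u hu
      rw [hM, Subgroup.mem_sup_of_normal_right] at hu
      exact hu
    have hUM : ∀ u ∈ U, u ∈ M := fun u hu => by rw [← hU]; exact Subgroup.subset_closure hu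
    choose! w hw v hv hwv using hdec
    have hl'M : ∀ y ∈ l', y ∈ M := fun y hy =>
      (le_sup_left : _ ≤ M) (Subgroup.subset_closure hy)
    set T' : Set M := {x | ∃ u ∈ U, (x : G) = v u} with hT'
    have hT'fin : T'.Finite := by
      refine Set.Finite.of_finite_image (f := Subtype.val) ?_ Subtype.val_injective.injOn
      refine (U.finite_toSet.image v).subset ?_
      rintro _ ⟨x, ⟨u, hu, hx⟩, rfl⟩
      exact ⟨u, hu, hx.symm⟩
    have hfgN : (N.subgroupOf M).FG := by
      refine ih (G := M) (subexp_of_injective M.subtype M.subtype_injective h)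
        (N.subgroupOf M) inferInstance ?_ T' hT'fin ?_
        (l'.attach.map (fun y => ⟨y.1, hl'M y.1 y.2⟩)) (by simp [hl]) ?_
      · intro a b
        rw [Subgroup.mem_subgroupOf]
        exact hc a b
      · rintro x ⟨u, hu, hx⟩
        rw [SetLike.mem_coe, Subgroup.mem_subgroupOf, hx]
        exact hv u (hUM u hu)
      · rw [eq_top_iff]
        rintro ⟨x, hx⟩ -
        have h7 : M ≤ (Subgroup.closure ({y | y ∈ l'.attach.map
            (fun y => (⟨y.1, hl'M y.1 y.2⟩ : M))} ∪ T')).map M.subtype := by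
          conv_lhs => rw [← hU]
          rw [Subgroup.closure_le]
          intro u hu
          have huM := hUM u hu
          rw [SetLike.mem_coe, ← hwv u huM]
          refine mul_mem ?_ ?_
          · have h8 : Subgroup.closure {y | y ∈ l'} ≤ (Subgroup.closure ({y | y ∈ l'.attach.map
                (fun y => (⟨y.1, hl'M y.1 y.2⟩ : M))} ∪ T')).map M.subtype := by
              rw [Subgroup.closure_le]
              intro y hy
              refine ⟨⟨y, hl'M y hy⟩, Subgroup.subset_closure (Or.inl ?_), rfl⟩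
              simp only [Set.mem_setOf_eq, List.mem_map, List.mem_attach, true_and]
              exact ⟨⟨y, hy⟩, rfl⟩
            exact h8 (hw u huM)
          · refine ⟨⟨v u, hNM (hv u huM)⟩, Subgroup.subset_closure (Or.inr ⟨u, hu, rfl⟩), rfl⟩
        obtain ⟨y, hy, hyx⟩ := h7 hx
        have : y = ⟨x, hx⟩ := Subtype.ext hyx
        rwa [← this]
    have h9 := tb_fg_map M.subtype hfgN
    rwa [Subgroup.map_subgroupOf_eq_of_le hNM] at h9

private theorem mw_derived_map {G : Type} [Group G] (k : ℕ) :
    (derivedSeries (commutator G) k).map (commutator G).subtype ≤ derivedSeries G (k + 1) := by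
  induction k with
  | zero =>
    rintro _ ⟨x, -, rfl⟩
    rw [derivedSeries_one]
    exact x.2
  | succ k ih =>
    rw [derivedSeries_succ, derivedSeries_succ G (k + 1), Subgroup.map_commutator]
    exact Subgroup.commutator_mono ih ih

private theorem mw_tower (k : ℕ) : ∀ {G : Type} [Group G], Group.FG G → SubExp G →
    derivedSeries G k = ⊥ → Tower k G := by
  induction k with
  | zero =>
    intro G _ _ _ h
    rw [derivedSeries_zero] at h
    change Finite G
    have : Subsingleton G := by
      refine ⟨fun a b => ?_⟩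
      have ha : a ∈ (⊥ : Subgroup G) := h ▸ Subgroup.mem_top a
      have hb : b ∈ (⊥ : Subgroup G) := h ▸ Subgroup.mem_top b
      rw [Subgroup.mem_bot] at ha hb
      rw [ha, hb]
    infer_instance
  | succ k ih =>
    intro G _ hfg hsub h
    have hcm : ∀ a b : G, a * b * a⁻¹ * b⁻¹ ∈ commutator G := by
      intro a b
      exact Subgroup.commutator_mem_commutator (Subgroup.mem_top a) (Subgroup.mem_top b)
    have hN : (commutator G).FG := by
      obtain ⟨U, hU⟩ := Group.fg_def.1 hfg
      refine mw_abelian U.toList.length hsub (commutator G) inferInstance hcm ∅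
        Set.finite_empty (Set.empty_subset _) U.toList rfl ?_
      rw [← hU]
      congr 1
      ext y
      simp
    refine Or.inr ⟨⊤, commutator G, inferInstance, le_top, ?_, ?_, hN, Group.fg_def.1 hfg, ?_⟩
    · intro a _ x hx
      exact (inferInstance : (commutator G).Normal).conj_mem x hx a
    · intro a _ b _
      exact hcm a b
    · refine ih ((Group.fg_iff_subgroup_fg _).2 hN)
        (subexp_of_injective _ (commutator G).subtype_injective hsub) ?_
      rw [eq_bot_iff]
      intro x hx
      have h1 := mw_derived_map k (Subgroup.mem_map_of_mem (commutator G).subtype hx)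
      rw [h, Subgroup.mem_bot] at h1
      rw [Subgroup.mem_bot]
      exact Subtype.ext h1

/-- Milnor and Wolf. -/
theorem milnor_wolf {G : Type} [Group G] (hfg : Group.FG G) (hs : Group.IsSolvable G)
    (h : SubExp' G) : ∃ H : Subgroup G, H.FiniteIndex ∧ Group.IsNilpotent H := by
  obtain ⟨k, hk⟩ := hs.solvable
  exact vnil_of_tower k G (mw_tower k hfg h hk) h

/-- Milnor: in a finitely generated group of subexponential growth the commutator subgroup is
finitely generated. -/
theorem fg_commutator {G : Type} [Group G] (hfg : Group.FG G) (h : SubExp' G) :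
    (commutator G).FG := by
  have hcm : ∀ a b : G, a * b * a⁻¹ * b⁻¹ ∈ commutator G := by
    intro a b
    exact Subgroup.commutator_mem_commutator (Subgroup.mem_top a) (Subgroup.mem_top b)
  obtain ⟨U, hU⟩ := Group.fg_def.1 hfg
  refine mw_abelian U.toList.length h (commutator G) inferInstance hcm ∅
    Set.finite_empty (Set.empty_subset _) U.toList rfl ?_
  rw [← hU]
  congr 1
  ext y
  simp

end Pool.Agent.Helper98.RS
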