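import Pool.Agent.Helper98.RS.B5
import Pool.Agent.Helper98.RS.C2

set_option autoImplicit false

open scoped Pointwise

namespace Pool.Agent.Helper98.RS

/-- A nilpotent normal subgroup lies in a self centralising minimal normal subgroup. -/
private theorem nil_le_socle {Q : Type} [Group Q] (A X : Subgroup Q) [A.Normal] [X.Normal]
    (hA : A ≠ ⊥) (hmin : ∀ K : Subgroup Q, K.Normal → K ≤ A → K = ⊥ ∨ K = A)
    (hc : Subgroup.centralizer (A : Set Q) ≤ A) (hX : Group.IsNilpotent X) : X ≤ A := by
  rcases hmin ⁅A, X⁆ inferInstance (Subgroup.commutator_le_left A X) with h | h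
  · refine le_trans ?_ hc
    rw [← Subgroup.commutator_eq_bot_iff_le_centralizer, Subgroup.commutator_comm]
    exact h
  · exfalso
    obtain ⟨n, hn⟩ := (Subgroup.isNilpotent_iff_lowerCentralSeries X).1 hX
    have key : ∀ n, A ≤ X.lowerCentralSeries n := by
      intro n
      induction n with
      | zero =>
        rw [Subgroup.lowerCentralSeries_zero, ← h]
        exact Subgroup.commutator_le_right A X
      | succ n ih =>
        rw [Subgroup.lowerCentralSeries_succ]
        calc A = ⁅A, X⁆ := h.symm
          _ ≤ ⁅X.lowerCentralSeries n, X⁆ := Subgroup.commutator_mono ih le_rfl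
    apply hA
    rw [eq_bot_iff, ← hn]
    exact key n

private theorem subexp_quot {G K : Type} [Group G] [Group K] (f : G →* K)
    (hf : Function.Surjective f) (h : SubExp' G) : SubExp' K := by
  intro T hT a ha
  obtain ⟨T', hT', hTT⟩ : ∃ T' : Set G, T'.Finite ∧ f '' T' = T := by
    refine ⟨Function.surjInv hf '' T, hT.image _, ?_⟩
    rw [← Set.image_comp]
    simp [Function.surjInv_eq hf]
  obtain ⟨C, hC⟩ := h T' hT' a ha
  refine ⟨C, fun r => le_trans ?_ (hC r)⟩
  have : T ^ r = f '' (T' ^ r) := by rw [← hTT, Set.image_pow]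
  rw [this]
  have hfin : (T' ^ r).Finite := by
    induction r with
    | zero => simp
    | succ r ih => rw [pow_succ]; exact (ih (by rw [← hTT, Set.image_pow]) ).mul hT'
  exact_mod_cast Set.ncard_image_le hfin

theorem index_bounded {G : Type} [Group G] (hfg : Group.FG G) (h : SubExp' G) (D : ℕ)
    (hD : ∀ (p d : ℕ) (N M : Subgroup G), Prim p d N M → M ≠ ⊤ → d ≤ D) :
    ∃ m : ℕ, ∀ (p d : ℕ) (N M : Subgroup G), Prim p d N M → M.index ≤ m := by
  obtain ⟨m0, hm0⟩ : ∃ m : ℕ, 9 ^ 128 * D ^ 5 < 9 ^ (m + 1) := by
    obtain ⟨m, hm⟩ := pow_unbounded_of_one_lt (9 ^ 128 * D ^ 5) (by norm_num : (1 : ℕ) < 9)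
    exact ⟨m, lt_of_lt_of_le hm (Nat.pow_le_pow_right (by norm_num) (Nat.le_succ m))⟩
  have hder : ∀ (p d : ℕ) (N M : Subgroup G), Prim p d N M →
      derivedSeries G (m0 + 1) ≤ N := by
    intro p d N M hP
    have h1 : derivedSeries G m0 ≤ M := by
      by_cases hM : M = ⊤
      · rw [hM]; exact le_top
      · apply dl_prim hP
        refine lt_of_le_of_lt ?_ hm0
        exact Nat.mul_le_mul_left _ (Nat.pow_le_pow_left (hD p d N M hP hM) 5)
    rw [derivedSeries_succ, Subgroup.commutator_le]
    intro x hx y hy
    have := hP.comm x (h1 hx) y (h1 hy)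
    rwa [commutatorElement_def]
  let Γ := G ⧸ derivedSeries G (m0 + 1)
  have hsurj : Function.Surjective (QuotientGroup.mk' (derivedSeries G (m0 + 1))) :=
    QuotientGroup.mk'_surjective _
  have hsol : Group.IsSolvable Γ := by
    refine ⟨m0 + 1, ?_⟩
    rw [← map_derivedSeries_eq hsurj, eq_bot_iff, Subgroup.map_le_iff_le_comap]
    intro x hx
    rw [Subgroup.mem_comap, Subgroup.mem_bot]
    exact (QuotientGroup.eq_one_iff x).2 hx
  have hfgΓ : Group.FG Γ := Group.fg_of_surjective hsurj
  obtain ⟨H, hHf, hHn⟩ := milnor_wolf hfgΓ hsol (subexp_quot _ hsurj h)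
  let H1 : Subgroup G := H.comap (QuotientGroup.mk' (derivedSeries G (m0 + 1)))
  have hH1 : H1.FiniteIndex := by
    refine ⟨?_⟩
    rw [Subgroup.index_comap_of_surjective _ hsurj]
    exact hHf.index_ne_zero
  refine ⟨H1.normalCore.index, ?_⟩
  intro p d N M hP
  have := hP.nN
  have := hP.nM
  have := hP.fin
  have hKM : H1.normalCore ≤ M := by
    let K : Subgroup G := H1.normalCore
    have hKn : Group.IsNilpotent (K.map (QuotientGroup.mk' N)) := by
      -- the image of `K` in `Γ` is nilpotent and maps onto the image of `K` in `G / N`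
      let π := QuotientGroup.mk' (derivedSeries G (m0 + 1))
      let φ : Γ →* G ⧸ N := QuotientGroup.lift (derivedSeries G (m0 + 1)) (QuotientGroup.mk' N)
        (fun x hx => (QuotientGroup.eq_one_iff x).2 (hder p d N M hP hx))
      have hφ : φ.comp π = QuotientGroup.mk' N := by
        ext x
        rfl
      have hle : K.map π ≤ H := by
        rw [Subgroup.map_le_iff_le_comap]
        exact Subgroup.normalCore_le H1
      have h1 : Group.IsNilpotent (K.map π) := by
        have := Subgroup.isNilpotent ((K.map π).subgroupOf H)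
        exact (Group.isNilpotent_congr (Subgroup.subgroupOfEquivOfLe hle)).1 this
      have h2 : (K.map π).map φ = K.map (QuotientGroup.mk' N) := by
        rw [Subgroup.map_map, hφ]
      rw [← h2]
      exact Group.nilpotent_of_surjective (φ.subgroupMap (K.map π))
        (φ.subgroupMap_surjective (K.map π))
    have hKN : (K.map (QuotientGroup.mk' N)).Normal :=
      Subgroup.Normal.map inferInstance _ (QuotientGroup.mk'_surjective N)
    have hMN : (M.map (QuotientGroup.mk' N)).Normal :=
      Subgroup.Normal.map inferInstance _ (QuotientGroup.mk'_surjective N)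
    have hle : K.map (QuotientGroup.mk' N) ≤ M.map (QuotientGroup.mk' N) := by
      apply nil_le_socle _ _ _ _ _ hKn
      · intro hbot
        apply hP.ne
        refine le_antisymm hP.le ?_
        intro x hx
        have hx' : (QuotientGroup.mk' N) x ∈ M.map (QuotientGroup.mk' N) :=
          Subgroup.mem_map_of_mem _ hx
        rw [hbot, Subgroup.mem_bot] at hx'
        exact (QuotientGroup.eq_one_iff x).1 hx'
      · intro L hL hLM
        have hc := hP.min (L.comap (QuotientGroup.mk' N)) (Subgroup.Normal.comap hL _)
          (by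
            intro x hx
            rw [Subgroup.mem_comap]
            have : (QuotientGroup.mk' N) x = 1 := (QuotientGroup.eq_one_iff x).2 hx
            rw [this]; exact L.one_mem)
          (by
            intro x hx
            rw [Subgroup.mem_comap] at hx
            obtain ⟨y, hy, hxy⟩ := hLM hx
            have hq : y⁻¹ * x ∈ N := QuotientGroup.eq.1 hxy
            have := M.mul_mem hy (hP.le hq)
            simpa using this)
        rcases hc with hc | hc
        · left
          rw [← Subgroup.map_comap_eq_self_of_surjective (QuotientGroup.mk'_surjective N) L, hc,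
            eq_bot_iff, Subgroup.map_le_iff_le_comap]
          intro x hx
          rw [Subgroup.mem_comap, Subgroup.mem_bot]
          exact (QuotientGroup.eq_one_iff x).2 hx
        · right
          rw [← Subgroup.map_comap_eq_self_of_surjective (QuotientGroup.mk'_surjective N) L, hc]
      · intro y hy
        obtain ⟨g, rfl⟩ := QuotientGroup.mk'_surjective N y
        apply Subgroup.mem_map_of_mem
        apply hP.cent
        intro x hx
        rw [Subgroup.mem_centralizer_iff] at hy
        have h3 := hy ((QuotientGroup.mk' N) x) (Subgroup.mem_map_of_mem _ hx)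
        apply (QuotientGroup.eq_one_iff _).1
        have h4 : (QuotientGroup.mk' N) (g * x * g⁻¹ * x⁻¹) = 1 := by
          rw [map_mul, map_mul, map_mul, map_inv, map_inv, ← h3]
          group
        exact h4
    intro x hx
    obtain ⟨y, hy, hxy⟩ := hle (Subgroup.mem_map_of_mem _ hx)
    have hq : y⁻¹ * x ∈ N := QuotientGroup.eq.1 hxy
    have := M.mul_mem hy (hP.le hq)
    simpa using this
  have hdvd := Subgroup.index_dvd_of_le hKM
  exact Nat.le_of_dvd (Nat.pos_of_ne_zero (Subgroup.FiniteIndex.index_ne_zero)) hdvd

end Pool.Agent.Helper98.RS
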