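import Pool.Agent.Helper98.RS.B4

set_option autoImplicit false

open scoped Pointwise

namespace Pool.Agent.Helper98.RS

private theorem finite_homs {G K : Type} [Group G] [Group K] [Finite K] (hfg : Group.FG G) :
    Finite (G →* K) := by
  obtain ⟨S, hS⟩ := Group.fg_iff'.1 hfg |>.imp fun n h => h
  obtain ⟨S, hSc, hS⟩ := hS
  refine Finite.of_injective (fun f : G →* K => fun s : S => f s) ?_
  intro f g h
  apply MonoidHom.eq_of_eqOn_dense hS
  intro x hx
  exact congrFun h ⟨x, hx⟩

private theorem exists_small (G : Type) [Group G] (hfg : Group.FG G) (m : ℕ) :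
    ∃ G0 : Subgroup G, G0.Normal ∧ G0.FiniteIndex ∧
      ∀ M : Subgroup G, M.Normal → M.FiniteIndex → M.index ≤ m → G0 ≤ M := by
  have hfin : ∀ j : Fin (m + 1), Finite (G →* Equiv.Perm (Fin j)) := fun j => finite_homs hfg
  refine ⟨⨅ i : (Σ j : Fin (m + 1), G →* Equiv.Perm (Fin j)), i.2.ker, ?_, ?_, ?_⟩
  · exact Subgroup.normal_iInf_normal fun i => MonoidHom.normal_ker _
  · exact Subgroup.finiteIndex_iInf fun i => inferInstance
  · intro M hMn hMf hM
    let e : G ⧸ M ≃ Fin M.index := by
      have : Finite (G ⧸ M) := Subgroup.finite_quotient_of_finiteIndex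
      exact Finite.equivFinOfCardEq rfl
    let f : G →* Equiv.Perm (Fin M.index) :=
      (e.permCongrHom.toMonoidHom).comp (MulAction.toPermHom G (G ⧸ M))
    have hk : f.ker = M := by
      have h1 : (MulAction.toPermHom G (G ⧸ M)).ker = M := by
        rw [← Subgroup.normalCore_eq_ker, Subgroup.normalCore_eq_self]
      refine Eq.trans ?_ h1
      ext x
      simp only [f, MonoidHom.mem_ker, MonoidHom.comp_apply]
      constructor
      · intro h
        apply e.permCongrHom.injective
        rw [map_one]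
        exact h
      · intro h
        rw [h, map_one]
    calc (⨅ i : (Σ j : Fin (m + 1), G →* Equiv.Perm (Fin j)), i.2.ker) ≤ f.ker :=
          iInf_le (fun i : (Σ j : Fin (m + 1), G →* Equiv.Perm (Fin j)) => i.2.ker)
            ⟨⟨M.index, by omega⟩, f⟩
      _ = M := hk

theorem final_step {G : Type} [Group G] (hfg : Group.FG G) (m : ℕ)
    (hm : ∀ (p d : ℕ) (N M : Subgroup G), Prim p d N M → M.index ≤ m)
    (hres : ∀ g : G, g ≠ 1 → ∃ N : Subgroup G, N.Normal ∧ N.FiniteIndex ∧
      (∃ k, derivedSeries G k ≤ N) ∧ g ∉ N) :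
    ∃ G0 : Subgroup G, G0.Normal ∧ G0.FiniteIndex ∧ ∀ g : G0, g ≠ 1 →
      ∃ (N : Subgroup G0) (_ : N.Normal), N.FiniteIndex ∧ g ∉ N ∧ Group.IsNilpotent (G0 ⧸ N) := by
  obtain ⟨G0, hn, hf, h0⟩ := exists_small G hfg m
  refine ⟨G0, hn, hf, ?_⟩
  intro g hg
  obtain ⟨N, hNn, hNf, hNs, hgN⟩ := hres g (fun h => hg (Subtype.ext h))
  have hnil : Group.IsNilpotent (G0.map (QuotientGroup.mk' N)) := by
    by_contra hcon
    obtain ⟨p, d, N', M', hP, -, hM'⟩ := exists_prim N hNs G0 hcon
    apply hM'
    apply h0 M' hP.nM _ (hm p d N' M' hP)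
    have := hP.fin
    exact Subgroup.finiteIndex_of_le hP.le
  refine ⟨N.subgroupOf G0, inferInstance, inferInstance, ?_, ?_⟩
  · rw [Subgroup.mem_subgroupOf]
    exact hgN
  · let f : G0 →* G0.map (QuotientGroup.mk' N) := (QuotientGroup.mk' N).subgroupMap G0
    have hk : f.ker = N.subgroupOf G0 := by
      ext x
      rw [MonoidHom.mem_ker, Subgroup.mem_subgroupOf]
      constructor
      · intro h
        have := congrArg Subtype.val h
        exact (QuotientGroup.eq_one_iff _).1 this
      · intro h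
        apply Subtype.ext
        exact (QuotientGroup.eq_one_iff _).2 h
    have hs : Function.Surjective f := (QuotientGroup.mk' N).subgroupMap_surjective G0
    exact Group.nilpotent_of_mulEquiv ((QuotientGroup.quotientMulEquivOfEq hk).symm.trans
      (QuotientGroup.quotientKerEquivOfSurjective f hs)).symm

end Pool.Agent.Helper98.RS
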