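import Pool.Agent.Helper98.RS.B7
import Pool.Agent.Helper98.RS.C1
import Pool.Agent.Helper98.RS.C3
import Pool.Agent.Helper98.RS.C4
import Pool.Agent.Helper98.RS.C5
import Pool.Agent.Helper41.Gap.SubexpBasic

set_option autoImplicit false

open scoped Pointwise

namespace Pool.Agent.Helper98.RS

private theorem fin_rpow (C α β : ℝ) (hC : 0 < C) (hβ : 0 < β) (hαβ : α < β) :
    ∃ n0 : ℕ, ∀ n : ℕ, n0 ≤ n → C * Real.exp ((C * n) ^ α) ≤ Real.exp ((n : ℝ) ^ β) := by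
  set γ : ℝ := max α (β / 2) with hγ
  have hγβ : γ < β := max_lt hαβ (by linarith)
  have hγ0 : 0 < γ := lt_of_lt_of_le (by linarith) (le_max_right _ _)
  have h1 : Filter.Tendsto (fun x : ℝ => C ^ γ * x ^ (-(β - γ)) + Real.log C * x ^ (-β))
      Filter.atTop (nhds (C ^ γ * 0 + Real.log C * 0)) :=
    ((tendsto_rpow_neg_atTop (by linarith)).const_mul _).add
      ((tendsto_rpow_neg_atTop hβ).const_mul _)
  have h2 := h1.eventually (gt_mem_nhds (show C ^ γ * 0 + Real.log C * 0 < (1 : ℝ) by simp))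
  rw [Filter.eventually_atTop] at h2
  obtain ⟨x0, hx0⟩ := h2
  refine ⟨max ⌈x0⌉₊ (max 1 ⌈1 / C⌉₊), fun n hn => ?_⟩
  have hn1 : x0 ≤ n := (Nat.le_ceil x0).trans (by exact_mod_cast (le_max_left _ _).trans hn)
  have hn2 : (1 : ℕ) ≤ n := (le_max_left _ _).trans ((le_max_right _ _).trans hn)
  have hn3 : 1 / C ≤ n := (Nat.le_ceil _).trans
    (by exact_mod_cast (le_max_right _ _).trans ((le_max_right _ _).trans hn))
  have hn0 : (0 : ℝ) < n := by exact_mod_cast hn2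
  have hCn : 1 ≤ C * n := by
    rw [div_le_iff₀ hC] at hn3
    linarith
  have h3 : (C * n) ^ α ≤ C ^ γ * (n : ℝ) ^ γ := by
    rw [← Real.mul_rpow hC.le hn0.le]
    exact Real.rpow_le_rpow_of_exponent_le hCn (le_max_left _ _)
  have h4 := hx0 n hn1
  have h5 : C ^ γ * (n : ℝ) ^ γ + Real.log C ≤ (n : ℝ) ^ β := by
    have hp : 0 < (n : ℝ) ^ β := Real.rpow_pos_of_pos hn0 β
    have h6 := mul_le_mul_of_nonneg_right h4.le hp.le
    rw [one_mul, add_mul, mul_assoc, mul_assoc, ← Real.rpow_add hn0, ← Real.rpow_add hn0] at h6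
    have e1 : -(β - γ) + β = γ := by ring
    have e2 : -β + β = 0 := by ring
    rw [e1, e2, Real.rpow_zero, mul_one] at h6
    exact h6
  calc C * Real.exp ((C * n) ^ α) = Real.exp (Real.log C + (C * n) ^ α) := by
        rw [Real.exp_add, Real.exp_log hC]
    _ ≤ Real.exp ((n : ℝ) ^ β) := Real.exp_le_exp.2 (by linarith)

theorem final (G : Type) [Group G] (S : Set G) (hSf : S.Finite) (hS : Subgroup.closure S = ⊤)
    (hres : ∀ g : G, g ≠ 1 → ∃ (N : Subgroup G) (_ : N.Normal), g ∉ N ∧ Group.IsSolvable (G ⧸ N))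
    (α : ℝ) (hα : α < Real.log 3 / Real.log 96)
    (hgr : ∃ C : ℝ, 0 < C ∧ ∀ n : ℕ, (Nat.card ↥((({1} : Set G) ∪ S ∪ S⁻¹) ^ n) : ℝ) ≤
      C * Real.exp ((C * n) ^ α)) :
    ∃ H : Subgroup G, H.FiniteIndex ∧ ∀ g : H, g ≠ 1 →
      ∃ (N : Subgroup H) (_ : N.Normal), N.FiniteIndex ∧ g ∉ N ∧ Group.IsNilpotent (H ⧸ N) := by
  obtain ⟨C, hC, hgr⟩ := hgr
  have hlog3 : 0 < Real.log 3 := Real.log_pos (by norm_num)
  have hlog96 : 0 < Real.log 96 := Real.log_pos (by norm_num)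
  have hc : 0 < Real.log 3 / Real.log 96 := by positivity
  have hc1 : Real.log 3 / Real.log 96 < 1 := by
    rw [div_lt_one hlog96]
    exact Real.log_lt_log (by norm_num) (by norm_num)
  obtain ⟨β, hβ1, hβ2⟩ := exists_between (max_lt hα hc)
  have hβ0 : 0 < β := (le_max_right _ _).trans_lt hβ1
  have hαβ : α < β := (le_max_left _ _).trans_lt hβ1
  have hG : GB S β := by
    obtain ⟨n0, hn0⟩ := fin_rpow C α β hC hβ0 hαβ
    exact ⟨n0, fun n hn => (hgr n).trans (hn0 n hn)⟩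
  have hsub : SubExp' G := subexp_of_gb S hSf hS β (hβ2.trans hc1) hG
  have hfg : Group.FG G := by
    rw [Group.fg_iff]
    exact ⟨S, hS, hSf⟩
  obtain ⟨D, hD⟩ := dim_bounded S hSf hS β hβ0 hβ2 hG
  obtain ⟨m, hm⟩ := index_bounded hfg hsub D hD
  have hres' : ∀ g : G, g ≠ 1 → ∃ N : Subgroup G, N.Normal ∧ N.FiniteIndex ∧
      (∃ k, derivedSeries G k ≤ N) ∧ g ∉ N := by
    intro g hg
    obtain ⟨N, hN, hgN, hsol⟩ := hres g hg
    have hsub' : SubExp' (G ⧸ N) :=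
      Pool.Agent.Helper41.Gap.subexp_of_surjective (QuotientGroup.mk' N)
        (QuotientGroup.mk'_surjective N) hsub
    have hfg' : Group.FG (G ⧸ N) := inferInstance
    have hg' : (QuotientGroup.mk' N g) ≠ 1 := by
      intro h
      exact hgN ((QuotientGroup.eq_one_iff g).1 h)
    obtain ⟨N', hN', hfi, hgN'⟩ := vnil_resfinite hfg' (milnor_wolf hfg' hsol hsub') _ hg'
    refine ⟨N'.comap (QuotientGroup.mk' N), inferInstance, ⟨?_⟩, ?_, hgN'⟩
    · rw [Subgroup.index_comap_of_surjective _ (QuotientGroup.mk'_surjective N)]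
      exact hfi.index_ne_zero
    obtain ⟨k, hk⟩ := (Group.isSolvable_def (G ⧸ N)).1 hsol
    refine ⟨k, fun x hx => ?_⟩
    have hx' : QuotientGroup.mk' N x ∈ derivedSeries (G ⧸ N) k :=
      (map_derivedSeries_le_derivedSeries (QuotientGroup.mk' N) k) (Subgroup.mem_map_of_mem _ hx)
    rw [hk, Subgroup.mem_bot] at hx'
    rw [Subgroup.mem_comap, hx']
    exact N'.one_mem
  obtain ⟨G0, -, hG0, h⟩ := final_step hfg m hm hres'
  exact ⟨G0, hG0, h⟩

end Pool.Agent.Helper98.RS
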