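import Pool.Agent.Helper98.RS.Defs

set_option autoImplicit false

open scoped Pointwise

namespace Pool.Agent.Helper98.RS

variable {G : Type} [Group G] {p d : ℕ} {N M : Subgroup G}

/-- the quotient `M / N` written additively -/
private theorem b0_exists (h : Prim p d N M) : ∃ (V : Type) (_ : AddCommGroup V) (q : G → V),
    (∀ x ∈ M, ∀ y ∈ M, q (x * y) = q x + q y) ∧ (∀ x ∈ M, q x = 0 ↔ x ∈ N) ∧
    (∀ v, ∃ x ∈ M, q x = v) ∧ Nat.card V = p ^ d ∧ ∀ v : V, p • v = 0 := by
  classical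
  have hM := h.nM
  have hN := h.nN
  let Q : Type := M ⧸ N.subgroupOf M
  let instC : CommGroup Q :=
    { (inferInstance : Group Q) with
      mul_comm := by
        intro a b
        obtain ⟨x, rfl⟩ := QuotientGroup.mk_surjective a
        obtain ⟨y, rfl⟩ := QuotientGroup.mk_surjective b
        change (QuotientGroup.mk (x * y) : Q) = QuotientGroup.mk (y * x)
        rw [QuotientGroup.eq, Subgroup.mem_subgroupOf]
        have h1 := h.comm _ (M.inv_mem y.2) _ (M.inv_mem x.2)
        have h2 : (((x * y)⁻¹ * (y * x) : M) : G) =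
            (y : G)⁻¹ * (x : G)⁻¹ * (y : G)⁻¹⁻¹ * (x : G)⁻¹⁻¹ := by
          simp [mul_assoc]
        rw [h2]
        exact h1 }
  let q : G → Additive Q := fun g =>
    if hg : g ∈ M then Additive.ofMul (QuotientGroup.mk ⟨g, hg⟩ : Q) else 0
  have hq : ∀ (x : G) (hx : x ∈ M), q x = Additive.ofMul (QuotientGroup.mk ⟨x, hx⟩ : Q) := by
    intro x hx
    simp only [q, dif_pos hx]
  refine ⟨Additive Q, inferInstance, q, ?_, ?_, ?_, h.card, ?_⟩
  · intro x hx y hy
    rw [hq x hx, hq y hy, hq (x * y) (M.mul_mem hx hy)]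
    rfl
  · intro x hx
    rw [hq x hx]
    change (QuotientGroup.mk (⟨x, hx⟩ : M) : Q) = 1 ↔ _
    rw [QuotientGroup.eq_one_iff, Subgroup.mem_subgroupOf]
  · intro v
    obtain ⟨x, hx⟩ := QuotientGroup.mk_surjective (Additive.toMul v)
    refine ⟨x, x.2, ?_⟩
    rw [hq x x.2]
    exact congrArg Additive.ofMul hx
  · intro v
    obtain ⟨x, hx⟩ := QuotientGroup.mk_surjective (Additive.toMul v)
    have h1 : (Additive.toMul v) ^ p = 1 := by
      rw [← hx]
      change (QuotientGroup.mk (x ^ p) : Q) = 1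
      rw [QuotientGroup.eq_one_iff, Subgroup.mem_subgroupOf]
      exact_mod_cast h.exp x x.2
    exact h1

/-- The representation attached to a primitive quotient. -/
theorem prim_rep (h : Prim p d N M) : ∃ (_ : Fact p.Prime) (_ : M.Normal) (V : Type)
    (_ : AddCommGroup V) (_ : Module (ZMod p) V) (_ : Finite V)
    (ρ : Representation (ZMod p) (G ⧸ M) V) (q : G → V),
    Function.Injective ρ ∧ Irr ρ ∧ Module.finrank (ZMod p) V = d ∧
    (∀ x ∈ M, ∀ y ∈ M, q (x * y) = q x + q y) ∧ (∀ x ∈ M, q x = 0 ↔ x ∈ N) ∧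
    (∀ v, ∃ x ∈ M, q x = v) ∧ (∀ g, ∀ x ∈ M, q (g * x * g⁻¹) = ρ (QuotientGroup.mk g) (q x)) := by
  classical
  have hp : Fact p.Prime := ⟨h.prime⟩
  have hM := h.nM
  have hN := h.nN
  obtain ⟨V, instA, q, hqm, hq0, hqs, hcard, hexp⟩ := b0_exists h
  obtain ⟨instM⟩ : Nonempty (Module (ZMod p) V) := ⟨AddCommGroup.zmodModule hexp⟩
  have hfV : Finite V := by
    apply Nat.finite_of_card_ne_zero
    rw [hcard]
    exact (pow_pos h.prime.pos _).ne'
  have hqi : ∀ x ∈ M, q x⁻¹ = - q x := by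
    intro x hx
    have h1 := hqm x hx x⁻¹ (M.inv_mem hx)
    rw [mul_inv_cancel, (hq0 1 M.one_mem).2 N.one_mem] at h1
    exact (neg_eq_of_add_eq_zero_right h1.symm).symm
  have hqe : ∀ x ∈ M, ∀ y ∈ M, q x = q y → ∀ g, q (g * x * g⁻¹) = q (g * y * g⁻¹) := by
    intro x hx y hy hxy g
    have h1 : x * y⁻¹ ∈ N := by
      rw [← hq0 _ (M.mul_mem hx (M.inv_mem hy)), hqm x hx _ (M.inv_mem hy), hqi y hy, hxy,
        add_neg_cancel]
    have h2 : g * (x * y⁻¹) * g⁻¹ ∈ N := hN.conj_mem _ h1 g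
    have h3 : g * x * g⁻¹ = (g * (x * y⁻¹) * g⁻¹) * (g * y * g⁻¹) := by group
    rw [h3, hqm _ (h.le h2) _ (hM.conj_mem y hy g), (hq0 _ (h.le h2)).2 h2, zero_add]
  choose s hsM hsq using hqs
  let T : G → V →+ V := fun g =>
    { toFun := fun v => q (g * s v * g⁻¹)
      map_zero' := by
        have h1 : q (s 0) = q 1 := by rw [hsq, (hq0 1 M.one_mem).2 N.one_mem]
        rw [hqe _ (hsM 0) _ M.one_mem h1 g, mul_one, mul_inv_cancel,
          (hq0 1 M.one_mem).2 N.one_mem]
      map_add' := by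
        intro v w
        have h1 : q (s (v + w)) = q (s v * s w) := by
          rw [hsq, hqm _ (hsM v) _ (hsM w), hsq, hsq]
        rw [hqe _ (hsM _) _ (M.mul_mem (hsM v) (hsM w)) h1 g,
          ← hqm _ (hM.conj_mem _ (hsM v) g) _ (hM.conj_mem _ (hsM w) g)]
        congr 1
        group }
  have hT : ∀ g, ∀ x ∈ M, T g (q x) = q (g * x * g⁻¹) := by
    intro g x hx
    change q (g * s (q x) * g⁻¹) = _
    exact hqe _ (hsM _) _ hx (hsq _) g
  let ρ0 : G →* Module.End (ZMod p) V :=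
    { toFun := fun g => AddMonoidHom.toZModLinearMap p (T g)
      map_one' := by
        apply LinearMap.ext
        intro v
        rw [Module.End.one_apply, AddMonoidHom.coe_toZModLinearMap, ← hsq v, hT 1 _ (hsM v)]
        congr 1
        group
      map_mul' := by
        intro g g'
        apply LinearMap.ext
        intro v
        rw [Module.End.mul_apply, AddMonoidHom.coe_toZModLinearMap,
          AddMonoidHom.coe_toZModLinearMap, AddMonoidHom.coe_toZModLinearMap, ← hsq v,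
          hT _ _ (hsM v), hT _ _ (hsM v), hT _ _ (hM.conj_mem _ (hsM v) g')]
        congr 1
        group }
  have hρ0 : ∀ g, ∀ x ∈ M, ρ0 g (q x) = q (g * x * g⁻¹) := hT
  have hker : M ≤ ρ0.ker := by
    intro g hg
    rw [MonoidHom.mem_ker]
    apply LinearMap.ext
    intro v
    rw [Module.End.one_apply, ← hsq v, hρ0 g _ (hsM v)]
    have h1 : g * s v * g⁻¹ = (g * s v * g⁻¹ * (s v)⁻¹) * s v := by group
    have h2 := h.comm g hg _ (hsM v)
    rw [h1, hqm _ (h.le h2) _ (hsM v), (hq0 _ (h.le h2)).2 h2, zero_add]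
  let ρ : Representation (ZMod p) (G ⧸ M) V := QuotientGroup.lift M ρ0 hker
  have hρ : ∀ g : G, ρ (QuotientGroup.mk g) = ρ0 g := fun g => rfl
  have hqc : ∀ g, ∀ x ∈ M, q (g * x * g⁻¹) = ρ (QuotientGroup.mk g) (q x) := by
    intro g x hx
    rw [hρ, hρ0 g x hx]
  refine ⟨hp, hM, V, inferInstance, instM, hfV, ρ, q, ?_, ?_, ?_, hqm, hq0,
    fun v => ⟨s v, hsM v, hsq v⟩, hqc⟩
  · -- faithful
    rw [injective_iff_map_eq_one]
    intro a ha
    obtain ⟨g, rfl⟩ := QuotientGroup.mk_surjective a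
    rw [QuotientGroup.eq_one_iff]
    apply h.cent
    intro m hm
    have h1 : q (g * m * g⁻¹) = q m := by
      rw [hqc g m hm, ha, Module.End.one_apply]
    rw [← hq0 _ (M.mul_mem (hM.conj_mem m hm g) (M.inv_mem hm)), hqm _ (hM.conj_mem m hm g) _
      (M.inv_mem hm), h1, hqi m hm, add_neg_cancel]
  · refine ⟨?_, ?_⟩
    · obtain ⟨x, hx, hxN⟩ := SetLike.exists_of_lt (lt_of_le_of_ne h.le h.ne)
      exact ⟨⟨q x, 0, fun h0 => hxN ((hq0 x hx).1 h0)⟩⟩
    · intro W hW
      let K : Subgroup G :=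
        { carrier := {x | x ∈ M ∧ q x ∈ W}
          mul_mem' := by
            rintro a b ⟨ha, ha'⟩ ⟨hb, hb'⟩
            exact ⟨M.mul_mem ha hb, by rw [hqm a ha b hb]; exact W.add_mem ha' hb'⟩
          one_mem' := ⟨M.one_mem, by rw [(hq0 1 M.one_mem).2 N.one_mem]; exact W.zero_mem⟩
          inv_mem' := by
            rintro a ⟨ha, ha'⟩
            exact ⟨M.inv_mem ha, by rw [hqi a ha]; exact W.neg_mem ha'⟩ }
      have hK : K.Normal := by
        refine ⟨fun x hx g => ⟨hM.conj_mem x hx.1 g, ?_⟩⟩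
        rw [hqc g x hx.1]
        exact hW _ _ hx.2
      have hNK : N ≤ K := fun x hx => ⟨h.le hx, by
        rw [(hq0 x (h.le hx)).2 hx]; exact W.zero_mem⟩
      have hKM : K ≤ M := fun x hx => hx.1
      rcases h.min K hK hNK hKM with h1 | h1
      · left
        rw [eq_bot_iff]
        intro v hv
        have h2 : s v ∈ K := ⟨hsM v, by rw [hsq]; exact hv⟩
        rw [h1] at h2
        rw [Submodule.mem_bot, ← hsq v]
        exact (hq0 _ (hsM v)).2 h2
      · right
        rw [eq_top_iff]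
        intro v _
        have h2 : s v ∈ K := by rw [h1]; exact hsM v
        rw [← hsq v]
        exact h2.2
  · have h2 : Nat.card V = Nat.card (ZMod p) ^ Module.finrank (ZMod p) V :=
      Module.natCard_eq_pow_finrank
    rw [Nat.card_zmod, hcard] at h2
    exact (Nat.pow_right_injective h.prime.two_le h2).symm

end Pool.Agent.Helper98.RS
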