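import Pool.Agent.Helper98.RS.Defs

set_option autoImplicit false

open scoped Pointwise

namespace Pool.Agent.Helper98.RS

private theorem a10_comm {H : Type} [Group H] (A T : Subgroup H)
    (hcent : T ≤ Subgroup.centralizer (A : Set H)) {a y : H} (ha : a ∈ A) (hy : y ∈ T) :
    a * y = y * a :=
  (Subgroup.mem_centralizer_iff.1 (hcent hy)) a ha

private theorem a10_mul {H : Type} [Group H] (A T : Subgroup H)
    (hcent : T ≤ Subgroup.centralizer (A : Set H)) (c : H)
    (h : ∀ y ∈ T, c * y * c⁻¹ * y⁻¹ ∈ A) (y z : H) (hy : y ∈ T) (hz : z ∈ T) :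
    c * (y * z) * c⁻¹ * (y * z)⁻¹ = (c * y * c⁻¹ * y⁻¹) * (c * z * c⁻¹ * z⁻¹) := by
  have h1 := a10_comm A T hcent (h z hz) hy
  calc c * (y * z) * c⁻¹ * (y * z)⁻¹
      = (c * y * c⁻¹ * y⁻¹) * (y * (c * z * c⁻¹ * z⁻¹)) * y⁻¹ := by group
    _ = (c * y * c⁻¹ * y⁻¹) * ((c * z * c⁻¹ * z⁻¹) * y) * y⁻¹ := by rw [h1]
    _ = _ := by group

private theorem a10_hom {p : ℕ} [Fact p.Prime]
    (H : Type) [Group H] (V : Type) [AddCommGroup V] [Module (ZMod p) V]
    (ρ : Representation (ZMod p) H V)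
    (A : Subgroup H) [A.Normal] (T : Subgroup H) (hT : Soc A T)
    (c : H) (hc : c ∈ Subgroup.centralizer (A : Set H))
    (h : ∀ y ∈ T, c * y * c⁻¹ * y⁻¹ ∈ A) :
    ∃ f : (T ⧸ A.subgroupOf T) →* (alg ρ A), ∀ y : T,
      ((f (QuotientGroup.mk y) : alg ρ A) : Module.End (ZMod p) V) =
        ρ (c * (y : H) * c⁻¹ * (y : H)⁻¹) := by
  have hmem : ∀ y : T, ρ (c * (y : H) * c⁻¹ * (y : H)⁻¹) ∈ alg ρ A := fun y =>
    Algebra.subset_adjoin ⟨_, h y y.2, rfl⟩
  let g : T →* (alg ρ A) :=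
    { toFun := fun y => ⟨ρ (c * (y : H) * c⁻¹ * (y : H)⁻¹), hmem y⟩
      map_one' := by
        apply Subtype.ext
        simp
      map_mul' := fun y z => by
        apply Subtype.ext
        show ρ _ = ρ _ * ρ _
        rw [← map_mul]
        congr 1
        exact a10_mul A T hT.cent c h y z y.2 z.2 }
  have hker : A.subgroupOf T ≤ g.ker := by
    intro y hy
    rw [MonoidHom.mem_ker]
    apply Subtype.ext
    show ρ _ = 1
    have hyA : (y : H) ∈ A := Subgroup.mem_subgroupOf.1 hy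
    have h2 : (y : H) * c = c * y := (Subgroup.mem_centralizer_iff.1 hc) _ hyA
    have h3 : c * (y : H) * c⁻¹ * (y : H)⁻¹ = 1 := by
      rw [← h2]; group
    rw [h3, map_one]
  exact ⟨QuotientGroup.lift _ g hker, fun y => rfl⟩

private theorem a10_card (Q : Type) [Group Q] [Finite Q] (L : Type) [Field L] :
    Finite (Q →* L) ∧ Nat.card (Q →* L) ≤ Nat.card Q := by
  classical
  have := Fintype.ofFinite Q
  have hli := linearIndependent_monoidHom Q L
  have : Finite (Q →* L) := hli.finite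
  have := Fintype.ofFinite (Q →* L)
  refine ⟨inferInstance, ?_⟩
  have h1 := hli.fintype_card_le_finrank
  rw [Module.finrank_fintype_fun_eq_card] at h1
  rwa [Nat.card_eq_fintype_card, Nat.card_eq_fintype_card]

/-- Elements of the centraliser of `A` acting trivially on `T / A` lie in `T`. -/
theorem soc_self {p : ℕ} [Fact p.Prime]
    (H : Type) [Group H] [Finite H] (V : Type) [AddCommGroup V] [Module (ZMod p) V] [Finite V]
    [Nontrivial V] (ρ : Representation (ZMod p) H V) (hinj : Function.Injective ρ)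
    (A : Subgroup H) [A.Normal] (hE : IsField (alg ρ A)) (T : Subgroup H) (hT : Soc A T)
    (c : H) (hc : c ∈ Subgroup.centralizer (A : Set H))
    (h : ∀ y ∈ T, c * y * c⁻¹ * y⁻¹ ∈ A) : c ∈ T := by
  classical
  letI : Field (alg ρ A) := hE.toField
  choose F hF using fun q : T ⧸ A.subgroupOf T => a10_hom H V ρ A T hT (q.out : H)
    (hT.cent q.out.2) (fun y hy => hT.comm _ q.out.2 y hy)
  obtain ⟨hfin, hcard⟩ := a10_card (T ⧸ A.subgroupOf T) (alg ρ A)
  -- equality of the maps gives commutation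
  have hcomm : ∀ x z : H, (∀ y : T, ρ (x * (y : H) * x⁻¹ * (y : H)⁻¹) =
      ρ (z * (y : H) * z⁻¹ * (y : H)⁻¹)) → ∀ y ∈ T, (z⁻¹ * x) * y = y * (z⁻¹ * x) := by
    intro x z hxz y hy
    have h1 := hinj (hxz ⟨y, hy⟩)
    have h2 : x * y * x⁻¹ = z * y * z⁻¹ := mul_right_cancel h1
    calc (z⁻¹ * x) * y = z⁻¹ * (x * y * x⁻¹) * x := by group
      _ = z⁻¹ * (z * y * z⁻¹) * x := by rw [h2]
      _ = y * (z⁻¹ * x) := by group
  have hFinj : Function.Injective F := by
    intro q q' hqq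
    have h1 : ∀ y ∈ T, ((q'.out : H)⁻¹ * (q.out : H)) * y = y * ((q'.out : H)⁻¹ * (q.out : H)) := by
      apply hcomm
      intro y
      rw [← hF q y, ← hF q' y, hqq]
    have h2 : (q'.out : H)⁻¹ * (q.out : H) ∈ A :=
      hT.center _ (T.mul_mem (T.inv_mem q'.out.2) q.out.2) h1
    have h3 : (QuotientGroup.mk q'.out : T ⧸ A.subgroupOf T) = QuotientGroup.mk q.out := by
      rw [QuotientGroup.eq, Subgroup.mem_subgroupOf]
      simpa using h2
    rw [QuotientGroup.out_eq', QuotientGroup.out_eq'] at h3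
    exact h3.symm
  have hbij := hFinj.bijective_of_nat_card_le hcard
  obtain ⟨f, hf⟩ := a10_hom H V ρ A T hT c hc h
  obtain ⟨q, hq⟩ := hbij.2 f
  have h1 : ∀ y ∈ T, ((q.out : H)⁻¹ * c) * y = y * ((q.out : H)⁻¹ * c) := by
    apply hcomm
    intro y
    rw [← hF q y, hq, hf y]
  have h2 : (q.out : H)⁻¹ * c ∈ A :=
    hT.center' _ ((Subgroup.centralizer (A : Set H)).mul_mem
      ((Subgroup.centralizer (A : Set H)).inv_mem (hT.cent q.out.2)) hc) h1
  have h3 := T.mul_mem q.out.2 (hT.le h2)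
  simpa using h3

/-- The primes dividing the index of `A` in `T` divide the order of `A`. -/
theorem soc_prime {H : Type} [Group H] [Finite H] (A T : Subgroup H) [A.Normal] (hT : Soc A T)
    (s : ℕ) (hs : s.Prime) (hd : s ∣ A.relIndex T) : s ∣ Nat.card A := by
  classical
  have : Fact s.Prime := ⟨hs⟩
  have hd' : s ∣ Nat.card (T ⧸ A.subgroupOf T) := hd
  obtain ⟨q, hq⟩ := exists_prime_orderOf_dvd_card' s hd'
  set x : H := (q.out : H) with hx
  have hxT : x ∈ T := q.out.2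
  have hqx : (QuotientGroup.mk q.out : T ⧸ A.subgroupOf T) = q := QuotientGroup.out_eq' q
  have hxs : x ^ s ∈ A := by
    have h1 : q ^ s = 1 := by rw [← hq]; exact pow_orderOf_eq_one q
    rw [← hqx, ← QuotientGroup.mk_pow, QuotientGroup.eq_one_iff, Subgroup.mem_subgroupOf] at h1
    simpa using h1
  have hxA : x ∉ A := by
    intro hxA
    have h1 : q = 1 := by
      rw [← hqx, QuotientGroup.eq_one_iff, Subgroup.mem_subgroupOf]
      exact hxA
    rw [h1, orderOf_one] at hq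
    exact hs.one_lt.ne hq
  obtain ⟨y, hy, hxy⟩ : ∃ y ∈ T, x * y ≠ y * x := by
    by_contra hcon
    push Not at hcon
    exact hxA (hT.center x hxT hcon)
  have hmul : ∀ n : ℕ, x ^ n * y * (x ^ n)⁻¹ * y⁻¹ = (x * y * x⁻¹ * y⁻¹) ^ n := by
    intro n
    induction n with
    | zero => simp
    | succ n ih =>
      have h1 := a10_comm A T hT.cent (hT.comm x hxT y hy) (T.pow_mem hxT n)
      rw [pow_succ (x * y * x⁻¹ * y⁻¹) n, ← ih]
      calc x ^ (n + 1) * y * (x ^ (n + 1))⁻¹ * y⁻¹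
          = (x ^ n * (x * y * x⁻¹ * y⁻¹)) * y * (x ^ n)⁻¹ * y⁻¹ := by
            rw [pow_succ]; group
        _ = ((x * y * x⁻¹ * y⁻¹) * x ^ n) * y * (x ^ n)⁻¹ * y⁻¹ := by rw [h1]
        _ = (x * y * x⁻¹ * y⁻¹) * (x ^ n * y * (x ^ n)⁻¹ * y⁻¹) := by group
        _ = (x ^ n * y * (x ^ n)⁻¹ * y⁻¹) * (x * y * x⁻¹ * y⁻¹) := by
            have h2 : x ^ n * y * (x ^ n)⁻¹ * y⁻¹ ∈ T :=
              T.mul_mem (T.mul_mem (T.mul_mem (T.pow_mem hxT n) hy) (T.inv_mem (T.pow_mem hxT n)))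
                (T.inv_mem hy)
            exact a10_comm A T hT.cent (hT.comm x hxT y hy) h2
  have ha : (x * y * x⁻¹ * y⁻¹) ^ s = 1 := by
    rw [← hmul s]
    have h1 := a10_comm A T hT.cent hxs hy
    rw [h1]; group
  have hne : x * y * x⁻¹ * y⁻¹ ≠ 1 := by
    intro h1
    apply hxy
    calc x * y = (x * y * x⁻¹ * y⁻¹) * (y * x) := by group
      _ = y * x := by rw [h1, one_mul]
  set a : A := ⟨x * y * x⁻¹ * y⁻¹, hT.comm x hxT y hy⟩ with hadef
  have ho : orderOf a = s := by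
    apply orderOf_eq_prime
    · apply Subtype.ext
      simpa using ha
    · intro h1
      exact hne (congrArg Subtype.val h1)
  rw [← ho]
  exact orderOf_dvd_natCard a

end Pool.Agent.Helper98.RS
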