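import Pool.Agent.Helper98.RS.A1
import Pool.Agent.Helper98.RS.A2
import Pool.Agent.Helper47.RS.LinKer

set_option autoImplicit false

open scoped Pointwise

namespace Pool.Agent.Helper98.RS

private theorem a11_cr {H : Type} [Group H] (A T N : Subgroup H) (hT : Soc A T)
    (s : ℕ) [Fact s.Prime] (V : Type) [AddCommGroup V] [Module (ZMod s) V]
    (ρ : Representation (ZMod s) H V) (q : H → V) (hAN : A ≤ N)
    (q1 : ∀ x ∈ T, ∀ y ∈ T, q (x * y) = q x + q y) (q2 : ∀ x ∈ T, q x = 0 ↔ x ∈ N)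
    (q3 : ∀ v, ∃ x ∈ T, q x = v) (q4 : ∀ g, ∀ x ∈ T, q (g * x * g⁻¹) = ρ g (q x)) : CR ρ := by
  intro W hW
  have q0 : q 1 = 0 := (q2 1 T.one_mem).2 N.one_mem
  have qinv : ∀ x ∈ T, q x⁻¹ = - q x := by
    intro x hx
    have h1 := q1 x hx x⁻¹ (T.inv_mem hx)
    rw [mul_inv_cancel, q0] at h1
    exact (neg_eq_of_add_eq_zero_right h1.symm).symm
  let Wt : Subgroup H :=
    { carrier := {x | x ∈ T ∧ q x ∈ W}
      mul_mem' := by
        rintro x y ⟨hx, hx'⟩ ⟨hy, hy'⟩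
        refine ⟨T.mul_mem hx hy, ?_⟩
        rw [q1 x hx y hy]
        exact W.add_mem hx' hy'
      one_mem' := ⟨T.one_mem, by rw [q0]; exact W.zero_mem⟩
      inv_mem' := by
        rintro x ⟨hx, hx'⟩
        refine ⟨T.inv_mem hx, ?_⟩
        rw [qinv x hx]
        exact W.neg_mem hx' }
  have hWt : ∀ x, x ∈ Wt ↔ x ∈ T ∧ q x ∈ W := fun x => Iff.rfl
  have hWtn : Wt.Normal := ⟨by
    intro x hx g
    rw [hWt] at hx ⊢
    refine ⟨hT.nT.conj_mem x hx.1 g, ?_⟩
    rw [q4 g x hx.1]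
    exact hW g _ hx.2⟩
  obtain ⟨W', hn, hA', hT', hinf, hsup⟩ := hT.cr Wt hWtn
    (fun x hx => (hWt x).2 ⟨hT.le hx, by rw [(q2 x (hT.le hx)).2 (hAN hx)]; exact W.zero_mem⟩)
    (fun x hx => ((hWt x).1 hx).1)
  let Wa : AddSubgroup V :=
    { carrier := {v | ∃ x ∈ W', q x = v}
      add_mem' := by
        rintro _ _ ⟨x, hx, rfl⟩ ⟨y, hy, rfl⟩
        exact ⟨x * y, W'.mul_mem hx hy, q1 x (hT' hx) y (hT' hy)⟩
      zero_mem' := ⟨1, W'.one_mem, q0⟩
      neg_mem' := by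
        rintro _ ⟨x, hx, rfl⟩
        exact ⟨x⁻¹, W'.inv_mem hx, qinv x (hT' hx)⟩ }
  have hWa : ∀ v, v ∈ AddSubgroup.toZModSubmodule s Wa ↔ ∃ x ∈ W', q x = v := fun v => Iff.rfl
  refine ⟨AddSubgroup.toZModSubmodule s Wa, ?_, ?_, ?_⟩
  · intro h v hv
    rw [hWa] at hv ⊢
    obtain ⟨x, hx, rfl⟩ := hv
    exact ⟨h * x * h⁻¹, hn.conj_mem x hx h, q4 h x (hT' hx)⟩
  · rw [Submodule.disjoint_def]
    intro v hv hv'
    rw [hWa] at hv'
    obtain ⟨x, hx, rfl⟩ := hv'
    have h1 : x ∈ Wt ⊓ W' := ⟨(hWt x).2 ⟨hT' hx, hv⟩, hx⟩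
    rw [hinf] at h1
    exact (q2 x (hT' hx)).2 (hAN h1)
  · rw [codisjoint_iff, eq_top_iff]
    intro v _
    obtain ⟨x, hx, rfl⟩ := q3 v
    rw [← hsup] at hx
    obtain ⟨a, ha, b, hb, rfl⟩ := Subgroup.mem_sup_of_normal_right.1 hx
    rw [q1 a ((hWt a).1 ha).1 b (hT' hb)]
    exact Submodule.add_mem _ (Submodule.mem_sup_left ((hWt a).1 ha).2)
      (Submodule.mem_sup_right ((hWa _).2 ⟨b, hb, rfl⟩))

private theorem a11_prime {P : ∀ (H : Type) [Group H], Prop} (hP : Cls P) {H : Type} [Group H]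
    [Finite H] (hH : P H) (A T : Subgroup H) [A.Normal] (hT : Soc A T) (m s j : ℕ) [Fact s.Prime]
    (hj : ∀ x ∈ T, x ^ (s * j) ∈ A)
    (hm : ∀ t : ℕ, s ∣ A.relIndex T → s ^ t ≤ A.relIndex T → LinDL P s t m)
    (c : Subgroup.centralizer (A : Set H))
    (hc : c ∈ derivedSeries (Subgroup.centralizer (A : Set H)) m) (y : H) (hy : y ∈ T) :
    (QuotientGroup.mk ((c : H) * y * (c : H)⁻¹ * y⁻¹) : H ⧸ A) ^ j = 1 := by
  classical
  have hnT := hT.nT
  have hcm : ∀ x ∈ T, ∀ z ∈ T, Commute (QuotientGroup.mk x : H ⧸ A) (QuotientGroup.mk z) := by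
    intro x hx z hz
    have h1 : (QuotientGroup.mk (x * z * x⁻¹ * z⁻¹) : H ⧸ A) = 1 :=
      (QuotientGroup.eq_one_iff _).2 (hT.comm x hx z hz)
    rw [QuotientGroup.mk_mul, QuotientGroup.mk_mul, QuotientGroup.mk_mul, QuotientGroup.mk_inv,
      QuotientGroup.mk_inv, mul_inv_eq_one, mul_inv_eq_iff_eq_mul] at h1
    exact h1
  let N : Subgroup H :=
    { carrier := {x | x ∈ T ∧ (QuotientGroup.mk x : H ⧸ A) ^ j = 1}
      mul_mem' := by
        rintro x z ⟨hx, hx'⟩ ⟨hz, hz'⟩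
        refine ⟨T.mul_mem hx hz, ?_⟩
        rw [QuotientGroup.mk_mul, (hcm x hx z hz).mul_pow, hx', hz', one_mul]
      one_mem' := ⟨T.one_mem, by rw [QuotientGroup.mk_one, one_pow]⟩
      inv_mem' := by
        rintro x ⟨hx, hx'⟩
        refine ⟨T.inv_mem hx, ?_⟩
        rw [QuotientGroup.mk_inv, inv_pow, hx', inv_one] }
  have hN : ∀ x, x ∈ N ↔ x ∈ T ∧ (QuotientGroup.mk x : H ⧸ A) ^ j = 1 := fun x => Iff.rfl
  have hNn : N.Normal := ⟨by
    intro x hx g
    rw [hN] at hx ⊢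
    refine ⟨hT.nT.conj_mem x hx.1 g, ?_⟩
    rw [QuotientGroup.mk_mul, QuotientGroup.mk_mul, QuotientGroup.mk_inv, conj_pow, hx.2]
    simp⟩
  have hAN : A ≤ N := by
    intro x hx
    rw [hN]
    refine ⟨hT.le hx, ?_⟩
    rw [(QuotientGroup.eq_one_iff x).2 hx, one_pow]
  have hNT : N ≤ T := fun x hx => ((hN x).1 hx).1
  obtain ⟨V, i1, i2, ρ, q, q1, q2, q3, q4, q5⟩ := Pool.Agent.Helper47.RS.sec_rep N T s
    (fun x hx z hz => hAN (hT.comm x hx z hz)) (fun x hx => by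
      rw [hN]
      refine ⟨T.pow_mem hx s, ?_⟩
      rw [← QuotientGroup.mk_pow, ← pow_mul]
      exact (QuotientGroup.eq_one_iff _).2 (hj x hx))
  have hfin : Finite V := by
    have h1 : Function.Surjective (fun x : T => q x) := by
      intro v
      obtain ⟨x, hx, hv⟩ := q3 v
      exact ⟨⟨x, hx⟩, hv⟩
    exact Finite.of_surjective _ h1
  have hfd : Module.Finite (ZMod s) V := Module.Finite.of_finite
  have hcr : CR ρ := a11_cr A T N hT s V ρ q hAN q1 q2 q3 q4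
  have hcard : Nat.card V = s ^ Module.finrank (ZMod s) V := by
    rw [Module.natCard_eq_pow_finrank (K := ZMod s) (V := V), Nat.card_zmod]
  have hdvd : Nat.card V ∣ A.relIndex T := by
    rw [q5]
    exact ⟨A.relIndex N, by rw [mul_comm, Subgroup.relIndex_mul_relIndex A N T hAN hNT]⟩
  have hpos : 0 < A.relIndex T := Nat.pos_of_ne_zero (Subgroup.FiniteIndex.index_ne_zero)
  have hact : ρ (c : H) (q y) = q y := by
    by_cases h0 : Module.finrank (ZMod s) V = 0
    · have hs : Subsingleton V := Module.finrank_zero_iff.1 h0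
      exact Subsingleton.elim _ _
    · have hsd : s ∣ A.relIndex T := by
        refine dvd_trans ?_ hdvd
        rw [hcard]
        exact dvd_pow_self s h0
      have hle : s ^ Module.finrank (ZMod s) V ≤ A.relIndex T := by
        rw [← hcard]
        exact Nat.le_of_dvd hpos hdvd
      have hl := hm _ hsd hle
      have h1 := Pool.Agent.Helper47.RS.lin_ker hP hl (Subgroup.centralizer (A : Set H)) V
        (resrep ρ (Subgroup.centralizer (A : Set H)))
        (hP.of_inj (Subgroup.centralizer (A : Set H)).subtype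
          (Subgroup.subtype_injective _) hH) (cr_restrict ρ hcr _) le_rfl c hc
      have h2 : ρ (c : H) = 1 := h1
      rw [h2, Module.End.one_apply]
  have h3 : q ((c : H) * y * (c : H)⁻¹ * y⁻¹) = 0 := by
    have hcy := hT.nT.conj_mem y hy (c : H)
    rw [q1 _ hcy _ (T.inv_mem hy), q4 _ y hy, hact]
    rw [← q1 y hy y⁻¹ (T.inv_mem hy), mul_inv_cancel]
    exact (q2 1 T.one_mem).2 N.one_mem
  exact ((hN _).1 ((q2 _ (T.mul_mem (hT.nT.conj_mem y hy (c : H)) (T.inv_mem hy))).1 h3)).2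

/-- The centraliser of `A`, modulo `T`, acts completely reducibly and faithfully on `T / A`. -/
theorem soc_dl {P : ∀ (H : Type) [Group H], Prop} (hP : Cls P) {H : Type} [Group H] [Finite H]
    (hH : P H) (A T : Subgroup H) [A.Normal] (hT : Soc A T)
    (hself : ∀ c ∈ Subgroup.centralizer (A : Set H), (∀ y ∈ T, c * y * c⁻¹ * y⁻¹ ∈ A) → c ∈ T)
    (m : ℕ) (hm : ∀ s t : ℕ, s.Prime → s ∣ A.relIndex T → s ^ t ≤ A.relIndex T → LinDL P s t m) :
    derivedSeries (Subgroup.centralizer (A : Set H)) (m + 2) = ⊥ := by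
  classical
  obtain ⟨k, hk, hkT⟩ := hT.sqf
  have key : derivedSeries (Subgroup.centralizer (A : Set H)) m ≤
      T.subgroupOf (Subgroup.centralizer (A : Set H)) := by
    intro c hc
    rw [Subgroup.mem_subgroupOf]
    apply hself c c.2
    intro y hy
    have hzT : (c : H) * y * (c : H)⁻¹ * y⁻¹ ∈ T :=
      T.mul_mem (hT.nT.conj_mem y hy c) (T.inv_mem hy)
    have h1 : orderOf (QuotientGroup.mk ((c : H) * y * (c : H)⁻¹ * y⁻¹) : H ⧸ A) = 1 := by
      by_contra hne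
      obtain ⟨s, hs, hsd⟩ := Nat.exists_prime_and_dvd hne
      have hok : orderOf (QuotientGroup.mk ((c : H) * y * (c : H)⁻¹ * y⁻¹) : H ⧸ A) ∣ k := by
        apply orderOf_dvd_of_pow_eq_one
        rw [← QuotientGroup.mk_pow]
        exact (QuotientGroup.eq_one_iff _).2 (hkT _ hzT)
      have hsk : s ∣ k := hsd.trans hok
      have : Fact s.Prime := ⟨hs⟩
      have hzs := a11_prime hP hH A T hT m s (k / s) (fun x hx => by
        rw [Nat.mul_div_cancel' hsk]
        exact hkT x hx) (fun t h1 h2 => hm s t hs h1 h2) c hc y hy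
      have h2 := orderOf_dvd_of_pow_eq_one hzs
      have h3 : s ∣ k / s := hsd.trans h2
      have h4 : s * s ∣ k := by
        obtain ⟨e, he⟩ := h3
        refine ⟨e, ?_⟩
        rw [mul_assoc, ← he, Nat.mul_div_cancel' hsk]
      exact hs.not_isUnit (hk s h4)
    rw [orderOf_eq_one_iff] at h1
    exact (QuotientGroup.eq_one_iff _).1 h1
  have h1 : derivedSeries (Subgroup.centralizer (A : Set H)) (m + 1) ≤
      A.subgroupOf (Subgroup.centralizer (A : Set H)) := by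
    rw [derivedSeries_succ, Subgroup.commutator_le]
    intro x hx z hz
    have hx' := key hx
    have hz' := key hz
    rw [Subgroup.mem_subgroupOf] at hx' hz' ⊢
    rw [commutatorElement_def]
    exact hT.comm _ hx' _ hz'
  rw [show m + 2 = (m + 1) + 1 from rfl, derivedSeries_succ, eq_bot_iff, Subgroup.commutator_le]
  intro x hx z hz
  have hx' := h1 hx
  rw [Subgroup.mem_subgroupOf] at hx'
  rw [Subgroup.mem_bot, commutatorElement_eq_one_iff_mul_comm]
  apply Subtype.ext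
  exact (Subgroup.mem_centralizer_iff.1 z.2) _ hx'

end Pool.Agent.Helper98.RS
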