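import Pool.Agent.Helper98.RS.A1
import Pool.Agent.Helper98.RS.A2
import Pool.Agent.Helper47.RS.OneOrbit

set_option autoImplicit false

open scoped Pointwise

namespace Pool.Agent.Helper98.RS

theorem perm_step {P : ∀ (H : Type) [Group H], Prop} (hP : Cls P) (H : Type) [Group H] [Finite H]
    (X : Type) [Finite X] [MulAction H X] (hH : P H)
    (hf : ∀ h : H, (∀ x : X, h • x = x) → h = 1) (ht : MulAction.IsPretransitive H X)
    (hX : 2 ≤ Nat.card X) :
    ∃ (r a n' : ℕ) (K : Subgroup H) (_ : K.Normal), r.Prime ∧ 1 ≤ a ∧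
      Nat.card X = n' * r ^ a ∧ (∀ m, PermDL P n' m → derivedSeries (H ⧸ K) m = ⊥) ∧
      (∀ m, LinDL P r a m → derivedSeries K (m + 1) = ⊥) :=
  Pool.Agent.Helper47.RS.perm_step' hP H X hH hf ht hX

end Pool.Agent.Helper98.RS
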