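import Pool.Agent.Helper98.RS.A1
import Pool.Agent.Helper98.RS.A2

set_option autoImplicit false

open scoped Pointwise

namespace Pool.Agent.Helper98.RS

/-- The vectors killed by an ideal. -/
private def A6tor (k V : Type) [Field k] [AddCommGroup V] [Module k V] {R : Type}
    [CommRing R] [Algebra k R] [Module R V] [IsScalarTower k R V] (I : Ideal R) : Submodule k V :=
  (Submodule.torsionBySet R V (I : Set R)).restrictScalars k

section Core

variable {k : Type} [Field k] {V : Type} [AddCommGroup V] [Module k V] {R : Type}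
  [CommRing R] [Algebra k R] [Module R V] [IsScalarTower k R V]

private theorem A6_mem {I : Ideal R} {v : V} : v ∈ A6tor k V I ↔ ∀ r ∈ I, r • v = 0 := by
  unfold A6tor
  rw [Submodule.restrictScalars_mem, Submodule.mem_torsionBySet_iff]
  exact ⟨fun h r hr => h ⟨r, hr⟩, fun h r => h r.1 r.2⟩

private theorem A6_indep {X : Type} [Finite X] (m : X → Ideal R)
    (hm : ∀ x, (m x).IsMaximal) (hne : ∀ x y, x ≠ y → m x ≠ m y) :
    iSupIndep (fun x => A6tor k V (m x)) := by
  classical
  haveI := Fintype.ofFinite X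
  have h1 : iSupIndep (fun x => Submodule.torsionBySet R V (m x : Set R)) := by
    rw [iSupIndep_iff_supIndep_univ]
    refine Submodule.supIndep_torsionBySet_ideal fun x _ y _ hxy => ?_
    exact (hm x).coprime_of_ne (hm y) (hne x y hxy)
  intro x
  rw [Submodule.disjoint_def]
  intro v hv hv'
  have h3 := h1 x
  rw [Submodule.disjoint_def] at h3
  refine h3 v hv ?_
  have h4 : (⨆ y, ⨆ (_ : y ≠ x), A6tor k V (m y)) ≤
      (⨆ y, ⨆ (_ : y ≠ x), Submodule.torsionBySet R V (m y : Set R)).restrictScalars k := by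
    refine iSup_le fun y => iSup_le fun hy => ?_
    intro w hw
    have h5 : w ∈ Submodule.torsionBySet R V (m y : Set R) := hw
    exact (le_iSup₂_of_le (f := fun y (_ : y ≠ x) => Submodule.torsionBySet R V (m y : Set R))
      y hy le_rfl) h5
  exact h4 hv'

variable {H : Type} [Group H]

private theorem A6_core [Finite V] [Finite H] (ρ : Representation k H V) (hirr : Irr ρ)
    [Finite R] (hf : ∀ r : R, (∀ v : V, r • v = 0) → r = 0) (c : H → R →+* R)
    (hc : ∀ h r (v : V), r • ρ h v = ρ h (c h r • v)) (hR : ¬ IsField R) :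
    ∃ W0 : Submodule k V, W0 ≠ ⊥ ∧ W0 ≠ ⊤ ∧
      (∀ W : Submodule k V, (∃ h, W = W0.map (ρ h)) → ∀ (r : R), ∀ v ∈ W, r • v ∈ W) ∧
      iSupIndep (fun W : {W : Submodule k V // ∃ h, W = W0.map (ρ h)} => (W : Submodule k V)) ∧
      (⨆ W : {W : Submodule k V // ∃ h, W = W0.map (ρ h)}, (W : Submodule k V)) = ⊤ := by
  have hinvr : ∀ h (v : V), ρ h (ρ h⁻¹ v) = v := fun h v => by
    rw [← Module.End.mul_apply, ← map_mul, mul_inv_cancel, map_one, Module.End.one_apply]
  have hinvl : ∀ h (v : V), ρ h⁻¹ (ρ h v) = v := fun h v => by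
    rw [← Module.End.mul_apply, ← map_mul, inv_mul_cancel, map_one, Module.End.one_apply]
  have hcc : ∀ h r, c h (c h⁻¹ r) = r := fun h r => by
    have h1 : ∀ v : V, (c h (c h⁻¹ r) - r) • v = 0 := fun v => by
      rw [sub_smul, sub_eq_zero]
      have h2 : ρ h (c h (c h⁻¹ r) • v) = ρ h (r • v) := by
        rw [← hc h (c h⁻¹ r) v]
        have h3 := hc h⁻¹ r (ρ h v)
        rw [hinvl] at h3
        rw [h3, hinvr]
      have h4 := congrArg (ρ h⁻¹) h2
      rwa [hinvl, hinvl] at h4
    exact sub_eq_zero.1 (hf _ h1)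
  have hsurj : ∀ h, Function.Surjective (c h) := fun h r => ⟨c h⁻¹ r, hcc h r⟩
  haveI := hirr.1
  obtain ⟨P, hP⟩ := associatedPrimes.nonempty R V
  rw [AssociatedPrimes.mem_iff, isAssociatedPrime_iff] at hP
  obtain ⟨hPp, x, hx⟩ := hP
  haveI := hPp
  have hPm : P.IsMaximal := inferInstance
  have hxP : x ∈ A6tor k V P := A6_mem.2 fun r hr => by
    rw [hx, Submodule.mem_colon_singleton] at hr
    simpa using hr
  have hx0 : x ≠ 0 := fun h0 => by
    refine hPp.ne_top ?_
    rw [Ideal.eq_top_iff_one, hx, Submodule.mem_colon_singleton, h0]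
    simp
  have hmap : ∀ h, (A6tor k V P).map (ρ h) = A6tor k V (P.comap (c h)) := fun h => by
    apply le_antisymm
    · rintro _ ⟨v, hv, rfl⟩
      refine A6_mem.2 fun r hr => ?_
      rw [hc h r v, A6_mem.1 hv (c h r) hr, map_zero]
    · intro w hw
      refine ⟨ρ h⁻¹ w, A6_mem.2 fun s hs => ?_, hinvr h w⟩
      obtain ⟨r, rfl⟩ := hsurj h s
      have h1 := A6_mem.1 hw r hs
      rw [← hinvr h w, hc h r] at h1
      have h2 := congrArg (ρ h⁻¹) h1
      rwa [hinvl, map_zero] at h2
  refine ⟨A6tor k V P, fun h0 => ?_, fun h1 => ?_, ?_, ?_, ?_⟩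
  · rw [h0, Submodule.mem_bot] at hxP
    exact hx0 hxP
  · apply hR
    have hP0 : P = ⊥ := by
      rw [eq_bot_iff]
      intro r hr
      rw [Ideal.mem_bot]
      refine hf r fun v => ?_
      have hv : v ∈ A6tor k V P := by rw [h1]; trivial
      exact A6_mem.1 hv r hr
    refine ⟨⟨0, 1, fun h01 => ?_⟩, mul_comm, fun {a} ha => ?_⟩
    · refine hPp.ne_top ?_
      rw [Ideal.eq_top_iff_one, ← h01]
      exact P.zero_mem
    · have ha' : a ∉ P := by
        rw [hP0, Ideal.mem_bot]
        exact ha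
      obtain ⟨y, i, hi, h2⟩ := hPm.exists_inv ha'
      rw [hP0, Ideal.mem_bot] at hi
      rw [hi, add_zero] at h2
      exact ⟨y, by rw [mul_comm]; exact h2⟩
  · rintro W ⟨h, rfl⟩ r v hv
    rw [hmap] at hv ⊢
    refine A6_mem.2 fun s hs => ?_
    rw [smul_smul, mul_comm, ← smul_smul, A6_mem.1 hv s hs, smul_zero]
  · haveI : Finite {W : Submodule k V // ∃ h, W = (A6tor k V P).map (ρ h)} := by
      haveI : Finite (Submodule k V) :=
        Finite.of_injective (fun W : Submodule k V => (W : Set V)) SetLike.coe_injective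
      infer_instance
    choose g hg using fun W : {W : Submodule k V // ∃ h, W = (A6tor k V P).map (ρ h)} => W.2
    have h1 := A6_indep (k := k) (V := V) (fun W => P.comap (c (g W)))
      (fun W => Ideal.comap_isMaximal_of_surjective _ (hsurj _)) (fun W W' hne h2 => by
        refine hne (Subtype.ext ?_)
        rw [hg W, hg W', hmap, hmap, h2])
    convert h1 using 2 with W
    rw [← hmap, ← hg]
  · rcases hirr.2 (⨆ W : {W : Submodule k V // ∃ h, W = (A6tor k V P).map (ρ h)},
      (W : Submodule k V)) (fun h v hv => by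
        have h1 : (⨆ W : {W : Submodule k V // ∃ h, W = (A6tor k V P).map (ρ h)},
            (W : Submodule k V)).map (ρ h) ≤
            ⨆ W : {W : Submodule k V // ∃ h, W = (A6tor k V P).map (ρ h)},
              (W : Submodule k V) := by
          rw [Submodule.map_iSup]
          refine iSup_le fun W => ?_
          obtain ⟨W, h', rfl⟩ := W
          refine le_iSup_of_le ⟨_, h * h', rfl⟩ (le_of_eq ?_)
          show Submodule.map (ρ h) (Submodule.map (ρ h') (A6tor k V P)) =
            Submodule.map (ρ (h * h')) (A6tor k V P)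
          rw [map_mul]
          exact (Submodule.map_comp _ _ _).symm
        exact h1 ⟨v, hv, rfl⟩) with h1 | h1
    · have h2 : x ∈ ⨆ W : {W : Submodule k V // ∃ h, W = (A6tor k V P).map (ρ h)},
          (W : Submodule k V) := by
        refine (le_iSup_of_le (f := fun W : {W : Submodule k V // ∃ h,
          W = (A6tor k V P).map (ρ h)} => (W : Submodule k V)) ⟨_, 1, rfl⟩ le_rfl) ?_
        refine ⟨x, hxP, ?_⟩
        rw [map_one, Module.End.one_apply]
      rw [h1, Submodule.mem_bot] at h2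
      exact absurd h2 hx0
    · exact h1

/-- The translates of a subspace. -/
private abbrev A6X (ρ : Representation k H V) (W0 : Submodule k V) : Type :=
  {W : Submodule k V // ∃ h, W = W0.map (ρ h)}

private theorem A6_map_mul (ρ : Representation k H V) (W : Submodule k V) (h h' : H) :
    W.map (ρ (h * h')) = (W.map (ρ h')).map (ρ h) := by
  rw [map_mul]
  exact Submodule.map_comp _ _ _

/-- The action on the translates. -/
private abbrev A6act (ρ : Representation k H V) (W0 : Submodule k V) : MulAction H (A6X ρ W0) where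
  smul h W := ⟨W.1.map (ρ h), by
    obtain ⟨W, h', rfl⟩ := W
    exact ⟨h * h', (A6_map_mul ρ W0 h h').symm⟩⟩
  one_smul W := Subtype.ext (by
    show W.1.map (ρ 1) = W.1
    rw [map_one]
    exact Submodule.map_id _)
  mul_smul h h' W := Subtype.ext (A6_map_mul ρ W.1 h h')

end Core

private theorem A6_glue {P : ∀ (H : Type) [Group H], Prop} (hP : Cls P) {p : ℕ} [Fact p.Prime]
    (H : Type) [Group H] [Finite H] (V : Type) [AddCommGroup V] [Module (ZMod p) V] [Finite V]
    (ρ : Representation (ZMod p) H V) (hH : P H) (hinj : Function.Injective ρ) (hirr : Irr ρ)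
    (W0 : Submodule (ZMod p) V) (h0 : W0 ≠ ⊥) (h1 : W0 ≠ ⊤)
    (hind : iSupIndep (fun W : A6X ρ W0 => (W : Submodule (ZMod p) V)))
    (hsup : (⨆ W : A6X ρ W0, (W : Submodule (ZMod p) V)) = ⊤)
    (h2 : p = 2 → 2 ≤ Module.finrank (ZMod p) W0) :
    ∃ (N b : ℕ) (K : Subgroup H) (_ : K.Normal), 2 ≤ N ∧ 1 ≤ b ∧
      Module.finrank (ZMod p) V = N * b ∧ (p = 2 → 2 ≤ b) ∧
      (∀ m, PermDL P N m → derivedSeries (H ⧸ K) m = ⊥) ∧
      (∀ m, LinDL P p b m → derivedSeries K m = ⊥) := by
  classical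
  have hfd : Module.Finite (ZMod p) V := Module.Finite.of_finite
  have hfS : Finite (Submodule (ZMod p) V) :=
    Finite.of_injective (fun W : Submodule (ZMod p) V => (W : Set V)) SetLike.coe_injective
  have hfX : Finite (A6X ρ W0) := inferInstance
  haveI : Fintype (A6X ρ W0) := Fintype.ofFinite _
  letI := A6act ρ W0
  have hsm : ∀ (h : H) (W : A6X ρ W0), ((h • W : A6X ρ W0) : Submodule (ZMod p) V) =
    W.1.map (ρ h) := fun _ _ => rfl
  have hinjr : ∀ h, Function.Injective (ρ h) := fun h => by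
    intro v w hvw
    have h3 := congrArg (ρ h⁻¹) hvw
    rwa [← Module.End.mul_apply, ← Module.End.mul_apply, ← map_mul, inv_mul_cancel, map_one,
      Module.End.one_apply, Module.End.one_apply] at h3
  have hdim : ∀ W : A6X ρ W0, Module.finrank (ZMod p) W.1 = Module.finrank (ZMod p) W0 := by
    rintro ⟨W, h, rfl⟩
    exact LinearEquiv.finrank_eq (Submodule.equivMapOfInjective (ρ h) (hinjr h) W0).symm
  set φ := MulAction.toPermHom H (A6X ρ W0) with hφ
  refine ⟨Nat.card (A6X ρ W0), Module.finrank (ZMod p) W0, φ.ker, inferInstance, ?_, ?_, ?_, h2,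
    fun m hm => ?_, fun m hm => ?_⟩
  · by_contra hlt
    have hle : Nat.card (A6X ρ W0) ≤ 1 := by omega
    have hss : Subsingleton (A6X ρ W0) := (Finite.card_le_one_iff_subsingleton).1 hle
    apply h1
    have h3 : (1 : H) • (⟨W0.map (ρ 1), 1, rfl⟩ : A6X ρ W0) = ⟨W0.map (ρ 1), 1, rfl⟩ :=
      one_smul _ _
    rw [eq_top_iff, ← hsup]
    refine iSup_le fun W => ?_
    have h4 : W = ⟨W0.map (ρ 1), 1, rfl⟩ := Subsingleton.elim _ _
    rw [h4]
    show W0.map (ρ 1) ≤ W0
    rw [map_one]
    exact le_of_eq (Submodule.map_id _)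
  · rw [Nat.one_le_iff_ne_zero]
    intro h3
    exact h0 (Submodule.finrank_eq_zero.1 h3)
  · have h3 := DirectSum.isInternal_submodule_of_iSupIndep_of_iSup_eq_top hind hsup
    have h4 := (LinearEquiv.ofBijective (DirectSum.coeLinearMap
      (fun W : A6X ρ W0 => (W : Submodule (ZMod p) V))) h3).finrank_eq
    rw [← h4, Module.finrank_directSum, Finset.sum_congr rfl fun W _ => hdim W, Finset.sum_const,
      Finset.card_univ, smul_eq_mul, Nat.card_eq_fintype_card]
  · letI : MulAction (H ⧸ φ.ker) (A6X ρ W0) :=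
      MulAction.compHom (A6X ρ W0) (QuotientGroup.kerLift φ)
    refine hm (H ⧸ φ.ker) (A6X ρ W0) (hP.of_surj (QuotientGroup.mk' φ.ker)
      (QuotientGroup.mk'_surjective _) hH) (fun h hh => ?_) le_rfl
    refine QuotientGroup.kerLift_injective φ ?_
    rw [map_one]
    refine Equiv.ext fun W => ?_
    exact hh W
  · have hK : ∀ (g : φ.ker) (W : A6X ρ W0), ∀ v ∈ W.1, resrep ρ φ.ker g v ∈ W.1 :=
      fun g W v hv => by
      have h3 : φ g.1 = 1 := g.2
      have h4 : (g.1 • W : A6X ρ W0) = W := by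
        have := congrArg (fun e : Equiv.Perm (A6X ρ W0) => e W) h3
        exact this
      have h5 : W.1.map (ρ g.1) = W.1 := by
        rw [← hsm, h4]
      rw [← h5]
      exact ⟨v, hv, rfl⟩
    have hPK : P φ.ker := hP.of_inj φ.ker.subtype (Subgroup.subtype_injective _) hH
    refine dl_of_homs m fun g hg => ?_
    -- a translate on which `g` is not trivial
    obtain ⟨W, v, hv, hne⟩ : ∃ W : A6X ρ W0, ∃ v ∈ W.1, ρ g.1 v ≠ v := by
      by_contra hh
      push Not at hh
      refine hg (Subtype.ext (hinj ?_))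
      rw [OneMemClass.coe_one, map_one]
      refine LinearMap.ext fun v => ?_
      rw [Module.End.one_apply]
      have h3 : (⊤ : Submodule (ZMod p) V) ≤ LinearMap.ker (ρ g.1 - 1) := by
        rw [← hsup]
        refine iSup_le fun W w hw => ?_
        rw [LinearMap.mem_ker, LinearMap.sub_apply, Module.End.one_apply, hh W w hw, sub_self]
      have h4 := h3 (Submodule.mem_top (x := v))
      rw [LinearMap.mem_ker, LinearMap.sub_apply, Module.End.one_apply] at h4
      exact sub_eq_zero.1 h4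
    set σ := subrep (resrep ρ φ.ker) W.1 (fun g v hv => hK g W v hv) with hσ
    have hcr : CR σ := cr_sub _ (cr_restrict ρ (cr_of_irr ρ hirr) φ.ker) _ _
    let τ : Representation (ZMod p) (φ.ker ⧸ MonoidHom.ker σ) W.1 :=
      QuotientGroup.lift (MonoidHom.ker σ) σ (fun x hx => hx)
    have hτ : ∀ x, τ (QuotientGroup.mk' (MonoidHom.ker σ) x) = σ x := fun _ => rfl
    refine ⟨φ.ker ⧸ MonoidHom.ker σ, inferInstance, QuotientGroup.mk' _, fun h3 => ?_, ?_⟩
    · have h4 : g ∈ MonoidHom.ker σ := (QuotientGroup.eq_one_iff g).1 h3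
      have h5 : σ g = 1 := h4
      have h6 := congrArg (fun f : Module.End (ZMod p) W.1 => ((f ⟨v, hv⟩ : W.1) : V)) h5
      exact hne h6
    · refine hm (φ.ker ⧸ MonoidHom.ker σ) W.1 τ (hP.of_surj (QuotientGroup.mk' _)
        (QuotientGroup.mk'_surjective _) hPK) ?_ ?_ (hdim W).le
      · intro a b hab
        obtain ⟨a, rfl⟩ := QuotientGroup.mk'_surjective _ a
        obtain ⟨b, rfl⟩ := QuotientGroup.mk'_surjective _ b
        rw [hτ, hτ] at hab
        rw [QuotientGroup.mk'_apply, QuotientGroup.mk'_apply, QuotientGroup.eq]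
        show σ (a⁻¹ * b) = 1
        rw [map_mul, ← hab, ← map_mul, inv_mul_cancel, map_one]
      · intro U hU
        obtain ⟨U', hU', hc⟩ := hcr U fun h v hv => hU (QuotientGroup.mk' _ h) v hv
        refine ⟨U', fun h v hv => ?_, hc⟩
        obtain ⟨h, rfl⟩ := QuotientGroup.mk'_surjective _ h
        exact hU' h v hv

private theorem A6_two (c : ZMod 2) : c = 0 ∨ c = 1 := by
  revert c
  decide

/-- Case I: some abelian normal subgroup is not homogeneous. -/
theorem lin_caseI {P : ∀ (H : Type) [Group H], Prop} (hP : Cls P) {p : ℕ} [Fact p.Prime]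
    (H : Type) [Group H] [Finite H] (V : Type) [AddCommGroup V] [Module (ZMod p) V] [Finite V]
    (ρ : Representation (ZMod p) H V) (hH : P H) (hinj : Function.Injective ρ) (hirr : Irr ρ)
    (A : Subgroup H) [A.Normal] (hA : ∀ x ∈ A, ∀ y ∈ A, x * y = y * x)
    (hE : ¬ IsField (alg ρ A)) :
    ∃ (N b : ℕ) (K : Subgroup H) (_ : K.Normal), 2 ≤ N ∧ 1 ≤ b ∧
      Module.finrank (ZMod p) V = N * b ∧ (p = 2 → 2 ≤ b) ∧
      (∀ m, PermDL P N m → derivedSeries (H ⧸ K) m = ⊥) ∧
      (∀ m, LinDL P p b m → derivedSeries K m = ⊥) := by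
  have hcomm : ∀ a ∈ ρ '' (A : Set H), ∀ b ∈ ρ '' (A : Set H), a * b = b * a := by
    rintro _ ⟨x, hx, rfl⟩ _ ⟨y, hy, rfl⟩
    rw [← map_mul, ← map_mul, hA x hx y hy]
  haveI : IsMulCommutative (alg ρ A) := Algebra.isMulCommutative_adjoin (ZMod p) hcomm
  open scoped IsMulCommutative in
  letI : CommRing (alg ρ A) := inferInstance
  haveI : Finite (Module.End (ZMod p) V) := DFunLike.finite _
  haveI : Finite (alg ρ A) := inferInstance
  have hconj : ∀ h : H, ∀ e ∈ alg ρ A, ρ h⁻¹ * e * ρ h ∈ alg ρ A := fun h => by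
    let C : Module.End (ZMod p) V →ₐ[ZMod p] Module.End (ZMod p) V :=
      { toFun := fun e => ρ h⁻¹ * e * ρ h
        map_one' := by
          rw [mul_one, ← map_mul, inv_mul_cancel, map_one]
        map_mul' := fun e e' => by
          have h1 : ρ h * ρ h⁻¹ = 1 := by rw [← map_mul, mul_inv_cancel, map_one]
          calc ρ h⁻¹ * (e * e') * ρ h = ρ h⁻¹ * e * 1 * e' * ρ h := by noncomm_ring
            _ = ρ h⁻¹ * e * (ρ h * ρ h⁻¹) * e' * ρ h := by rw [h1]
            _ = ρ h⁻¹ * e * ρ h * (ρ h⁻¹ * e' * ρ h) := by noncomm_ring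
        map_zero' := by rw [mul_zero, zero_mul]
        map_add' := fun e e' => by noncomm_ring
        commutes' := fun c => by
          have h1 : ρ h⁻¹ * ρ h = 1 := by rw [← map_mul, inv_mul_cancel, map_one]
          rw [← Algebra.commutes, mul_assoc, h1, mul_one] }
    have h2 : alg ρ A ≤ (alg ρ A).comap C := by
      refine Algebra.adjoin_le ?_
      rintro _ ⟨a, ha, rfl⟩
      show ρ h⁻¹ * ρ a * ρ h ∈ alg ρ A
      rw [← map_mul, ← map_mul]
      refine Algebra.subset_adjoin ⟨_, ?_, rfl⟩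
      have := ‹A.Normal›.conj_mem a ha h⁻¹
      rwa [inv_inv] at this
    exact fun e he => h2 he
  let c : H → alg ρ A →+* alg ρ A := fun h =>
    { toFun := fun e => ⟨ρ h⁻¹ * e.1 * ρ h, hconj h e.1 e.2⟩
      map_one' := Subtype.ext (by
        show ρ h⁻¹ * 1 * ρ h = 1
        rw [mul_one, ← map_mul, inv_mul_cancel, map_one])
      map_mul' := fun e e' => Subtype.ext (by
        have h1 : ρ h * ρ h⁻¹ = 1 := by rw [← map_mul, mul_inv_cancel, map_one]
        show ρ h⁻¹ * (e.1 * e'.1) * ρ h = ρ h⁻¹ * e.1 * ρ h * (ρ h⁻¹ * e'.1 * ρ h)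
        calc ρ h⁻¹ * (e.1 * e'.1) * ρ h = ρ h⁻¹ * e.1 * 1 * e'.1 * ρ h := by noncomm_ring
          _ = ρ h⁻¹ * e.1 * (ρ h * ρ h⁻¹) * e'.1 * ρ h := by rw [h1]
          _ = ρ h⁻¹ * e.1 * ρ h * (ρ h⁻¹ * e'.1 * ρ h) := by noncomm_ring)
      map_zero' := Subtype.ext (by
        show ρ h⁻¹ * 0 * ρ h = 0
        rw [mul_zero, zero_mul])
      map_add' := fun e e' => Subtype.ext (by
        show ρ h⁻¹ * (e.1 + e'.1) * ρ h = ρ h⁻¹ * e.1 * ρ h + ρ h⁻¹ * e'.1 * ρ h
        noncomm_ring) }
  have hc : ∀ h (r : alg ρ A) (v : V), r • ρ h v = ρ h (c h r • v) := fun h r v => by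
    show r.1 (ρ h v) = ρ h ((ρ h⁻¹ * r.1 * ρ h) v)
    rw [Module.End.mul_apply, Module.End.mul_apply, ← Module.End.mul_apply (ρ h), ← map_mul,
      mul_inv_cancel, map_one, Module.End.one_apply]
  have hf : ∀ r : alg ρ A, (∀ v : V, r • v = 0) → r = 0 := fun r hr =>
    Subtype.ext (LinearMap.ext fun v => hr v)
  obtain ⟨W0, h0, h1, hst, hind, hsup⟩ := A6_core (k := ZMod p) ρ hirr hf c hc hE
  refine A6_glue hP H V ρ hH hinj hirr W0 h0 h1 hind hsup fun hp => ?_
  by_contra hlt
  subst hp
  have hfd : Module.Finite (ZMod 2) V := Module.Finite.of_finite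
  have hne : Module.finrank (ZMod 2) W0 ≠ 0 := fun h3 => h0 (Submodule.finrank_eq_zero.1 h3)
  have hW0 : Module.finrank (ZMod 2) W0 = 1 := by omega
  -- `A` acts trivially
  have hA1 : ∀ a ∈ A, ρ a = 1 := fun a ha => by
    have h3 : (⊤ : Submodule (ZMod 2) V) ≤ LinearMap.ker (ρ a - 1) := by
      rw [← hsup]
      refine iSup_le fun W w hw => ?_
      rw [LinearMap.mem_ker, LinearMap.sub_apply, Module.End.one_apply, sub_eq_zero]
      have hinja : Function.Injective (ρ a) := fun v v' hvv => by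
        have h4 := congrArg (ρ a⁻¹) hvv
        rwa [← Module.End.mul_apply, ← Module.End.mul_apply, ← map_mul, inv_mul_cancel, map_one,
          Module.End.one_apply, Module.End.one_apply] at h4
      have hWd : Module.finrank (ZMod 2) W.1 = 1 := by
        obtain ⟨W, h, rfl⟩ := W
        rw [← hW0]
        refine LinearEquiv.finrank_eq (Submodule.equivMapOfInjective (ρ h) (fun v v' hvv => ?_)
          W0).symm
        have h4 := congrArg (ρ h⁻¹) hvv
        rwa [← Module.End.mul_apply, ← Module.End.mul_apply, ← map_mul, inv_mul_cancel, map_one,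
          Module.End.one_apply, Module.End.one_apply] at h4
      by_cases hw0 : w = 0
      · rw [hw0, map_zero]
      have haw : ρ a w ∈ W.1 := hst W.1 W.2 ⟨ρ a, Algebra.subset_adjoin ⟨a, ha, rfl⟩⟩ w hw
      have hspan := (finrank_eq_one_iff_of_nonzero' (⟨w, hw⟩ : W.1) (fun h5 => hw0 (by
        simpa using congrArg Subtype.val h5))).1 hWd ⟨ρ a w, haw⟩
      obtain ⟨t, ht⟩ := hspan
      have ht' : t • w = ρ a w := congrArg Subtype.val ht
      rcases A6_two t with rfl | rfl
      · rw [zero_smul] at ht'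
        exact absurd (hinja (ht'.symm.trans (map_zero (ρ a)).symm)) hw0
      · rw [one_smul] at ht'
        exact ht'.symm
    refine LinearMap.ext fun v => ?_
    have h4 := h3 (Submodule.mem_top (x := v))
    rw [LinearMap.mem_ker, LinearMap.sub_apply, Module.End.one_apply, sub_eq_zero] at h4
    rw [h4, Module.End.one_apply]
  apply hE
  have hbot : ∀ e : alg ρ A, e = 0 ∨ e = 1 := fun e => by
    have h3 : alg ρ A ≤ ⊥ := by
      refine Algebra.adjoin_le ?_
      rintro _ ⟨a, ha, rfl⟩
      rw [hA1 a ha]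
      exact Subalgebra.one_mem _
    obtain ⟨t, ht⟩ := Algebra.mem_bot.1 (h3 e.2)
    rcases A6_two t with rfl | rfl
    · exact Or.inl (Subtype.ext (ht.symm.trans (map_zero _)))
    · exact Or.inr (Subtype.ext (ht.symm.trans (map_one _)))
  haveI := hirr.1
  refine ⟨⟨0, 1, fun h01 => ?_⟩, mul_comm, fun {a} ha => ?_⟩
  · obtain ⟨v, hv⟩ := exists_ne (0 : V)
    have h3 := congrArg (fun e : alg ρ A => e.1 v) h01
    exact hv h3.symm
  · rcases hbot a with h3 | h3
    · exact absurd h3 ha
    · exact ⟨1, by rw [h3, one_mul]⟩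

end Pool.Agent.Helper98.RS
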