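import Pool.Agent.Helper98.RS.A1

set_option autoImplicit false

open scoped Pointwise commutatorElement

namespace Pool.Agent.Helper98.RS

/-- Two ring endomorphisms of a finite field commute. -/
private theorem A7_comm (F : Type) [Field F] [Finite F] (f g : F →+* F) (x : F) :
    f (g x) = g (f x) := by
  rcases eq_or_ne x 0 with rfl | hx
  · simp only [map_zero]
  obtain ⟨u, hu⟩ := IsCyclic.exists_generator (α := Fˣ)
  obtain ⟨a, ha⟩ := Subgroup.mem_zpowers_iff.1 (hu (Units.map (f : F →* F) u))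
  obtain ⟨b, hb⟩ := Subgroup.mem_zpowers_iff.1 (hu (Units.map (g : F →* F) u))
  obtain ⟨m, hm⟩ := Subgroup.mem_zpowers_iff.1 (hu (Units.mk0 x hx))
  have key : Units.map (f : F →* F) (Units.map (g : F →* F) (Units.mk0 x hx)) =
      Units.map (g : F →* F) (Units.map (f : F →* F) (Units.mk0 x hx)) := by
    rw [← hm, map_zpow, map_zpow, map_zpow, map_zpow, ← ha, ← hb, map_zpow, map_zpow, ← ha, ← hb,
      zpow_comm u a b]
  exact congrArg Units.val key

/-- In a nilpotent group a normal subgroup not contained in `A` has an element outside `A` all of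
whose commutators are in `A`. -/
private theorem A7_step {H : Type} [Group H] (hH : Group.IsNilpotent H) (A C : Subgroup H)
    (hC : C.Normal) (hne : ¬ C ≤ A) : ∃ x ∈ C, x ∉ A ∧ ∀ h, ⁅x, h⁆ ∈ A := by
  by_contra hcon
  push Not at hcon
  have hcon' : ∀ x ∈ C, (∀ h, ⁅x, h⁆ ∈ A) → x ∈ A := fun x hx hh => by
    by_contra hxA
    obtain ⟨h, hh'⟩ := hcon x hx hxA
    exact hh' (hh h)
  obtain ⟨n, hn⟩ := Subgroup.nilpotent_iff_lowerCentralSeries.1 hH
  have hdown : ∀ i, C ⊓ (⊤ : Subgroup H).lowerCentralSeries i ≤ A := by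
    intro i
    by_cases hi : n ≤ i
    · have h1 := (⊤ : Subgroup H).lowerCentralSeries_antitone hi
      rw [hn] at h1
      exact inf_le_right.trans (h1.trans bot_le)
    · push Not at hi
      obtain ⟨j, rfl⟩ : ∃ j, n = i + j := ⟨n - i, by omega⟩
      clear hi
      induction j generalizing i with
      | zero =>
        have h1 : (⊤ : Subgroup H).lowerCentralSeries i = ⊥ := hn
        rw [h1, inf_bot_eq]
        exact bot_le
      | succ j ih =>
        have h2 := ih (i + 1) (by rw [show i + 1 + j = i + (j + 1) by omega]; exact hn)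
        rintro x ⟨hx1, hx2⟩
        refine hcon' x hx1 fun h => h2 ⟨?_, ?_⟩
        · have h3 : ⁅C, (⊤ : Subgroup H)⁆ ≤ C := Subgroup.commutator_le_left _ _
          exact h3 (Subgroup.commutator_mem_commutator hx1 (Subgroup.mem_top h))
        · exact Subgroup.commutator_mem_commutator hx2 (Subgroup.mem_top h)
  apply hne
  have h0 := hdown 0
  rw [Subgroup.lowerCentralSeries_zero, inf_top_eq] at h0
  exact h0

/-- A homogeneous abelian normal subgroup: the quotient by the centraliser is abelian. -/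
theorem field_cent {p : ℕ} [Fact p.Prime]
    (H : Type) [Group H] [Finite H] (V : Type) [AddCommGroup V] [Module (ZMod p) V] [Finite V]
    (ρ : Representation (ZMod p) H V) (hinj : Function.Injective ρ)
    (A : Subgroup H) [A.Normal] (hE : IsField (alg ρ A)) :
    derivedSeries (H ⧸ Subgroup.centralizer (A : Set H)) 1 = ⊥ ∧
    (Module.finrank (ZMod p) (alg ρ A) = 1 → Subgroup.centralizer (A : Set H) = ⊤) := by
  haveI : Finite (Module.End (ZMod p) V) := DFunLike.finite _
  haveI : Finite (alg ρ A) := inferInstance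
  have hmem : ∀ a ∈ A, ρ a ∈ alg ρ A := fun a ha => Algebra.subset_adjoin ⟨a, ha, rfl⟩
  have hconj : ∀ h : H, ∀ e ∈ alg ρ A, ρ h⁻¹ * e * ρ h ∈ alg ρ A := fun h => by
    let C : Module.End (ZMod p) V →ₐ[ZMod p] Module.End (ZMod p) V :=
      { toFun := fun e => ρ h⁻¹ * e * ρ h
        map_one' := by
          rw [mul_one, ← map_mul, inv_mul_cancel, map_one]
        map_mul' := fun e e' => by
          have h1 : ρ h * ρ h⁻¹ = 1 := by rw [← map_mul, mul_inv_cancel, map_one]
          calc ρ h⁻¹ * (e * e') * ρ h = ρ h⁻¹ * e * 1 * e' * ρ h := by noncomm_ring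
            _ = ρ h⁻¹ * e * (ρ h * ρ h⁻¹) * e' * ρ h := by rw [h1]
            _ = ρ h⁻¹ * e * ρ h * (ρ h⁻¹ * e' * ρ h) := by noncomm_ring
        map_zero' := by rw [mul_zero, zero_mul]
        map_add' := fun e e' => by noncomm_ring
        commutes' := fun c => by
          have h1 : ρ h⁻¹ * ρ h = 1 := by rw [← map_mul, inv_mul_cancel, map_one]
          rw [← Algebra.commutes, mul_assoc, h1, mul_one] }
    have h2 : alg ρ A ≤ (alg ρ A).comap C := by
      refine Algebra.adjoin_le ?_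
      rintro _ ⟨a, ha, rfl⟩
      show ρ h⁻¹ * ρ a * ρ h ∈ alg ρ A
      rw [← map_mul, ← map_mul]
      refine Algebra.subset_adjoin ⟨_, ?_, rfl⟩
      have := ‹A.Normal›.conj_mem a ha h⁻¹
      rwa [inv_inv] at this
    exact fun e he => h2 he
  let c : H → alg ρ A →+* alg ρ A := fun h =>
    { toFun := fun e => ⟨ρ h⁻¹ * e.1 * ρ h, hconj h e.1 e.2⟩
      map_one' := Subtype.ext (by
        show ρ h⁻¹ * 1 * ρ h = 1
        rw [mul_one, ← map_mul, inv_mul_cancel, map_one])
      map_mul' := fun e e' => Subtype.ext (by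
        have h1 : ρ h * ρ h⁻¹ = 1 := by rw [← map_mul, mul_inv_cancel, map_one]
        show ρ h⁻¹ * (e.1 * e'.1) * ρ h = ρ h⁻¹ * e.1 * ρ h * (ρ h⁻¹ * e'.1 * ρ h)
        calc ρ h⁻¹ * (e.1 * e'.1) * ρ h = ρ h⁻¹ * e.1 * 1 * e'.1 * ρ h := by noncomm_ring
          _ = ρ h⁻¹ * e.1 * (ρ h * ρ h⁻¹) * e'.1 * ρ h := by rw [h1]
          _ = ρ h⁻¹ * e.1 * ρ h * (ρ h⁻¹ * e'.1 * ρ h) := by noncomm_ring)
      map_zero' := Subtype.ext (by
        show ρ h⁻¹ * 0 * ρ h = 0
        rw [mul_zero, zero_mul])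
      map_add' := fun e e' => Subtype.ext (by
        show ρ h⁻¹ * (e.1 + e'.1) * ρ h = ρ h⁻¹ * e.1 * ρ h + ρ h⁻¹ * e'.1 * ρ h
        noncomm_ring) }
  have hcc : ∀ g h : H, ∀ e : alg ρ A, c g (c h e) = c h (c g e) := fun g h e => by
    letI : Field (alg ρ A) := hE.toField
    exact A7_comm (alg ρ A) (c g) (c h) e
  have hC : ∀ g h : H, g * h * (h * g)⁻¹ ∈ Subgroup.centralizer (A : Set H) := fun g h => by
    rw [Subgroup.mem_centralizer_iff]
    intro a ha
    have h1 := congrArg Subtype.val (hcc g h ⟨ρ a, hmem a ha⟩)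
    have h2 : ρ g⁻¹ * (ρ h⁻¹ * ρ a * ρ h) * ρ g = ρ h⁻¹ * (ρ g⁻¹ * ρ a * ρ g) * ρ h := h1
    rw [← map_mul, ← map_mul, ← map_mul, ← map_mul, ← map_mul, ← map_mul, ← map_mul,
      ← map_mul] at h2
    have h3 : g⁻¹ * (h⁻¹ * a * h) * g = h⁻¹ * (g⁻¹ * a * g) * h := hinj h2
    -- `(hg)⁻¹ a (hg) = (gh)⁻¹ a (gh)`
    have h4 : a = g * h * (g⁻¹ * (h⁻¹ * a * h) * g)  * h⁻¹ * g⁻¹ := by
      rw [h3]
      group
    calc a * (g * h * (h * g)⁻¹) = g * h * (g⁻¹ * (h⁻¹ * a * h) * g) * h⁻¹ * g⁻¹ *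
          (g * h * (h * g)⁻¹) := by rw [← h4]
      _ = g * h * (h * g)⁻¹ * a := by group
  refine ⟨?_, fun hfr => ?_⟩
  · rw [derivedSeries_one, commutator_def, Subgroup.commutator_eq_bot_iff_le_centralizer]
    intro q _
    rw [Subgroup.mem_centralizer_iff]
    intro r _
    obtain ⟨g, rfl⟩ := QuotientGroup.mk'_surjective _ q
    obtain ⟨h, rfl⟩ := QuotientGroup.mk'_surjective _ r
    rw [← map_mul, ← map_mul, QuotientGroup.mk'_apply, QuotientGroup.mk'_apply, ← mul_inv_eq_one,
      ← QuotientGroup.mk_inv, ← QuotientGroup.mk_mul, QuotientGroup.eq_one_iff]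
    exact hC h g
  · have hbot : alg ρ A = ⊥ := Subalgebra.eq_bot_of_finrank_one hfr
    rw [eq_top_iff]
    intro h _
    rw [Subgroup.mem_centralizer_iff]
    intro a ha
    have h1 := hmem a ha
    rw [hbot, Algebra.mem_bot] at h1
    obtain ⟨t, ht⟩ := h1
    apply hinj
    rw [map_mul, map_mul, ← ht]
    exact Algebra.commutes t (ρ h)

/-- Case II for nilpotent groups. -/
theorem nil_caseII {p : ℕ} [Fact p.Prime]
    (H : Type) [Group H] [Finite H] (V : Type) [AddCommGroup V] [Module (ZMod p) V] [Finite V]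
    (ρ : Representation (ZMod p) H V) (hH : Nil H) (hinj : Function.Injective ρ)
    (hall : ∀ A : Subgroup H, A.Normal → (∀ x ∈ A, ∀ y ∈ A, x * y = y * x) → IsField (alg ρ A)) :
    derivedSeries H 2 = ⊥ := by
  -- a maximal abelian normal subgroup
  obtain ⟨A, ⟨hAn, hA⟩, hmax⟩ : ∃ A : Subgroup H,
      (A.Normal ∧ ∀ x ∈ A, ∀ y ∈ A, x * y = y * x) ∧
      ∀ B : Subgroup H, (B.Normal ∧ ∀ x ∈ B, ∀ y ∈ B, x * y = y * x) → ¬ A < B := by
    have hwf : WellFounded (fun a b : Subgroup H => b < a) := wellFounded_gt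
    obtain ⟨A, h1, h2⟩ := hwf.has_min
      {A : Subgroup H | A.Normal ∧ ∀ x ∈ A, ∀ y ∈ A, x * y = y * x}
      ⟨⊥, inferInstance, fun x hx y hy => by
        rw [Subgroup.mem_bot] at hx hy
        rw [hx, hy]⟩
    exact ⟨A, h1, fun B hB => h2 B hB⟩
  haveI := hAn
  have hAC : A ≤ Subgroup.centralizer (A : Set H) := fun x hx => by
    rw [Subgroup.mem_centralizer_iff]
    exact fun y hy => hA y hy x hx
  have hCA : Subgroup.centralizer (A : Set H) ≤ A := by
    by_contra hne
    obtain ⟨x, hx, hxA, hxh⟩ := A7_step hH A (Subgroup.centralizer (A : Set H)) inferInstance hne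
    rw [Subgroup.mem_centralizer_iff] at hx
    have hcom : ∀ y ∈ (A : Set H) ∪ {x}, ∀ z ∈ (A : Set H) ∪ {x}, y * z = z * y := by
      rintro y (hy | hy) z (hz | hz)
      · exact hA y hy z hz
      · rw [Set.mem_singleton_iff.1 hz]
        exact hx y hy
      · rw [Set.mem_singleton_iff.1 hy]
        exact (hx z hz).symm
      · rw [Set.mem_singleton_iff.1 hy, Set.mem_singleton_iff.1 hz]
    set B : Subgroup H := Subgroup.closure ((A : Set H) ∪ {x}) with hB
    have hAB : A ≤ B := fun a ha => Subgroup.subset_closure (Or.inl ha)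
    have hxB : x ∈ B := Subgroup.subset_closure (Or.inr rfl)
    have hBn : B.Normal := by
      refine ⟨fun y hy h => ?_⟩
      have h1 : B ≤ B.comap (MulAut.conj h).toMonoidHom := by
        rw [hB, Subgroup.closure_le]
        rintro z (hz | hz)
        · exact hAB (hAn.conj_mem z hz h)
        · rw [Set.mem_singleton_iff.1 hz]
          show h * x * h⁻¹ ∈ B
          have h2 : h * x * h⁻¹ = x * ⁅x⁻¹, h⁆ := by
            rw [commutatorElement_def]
            group
          have h3 : ⁅x⁻¹, h⁆ ∈ A := by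
            have h4 : ⁅x⁻¹, h⁆ = x⁻¹ * ⁅x, h⁆⁻¹ * x := by
              rw [commutatorElement_def, commutatorElement_def]
              group
            rw [h4]
            have h5 := hAn.conj_mem _ (A.inv_mem (hxh h)) x⁻¹
            rwa [inv_inv] at h5
          rw [h2]
          exact B.mul_mem hxB (hAB h3)
      exact h1 hy
    have hBc : ∀ y ∈ B, ∀ z ∈ B, y * z = z * y := by
      have h1 : IsMulCommutative B := Subgroup.isMulCommutative_closure hcom
      intro y hy z hz
      exact setLike_mul_comm hy hz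
    refine hmax B ⟨hBn, hBc⟩ (lt_of_le_of_ne hAB fun h => hxA ?_)
    rw [h]
    exact hxB
  have h1 := (field_cent H V ρ hinj A (hall A hAn hA)).1
  have h2 : derivedSeries (Subgroup.centralizer (A : Set H)) 1 = ⊥ := by
    rw [derivedSeries_one, commutator_def, Subgroup.commutator_eq_bot_iff_le_centralizer]
    intro x _
    rw [Subgroup.mem_centralizer_iff]
    intro y _
    exact Subtype.ext (hA y.1 (hCA y.2) x.1 (hCA x.2))
  exact dl_ext (Subgroup.centralizer (A : Set H)) 1 1 h1 h2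

end Pool.Agent.Helper98.RS
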