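import Pool.Agent.Helper98.RS.Defs

set_option autoImplicit false

open scoped Pointwise

namespace Pool.Agent.Helper98.RS

/-- minimal normal subgroups above `A` inside `C` -/
structure A8Atom {H : Type} [Group H] (A C B : Subgroup H) : Prop where
  nB : B.Normal
  le : A ≤ B
  ne : A ≠ B
  leC : B ≤ C
  min : ∀ K : Subgroup H, K.Normal → A ≤ K → K ≤ B → K = A ∨ K = B

section aux

variable {H : Type} [Group H]

private lemma a8_exists_atom [Finite H] {A C D : Subgroup H} (hD : D.Normal) (hAD : A ≤ D)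
    (hne : A ≠ D) (hDC : D ≤ C) : ∃ B, A8Atom A C B ∧ B ≤ D := by
  have hwf : WellFounded (fun a b : Subgroup H => a < b) := wellFounded_lt
  obtain ⟨B, ⟨h1, h2, h3, h4⟩, hmin⟩ := hwf.has_min
    {B : Subgroup H | B.Normal ∧ A ≤ B ∧ A ≠ B ∧ B ≤ D} ⟨D, hD, hAD, hne, le_refl _⟩
  refine ⟨B, ⟨h1, h2, h3, h4.trans hDC, fun K hK hAK hKB => ?_⟩, h4⟩
  by_contra hcon
  push Not at hcon
  exact hmin K ⟨hK, hAK, fun h => hcon.1 h.symm, hKB.trans h4⟩ (lt_of_le_of_ne hKB hcon.2)

private lemma a8_comm_iff (A : Subgroup H) [A.Normal] (x y : H) :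
    x * y * x⁻¹ * y⁻¹ ∈ A ↔ (x : H ⧸ A) * (y : H ⧸ A) = (y : H ⧸ A) * (x : H ⧸ A) := by
  rw [← QuotientGroup.eq_one_iff]
  constructor
  · intro h
    have h' : (x : H ⧸ A) * (y : H ⧸ A) * (x : H ⧸ A)⁻¹ * (y : H ⧸ A)⁻¹ = 1 := by
      simpa using h
    rw [mul_inv_eq_one, mul_inv_eq_iff_eq_mul] at h'
    exact h'
  · intro h
    have h' : (x : H ⧸ A) * (y : H ⧸ A) * (x : H ⧸ A)⁻¹ * (y : H ⧸ A)⁻¹ = 1 := by
      rw [mul_inv_eq_one, mul_inv_eq_iff_eq_mul]
      exact h
    simpa using h'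

private lemma a8_pow_iff (A : Subgroup H) [A.Normal] (x : H) (n : ℕ) :
    x ^ n ∈ A ↔ (x : H ⧸ A) ^ n = 1 := by
  rw [← QuotientGroup.eq_one_iff]
  simp

private lemma a8_atom_comm (hs : Group.IsSolvable H) (A : Subgroup H) [hAn : A.Normal]
    {C B : Subgroup H} (hB : A8Atom A C B) : ∀ x ∈ B, ∀ y ∈ B, x * y * x⁻¹ * y⁻¹ ∈ A := by
  have := hs
  have := hB.nB
  set π : H →* H ⧸ A := QuotientGroup.mk' A with hπ
  have hker : π.ker = A := QuotientGroup.ker_mk' A
  have hne : B.map π ≠ ⊥ := by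
    intro h
    rw [Subgroup.map_eq_bot_iff, hker] at h
    exact hB.ne (le_antisymm hB.le h)
  have hlt : ⁅B.map π, B.map π⁆ < B.map π := Group.IsSolvable.commutator_lt_of_ne_bot hne
  have hK : (⁅B, B⁆ ⊔ A).Normal := inferInstance
  have hKB : ⁅B, B⁆ ⊔ A ≤ B := sup_le (Subgroup.commutator_le_right B B) hB.le
  rcases hB.min _ hK le_sup_right hKB with h | h
  · intro x hx y hy
    have h1 : ⁅B, B⁆ ≤ A := by rw [← h]; exact le_sup_left
    exact h1 (Subgroup.commutator_mem_commutator hx hy)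
  · exfalso
    have h2 : B.map π = ⁅B.map π, B.map π⁆ := by
      conv_lhs => rw [← h]
      rw [Subgroup.map_sup, Subgroup.map_commutator]
      have : A.map π = ⊥ := by
        rw [Subgroup.map_eq_bot_iff, hker]
      rw [this, sup_bot_eq]
    exact absurd h2.symm hlt.ne

private lemma a8_atom_pow [Finite H] (A : Subgroup H) [hAn : A.Normal] {C B : Subgroup H}
    (hB : A8Atom A C B) (hcomm : ∀ x ∈ B, ∀ y ∈ B, x * y * x⁻¹ * y⁻¹ ∈ A) :
    ∀ x ∈ B, x ^ (∏ p ∈ (Nat.card H).primeFactors, p) ∈ A := by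
  have := hB.nB
  set π : H →* H ⧸ A := QuotientGroup.mk' A with hπ
  have hker : π.ker = A := QuotientGroup.ker_mk' A
  have hne : B.map π ≠ ⊥ := by
    intro h
    rw [Subgroup.map_eq_bot_iff, hker] at h
    exact hB.ne (le_antisymm hB.le h)
  have hcard : Nat.card (B.map π) ≠ 1 := by
    intro h
    exact hne (Subgroup.eq_bot_of_card_eq _ h)
  obtain ⟨p, hp, hpd⟩ := Nat.exists_prime_and_dvd hcard
  have : Fact p.Prime := ⟨hp⟩
  let L : Subgroup H :=
    { carrier := {x | x ∈ B ∧ x ^ p ∈ A}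
      one_mem' := ⟨B.one_mem, by simp [A.one_mem]⟩
      mul_mem' := by
        rintro x y ⟨hx, hx'⟩ ⟨hy, hy'⟩
        refine ⟨B.mul_mem hx hy, ?_⟩
        rw [a8_pow_iff] at hx' hy' ⊢
        have hc : Commute (x : H ⧸ A) (y : H ⧸ A) := (a8_comm_iff A x y).1 (hcomm x hx y hy)
        rw [QuotientGroup.mk_mul, hc.mul_pow, hx', hy', one_mul]
      inv_mem' := by
        rintro x ⟨hx, hx'⟩
        refine ⟨B.inv_mem hx, ?_⟩
        rw [inv_pow]
        exact A.inv_mem hx' }
  have hLn : L.Normal := by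
    refine ⟨fun x hx g => ?_⟩
    obtain ⟨hx1, hx2⟩ : x ∈ B ∧ x ^ p ∈ A := hx
    refine (show g * x * g⁻¹ ∈ B ∧ (g * x * g⁻¹) ^ p ∈ A from ⟨hB.nB.conj_mem x hx1 g, ?_⟩)
    rw [conj_pow]
    exact hAn.conj_mem _ hx2 g
  have hAL : A ≤ L := fun a ha => (show a ∈ B ∧ a ^ p ∈ A from ⟨hB.le ha, A.pow_mem ha p⟩)
  have hLB : L ≤ B := fun x hx => (show x ∈ B ∧ x ^ p ∈ A from hx).1
  have hLA : L ≠ A := by
    intro h
    obtain ⟨z, hz⟩ := exists_prime_orderOf_dvd_card' (G := B.map π) p hpd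
    obtain ⟨x, hx, hxz⟩ := z.2
    have h1 : (z : H ⧸ A) ^ p = 1 := by
      have := pow_orderOf_eq_one z
      rw [hz] at this
      exact congrArg Subtype.val this
    have hxL : x ∈ L := by
      refine (show x ∈ B ∧ x ^ p ∈ A from ⟨hx, ?_⟩)
      rw [a8_pow_iff]
      have : (x : H ⧸ A) = (z : H ⧸ A) := hxz
      rw [this]
      exact h1
    rw [h] at hxL
    have h2 : z = 1 := by
      apply Subtype.ext
      rw [← hxz]
      exact (QuotientGroup.eq_one_iff x).2 hxL
    rw [h2, orderOf_one] at hz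
    exact hp.one_lt.ne hz
  have hLeq : L = B := (hB.min L hLn hAL hLB).resolve_left hLA
  have hpH : p ∣ Nat.card H := by
    refine hpd.trans ?_
    refine (Subgroup.card_subgroup_dvd_card (B.map π)).trans ?_
    exact Subgroup.card_quotient_dvd_card A
  have hpk : p ∣ ∏ p ∈ (Nat.card H).primeFactors, p :=
    Finset.dvd_prod_of_mem _ (Nat.mem_primeFactors.2 ⟨hp, hpH, Nat.card_pos.ne'⟩)
  intro x hx
  rw [← hLeq] at hx
  obtain ⟨-, hx2⟩ : x ∈ B ∧ x ^ p ∈ A := hx
  obtain ⟨c, hc⟩ := hpk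
  rw [hc, pow_mul]
  exact A.pow_mem hx2 c

private lemma a8_sqf (n : ℕ) : Squarefree (∏ p ∈ n.primeFactors, p) := by
  apply Finset.squarefree_prod_of_pairwise_isCoprime
  · intro p hp q hq hpq
    have hp' := Nat.prime_of_mem_primeFactors (Finset.mem_coe.1 hp)
    have hq' := Nat.prime_of_mem_primeFactors (Finset.mem_coe.1 hq)
    show IsRelPrime p q
    rw [← Nat.coprime_iff_isRelPrime]
    exact (Nat.coprime_primes hp' hq').2 hpq
  · intro p hp
    exact (Nat.prime_of_mem_primeFactors hp).squarefree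

end aux

theorem exists_soc {H : Type} [Group H] [Finite H] (hs : Group.IsSolvable H) (A : Subgroup H)
    [A.Normal] (hA : ∀ x ∈ A, ∀ y ∈ A, x * y = y * x)
    (hmax : ∀ B : Subgroup H, B.Normal → A ≤ B → (∀ x ∈ B, ∀ y ∈ B, x * y = y * x) → B = A)
    (hC : Subgroup.centralizer (A : Set H) ≠ A) : ∃ T : Subgroup H, Soc A T := by
  set C : Subgroup H := Subgroup.centralizer (A : Set H) with hCdef
  have hCn : C.Normal := inferInstance
  have hAn : A.Normal := inferInstance
  have hAC : A ≤ C := by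
    intro x hx
    rw [hCdef, Subgroup.mem_centralizer_iff]
    intro y hy
    exact hA y hy x hx
  set π : H →* H ⧸ A := QuotientGroup.mk' A with hπ
  set T : Subgroup H := sSup {B | A8Atom A C B} with hT
  have hBT : ∀ B, A8Atom A C B → B ≤ T := fun B hB => le_sSup hB
  obtain ⟨B0, hB0, -⟩ := a8_exists_atom hCn hAC (fun h => hC h.symm) (le_refl C)
  have hAT : A ≤ T := hB0.le.trans (hBT B0 hB0)
  have hTC : T ≤ C := sSup_le fun B hB => hB.leC
  have hne : A ≠ T := by
    intro h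
    have h1 : B0 ≤ A := by rw [h]; exact hBT B0 hB0
    exact hB0.ne (le_antisymm hB0.le h1)
  have hTn : T.Normal := by
    refine ⟨fun x hx g => ?_⟩
    have h1 : T ≤ T.comap (MulAut.conj g).toMonoidHom := by
      refine sSup_le fun B hB y hy => ?_
      rw [Subgroup.mem_comap]
      exact hBT B hB (hB.nB.conj_mem y hy g)
    exact h1 hx
  -- commutators
  have hmm : ∀ B, A8Atom A C B → ∀ B', A8Atom A C B' → ∀ x ∈ B, ∀ y ∈ B',
      x * y * x⁻¹ * y⁻¹ ∈ A := by
    intro B hB B' hB' x hx y hy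
    have := hB.nB
    have := hB'.nB
    by_cases hBB : B = B'
    · subst hBB
      exact a8_atom_comm hs A hB x hx y hy
    · have hinf : B ⊓ B' = A := by
        rcases hB.min (B ⊓ B') inferInstance (le_inf hB.le hB'.le) inf_le_left with h | h
        · exact h
        · exfalso
          have h1 : B ≤ B' := by rw [← h]; exact inf_le_right
          rcases hB'.min B hB.nB hB.le h1 with h2 | h2
          · exact hB.ne h2.symm
          · exact hBB h2
      have h1 : ⁅B, B'⁆ ≤ A := by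
        rw [← hinf]
        exact Subgroup.commutator_le_inf B B'
      exact h1 (Subgroup.commutator_mem_commutator hx hy)
  have hc1 : ∀ B, A8Atom A C B → ∀ y ∈ B, ∀ x ∈ T, (x : H ⧸ A) * (y : H ⧸ A) = (y : H ⧸ A) * (x : H ⧸ A) := by
    intro B hB y hy
    have h1 : T ≤ (Subgroup.centralizer {(y : H ⧸ A)}).comap π := by
      refine sSup_le fun B' hB' x hx => ?_
      rw [Subgroup.mem_comap, Subgroup.mem_centralizer_iff]
      rintro _ rfl
      exact ((a8_comm_iff A x y).1 (hmm B' hB' B hB x hx y hy)).symm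
    intro x hx
    have h2 := h1 hx
    rw [Subgroup.mem_comap, Subgroup.mem_centralizer_iff] at h2
    exact (h2 _ rfl).symm
  have hc2 : ∀ y ∈ T, ∀ x ∈ T, (x : H ⧸ A) * (y : H ⧸ A) = (y : H ⧸ A) * (x : H ⧸ A) := by
    intro y hy
    have h1 : T ≤ (Subgroup.centralizer {(y : H ⧸ A)}).comap π := by
      refine sSup_le fun B' hB' x hx => ?_
      rw [Subgroup.mem_comap, Subgroup.mem_centralizer_iff]
      rintro _ rfl
      exact hc1 B' hB' x hx y hy
    intro x hx
    have h2 := h1 hx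
    rw [Subgroup.mem_comap, Subgroup.mem_centralizer_iff] at h2
    exact (h2 _ rfl).symm
  have hcomm : ∀ x ∈ T, ∀ y ∈ T, x * y * x⁻¹ * y⁻¹ ∈ A := fun x hx y hy =>
    (a8_comm_iff A x y).2 (hc2 y hy x hx)
  -- centre
  have hcen : ∀ x ∈ T, (∀ y ∈ T, x * y = y * x) → x ∈ A := by
    have h1 : T ⊓ Subgroup.centralizer (T : Set H) = A := by
      have := hTn
      refine hmax _ inferInstance (le_inf hAT ?_) ?_
      · intro a ha
        rw [Subgroup.mem_centralizer_iff]
        intro t ht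
        have h2 := hTC ht
        rw [hCdef, Subgroup.mem_centralizer_iff] at h2
        exact (h2 a ha).symm
      · rintro x ⟨hx1, hx2⟩ y ⟨hy1, hy2⟩
        have h2 := Subgroup.mem_centralizer_iff.1 hx2 y hy1
        exact h2.symm
    intro x hx hxy
    rw [← h1]
    refine Subgroup.mem_inf.2 ⟨hx, ?_⟩
    rw [Subgroup.mem_centralizer_iff]
    intro y hy
    exact (hxy y hy).symm
  have hcen' : ∀ x ∈ C, (∀ y ∈ T, x * y = y * x) → x ∈ A := by
    have := hTn
    set D : Subgroup H := C ⊓ Subgroup.centralizer (T : Set H) with hD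
    have hDn : D.Normal := inferInstance
    have hAD : A ≤ D := by
      refine le_inf hAC ?_
      intro a ha
      rw [Subgroup.mem_centralizer_iff]
      intro t ht
      have h2 := hTC ht
      rw [hCdef, Subgroup.mem_centralizer_iff] at h2
      exact (h2 a ha).symm
    have hDA : A = D := by
      by_contra hcon
      obtain ⟨B, hB, hBD⟩ := a8_exists_atom hDn hAD hcon (show D ≤ C from inf_le_left)
      apply hB.ne
      refine le_antisymm hB.le ?_
      intro x hx
      refine hcen x (hBT B hB hx) fun y hy => ?_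
      have h2 := (Subgroup.mem_inf.1 (hBD hx)).2
      rw [Subgroup.mem_centralizer_iff] at h2
      exact (h2 y hy).symm
    intro x hx hxy
    rw [hDA]
    refine Subgroup.mem_inf.2 ⟨hx, ?_⟩
    rw [Subgroup.mem_centralizer_iff]
    intro y hy
    exact (hxy y hy).symm
  -- complements
  have hcr : ∀ W : Subgroup H, W.Normal → A ≤ W → W ≤ T → ∃ W' : Subgroup H, W'.Normal ∧ A ≤ W' ∧
      W' ≤ T ∧ W ⊓ W' = A ∧ W ⊔ W' = T := by
    intro W hW hAW hWT
    have hwf : WellFounded (fun a b : Subgroup H => a > b) := wellFounded_gt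
    obtain ⟨V, ⟨hV1, hV2, hV3, hV4⟩, hVmax⟩ := hwf.has_min
      {V : Subgroup H | V.Normal ∧ A ≤ V ∧ V ≤ T ∧ W ⊓ V = A}
      ⟨A, hAn, le_refl A, hAT, inf_eq_right.2 hAW⟩
    refine ⟨V, hV1, hV2, hV3, hV4, ?_⟩
    have := hW
    have := hV1
    refine le_antisymm (sup_le hWT hV3) ?_
    refine sSup_le fun B hB => ?_
    have := hB.nB
    by_contra hcon
    have hBI : B ⊓ (W ⊔ V) = A := by
      refine (hB.min (B ⊓ (W ⊔ V)) inferInstance (le_inf hB.le (hAW.trans le_sup_left))
        inf_le_left).resolve_right fun h => ?_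
      apply hcon
      rw [← h]
      exact inf_le_right
    have hV' : W ⊓ (V ⊔ B) = A := by
      refine le_antisymm ?_ (le_inf hAW (hV2.trans le_sup_left))
      intro w hw
      obtain ⟨hw1, hw2⟩ := Subgroup.mem_inf.1 hw
      obtain ⟨v, hv, b, hb, rfl⟩ := Subgroup.mem_sup_of_normal_right.1 hw2
      have hb' : b ∈ B ⊓ (W ⊔ V) := by
        refine Subgroup.mem_inf.2 ⟨hb, ?_⟩
        have : b = v⁻¹ * (v * b) := by group
        rw [this]
        exact (W ⊔ V).mul_mem ((W ⊔ V).inv_mem (Subgroup.mem_sup_right hv))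
          (Subgroup.mem_sup_left hw1)
      rw [hBI] at hb'
      have hwv : v * b ∈ V := V.mul_mem hv (hV2 hb')
      rw [← hV4]
      exact ⟨hw1, hwv⟩
    have hlt : V < V ⊔ B := by
      refine lt_of_le_of_ne le_sup_left fun h => hcon ?_
      have : B ≤ V := by rw [h]; exact le_sup_right
      exact this.trans le_sup_right
    exact hVmax (V ⊔ B) ⟨inferInstance, hV2.trans le_sup_left, sup_le hV3 (hBT B hB), hV'⟩ hlt
  -- exponent
  have hsq : ∀ x ∈ T, x ^ (∏ p ∈ (Nat.card H).primeFactors, p) ∈ A := by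
    set k := ∏ p ∈ (Nat.card H).primeFactors, p with hk
    let L : Subgroup H :=
      { carrier := {x | x ∈ T ∧ x ^ k ∈ A}
        one_mem' := ⟨T.one_mem, by simp [A.one_mem]⟩
        mul_mem' := by
          rintro x y ⟨hx, hx'⟩ ⟨hy, hy'⟩
          refine ⟨T.mul_mem hx hy, ?_⟩
          rw [a8_pow_iff] at hx' hy' ⊢
          have hc : Commute (x : H ⧸ A) (y : H ⧸ A) := hc2 y hy x hx
          rw [QuotientGroup.mk_mul, hc.mul_pow, hx', hy', one_mul]
        inv_mem' := by
          rintro x ⟨hx, hx'⟩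
          refine ⟨T.inv_mem hx, ?_⟩
          rw [inv_pow]
          exact A.inv_mem hx' }
    have hTL : T ≤ L := by
      refine sSup_le fun B hB x hx => ?_
      exact (show x ∈ T ∧ x ^ k ∈ A from
        ⟨hBT B hB hx, a8_atom_pow A hB (a8_atom_comm hs A hB) x hx⟩)
    intro x hx
    exact (show x ∈ T ∧ x ^ k ∈ A from hTL hx).2
  exact ⟨T, ⟨hTn, hAT, hne, hTC, hcomm, hcen, hcen', hcr, ⟨_, a8_sqf _, hsq⟩⟩⟩

end Pool.Agent.Helper98.RS
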