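import Pool.Agent.Helper98.RS.Defs

set_option autoImplicit false

open scoped Pointwise

namespace Pool.Agent.Helper98.RS

/-- Operators which are multiplied by different characters under conjugation are independent. -/
private theorem a9_ind {E V T ι : Type} [Field E] [AddCommGroup V] [Module E V]
    [Module.Finite E V] [Group T] [Finite ι] (L : T → (V →ₗ[E] V)) (χ : T → (T →* E))
    (hL : ∀ t, L t ≠ 0) (hc : ∀ y t, (L y) ∘ₗ (L t) ∘ₗ (L y⁻¹) = χ t y • L t)
    (t : ι → T) (ht : Function.Injective fun i => χ (t i)) :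
    Nat.card ι ≤ Module.finrank E V ^ 2 := by
  classical
  have := Fintype.ofFinite ι
  have hli : LinearIndependent E fun i => L (t i) := by
    rw [Fintype.linearIndependent_iff]
    intro c hsum i
    have h1 : ∀ y : T, ∑ j, (c j * χ (t j) y) • L (t j) = 0 := by
      intro y
      have h2 : (L y) ∘ₗ (∑ j, c j • L (t j)) ∘ₗ (L y⁻¹) = 0 := by rw [hsum]; simp
      rw [← h2]
      have h3 : (∑ j, c j • L (t j)) ∘ₗ (L y⁻¹) = ∑ j, c j • (L (t j) ∘ₗ L y⁻¹) := by
        ext v
        simp
      rw [h3]
      have h4 : (L y) ∘ₗ (∑ j, c j • (L (t j) ∘ₗ L y⁻¹)) =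
          ∑ j, c j • ((L y) ∘ₗ (L (t j)) ∘ₗ (L y⁻¹)) := by
        ext v
        simp
      rw [h4]
      refine Finset.sum_congr rfl fun j _ => ?_
      rw [hc, smul_smul]
    obtain ⟨f, hf⟩ : ∃ f : Module.Dual E (V →ₗ[E] V), f (L (t i)) ≠ 0 := by
      by_contra hcon
      push Not at hcon
      exact hL (t i) ((Module.forall_dual_apply_eq_zero_iff E _).1 hcon)
    have hD : LinearIndependent E fun j => (⇑(χ (t j)) : T → E) :=
      (linearIndependent_monoidHom T E).comp (fun j => χ (t j)) ht
    rw [Fintype.linearIndependent_iff] at hD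
    have h5 := hD (fun j => c j * f (L (t j))) ?_ i
    · rcases mul_eq_zero.1 h5 with h | h
      · exact h
      · exact absurd h hf
    · ext y
      have h6 := congrArg f (h1 y)
      rw [map_sum, map_zero] at h6
      rw [Finset.sum_apply, Pi.zero_apply, ← h6]
      refine Finset.sum_congr rfl fun j _ => ?_
      rw [Pi.smul_apply, smul_eq_mul, map_smul, smul_eq_mul]
      ring
  have h7 := hli.fintype_card_le_finrank
  rw [Module.finrank_linearMap] at h7
  rw [Nat.card_eq_fintype_card, sq]
  exact h7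

/-- elements centralising `A` commute with the algebra generated by `A` -/
private theorem a9_comm {p : ℕ} [Fact p.Prime] {H : Type} [Group H] {V : Type} [AddCommGroup V]
    [Module (ZMod p) V] (ρ : Representation (ZMod p) H V) (A : Subgroup H) {t : H}
    (ht : t ∈ Subgroup.centralizer (A : Set H)) (e : Module.End (ZMod p) V) (he : e ∈ alg ρ A) :
    ρ t * e = e * ρ t := by
  have h1 : alg ρ A ≤ Subalgebra.centralizer (ZMod p) {ρ t} := by
    refine Algebra.adjoin_le ?_
    rintro _ ⟨a, ha, rfl⟩
    rw [SetLike.mem_coe, Subalgebra.mem_centralizer_iff]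
    rintro _ rfl
    rw [← map_mul, ← map_mul, Subgroup.mem_centralizer_iff.1 ht a ha]
  exact (Subalgebra.mem_centralizer_iff _).1 (h1 he) _ rfl

/-- Independence: the index of `A` in `T` is at most the square of the degree over `E`. -/
theorem soc_card {p : ℕ} [Fact p.Prime]
    (H : Type) [Group H] [Finite H] (V : Type) [AddCommGroup V] [Module (ZMod p) V] [Finite V]
    [Nontrivial V] (ρ : Representation (ZMod p) H V) (hinj : Function.Injective ρ)
    (A : Subgroup H) [A.Normal] (hE : IsField (alg ρ A)) (T : Subgroup H) (hT : Soc A T) :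
    ∃ a' : ℕ, Module.finrank (ZMod p) V = Module.finrank (ZMod p) (alg ρ A) * a' ∧
      A.relIndex T ≤ a' ^ 2 := by
  classical
  let fE : Field (alg ρ A) := hE.toField
  have hfin : Module.Finite (ZMod p) V := Module.Finite.of_finite
  have hfinE : Module.Finite (alg ρ A) V := Module.Finite.of_finite
  refine ⟨Module.finrank (alg ρ A) V, (Module.finrank_mul_finrank _ _ _).symm, ?_⟩
  let cm : T → T → H := fun t y => y.1 * t.1 * y.1⁻¹ * t.1⁻¹
  have hcm : ∀ t y, cm t y ∈ A := fun t y => hT.comm _ y.2 _ t.2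
  have hmul : ∀ t y z : T, cm t (y * z) = cm t y * cm t z := by
    intro t y z
    have h1 : cm t z * y.1 = y.1 * cm t z :=
      Subgroup.mem_centralizer_iff.1 (hT.cent y.2) _ (hcm t z)
    have h2 : cm t z * cm t y = cm t y * cm t z :=
      Subgroup.mem_centralizer_iff.1 (hT.cent (hT.le (hcm t y))) _ (hcm t z)
    have h3 : cm t (y * z) = y.1 * cm t z * (t.1 * y.1⁻¹ * t.1⁻¹) := by
      simp only [cm, Subgroup.coe_mul, mul_inv_rev]
      group
    rw [h3, ← h1, ← h2]
    simp only [cm]
    group
  let L : T → (V →ₗ[alg ρ A] V) := fun t =>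
    { toFun := ρ t.1
      map_add' := map_add _
      map_smul' := fun e v => LinearMap.congr_fun (a9_comm ρ A (hT.cent t.2) e.1 e.2) v }
  let χ : T → (T →* alg ρ A) := fun t =>
    { toFun := fun y => ⟨ρ (cm t y), Algebra.subset_adjoin ⟨_, hcm t y, rfl⟩⟩
      map_one' := by
        apply Subtype.ext
        show ρ (cm t 1) = 1
        have : cm t 1 = 1 := by simp [cm]
        rw [this, map_one]
      map_mul' := fun y z => by
        apply Subtype.ext
        show ρ (cm t (y * z)) = ρ (cm t y) * ρ (cm t z)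
        rw [hmul, map_mul] }
  have hL : ∀ t, L t ≠ 0 := by
    intro t h
    obtain ⟨v, hv⟩ := exists_ne (0 : V)
    refine hv ?_
    have h1 : ρ t.1 v = 0 := LinearMap.congr_fun h v
    have h2 : ρ t.1⁻¹ (ρ t.1 v) = v := by
      rw [← Module.End.mul_apply, ← map_mul, inv_mul_cancel, map_one, Module.End.one_apply]
    rw [← h2, h1, map_zero]
  have hc : ∀ y t, (L y) ∘ₗ (L t) ∘ₗ (L y⁻¹) = χ t y • L t := by
    intro y t
    ext v
    show ρ y.1 (ρ t.1 (ρ (y⁻¹).1 v)) = ρ (cm t y) (ρ t.1 v)
    rw [← Module.End.mul_apply, ← Module.End.mul_apply, ← Module.End.mul_apply, ← map_mul,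
      ← map_mul, ← map_mul]
    congr 2
    simp only [cm, Subgroup.coe_inv]
    group
  have ht : Function.Injective fun q : T ⧸ A.subgroupOf T => χ q.out := by
    intro q q' h
    have h1 : ∀ y : T, cm q.out y = cm q'.out y := by
      intro y
      have h2 := DFunLike.congr_fun h y
      exact hinj (congrArg Subtype.val h2)
    have h2 : ∀ y ∈ T, (q'.out.1⁻¹ * q.out.1) * y = y * (q'.out.1⁻¹ * q.out.1) := by
      intro y hy
      have h3 := h1 ⟨y⁻¹, T.inv_mem hy⟩
      simp only [cm, inv_inv] at h3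
      have h4 : q.out.1 * y * q.out.1⁻¹ = q'.out.1 * y * q'.out.1⁻¹ := by
        have h5 := congrArg (fun x => y * x) h3
        simpa [mul_assoc] using h5
      calc (q'.out.1⁻¹ * q.out.1) * y = q'.out.1⁻¹ * (q.out.1 * y * q.out.1⁻¹) * q.out.1 := by
            group
        _ = y * (q'.out.1⁻¹ * q.out.1) := by
            rw [h4]
            group
    have h3 : q'.out.1⁻¹ * q.out.1 ∈ A :=
      hT.center _ (T.mul_mem (T.inv_mem q'.out.2) q.out.2) h2
    have h4 : (QuotientGroup.mk q'.out : T ⧸ A.subgroupOf T) = QuotientGroup.mk q.out := by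
      rw [QuotientGroup.eq, Subgroup.mem_subgroupOf]
      exact h3
    have h5 : (QuotientGroup.mk q'.out : T ⧸ A.subgroupOf T) = q' := Quotient.out_eq' q'
    have h6 : (QuotientGroup.mk q.out : T ⧸ A.subgroupOf T) = q := Quotient.out_eq' q
    rw [← h5, ← h6, h4]
  have h := a9_ind L χ hL hc (fun q : T ⧸ A.subgroupOf T => q.out) ht
  exact h

end Pool.Agent.Helper98.RS
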