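import Pool.Agent.Helper98.RS.A3
import Pool.Agent.Helper98.RS.A4
import Pool.Agent.Helper98.RS.A6
import Pool.Agent.Helper98.RS.A7
import Pool.Agent.Helper98.RS.A8
import Pool.Agent.Helper98.RS.A9
import Pool.Agent.Helper98.RS.A10
import Pool.Agent.Helper98.RS.A11

set_option autoImplicit false

open scoped Pointwise

namespace Pool.Agent.Helper98.RS

/-! ### Numerical lemmas -/

private theorem A12_fr_mono (r : ℕ) {a b : ℕ} (h : a ≤ b) : fr r a ≤ fr r b := by
  unfold fr
  split_ifs <;> omega

private theorem A12_fr_le (r a : ℕ) : fr r a ≤ 2 * a := by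
  unfold fr
  split_ifs <;> omega

private theorem A12_perm (r t : ℕ) (hr : 2 ≤ r) (ht : 1 ≤ t) :
    9 ^ (1 + fr r t) ≤ r ^ (5 * t) := by
  rcases Nat.lt_or_ge t 4 with h4 | h4
  · interval_cases t
    · by_cases h2 : r = 2
      · subst h2; norm_num [fr]
      · have h3 : 3 ≤ r := by omega
        have : 3 ^ (5 * 1) ≤ r ^ (5 * 1) := Nat.pow_le_pow_left h3 _
        refine le_trans ?_ this
        norm_num [fr, h2]
    · by_cases h2 : r = 2
      · subst h2; norm_num [fr]
      · have h3 : 3 ≤ r := by omega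
        have : 3 ^ (5 * 2) ≤ r ^ (5 * 2) := Nat.pow_le_pow_left h3 _
        refine le_trans ?_ this
        norm_num [fr, h2]
    · by_cases h2 : r = 2
      · subst h2; norm_num [fr]
      · have h3 : 3 ≤ r := by omega
        have : 3 ^ (5 * 3) ≤ r ^ (5 * 3) := Nat.pow_le_pow_left h3 _
        refine le_trans ?_ this
        norm_num [fr, h2]
  · by_cases h2 : r = 2
    · subst h2
      have hf : fr 2 t = t + 1 := by
        unfold fr
        split_ifs <;> omega
      rw [hf]
      clear hf ht
      induction t, h4 using Nat.le_induction with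
      | base => norm_num
      | succ t _ ih =>
        have h5 : 9 ^ (1 + (t + 1 + 1)) = 9 * 9 ^ (1 + (t + 1)) := by ring
        have h6 : (2 : ℕ) ^ (5 * (t + 1)) = 32 * 2 ^ (5 * t) := by
          rw [mul_add, pow_add]; ring
        rw [h5, h6]
        exact Nat.mul_le_mul (by norm_num) ih
    · have h3 : 3 ≤ r := by omega
      have hf : fr r t = 2 * t := by
        unfold fr
        split_ifs <;> omega
      rw [hf]
      calc 9 ^ (1 + 2 * t) = 3 ^ (2 * (1 + 2 * t)) := by rw [pow_mul]; norm_num
        _ ≤ 3 ^ (5 * t) := Nat.pow_le_pow_right (by norm_num) (by omega)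
        _ ≤ r ^ (5 * t) := Nat.pow_le_pow_left h3 _

private theorem A12_nine (N : ℕ) (h : 2 ≤ N) : N ^ 5 < 9 ^ N := by
  induction N, h using Nat.le_induction with
  | base => norm_num
  | succ N hN ih =>
    have h1 : (2 * (N + 1)) ^ 5 ≤ (3 * N) ^ 5 := Nat.pow_le_pow_left (by omega) _
    rw [mul_pow, mul_pow] at h1
    have h2 : (9 : ℕ) ^ (N + 1) = 9 * 9 ^ N := by ring
    rw [h2]
    norm_num at h1
    omega

private theorem A12_two (a : ℕ) : a ^ 2 < 2 ^ (a + 1) := by
  rcases Nat.lt_or_ge a 3 with h | h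
  · interval_cases a <;> norm_num
  · induction a, h using Nat.le_induction with
    | base => norm_num
    | succ n hn ih =>
      have h2 : (2 : ℕ) ^ (n + 1 + 1) = 2 * 2 ^ (n + 1) := by ring
      rw [h2]
      nlinarith

private theorem A12_three (a : ℕ) : a ^ 2 < 3 ^ a := by
  rcases Nat.lt_or_ge a 2 with h | h
  · interval_cases a <;> norm_num
  · induction a, h using Nat.le_induction with
    | base => norm_num
    | succ n hn ih =>
      have h2 : (3 : ℕ) ^ (n + 1) = 3 * 3 ^ n := by ring
      rw [h2]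
      nlinarith

/-- range of `t` for `s = 2` -/
private theorem A12_t2 (t a : ℕ) (h : 2 ^ t ≤ a ^ 2) : t ≤ a := by
  by_contra hc
  have h1 : 2 ^ (a + 1) ≤ 2 ^ t := Nat.pow_le_pow_right (by norm_num) (by omega)
  have h2 := A12_two a
  omega

/-- range of `t` for `s ≥ 3` -/
private theorem A12_t3 (s t a : ℕ) (hs : 3 ≤ s) (h : s ^ t ≤ a ^ 2) : t < a := by
  by_contra hc
  have h1 : 3 ^ a ≤ 3 ^ t := Nat.pow_le_pow_right (by norm_num) (by omega)
  have h2 : 3 ^ t ≤ s ^ t := Nat.pow_le_pow_left hs _
  have h3 := A12_three a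
  omega

private theorem A12_sq2 (t : ℕ) (h : 4 ≤ t) : (t + 3) ^ 2 ≤ 4 * 2 ^ t := by
  induction t, h using Nat.le_induction with
  | base => norm_num
  | succ n hn ih =>
    have h2 : (2 : ℕ) ^ (n + 1) = 2 * 2 ^ n := by ring
    rw [h2]
    nlinarith

private theorem A12_sq3 (t : ℕ) (h : 2 ≤ t) : (t + 1) ^ 2 ≤ 3 ^ t := by
  induction t, h using Nat.le_induction with
  | base => norm_num
  | succ n hn ih =>
    have h2 : (3 : ℕ) ^ (n + 1) = 3 * 3 ^ n := by ring
    rw [h2]
    nlinarith

private theorem A12_fr_soc (s t a : ℕ) (hs : 2 ≤ s) (ha : 2 ≤ a) (h : s ^ t ≤ a ^ 2) :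
    fr s t ≤ 2 * a - 2 := by
  by_cases h2 : s = 2
  · subst h2
    rcases Nat.lt_or_ge t 4 with h4 | h4
    · have : fr 2 t ≤ 2 := by
        unfold fr
        split_ifs <;> omega
      omega
    · have h5 := A12_sq2 t h4
      have h6 : t + 3 ≤ 2 * a := by
        by_contra hc
        have h7 : (2 * a + 1) ^ 2 ≤ (t + 3) ^ 2 := Nat.pow_le_pow_left (by omega) _
        nlinarith
      have : fr 2 t = t + 1 := by
        unfold fr
        split_ifs <;> omega
      omega
  · have h3 : 3 ≤ s := by omega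
    rcases Nat.lt_or_ge t 2 with h4 | h4
    · have : fr s t ≤ 1 := by
        unfold fr
        split_ifs <;> omega
      omega
    · have h5 := A12_sq3 t h4
      have h6 : 3 ^ t ≤ s ^ t := Nat.pow_le_pow_left h3 _
      have h7 : t + 1 ≤ a := by
        by_contra hc
        have h7 : (a + 1) ^ 2 ≤ (t + 1) ^ 2 := Nat.pow_le_pow_left (by omega) _
        nlinarith
      have : fr s t = 2 * t := by
        unfold fr
        split_ifs <;> omega
      omega

private theorem A12_big (T : ℕ) (h : 11 ≤ T) : 16 * T ^ 2 < 2 ^ T := by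
  induction T, h using Nat.le_induction with
  | base => norm_num
  | succ n hn ih =>
    have h2 : (2 : ℕ) ^ (n + 1) = 2 * 2 ^ n := by ring
    rw [h2]
    nlinarith

private theorem A12_four (T d : ℕ) (hd : 65 ≤ d) (h : 2 ^ T ≤ d ^ 2) : 4 * T ≤ d := by
  by_contra hc
  rcases Nat.lt_or_ge T 11 with h1 | h1
  · omega
  · have h2 := A12_big T h1
    have h3 : d ^ 2 ≤ (4 * T) ^ 2 := Nat.pow_le_pow_left (by omega) _
    rw [mul_pow] at h3
    norm_num at h3
    omega

/-! ### Elementary derived length facts -/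

private theorem A12_triv {H : Type} [Group H] (h : ∀ g : H, g = 1) (m : ℕ) :
    derivedSeries H m = ⊥ := by
  rw [eq_bot_iff]
  intro g _
  rw [Subgroup.mem_bot]
  exact h g

private theorem A12_abel {H : Type} [Group H] (A : Subgroup H)
    (hA : ∀ x ∈ A, ∀ y ∈ A, x * y = y * x) : derivedSeries A 1 = ⊥ := by
  rw [derivedSeries_one, commutator_def, Subgroup.commutator_eq_bot_iff_le_centralizer]
  intro g _
  rw [Subgroup.mem_centralizer_iff]
  intro h _
  exact Subtype.ext (hA _ h.2 _ g.2)

/-! ### Permutation groups -/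

private theorem A12_perm_ind (a : ℕ)
    (hP : ∀ n < a, ∀ m, n ^ 5 < 9 ^ (m + 1) → PermDL Sol n m)
    (hL : ∀ r t, t < a → LinDL Sol r t (fr r t)) (m : ℕ) (h : a ^ 5 < 9 ^ (m + 1)) :
    PermDL Sol a m := by
  refine perm_of_trans cls_sol a m ?_
  intro H _ _ X _ _ hH hf ht hX
  rcases Nat.lt_or_ge (Nat.card X) 2 with hX2 | hX2
  · have hs : Subsingleton X := Finite.card_le_one_iff_subsingleton.1 (by omega)
    exact A12_triv (fun g => hf g fun x => Subsingleton.elim _ _) m
  · obtain ⟨r, t, n', K, hK, hr, h1t, hcard, hq, hk⟩ := perm_step cls_sol H X hH hf ht hX2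
    have hr2 := hr.two_le
    have hn'0 : n' ≠ 0 := by
      rintro rfl
      rw [zero_mul] at hcard
      omega
    have hn'1 : 1 ≤ n' := Nat.one_le_iff_ne_zero.2 hn'0
    have hrt : 2 ^ t ≤ r ^ t := Nat.pow_le_pow_left hr2 _
    have ht2 : t < 2 ^ t := Nat.lt_two_pow_self
    have h2t : 2 ≤ r ^ t := by omega
    have hle : n' * r ^ t ≤ a := by omega
    have hn'a : n' < a := by nlinarith
    have hta : t < a := by nlinarith
    set m1 := Nat.log 9 (n' ^ 5) with hm1
    have h1 : n' ^ 5 < 9 ^ (m1 + 1) := Nat.lt_pow_succ_log_self (by norm_num) _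
    have h2 : 9 ^ m1 ≤ n' ^ 5 := Nat.pow_log_le_self 9 (pow_ne_zero _ hn'0)
    have h3 := hq m1 (hP n' hn'a m1 h1)
    have h4 := hk (fr r t) (hL r t hta)
    have h5 := dl_ext K m1 (fr r t + 1) h3 h4
    refine dl_mono ?_ h5
    have h6 := A12_perm r t hr2 h1t
    have h7 : 9 ^ (m1 + (fr r t + 1)) < 9 ^ (m + 1) := by
      calc 9 ^ (m1 + (fr r t + 1)) = 9 ^ m1 * 9 ^ (1 + fr r t) := by
            rw [pow_add, add_comm (fr r t) 1]
        _ ≤ n' ^ 5 * r ^ (5 * t) := Nat.mul_le_mul h2 h6
        _ = (n' * r ^ t) ^ 5 := by rw [mul_pow, ← pow_mul, mul_comm t 5]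
        _ ≤ a ^ 5 := Nat.pow_le_pow_left hle _
        _ < 9 ^ (m + 1) := h
    have h8 := (Nat.pow_lt_pow_iff_right (by norm_num : 1 < 9)).1 h7
    omega

/-! ### Irreducible linear groups -/

private theorem A12_ne_char {p : ℕ} [Fact p.Prime] (H : Type) [Group H] [Finite H] (V : Type)
    [AddCommGroup V] [Module (ZMod p) V] [Finite V] [Nontrivial V]
    (ρ : Representation (ZMod p) H V) (hinj : Function.Injective ρ) (A : Subgroup H)
    (hE : IsField (alg ρ A)) : ¬ p ∣ Nat.card A := by
  intro hd
  obtain ⟨x, hx⟩ := exists_prime_orderOf_dvd_card' p hd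
  have hx1 : x ≠ 1 := by
    rintro rfl
    rw [orderOf_one] at hx
    exact (Fact.out : p.Prime).one_lt.ne hx
  have hxp : (x : H) ^ p = 1 := by
    have : x ^ p = 1 := by rw [← hx]; exact pow_orderOf_eq_one x
    rw [← Subgroup.coe_pow, this, Subgroup.coe_one]
  apply hx1
  have hmem : ρ (x : H) ∈ alg ρ A := Algebra.subset_adjoin ⟨x, x.2, rfl⟩
  letI : Field (alg ρ A) := hE.toField
  haveI : CharP (alg ρ A) p := charP_of_injective_algebraMap
    (algebraMap (ZMod p) (alg ρ A)).injective p
  have h1 : (⟨ρ (x : H), hmem⟩ - 1 : alg ρ A) ^ p = 0 := by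
    rw [sub_pow_char, one_pow]
    have : (⟨ρ (x : H), hmem⟩ : alg ρ A) ^ p = 1 := by
      apply Subtype.ext
      rw [SubmonoidClass.coe_pow]
      show ρ (x : H) ^ p = 1
      rw [← map_pow, hxp, map_one]
    rw [this, sub_self]
  have h2 : (⟨ρ (x : H), hmem⟩ - 1 : alg ρ A) = 0 := pow_eq_zero_iff (Fact.out : p.Prime).ne_zero |>.1 h1
  have h3 : ρ (x : H) = 1 := by
    have := congrArg Subtype.val (sub_eq_zero.1 h2)
    exact this
  have h4 : (x : H) = 1 := hinj (h3.trans (map_one ρ).symm)
  exact Subtype.ext h4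

private theorem A12_z2 (c : ZMod 2) : c = 0 ∨ c = 1 := by
  revert c
  decide

private theorem A12_alg_one {p : ℕ} [Fact p.Prime] (hp : p = 2) (H : Type) [Group H] (V : Type)
    [AddCommGroup V] [Module (ZMod p) V] [Finite V] [Nontrivial V]
    (ρ : Representation (ZMod p) H V) (hinj : Function.Injective ρ) (A : Subgroup H)
    (h1 : Module.finrank (ZMod p) (alg ρ A) = 1) : ∀ x ∈ A, x = 1 := by
  intro x hx
  have hmem : ρ x ∈ alg ρ A := Algebra.subset_adjoin ⟨x, hx, rfl⟩
  have hne : (1 : alg ρ A) ≠ 0 := by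
    intro h
    have h2 : (1 : Module.End (ZMod p) V) = 0 := congrArg Subtype.val h
    obtain ⟨v, hv⟩ := exists_ne (0 : V)
    apply hv
    have h3 := congrArg (fun f : Module.End (ZMod p) V => f v) h2
    exact h3
  obtain ⟨c, hc⟩ := (finrank_eq_one_iff_of_nonzero' (1 : alg ρ A) hne).1 h1 ⟨ρ x, hmem⟩
  have h4 : ρ x = c • (1 : Module.End (ZMod p) V) := (congrArg Subtype.val hc).symm
  subst hp
  have h5 : c = 0 ∨ c = 1 := A12_z2 c
  apply hinj
  rw [map_one]
  rcases h5 with h5 | h5
  · exfalso
    rw [h5, zero_smul] at h4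
    obtain ⟨v, hv⟩ := exists_ne (0 : V)
    apply hv
    have h6 : ρ x⁻¹ (ρ x v) = v := by
      rw [← Module.End.mul_apply, ← map_mul, inv_mul_cancel, map_one, Module.End.one_apply]
    rw [h4, LinearMap.zero_apply, map_zero] at h6
    exact h6.symm
  · rw [h4, h5, one_smul]

private theorem A12_cases {p : ℕ} [Fact p.Prime] (H : Type) [Group H] [Finite H] (V : Type)
    [AddCommGroup V] [Module (ZMod p) V] [Finite V] (ρ : Representation (ZMod p) H V)
    (hH : Sol H) (hinj : Function.Injective ρ) (hirr : Irr ρ) :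
    (∃ (N b : ℕ) (K : Subgroup H) (_ : K.Normal), 2 ≤ N ∧ 1 ≤ b ∧
      Module.finrank (ZMod p) V = N * b ∧ (p = 2 → 2 ≤ b) ∧
      (∀ m, PermDL Sol N m → derivedSeries (H ⧸ K) m = ⊥) ∧
      (∀ m, LinDL Sol p b m → derivedSeries K m = ⊥)) ∨
    derivedSeries H 2 = ⊥ ∨
    ∃ e a' : ℕ, Module.finrank (ZMod p) V = e * a' ∧ 1 ≤ e ∧ 2 ≤ a' ∧ (p = 2 → 2 ≤ e) ∧
      ∀ m, (∀ s t : ℕ, s.Prime → s ≠ p → 1 ≤ t → s ^ t ≤ a' ^ 2 → LinDL Sol s t m) →
        derivedSeries H ((if e = 1 then 0 else 1) + (m + 2)) = ⊥ := by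
  classical
  have hnt : Nontrivial V := hirr.1
  by_cases hall : ∀ A : Subgroup H, A.Normal → (∀ x ∈ A, ∀ y ∈ A, x * y = y * x) →
      IsField (alg ρ A)
  swap
  · push Not at hall
    obtain ⟨A, hAn, hA, hE⟩ := hall
    exact Or.inl (lin_caseI cls_sol H V ρ hH hinj hirr A hA hE)
  right
  -- a maximal abelian normal subgroup
  have hfs : Finite (Subgroup H) := inferInstance
  obtain ⟨A, ⟨hAn, hA⟩, hmax'⟩ := (wellFounded_gt (α := Subgroup H)).has_min
    {B : Subgroup H | B.Normal ∧ ∀ x ∈ B, ∀ y ∈ B, x * y = y * x} ⟨⊥, inferInstance, by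
      intro x hx y hy
      rw [Subgroup.mem_bot] at hx hy
      rw [hx, hy]⟩
  have hmax : ∀ B : Subgroup H, B.Normal → A ≤ B → (∀ x ∈ B, ∀ y ∈ B, x * y = y * x) →
      B = A := by
    intro B hBn hAB hB
    by_contra hne
    exact hmax' B ⟨hBn, hB⟩ (lt_of_le_of_ne hAB (Ne.symm hne))
  have hE : IsField (alg ρ A) := hall A hAn hA
  obtain ⟨hq, hq1⟩ := field_cent H V ρ hinj A hE
  by_cases hC : Subgroup.centralizer (A : Set H) = A
  · left
    have h1 : derivedSeries (Subgroup.centralizer (A : Set H)) 1 = ⊥ := by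
      apply A12_abel
      rw [hC]
      exact hA
    exact dl_ext _ 1 1 hq h1
  · right
    obtain ⟨T, hT⟩ := exists_soc hH A hA hmax hC
    obtain ⟨a', hd, hcard⟩ := soc_card H V ρ hinj A hE T hT
    have hr1 : A.relIndex T ≠ 1 := by
      intro h
      rw [Subgroup.relIndex_eq_one] at h
      exact hT.ne (le_antisymm hT.le h)
    have hr0 : A.relIndex T ≠ 0 := Subgroup.index_ne_zero_of_finite
    have ha' : 2 ≤ a' := by
      by_contra hc
      have h1 : a' ^ 2 ≤ 1 ^ 2 := Nat.pow_le_pow_left (by omega) _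
      rw [one_pow] at h1
      omega
    have hfin : Module.Finite (ZMod p) V := Module.Finite.of_finite
    have hpos : 0 < Module.finrank (ZMod p) V := Module.finrank_pos
    have he : 1 ≤ Module.finrank (ZMod p) (alg ρ A) := by
      by_contra hc
      have h0 : Module.finrank (ZMod p) (alg ρ A) = 0 := by omega
      rw [h0, zero_mul] at hd
      omega
    refine ⟨Module.finrank (ZMod p) (alg ρ A), a', hd, he, ha', ?_, ?_⟩
    · intro hp
      by_contra hc
      have h1 : Module.finrank (ZMod p) (alg ρ A) = 1 := by omega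
      have h2 := A12_alg_one hp H V ρ hinj A h1
      obtain ⟨s, hs, hsd⟩ := Nat.exists_prime_and_dvd hr1
      have h3 := soc_prime A T hT s hs hsd
      have h4 : Nat.card A = 1 := by
        have : A = ⊥ := by
          rw [eq_bot_iff]
          intro x hx
          rw [Subgroup.mem_bot]
          exact h2 x hx
        rw [this]
        exact Subgroup.card_bot
      rw [h4] at h3
      exact hs.one_lt.ne' (Nat.dvd_one.1 h3)
    · intro m hm
      have h1 : derivedSeries (Subgroup.centralizer (A : Set H)) (m + 2) = ⊥ := by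
        refine soc_dl cls_sol hH A T hT ?_ m ?_
        · intro c hc h
          exact soc_self H V ρ hinj A hE T hT c hc h
        · intro s t hs hsd hst
          rcases Nat.eq_zero_or_pos t with ht | ht
          · subst ht
            exact lin_mono (lin_zero s) le_rfl (Nat.zero_le _)
          · refine hm s t hs ?_ ht (hst.trans hcard)
            rintro rfl
            exact A12_ne_char H V ρ hinj A hE (soc_prime A T hT s hs hsd)
      split_ifs with h2
      · refine dl_ext _ 0 (m + 2) ?_ h1
        apply A12_triv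
        intro g
        obtain ⟨h, rfl⟩ := QuotientGroup.mk_surjective g
        rw [QuotientGroup.eq_one_iff, hq1 h2]
        trivial
      · exact dl_ext _ 1 (m + 2) hq h1

/-! ### The linear bound -/

private theorem A12_lin_ind (p a : ℕ)
    (hP : ∀ N, N ≤ a → ∀ m, N ^ 5 < 9 ^ (m + 1) → PermDL Sol N m)
    (hL : ∀ b < a, LinDL Sol p b (fr p b))
    (hS : ∀ s t, s ≠ p → s ≠ 2 → t < a → LinDL Sol s t (fr s t))
    (hS2 : p ≠ 2 → ∀ t, t ≤ a → LinDL Sol 2 t (fr 2 t)) : LinDL Sol p a (fr p a) := by
  rcases Nat.lt_or_ge a 2 with h2 | h2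
  · interval_cases a
    · exact lin_mono (lin_zero p) le_rfl (Nat.zero_le _)
    · by_cases hp : p = 2
      · subst hp
        exact lin_mono lin_two_one le_rfl (Nat.zero_le _)
      · refine lin_mono (lin_one p) le_rfl ?_
        simp [fr, hp]
  · refine lin_of_irr cls_sol p a _ ?_
    intro _ H _ _ V _ _ _ ρ hH hinj hirr hda
    have hnt : Nontrivial V := hirr.1
    have hfin : Module.Finite (ZMod p) V := Module.Finite.of_finite
    have hpos : 0 < Module.finrank (ZMod p) V := Module.finrank_pos
    rcases Nat.lt_or_ge (Module.finrank (ZMod p) V) 2 with hd2 | hd2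
    · have h1 := lin_one (P := Sol) p H V ρ hH hinj (cr_of_irr ρ hirr) (by omega)
      refine dl_mono ?_ h1
      unfold fr
      split_ifs <;> omega
    · have hfa : fr p (Module.finrank (ZMod p) V) ≤ fr p a := A12_fr_mono p hda
      rcases A12_cases H V ρ hH hinj hirr with
        ⟨N, b, K, hK, hN, hb, hd, hpb, hq, hk⟩ | h1 | ⟨e, a', hd, he, ha', hpe, hm⟩
      · have hNb : N * b ≤ a := by omega
        have hNa : N ≤ a := by nlinarith
        have hba : b < a := by nlinarith
        have hN9 : N ^ 5 < 9 ^ (N - 1 + 1) := by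
          rw [Nat.sub_add_cancel (by omega)]
          exact A12_nine N hN
        have h3 := hq (N - 1) (hP N hNa _ hN9)
        have h4 := hk (fr p b) (hL b hba)
        refine dl_mono (le_trans ?_ hfa) (dl_ext K _ _ h3 h4)
        rw [hd]
        by_cases hp : p = 2
        · subst hp
          have hb2 := hpb rfl
          have h4 : 4 ≤ N * b := by nlinarith
          have h5 : fr 2 (N * b) = N * b + 1 := by
            unfold fr
            split_ifs <;> omega
          rw [h5]
          have h6 : fr 2 b ≤ b + 1 := by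
            unfold fr
            split_ifs <;> omega
          have h7 : N + b ≤ N * b + 1 := by nlinarith
          rcases Nat.lt_or_ge b 4 with h8 | h8
          · have h9 : fr 2 b ≤ 2 := by
              unfold fr
              split_ifs <;> omega
            omega
          · omega
        · have h4 : 2 ≤ N * b := by omega
          have h5 : fr p (N * b) = 2 * (N * b) := by
            unfold fr
            split_ifs <;> omega
          rw [h5]
          have h6 : fr p b ≤ 2 * b := A12_fr_le p b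
          rcases Nat.lt_or_ge b 2 with h8 | h8
          · have h9 : b = 1 := by omega
            subst h9
            have h10 : fr p 1 = 1 := by simp [fr, hp]
            omega
          · have h7 : N + 2 * b ≤ 2 * (N * b) + 1 := by nlinarith
            omega
      · refine dl_mono (le_trans ?_ hfa) h1
        unfold fr
        split_ifs <;> omega
      · have h5 := hm (2 * a' - 2) (by
          intro s t hs hsp ht hst
          have h6 : fr s t ≤ 2 * a' - 2 := A12_fr_soc s t a' hs.two_le ha' hst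
          rcases eq_or_ne s 2 with hs2 | hs2
          · subst hs2
            have h7 : t ≤ a' := A12_t2 t a' hst
            have h8 : a' ≤ a := by nlinarith
            exact @lin_mono _ _ _ _ _ _ (@hS2 (Ne.symm hsp) t (h7.trans h8)) le_rfl h6
          · have h9 : 3 ≤ s := by
              have := hs.two_le
              omega
            have h7 : t < a' := A12_t3 s t a' h9 hst
            have h8 : a' ≤ a := by nlinarith
            exact @lin_mono _ _ _ _ _ _ (@hS s t hsp hs2 (by omega)) le_rfl h6)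
        refine dl_mono (le_trans ?_ hfa) h5
        rw [hd]
        by_cases hp : p = 2
        · subst hp
          have he2 := hpe rfl
          have h4 : 4 ≤ e * a' := by nlinarith
          have h5 : fr 2 (e * a') = e * a' + 1 := by
            unfold fr
            split_ifs <;> omega
          rw [h5]
          have h6 : 2 * a' ≤ e * a' := Nat.mul_le_mul_right _ he2
          split_ifs <;> omega
        · have h4 : 2 ≤ e * a' := by nlinarith
          have h5 : fr p (e * a') = 2 * (e * a') := by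
            unfold fr
            split_ifs <;> omega
          rw [h5]
          split_ifs with h6
          · subst h6
            omega
          · have h7 : 2 * a' ≤ e * a' := Nat.mul_le_mul_right _ (by omega)
            omega

private theorem A12_all (a : ℕ) :
    (∀ m, a ^ 5 < 9 ^ (m + 1) → PermDL Sol a m) ∧ (∀ p, LinDL Sol p a (fr p a)) := by
  induction a using Nat.strong_induction_on with
  | _ a ih =>
    have hP : ∀ m, a ^ 5 < 9 ^ (m + 1) → PermDL Sol a m :=
      A12_perm_ind a (fun n hn m h => (ih n hn).1 m h) (fun r t ht => (ih t ht).2 r)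
    have hP' : ∀ N, N ≤ a → ∀ m, N ^ 5 < 9 ^ (m + 1) → PermDL Sol N m := by
      intro N hN m h
      rcases Nat.lt_or_ge N a with h1 | h1
      · exact (ih N h1).1 m h
      · have : N = a := le_antisymm hN h1
        subst this
        exact hP m h
    have h2 : LinDL Sol 2 a (fr 2 a) :=
      A12_lin_ind 2 a hP' (fun b hb => (ih b hb).2 2) (fun s t _ _ ht => (ih t ht).2 s)
        (fun h => absurd rfl h)
    refine ⟨hP, ?_⟩
    intro p
    rcases eq_or_ne p 2 with hp | hp
    · subst hp
      exact @h2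
    · refine A12_lin_ind p a hP' (fun b hb => (ih b hb).2 p) (fun s t _ _ ht => (ih t ht).2 s) ?_
      intro _ t ht
      rcases Nat.lt_or_ge t a with h1 | h1
      · exact (ih t h1).2 2
      · have : t = a := le_antisymm ht h1
        subst this
        exact @h2

theorem perm_bound (n m : ℕ) (h : n ^ 5 < 9 ^ (m + 1)) : PermDL Sol n m :=
  (A12_all n).1 m h

theorem lin_bound (p a : ℕ) : LinDL Sol p a (fr p a) := (A12_all a).2 p

/-! ### The logarithmic bound -/

private theorem A12_log (c : ℕ) (hc : 9 ^ 128 ≤ c) (p a m : ℕ) (h : c * a ^ 5 < 9 ^ (m + 1))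
    (ha : 1 ≤ a) : LinDL Sol p a m := by
  induction a using Nat.strong_induction_on generalizing p m with
  | _ a ih =>
    have hc0 : 1 ≤ c := le_trans (Nat.one_le_pow _ _ (by norm_num)) hc
    have hcm : c < 9 ^ (m + 1) := by
      refine lt_of_le_of_lt ?_ h
      exact Nat.le_mul_of_pos_right _ (by positivity)
    have hm : 128 ≤ m := by
      have h1 : 9 ^ 128 < 9 ^ (m + 1) := lt_of_le_of_lt hc hcm
      have h2 := (Nat.pow_lt_pow_iff_right (by norm_num : 1 < 9)).1 h1
      omega
    have hsmall : ∀ (q b : ℕ), b ≤ 64 → LinDL Sol q b m := by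
      intro q b hb
      refine lin_mono (lin_bound q b) le_rfl ?_
      have := A12_fr_le q b
      omega
    rcases Nat.lt_or_ge 64 a with h64 | h64
    swap
    · exact @hsmall p a h64
    refine @lin_of_irr Sol cls_sol p a m ?_
    intro _ H _ _ V _ _ _ ρ hH hinj hirr hda
    have hnt : Nontrivial V := hirr.1
    have hfin : Module.Finite (ZMod p) V := Module.Finite.of_finite
    have hpos : 0 < Module.finrank (ZMod p) V := Module.finrank_pos
    rcases Nat.lt_or_ge 64 (Module.finrank (ZMod p) V) with hd64 | hd64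
    swap
    · exact hsmall p 64 le_rfl H V ρ hH hinj (cr_of_irr ρ hirr) hd64
    have hd5 : Module.finrank (ZMod p) V ^ 5 ≤ a ^ 5 := Nat.pow_le_pow_left hda _
    rcases A12_cases H V ρ hH hinj hirr with
        ⟨N, b, K, hK, hN, hb, hd, hpb, hq, hk⟩ | h1 | ⟨e, a', hd, he, ha', hpe, hm'⟩
    · have hba : b < a := by nlinarith
      set m1 := Nat.log 9 (N ^ 5) with hm1
      set m2 := Nat.log 9 (c * b ^ 5) with hm2
      have h1 : N ^ 5 < 9 ^ (m1 + 1) := Nat.lt_pow_succ_log_self (by norm_num) _
      have h2 : 9 ^ m1 ≤ N ^ 5 := Nat.pow_log_le_self 9 (pow_ne_zero _ (by omega))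
      have h3 : c * b ^ 5 < 9 ^ (m2 + 1) := Nat.lt_pow_succ_log_self (by norm_num) _
      have h4 : 9 ^ m2 ≤ c * b ^ 5 := Nat.pow_log_le_self 9
        (mul_ne_zero (by omega) (pow_ne_zero _ (by omega)))
      have h5 := hq m1 (perm_bound N m1 h1)
      have h6 := hk m2 (ih b hba p m2 h3 hb)
      refine dl_mono ?_ (dl_ext K _ _ h5 h6)
      have h7 : 9 ^ (m1 + m2) < 9 ^ (m + 1) := by
        calc 9 ^ (m1 + m2) = 9 ^ m1 * 9 ^ m2 := pow_add _ _ _
          _ ≤ N ^ 5 * (c * b ^ 5) := Nat.mul_le_mul h2 h4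
          _ = c * (N * b) ^ 5 := by ring
          _ ≤ c * a ^ 5 := by
              rw [← hd]
              exact Nat.mul_le_mul_left _ hd5
          _ < 9 ^ (m + 1) := h
      have h8 := (Nat.pow_lt_pow_iff_right (by norm_num : 1 < 9)).1 h7
      omega
    · exact dl_mono (by omega) h1
    · set T0 := Nat.log 2 (Module.finrank (ZMod p) V ^ 2) with hT0
      have h2 : 2 ^ T0 ≤ Module.finrank (ZMod p) V ^ 2 :=
        Nat.pow_log_le_self 2 (pow_ne_zero _ (by omega))
      have h4T := A12_four T0 _ hd64 h2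
      have ha'd : a' ≤ Module.finrank (ZMod p) V := by
        rw [hd]
        exact Nat.le_mul_of_pos_left _ he
      have hT1 : 1 ≤ T0 := by
        by_contra hcon
        have h0 : T0 = 0 := by omega
        have h1 : Module.finrank (ZMod p) V ^ 2 < 2 ^ (T0 + 1) :=
          Nat.lt_pow_succ_log_self (by norm_num) _
        rw [h0] at h1
        have h2 : 65 ^ 2 ≤ Module.finrank (ZMod p) V ^ 2 := Nat.pow_le_pow_left hd64 _
        norm_num at h1 h2
        omega
      set m2 := Nat.log 9 (c * T0 ^ 5) with hm2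
      have h3 : c * T0 ^ 5 < 9 ^ (m2 + 1) := Nat.lt_pow_succ_log_self (by norm_num) _
      have h4 : 9 ^ m2 ≤ c * T0 ^ 5 := Nat.pow_log_le_self 9
        (mul_ne_zero (by omega) (pow_ne_zero _ (by omega)))
      have h5 := hm' m2 (by
        intro s t hs _ ht hst
        have h6 : t ≤ T0 := by
          have h7 : 2 ^ t ≤ s ^ t := Nat.pow_le_pow_left hs.two_le _
          have h8 : a' ^ 2 ≤ Module.finrank (ZMod p) V ^ 2 := Nat.pow_le_pow_left ha'd _
          exact (Nat.le_log_iff_pow_le (by norm_num) (pow_ne_zero _ (by omega))).2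
            (h7.trans (hst.trans h8))
        exact @lin_mono _ _ _ _ _ _ (@ih T0 (by omega) s m2 h3 hT1) h6 le_rfl)
      refine dl_mono ?_ h5
      have h7 : 9 ^ (3 + m2) < 9 ^ (m + 1) := by
        calc 9 ^ (3 + m2) = 9 ^ 3 * 9 ^ m2 := pow_add _ _ _
          _ ≤ 4 ^ 5 * (c * T0 ^ 5) := Nat.mul_le_mul (by norm_num) h4
          _ = c * (4 * T0) ^ 5 := by rw [mul_pow]; ring
          _ ≤ c * a ^ 5 := by
              refine Nat.mul_le_mul_left _ (le_trans (Nat.pow_le_pow_left h4T _) hd5)
          _ < 9 ^ (m + 1) := h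
      have h8 := (Nat.pow_lt_pow_iff_right (by norm_num : 1 < 9)).1 h7
      split_ifs <;> omega

theorem lin_log (p a m : ℕ) (h : 9 ^ 128 * a ^ 5 < 9 ^ (m + 1)) (ha : 1 ≤ a) :
    LinDL Sol p a m := A12_log _ le_rfl p a m h ha

end Pool.Agent.Helper98.RS
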