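import Pool.Agent.Helper98.RS.Defs

set_option autoImplicit false

open scoped Pointwise

namespace Pool.Agent.Helper98.RS

variable {G : Type} [Group G] {p d : ℕ} {N M : Subgroup G}

section B4

open Subgroup

private theorem b4_nil_iff {F : Type} [Group F] (X : Subgroup F) :
    Group.IsNilpotent X ↔ ∃ n, X.lowerCentralSeries n = ⊥ := X.isNilpotent_iff_lowerCentralSeries

/-- A subgroup normalised by two subgroups generating the whole group is normal. -/
private theorem b4_normal {F : Type} [Group F] {T V W : Subgroup F} (h : T ⊔ V = ⊤)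
    (hT : T ≤ normalizer (W : Set F)) (hV : V ≤ normalizer (W : Set F)) : W.Normal := by
  rw [← normalizer_eq_top_iff, eq_top_iff, ← h]
  exact sup_le hT hV

/-- A minimal normal subgroup. -/
private theorem b4_exists_min {F : Type} [Group F] [Finite F] [Nontrivial F] :
    ∃ V : Subgroup F, V.Normal ∧ V ≠ ⊥ ∧ ∀ K : Subgroup F, K.Normal → K ≤ V → K = ⊥ ∨ K = V := by
  classical
  have hex : ∃ n, ∃ V : Subgroup F, V.Normal ∧ V ≠ ⊥ ∧ Nat.card V = n :=
    ⟨_, ⊤, inferInstance, top_ne_bot, rfl⟩
  obtain ⟨V, hV, hV0, hVn⟩ := Nat.find_spec hex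
  refine ⟨V, hV, hV0, fun K hK hKV => ?_⟩
  by_contra hc
  push Not at hc
  have h1 := Nat.find_min' hex ⟨K, hK, hc.1, rfl⟩
  rw [← hVn] at h1
  exact hc.2 (eq_of_le_of_card_ge hKV h1)

/-- A minimal normal subgroup of a finite soluble group is elementary abelian. -/
private theorem b4_elab {F : Type} [Group F] [Finite F] [Group.IsSolvable F] {V : Subgroup F}
    (hV : V.Normal) (hV0 : V ≠ ⊥) (hmin : ∀ K : Subgroup F, K.Normal → K ≤ V → K = ⊥ ∨ K = V) :
    (∀ x ∈ V, ∀ y ∈ V, x * y = y * x) ∧
      ∃ p d : ℕ, p.Prime ∧ Nat.card V = p ^ d ∧ ∀ x ∈ V, x ^ p = 1 := by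
  have hcomm : ∀ x ∈ V, ∀ y ∈ V, x * y = y * x := by
    have h1 : ⁅V, V⁆ < V := Group.IsSolvable.commutator_lt_of_ne_bot hV0
    have h2 : ⁅V, V⁆ = ⊥ := by
      rcases hmin ⁅V, V⁆ inferInstance h1.le with h | h
      · exact h
      · exact absurd h h1.ne
    intro x hx y hy
    have h3 := commutator_mem_commutator hx hy
    rw [h2, mem_bot, commutatorElement_eq_one_iff_mul_comm] at h3
    exact h3
  refine ⟨hcomm, ?_⟩
  have hc1 : Nat.card V ≠ 1 := fun h => hV0 (card_eq_one.1 h)
  obtain ⟨p, hp, hpd⟩ := Nat.exists_prime_and_dvd hc1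
  have : Fact p.Prime := ⟨hp⟩
  obtain ⟨x, hx⟩ := exists_prime_orderOf_dvd_card' (G := V) p hpd
  let W : Subgroup F :=
    { carrier := {v | v ∈ V ∧ v ^ p = 1}
      one_mem' := ⟨V.one_mem, one_pow p⟩
      mul_mem' := by
        rintro a b ⟨ha, ha'⟩ ⟨hb, hb'⟩
        refine ⟨V.mul_mem ha hb, ?_⟩
        rw [(show Commute a b from hcomm a ha b hb).mul_pow, ha', hb', one_mul]
      inv_mem' := by
        rintro a ⟨ha, ha'⟩
        exact ⟨V.inv_mem ha, by rw [inv_pow, ha', inv_one]⟩ }
  have hWn : W.Normal := by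
    refine ⟨fun a ha g => ⟨hV.conj_mem a ha.1 g, ?_⟩⟩
    rw [conj_pow, ha.2, mul_one, mul_inv_cancel]
  have hWV : W ≤ V := fun v hv => hv.1
  have hW : W = V := by
    rcases hmin W hWn hWV with h | h
    · exfalso
      have h1 : (x : F) ∈ W := by
        refine ⟨x.2, ?_⟩
        rw [← hx, ← coe_pow, pow_orderOf_eq_one, coe_one]
      rw [h, mem_bot] at h1
      have h2 : x = 1 := Subtype.ext h1
      rw [h2, orderOf_one] at hx
      exact hp.one_lt.ne hx
    · exact h
  have hexp : ∀ v ∈ V, v ^ p = 1 := by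
    intro v hv
    rw [← hW] at hv
    exact hv.2
  have hpg : IsPGroup p V := fun v => ⟨1, by
    rw [pow_one]
    exact Subtype.ext (by rw [coe_pow, coe_one]; exact hexp v v.2)⟩
  obtain ⟨d, hd⟩ := IsPGroup.iff_card.1 hpg
  exact ⟨p, d, hp, hd, hexp⟩

/-- The finite case: the centraliser of `V` is `V`. -/
private theorem b4_cent {F : Type} [Group F] [Finite F] {X V : Subgroup F} (hXn : X.Normal)
    (hX : ∀ n, X.lowerCentralSeries n ≠ ⊥)
    (hq : ∀ K : Subgroup F, K.Normal → K ≠ ⊥ → ∃ n, X.lowerCentralSeries n ≤ K)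
    (hV : V.Normal) (hV0 : V ≠ ⊥) (hmin : ∀ K : Subgroup F, K.Normal → K ≤ V → K = ⊥ ∨ K = V)
    (hcomm : ∀ x ∈ V, ∀ y ∈ V, x * y = y * x) : centralizer (V : Set F) ≤ V := by
  have hanti := X.lowerCentralSeries_antitone
  -- two trivially intersecting normal subgroups cannot both be non-trivial
  have hint : ∀ K L : Subgroup F, K.Normal → L.Normal → K ≠ ⊥ → L ≠ ⊥ → K ⊓ L ≠ ⊥ := by
    intro K L hK hL hK0 hL0 h0
    obtain ⟨n, hn⟩ := hq K hK hK0
    obtain ⟨m, hm⟩ := hq L hL hL0
    refine hX (max n m) ?_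
    rw [eq_bot_iff, ← h0]
    exact le_inf ((hanti (le_max_left n m)).trans hn) ((hanti (le_max_right n m)).trans hm)
  -- a Sylow subgroup of `X` which is not normal
  have hXnil : ¬ Group.IsNilpotent X := by
    rw [b4_nil_iff]
    push Not
    exact hX
  have hS : ¬ ∀ (p : ℕ) (_ : Fact p.Prime) (P : Sylow p X), (P : Subgroup X).Normal := by
    intro h
    exact hXnil (((Group.isNilpotent_of_finite_tfae (G := X)).out 0 3).2 h)
  push Not at hS
  obtain ⟨q, hqp, Q, hQ⟩ := hS
  -- the Frattini argument in `X`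
  obtain ⟨f, hf⟩ : ∃ f : X →* X.map (QuotientGroup.mk' V), f = (QuotientGroup.mk' V).subgroupMap X :=
    ⟨_, rfl⟩
  have hfs : Function.Surjective f := by
    rw [hf]
    exact MonoidHom.subgroupMap_surjective _ _
  have hfker : ∀ x : X, f x = 1 → (x : F) ∈ V := by
    intro x hx
    rw [hf] at hx
    have h1 : ((QuotientGroup.mk' V) (x : F)) = 1 := congrArg Subtype.val hx
    rwa [QuotientGroup.mk'_apply, QuotientGroup.eq_one_iff] at h1
  have hnil : Group.IsNilpotent (X.map (QuotientGroup.mk' V)) := by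
    rw [b4_nil_iff]
    obtain ⟨n, hn⟩ := hq V hV hV0
    refine ⟨n, ?_⟩
    rw [← map_lowerCentralSeries, Subgroup.map_eq_bot_iff, QuotientGroup.ker_mk']
    exact hn
  have hQ' : ((Sylow.mapSurjective hfs Q : Sylow q (X.map (QuotientGroup.mk' V))) :
      Subgroup (X.map (QuotientGroup.mk' V))).Normal :=
    (((Group.isNilpotent_of_finite_tfae (G := X.map (QuotientGroup.mk' V))).out 0 3
      (a := Group.IsNilpotent (X.map (QuotientGroup.mk' V)))
      (b := ∀ (p : ℕ) (_ : Fact p.Prime) (P : Sylow p (X.map (QuotientGroup.mk' V))),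
        (P : Subgroup (X.map (QuotientGroup.mk' V))).Normal)).1 hnil) q hqp _
  rw [Sylow.coe_mapSurjective] at hQ'
  have hY : (((Q : Subgroup X).map f).comap f).Normal := hQ'.comap f
  have hFr : normalizer ((Q : Subgroup X) : Set X) ⊔ ((Q : Subgroup X).map f).comap f = ⊤ :=
    Sylow.normalizer_sup_eq_top' Q (le_comap_map f _)
  rw [comap_map_eq, ← sup_assoc, sup_eq_left.2 (le_normalizer (H := (Q : Subgroup X)))] at hFr
  -- the Frattini argument in `F`
  obtain ⟨T, hT⟩ : ∃ T, T = normalizer (((Q : Subgroup X).map X.subtype : Subgroup F) : Set F) :=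
    ⟨_, rfl⟩
  have hFr2 : T ⊔ X = ⊤ := by
    rw [hT]
    exact Sylow.normalizer_sup_eq_top Q
  have hXT : X ≤ T ⊔ V := by
    have h1 : (⊤ : Subgroup X).map X.subtype = X := by
      rw [← MonoidHom.range_eq_map, range_subtype]
    rw [← h1, ← hFr, Subgroup.map_sup]
    refine sup_le_sup ?_ ?_
    · rw [hT]
      exact le_normalizer_map X.subtype
    · rw [map_le_iff_le_comap]
      intro x hx
      exact hfker x hx
  have hTV : T ⊔ V = ⊤ := by
    rw [eq_top_iff, ← hFr2]
    exact sup_le le_sup_left hXT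
  -- `V ∩ T` is trivial
  have hVT : V ⊓ T = ⊥ := by
    have hn : (V ⊓ T).Normal := by
      refine b4_normal hTV ?_ ?_
      · intro t ht
        rw [mem_normalizer_iff]
        intro v
        constructor
        · rintro ⟨h1, h2⟩
          exact ⟨hV.conj_mem v h1 t, T.mul_mem (T.mul_mem ht h2) (T.inv_mem ht)⟩
        · rintro ⟨h1, h2⟩
          have e : v = t⁻¹ * (t * v * t⁻¹) * t⁻¹⁻¹ := by group
          rw [e]
          exact ⟨hV.conj_mem _ h1 t⁻¹, T.mul_mem (T.mul_mem (T.inv_mem ht) h2)
            (T.inv_mem (T.inv_mem ht))⟩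
      · intro w hw
        rw [mem_normalizer_iff]
        intro v
        constructor
        · rintro ⟨h1, h2⟩
          rw [hcomm w hw v h1, mul_inv_cancel_right]
          exact ⟨h1, h2⟩
        · intro h
          have h1 : v ∈ V := by
            have h2 := hV.conj_mem _ h.1 w⁻¹
            have e : w⁻¹ * (w * v * w⁻¹) * w⁻¹⁻¹ = v := by group
            rwa [e] at h2
          rw [hcomm w hw v h1, mul_inv_cancel_right] at h
          exact h
    rcases hmin _ hn inf_le_left with h | h
    · exact h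
    · exfalso
      have h1 : V ≤ T := by
        rw [← h]
        exact inf_le_right
      have h2 : T = ⊤ := by
        rw [← hTV]
        exact (sup_eq_left.2 h1).symm
      rw [hT, normalizer_eq_top_iff] at h2
      apply hQ
      have h3 : ((Q : Subgroup X).map X.subtype).comap X.subtype = (Q : Subgroup X) :=
        comap_map_eq_self_of_injective X.subtype_injective _
      rw [← h3]
      exact h2.comap X.subtype
  -- `C(V) ∩ T` is trivial
  have hCn : (centralizer (V : Set F)).Normal := inferInstance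
  have hD : centralizer (V : Set F) ⊓ T = ⊥ := by
    have hn : (centralizer (V : Set F) ⊓ T).Normal := by
      refine b4_normal hTV ?_ ?_
      · intro t ht
        rw [mem_normalizer_iff]
        intro v
        constructor
        · rintro ⟨h1, h2⟩
          exact ⟨hCn.conj_mem v h1 t, T.mul_mem (T.mul_mem ht h2) (T.inv_mem ht)⟩
        · rintro ⟨h1, h2⟩
          have e : v = t⁻¹ * (t * v * t⁻¹) * t⁻¹⁻¹ := by group
          rw [e]
          exact ⟨hCn.conj_mem _ h1 t⁻¹, T.mul_mem (T.mul_mem (T.inv_mem ht) h2)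
            (T.inv_mem (T.inv_mem ht))⟩
      · intro w hw
        rw [mem_normalizer_iff]
        intro v
        constructor
        · rintro ⟨h1, h2⟩
          rw [mem_centralizer_iff.1 h1 w hw, mul_inv_cancel_right]
          exact ⟨h1, h2⟩
        · intro h
          have h1 : v ∈ centralizer (V : Set F) := by
            have h2 := hCn.conj_mem _ h.1 w⁻¹
            have e : w⁻¹ * (w * v * w⁻¹) * w⁻¹⁻¹ = v := by group
            rwa [e] at h2
          rw [mem_centralizer_iff.1 h1 w hw, mul_inv_cancel_right] at h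
          exact h
    by_contra hc
    refine hint _ V hn hV hc hV0 ?_
    rw [eq_bot_iff, ← hVT]
    exact le_inf inf_le_right (inf_le_left.trans inf_le_right)
  intro c hc
  have h1 : c ∈ T ⊔ V := by
    rw [hTV]
    exact mem_top c
  obtain ⟨t, ht, v, hv, rfl⟩ := mem_sup_of_normal_right.1 h1
  have h2 : v ∈ centralizer (V : Set F) := by
    rw [mem_centralizer_iff]
    intro w hw
    exact hcomm w hw v hv
  have h3 : t ∈ centralizer (V : Set F) := by
    have := (centralizer (V : Set F)).mul_mem hc ((centralizer (V : Set F)).inv_mem h2)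
    rwa [mul_inv_cancel_right] at this
  have h4 : t ∈ centralizer (V : Set F) ⊓ T := ⟨h3, ht⟩
  rw [hD, mem_bot] at h4
  rw [h4, one_mul]
  exact hv

end B4

theorem exists_prim (N : Subgroup G) [N.Normal] [N.FiniteIndex]
    (hs : ∃ k, derivedSeries G k ≤ N) (X : Subgroup G) [X.Normal]
    (hX : ¬ Group.IsNilpotent (X.map (QuotientGroup.mk' N))) :
    ∃ (p d : ℕ) (N' M' : Subgroup G), Prim p d N' M' ∧ N ≤ N' ∧ ¬ X ≤ M' := by
  classical
  -- a normal subgroup of minimal index with non-nilpotent image of `X`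
  have hex : ∃ n, ∃ K : Subgroup G, K.Normal ∧ N ≤ K ∧ (∀ i, ¬ X.lowerCentralSeries i ≤ K) ∧
      K.index = n := by
    refine ⟨_, N, inferInstance, le_rfl, fun i hi => hX ?_, rfl⟩
    rw [b4_nil_iff]
    refine ⟨i, ?_⟩
    rw [← Subgroup.map_lowerCentralSeries, Subgroup.map_eq_bot_iff, QuotientGroup.ker_mk']
    exact hi
  obtain ⟨K, hK, hNK, hKX, hKi⟩ := Nat.find_spec hex
  have : K.FiniteIndex := Subgroup.finiteIndex_of_le hNK
  have hKmin : ∀ L : Subgroup G, L.Normal → K ≤ L → L ≠ K → ∃ i, X.lowerCentralSeries i ≤ L := by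
    intro L hL hKL hne
    by_contra hc
    push Not at hc
    have h1 := Nat.find_min' hex ⟨L, hL, hNK.trans hKL, hc, rfl⟩
    rw [← hKi] at h1
    have h2 : L.index < K.index := Subgroup.index_strictAnti (lt_of_le_of_ne hKL hne.symm)
    omega
  obtain ⟨F, hF1, hF2, π, hπs, hπk⟩ : ∃ (F : Type) (_ : Group F) (_ : Finite F) (π : G →* F),
      Function.Surjective π ∧ π.ker = K :=
    ⟨G ⧸ K, inferInstance, Subgroup.finite_quotient_of_finiteIndex, QuotientGroup.mk' K,
      QuotientGroup.mk'_surjective K, QuotientGroup.ker_mk' K⟩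
  obtain ⟨k, hk⟩ := hs
  have : Group.IsSolvable F := by
    refine ⟨⟨k, ?_⟩⟩
    rw [← map_derivedSeries_eq hπs, Subgroup.map_eq_bot_iff, hπk]
    exact hk.trans hNK
  -- the image of `X`
  obtain ⟨Y, hY⟩ : ∃ Y : Subgroup F, Y = X.map π := ⟨_, rfl⟩
  have hYn : Y.Normal := by
    rw [hY]
    exact Subgroup.Normal.map inferInstance π hπs
  have hYl : ∀ (n : ℕ) (L : Subgroup F), Y.lowerCentralSeries n ≤ L ↔
      X.lowerCentralSeries n ≤ L.comap π := by
    intro n L
    rw [hY, ← Subgroup.map_lowerCentralSeries, Subgroup.map_le_iff_le_comap]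
  have hY0 : ∀ n, Y.lowerCentralSeries n ≠ ⊥ := by
    intro n hn
    refine hKX n ?_
    have := (hYl n ⊥).1 hn.le
    rwa [MonoidHom.comap_bot, hπk] at this
  have : Nontrivial F := by
    by_contra hc
    rw [not_nontrivial_iff_subsingleton] at hc
    exact hY0 0 (Subsingleton.elim _ _)
  have hq : ∀ L : Subgroup F, L.Normal → L ≠ ⊥ → ∃ n, Y.lowerCentralSeries n ≤ L := by
    intro L hL hL0
    obtain ⟨n, hn⟩ := hKmin (L.comap π) (hL.comap π) (by
      rw [← hπk]
      exact Subgroup.ker_le_comap π L) (by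
      intro h
      apply hL0
      rw [← Subgroup.map_comap_eq_self_of_surjective hπs L, h, Subgroup.map_eq_bot_iff, hπk])
    exact ⟨n, (hYl n L).2 hn⟩
  obtain ⟨V, hV, hV0, hmin⟩ := b4_exists_min (F := F)
  obtain ⟨hcomm, p, d, hp, hcard, hexp⟩ := b4_elab hV hV0 hmin
  have hcent := b4_cent hYn hY0 hq hV hV0 hmin hcomm
  have hmem : ∀ g : G, g ∈ V.comap π ↔ π g ∈ V := fun g => Iff.rfl
  have hmemK : ∀ g : G, g ∈ K ↔ π g = 1 := by
    intro g
    rw [← hπk, MonoidHom.mem_ker]
  refine ⟨p, d, K, V.comap π, ?_, hNK, ?_⟩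
  · refine
      { prime := hp
        nN := hK
        nM := hV.comap π
        le := ?_
        ne := ?_
        fin := inferInstance
        exp := ?_
        comm := ?_
        card := ?_
        min := ?_
        cent := ?_
        solv := ⟨k, hk.trans hNK⟩ }
    · rw [← hπk]
      exact Subgroup.ker_le_comap π V
    · intro h
      apply hV0
      rw [← Subgroup.map_comap_eq_self_of_surjective hπs V, ← h, Subgroup.map_eq_bot_iff, hπk]
    · intro m hm
      rw [hmemK, map_pow]
      exact hexp _ hm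
    · intro m hm m' hm'
      rw [hmemK, map_mul, map_mul, map_mul, map_inv, map_inv, hcomm _ hm _ hm',
        mul_inv_cancel_right, mul_inv_cancel]
    · have h1 := Subgroup.relIndex_ker (V.comap π) π
      rw [hπk, Subgroup.map_comap_eq_self_of_surjective hπs V, hcard] at h1
      exact h1
    · intro L hL hKL hLV
      have h1 : (L.map π).comap π = L := by
        rw [Subgroup.comap_map_eq, hπk]
        exact sup_eq_left.2 hKL
      rcases hmin (L.map π) (Subgroup.Normal.map hL π hπs) (Subgroup.map_le_iff_le_comap.2 hLV)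
        with h | h
      · left
        rw [← h1, h, MonoidHom.comap_bot, hπk]
      · right
        rw [← h1, h]
    · intro g hg
      rw [hmem]
      apply hcent
      rw [Subgroup.mem_centralizer_iff]
      intro v hv
      obtain ⟨m, rfl⟩ := hπs v
      have h1 := hg m hv
      rw [hmemK, map_mul, map_mul, map_mul, map_inv, map_inv] at h1
      have h2 : π g * π m * (π g)⁻¹ = π m := by
        rw [← mul_inv_eq_one]
        exact h1
      rw [mul_inv_eq_iff_eq_mul] at h2
      exact h2.symm
  · intro hXM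
    have h1 : Y ≤ V := by
      rw [hY, Subgroup.map_le_iff_le_comap]
      exact hXM
    apply hY0 1
    rw [Subgroup.lowerCentralSeries_succ, Subgroup.lowerCentralSeries_zero,
      Subgroup.commutator_eq_bot_iff_le_centralizer]
    intro y hy
    rw [Subgroup.mem_centralizer_iff]
    intro z hz
    exact hcomm z (h1 hz) y (h1 hy)

end Pool.Agent.Helper98.RS
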