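import Pool.Agent.Helper98.RS.A1

set_option autoImplicit false

open scoped Pointwise commutatorElement

namespace Pool.Agent.Helper98.RS

/-- A non-trivial nilpotent group has a non-trivial central element. -/
private theorem A5_center {H : Type} [Group H] (hH : Group.IsNilpotent H) {g : H} (hg : g ≠ 1) :
    ∃ x : H, x ≠ 1 ∧ ∀ h, x * h = h * x := by
  by_contra hcon
  push Not at hcon
  have hcon' : ∀ x : H, (∀ h, x * h = h * x) → x = 1 := fun x hh => by
    by_contra hxA
    obtain ⟨h, hh'⟩ := hcon x hxA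
    exact hh' (hh h)
  obtain ⟨n, hn⟩ := Subgroup.nilpotent_iff_lowerCentralSeries.1 hH
  have hdown : ∀ j i, i + j = n → (⊤ : Subgroup H).lowerCentralSeries i = ⊥ := by
    intro j
    induction j with
    | zero =>
      intro i hi
      rw [add_zero] at hi
      rw [hi]
      exact hn
    | succ j ih =>
      intro i hi
      have h2 := ih (i + 1) (by omega)
      rw [eq_bot_iff]
      intro x hx
      rw [Subgroup.mem_bot]
      refine hcon' x fun h => ?_
      have h3 : ⁅x, h⁆ ∈ (⊤ : Subgroup H).lowerCentralSeries (i + 1) :=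
        Subgroup.commutator_mem_commutator hx (Subgroup.mem_top h)
      rw [h2, Subgroup.mem_bot, commutatorElement_eq_one_iff_mul_comm] at h3
      exact h3
  have h0 := hdown n 0 (zero_add n)
  rw [Subgroup.lowerCentralSeries_zero] at h0
  apply hg
  have h1 : g ∈ (⊤ : Subgroup H) := Subgroup.mem_top g
  rw [h0, Subgroup.mem_bot] at h1
  exact h1

/-- The orbit of `x` under the powers of `z`. -/
private def A5orb {H : Type} [Group H] {X : Type} [MulAction H X] (z : H) (x : X) : Set X :=
  {y | ∃ k : ℤ, z ^ k • x = y}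

/-- The set of these orbits. -/
private abbrev A5Y {H : Type} [Group H] (X : Type) [MulAction H X] (z : H) : Type :=
  {S : Set X // ∃ x, S = A5orb z x}

private theorem A5_self {H : Type} [Group H] {X : Type} [MulAction H X] (z : H) (x : X) :
    x ∈ A5orb z x := ⟨0, by rw [zpow_zero, one_smul]⟩

private theorem A5_eq {H : Type} [Group H] {X : Type} [MulAction H X] (z : H) {x y : X}
    (h : y ∈ A5orb z x) : A5orb z y = A5orb z x := by
  obtain ⟨k, rfl⟩ := h
  ext w
  constructor
  · rintro ⟨j, rfl⟩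
    exact ⟨j + k, by rw [zpow_add, mul_smul]⟩
  · rintro ⟨j, rfl⟩
    exact ⟨j - k, by rw [smul_smul, ← zpow_add, sub_add_cancel]⟩

private theorem A5_image {H : Type} [Group H] {X : Type} [MulAction H X] {z : H}
    (hz : ∀ h, z * h = h * z) (h : H) (x : X) :
    (fun w : X => h • w) '' A5orb z x = A5orb z (h • x) := by
  have hk : ∀ k : ℤ, h * z ^ k = z ^ k * h := fun k => by
    have h1 : Commute z h := hz h
    exact (h1.zpow_left k).eq.symm
  ext w
  constructor
  · rintro ⟨_, ⟨k, rfl⟩, rfl⟩
    exact ⟨k, by rw [smul_smul, ← hk]; exact (smul_smul _ _ _).symm⟩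
  · rintro ⟨k, rfl⟩
    refine ⟨z ^ k • x, ⟨k, rfl⟩, ?_⟩
    show h • z ^ k • x = z ^ k • h • x
    rw [smul_smul, smul_smul, hk]

private abbrev A5act {H : Type} [Group H] (X : Type) [MulAction H X] {z : H}
    (hz : ∀ h, z * h = h * z) : MulAction H (A5Y X z) where
  smul h S := ⟨(fun w : X => h • w) '' S.1, by
    obtain ⟨S, x, rfl⟩ := S
    exact ⟨h • x, A5_image hz h x⟩⟩
  one_smul S := Subtype.ext (by
    show (fun w : X => (1 : H) • w) '' S.1 = S.1
    simp only [one_smul, Set.image_id'])
  mul_smul h h' S := Subtype.ext (by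
    show (fun w : X => (h * h') • w) '' S.1 = (fun w : X => h • w) '' ((fun w : X => h' • w) '' S.1)
    rw [Set.image_image]
    simp only [mul_smul])

theorem nil_perm_step (H : Type) [Group H] [Finite H] (X : Type) [Finite X] [MulAction H X]
    (hH : Nil H) (hf : ∀ h : H, (∀ x : X, h • x = x) → h = 1)
    (ht : MulAction.IsPretransitive H X) (hX : 2 ≤ Nat.card X) :
    ∃ (r n' : ℕ) (K : Subgroup H) (_ : K.Normal), r.Prime ∧
      Nat.card X = n' * r ∧ (∀ m, PermDL Nil n' m → derivedSeries (H ⧸ K) m = ⊥) ∧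
      derivedSeries K 1 = ⊥ := by
  classical
  -- a central element of prime order
  have hnt : Nontrivial X := Finite.one_lt_card_iff_nontrivial.1 (by omega)
  obtain ⟨x0, x1, h01⟩ := exists_pair_ne X
  obtain ⟨g, hg⟩ := ht.exists_smul_eq x0 x1
  have hg1 : g ≠ 1 := fun h => h01 (by rw [← hg, h, one_smul])
  obtain ⟨c, hc1, hc⟩ := A5_center hH hg1
  have hoc : orderOf c ≠ 1 := fun h => hc1 (orderOf_eq_one_iff.1 h)
  have hoc0 : orderOf c ≠ 0 := (orderOf_pos c).ne'
  set r := (orderOf c).minFac with hr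
  have hrp : r.Prime := Nat.minFac_prime hoc
  have hrd : r ∣ orderOf c := Nat.minFac_dvd _
  set z : H := c ^ (orderOf c / r) with hzdef
  have hz : ∀ h, z * h = h * z := fun h => by
    have h1 : Commute c h := hc h
    exact (h1.pow_left _).eq
  have hzo : orderOf z = r := by
    rw [hzdef, orderOf_pow_of_dvd (Nat.div_pos (Nat.le_of_dvd (orderOf_pos c) hrd) hrp.pos).ne'
      (Nat.div_dvd_of_dvd hrd), Nat.div_div_self hrd hoc0]
  -- a power of `z` with a fixed point is trivial
  have hfree : ∀ (k : ℤ) (x : X), z ^ k • x = x → z ^ k = 1 := by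
    intro k x hx
    refine hf _ fun y => ?_
    obtain ⟨h, rfl⟩ := ht.exists_smul_eq x y
    have h1 : Commute z h := hz h
    rw [smul_smul, (h1.zpow_left k).eq, mul_smul, hx]
  letI := A5act X hz
  have hfin : Finite (Set X) := inferInstance
  have hfinY : Finite (A5Y X z) := inferInstance
  set φ := MulAction.toPermHom H (A5Y X z) with hφ
  have hsm : ∀ (h : H) (x : X) (hx : ∃ w, A5orb z x = A5orb z w),
      h • (⟨A5orb z x, hx⟩ : A5Y X z) = ⟨A5orb z (h • x), h • x, rfl⟩ := fun h x hx =>
    Subtype.ext (A5_image hz h x)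
  refine ⟨r, Nat.card (A5Y X z), φ.ker, inferInstance, hrp, ?_, fun m hm => ?_, ?_⟩
  · choose rep hrep using fun S : A5Y X z => S.2
    let F : A5Y X z × Subgroup.zpowers z → X := fun q => q.2.1 • rep q.1
    have hF : Function.Bijective F := by
      constructor
      · rintro ⟨S, g, hgz⟩ ⟨S', g', hgz'⟩ hSS
        obtain ⟨k, rfl⟩ := Subgroup.mem_zpowers_iff.1 hgz
        obtain ⟨k', rfl⟩ := Subgroup.mem_zpowers_iff.1 hgz'
        have h1 : z ^ k • rep S = z ^ k' • rep S' := hSS
        have h2 : S = S' := by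
          apply Subtype.ext
          rw [hrep S, hrep S', ← A5_eq z (show z ^ k • rep S ∈ A5orb z (rep S) from ⟨k, rfl⟩),
            ← A5_eq z (show z ^ k' • rep S' ∈ A5orb z (rep S') from ⟨k', rfl⟩), h1]
        subst h2
        have h3 : z ^ (k - k') • rep S = rep S := by
          rw [zpow_sub, ← zpow_neg, (Commute.refl z).zpow_zpow k (-k') |>.eq, mul_smul, h1,
            smul_smul, ← zpow_add, neg_add_cancel, zpow_zero, one_smul]
        have h4 := hfree _ _ h3
        rw [zpow_sub, mul_inv_eq_one] at h4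
        rw [Prod.mk.injEq]
        exact ⟨rfl, Subtype.ext h4⟩
      · intro x
        have h1 : x ∈ A5orb z (rep ⟨A5orb z x, x, rfl⟩) := by
          rw [← hrep]
          exact A5_self z x
        obtain ⟨k, hk⟩ := h1
        exact ⟨(⟨A5orb z x, x, rfl⟩, ⟨z ^ k, Subgroup.zpow_mem_zpowers z k⟩), hk⟩
    rw [← Nat.card_congr (Equiv.ofBijective F hF), Nat.card_prod, Nat.card_zpowers, hzo]
  · letI : MulAction (H ⧸ φ.ker) (A5Y X z) :=
      MulAction.compHom (A5Y X z) (QuotientGroup.kerLift φ)
    refine hm (H ⧸ φ.ker) (A5Y X z) (cls_nil.of_surj (QuotientGroup.mk' φ.ker)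
      (QuotientGroup.mk'_surjective _) hH) (fun h hh => ?_) le_rfl
    refine QuotientGroup.kerLift_injective φ ?_
    rw [map_one]
    refine Equiv.ext fun W => ?_
    exact hh W
  · have hK : ∀ (k : φ.ker) (x : X), ∃ j : ℤ, z ^ j • x = k.1 • x := fun k x => by
      have h1 : φ k.1 = 1 := k.2
      have h2 : (k.1 • (⟨A5orb z x, x, rfl⟩ : A5Y X z)) = ⟨A5orb z x, x, rfl⟩ := by
        have := congrArg (fun e : Equiv.Perm (A5Y X z) => e ⟨A5orb z x, x, rfl⟩) h1
        exact this
      rw [hsm] at h2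
      have h3 : A5orb z (k.1 • x) = A5orb z x := congrArg Subtype.val h2
      have h4 : k.1 • x ∈ A5orb z x := by
        rw [← h3]
        exact A5_self z _
      exact h4
    rw [derivedSeries_one, commutator_def, Subgroup.commutator_eq_bot_iff_le_centralizer]
    intro k _
    rw [Subgroup.mem_centralizer_iff]
    intro l _
    apply Subtype.ext
    show l.1 * k.1 = k.1 * l.1
    rw [← inv_mul_eq_one]
    refine hf _ fun x => ?_
    obtain ⟨a, ha⟩ := hK k x
    obtain ⟨b, hb⟩ := hK l x
    have hcz : ∀ (j : ℤ) (h : H), h * z ^ j = z ^ j * h := fun j h => by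
      have h1 : Commute z h := hz h
      exact (h1.zpow_left j).eq.symm
    have h1 : (k.1 * l.1) • x = z ^ (a + b) • x := by
      rw [mul_smul, ← hb, smul_smul, hcz, mul_smul, ← ha, smul_smul, ← zpow_add, add_comm]
    have h2 : (l.1 * k.1) • x = z ^ (a + b) • x := by
      rw [mul_smul, ← ha, smul_smul, hcz, mul_smul, ← hb, smul_smul, ← zpow_add]
    rw [mul_smul, h1, ← h2, inv_smul_smul]

end Pool.Agent.Helper98.RS
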