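import Pool.Agent.Helper98.RS.A3
import Pool.Agent.Helper98.RS.A5
import Pool.Agent.Helper98.RS.A6
import Pool.Agent.Helper98.RS.A7

set_option autoImplicit false

open scoped Pointwise

namespace Pool.Agent.Helper98.RS

theorem nil_perm_bound (n m : ℕ) (h : n < 2 ^ (m + 1)) : PermDL Nil n m := by
  induction n using Nat.strong_induction_on generalizing m with
  | _ n ih =>
    refine @perm_of_trans Nil cls_nil n m ?_
    intro H _ _ X _ _ hH hf ht hX
    rcases Nat.lt_or_ge (Nat.card X) 2 with h2 | h2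
    · have h1 : Subsingleton X := Finite.card_le_one_iff_subsingleton.1 (by omega)
      have h3 : Subsingleton H := ⟨fun a b => by
        rw [hf a fun x => Subsingleton.elim _ _, hf b fun x => Subsingleton.elim _ _]⟩
      exact Subsingleton.elim _ _
    · obtain ⟨r, n', K, hK, hr, hc, hq, hk⟩ := nil_perm_step H X hH hf ht h2
      have hr2 := hr.two_le
      have hn' : n' * 2 ≤ n := (Nat.mul_le_mul_left n' hr2).trans (hc ▸ hX)
      have hm : 1 ≤ m := by
        by_contra hm
        have hm0 : m = 0 := by omega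
        subst hm0
        omega
      obtain ⟨m', rfl⟩ : ∃ m', m = m' + 1 := ⟨m - 1, by omega⟩
      have hn'0 : n' ≠ 0 := by
        rintro rfl
        omega
      refine dl_ext K m' 1 (hq m' (ih n' (by omega) m' ?_)) hk
      rw [pow_succ] at h
      omega

theorem nil_lin_bound (p a m : ℕ) (h : 4 * a < 2 ^ (m + 1)) : LinDL Nil p a m := by
  induction a using Nat.strong_induction_on generalizing m with
  | _ a ih =>
    refine @lin_of_irr Nil cls_nil p a m ?_
    intro _ H _ _ V _ _ _ ρ hH hinj hirr hda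
    have hnt : Nontrivial V := hirr.1
    have hfin : Module.Finite (ZMod p) V := Module.Finite.of_finite
    have hpos : 0 < Module.finrank (ZMod p) V := Module.finrank_pos
    by_cases hall : ∀ A : Subgroup H, A.Normal → (∀ x ∈ A, ∀ y ∈ A, x * y = y * x) →
        IsField (alg ρ A)
    · refine dl_mono ?_ (nil_caseII H V ρ hH hinj hall)
      by_contra hm
      have h1 : 2 ^ (m + 1) ≤ 2 ^ 2 := Nat.pow_le_pow_right (by norm_num) (by omega)
      omega
    · push Not at hall
      obtain ⟨A, hAn, hA, hE⟩ := hall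
      obtain ⟨N, b, K, hK, hN, hb, hd, -, hq, hk⟩ := lin_caseI cls_nil H V ρ hH hinj hirr A hA hE
      have hba : b < a := by nlinarith
      have h1 : N < 2 ^ (Nat.log 2 N + 1) := Nat.lt_pow_succ_log_self (by norm_num) _
      have h2 : 2 ^ (Nat.log 2 N) ≤ N := Nat.pow_log_le_self 2 (by omega)
      have h3 : 4 * b < 2 ^ (Nat.log 2 (4 * b) + 1) := Nat.lt_pow_succ_log_self (by norm_num) _
      have h4 : 2 ^ (Nat.log 2 (4 * b)) ≤ 4 * b := Nat.pow_log_le_self 2 (by omega)
      refine dl_mono ?_ (dl_ext K _ _ (hq _ (nil_perm_bound N _ h1)) (hk _ (ih b hba _ h3)))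
      have h7 : 2 ^ (Nat.log 2 N + Nat.log 2 (4 * b)) < 2 ^ (m + 1) := by
        calc 2 ^ (Nat.log 2 N + Nat.log 2 (4 * b)) = 2 ^ (Nat.log 2 N) * 2 ^ (Nat.log 2 (4 * b)) :=
              pow_add _ _ _
          _ ≤ N * (4 * b) := Nat.mul_le_mul h2 h4
          _ = 4 * (N * b) := by ring
          _ ≤ 4 * a := by rw [← hd]; exact Nat.mul_le_mul_left _ hda
          _ < 2 ^ (m + 1) := h
      have h8 := (Nat.pow_lt_pow_iff_right (by norm_num : 1 < 2)).1 h7
      omega

end Pool.Agent.Helper98.RS
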