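import Pool.Agent.Helper98.RS.B3
import Pool.Agent.Helper98.RS.A12
import Pool.Agent.Helper98.RS.A13

set_option autoImplicit false

open scoped Pointwise

namespace Pool.Agent.Helper98.RS

variable {G : Type} [Group G] {p d : ℕ} {N M : Subgroup G}

private theorem b5_one_mem {S : Set G} (n : ℕ) : (1 : G) ∈ Bl S n :=
  Set.one_mem_pow (Or.inl (Or.inl rfl))

private theorem b5_mono {S : Set G} {m n : ℕ} (h : m ≤ n) : Bl S m ⊆ Bl S n :=
  Set.pow_subset_pow_right (Or.inl (Or.inl rfl)) h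

private theorem b5_mul {S : Set G} {m n : ℕ} {x y : G} (hx : x ∈ Bl S m) (hy : y ∈ Bl S n) :
    x * y ∈ Bl S (m + n) := by
  unfold Bl at *
  rw [pow_add]
  exact Set.mul_mem_mul hx hy

private theorem b5_inv {S : Set G} {n : ℕ} {x : G} (hx : x ∈ Bl S n) : x⁻¹ ∈ Bl S n := by
  have hb : (({1} : Set G) ∪ S ∪ S⁻¹)⁻¹ = (({1} : Set G) ∪ S ∪ S⁻¹) := by
    ext x
    simp only [Set.union_inv, inv_inv, Set.mem_union, Set.mem_inv, Set.mem_singleton_iff,
      inv_eq_one]
    tauto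
  unfold Bl at *
  rw [← hb, inv_pow]
  simpa using hx

private theorem b5_cc {S : Set G} {m n : ℕ} {x z : G} (hx : x ∈ Bl S m) (hz : z ∈ Bl S n) :
    cc x z ∈ Bl S (4 * m + 4 * n) := by
  have h1 : z⁻¹ * x * z ∈ Bl S (n + m + n) := b5_mul (b5_mul (b5_inv hz) hx) hz
  have h2 := b5_mul (b5_mul (b5_mul (b5_inv hx) (b5_inv h1)) hx) h1
  exact b5_mono (by omega) h2

private theorem b5_facts (h : Prim p d N M) : Finite (G ⧸ M) ∧ M.Normal := by
  have h1 := h.fin
  refine ⟨?_, h.nM⟩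
  have : M.FiniteIndex := Subgroup.finiteIndex_of_le h.le
  infer_instance

private def b5E {H : Type} [Group H] (X : Subgroup H) : ℕ → Subgroup H
  | 0 => X
  | (i + 1) => ⁅b5E X i, b5E X i⁆

private theorem b5E_normal {H : Type} [Group H] (X : Subgroup H) (hX : X.Normal) (i : ℕ) :
    (b5E X i).Normal := by
  induction i with
  | zero => exact hX
  | succ i ih => exact @Subgroup.commutator_normal H _ (b5E X i) (b5E X i) ih ih

/-- Inside a nilpotent normal closure the minimal normal subgroup is reached quickly. -/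
theorem nil_steps (S : Set G) (hS : Subgroup.closure S = ⊤) (h : Prim p d N M) (x : G) (ℓ m : ℕ)
    (hx : x ∉ M) (hxl : x ∈ Bl S ℓ)
    (hnil : ∀ (_ : M.Normal), Group.IsNilpotent
      ((Subgroup.normalClosure {x}).map (QuotientGroup.mk' M)))
    (hm : 4 * d < 2 ^ (m + 1)) :
    ∃ y ∈ M, y ∉ N ∧ y ∈ Bl S (4 ^ m * (ℓ + 4 * d + 8)) := by
  obtain ⟨hfin, hMn⟩ := b5_facts h
  obtain ⟨hp, hMn', V, instA, instM, hfV, ρ, q, hinj, hirr, hdim, -⟩ := prim_rep h
  have hfm : Module.Finite (ZMod p) V := Module.Finite.of_finite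
  set X : Subgroup (G ⧸ M) := (Subgroup.normalClosure {x}).map (QuotientGroup.mk' M) with hX
  have hXn : X.Normal := Subgroup.Normal.map inferInstance _ (QuotientGroup.mk'_surjective M)
  have hXnil : Group.IsNilpotent X := hnil hMn
  have hXd : derivedSeries X m = ⊥ := by
    have hcr : CR (resrep ρ X) := cr_restrict ρ (cr_of_irr ρ hirr) X
    have hi : Function.Injective (resrep ρ X) := by
      intro a b hab
      exact Subtype.ext (hinj hab)
    exact nil_lin_bound p d m hm X V (resrep ρ X) hXnil hi hcr hdim.le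
  -- derived series inside `G / M`
  obtain ⟨E, hE0, hEs, hEn⟩ : ∃ E : ℕ → Subgroup (G ⧸ M), E 0 = X ∧
      (∀ i, E (i + 1) = ⁅E i, E i⁆) ∧ ∀ i, (E i).Normal :=
    ⟨b5E X, rfl, fun _ => rfl, b5E_normal X hXn⟩
  have hEd : ∀ i, E i ≤ (derivedSeries X i).map X.subtype := by
    intro i
    induction i with
    | zero =>
      rw [hE0, derivedSeries_zero, ← MonoidHom.range_eq_map, Subgroup.range_subtype]
    | succ i ih =>
      rw [hEs]
      exact Subgroup.commutator_le_map_commutator ih ih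
  have hEm : E m = ⊥ := by
    have h1 := hEd m
    rw [hXd, Subgroup.map_bot] at h1
    exact le_bot_iff.1 h1
  have hcc : ∀ i (a z : G), QuotientGroup.mk' M a ∈ E i → QuotientGroup.mk' M (cc a z) ∈ E (i + 1) := by
    intro i a z ha
    rw [hEs]
    have h1 : (QuotientGroup.mk' M z)⁻¹ * QuotientGroup.mk' M a * QuotientGroup.mk' M z ∈ E i := by
      have := (hEn i).conj_mem _ ha (QuotientGroup.mk' M z)⁻¹
      rwa [inv_inv] at this
    have h2 : QuotientGroup.mk' M (cc a z) =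
        (QuotientGroup.mk' M a)⁻¹ *
        ((QuotientGroup.mk' M z)⁻¹ * QuotientGroup.mk' M a * QuotientGroup.mk' M z)⁻¹ *
        (QuotientGroup.mk' M a)⁻¹⁻¹ *
        ((QuotientGroup.mk' M z)⁻¹ * QuotientGroup.mk' M a * QuotientGroup.mk' M z)⁻¹⁻¹ := by
      unfold cc
      simp only [map_mul, map_inv, inv_inv]
    rw [h2]
    exact Subgroup.commutator_mem_commutator ((E i).inv_mem ha) ((E i).inv_mem h1)
  have key : ∀ i, (∃ y ∈ M, y ∉ N ∧ y ∈ Bl S (4 ^ i * (ℓ + 4 * d + 8) - (4 * d + 8))) ∨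
      ∃ y, y ∉ M ∧ QuotientGroup.mk' M y ∈ E i ∧
        y ∈ Bl S (4 ^ i * (ℓ + 4 * d + 8) - (4 * d + 8)) := by
    intro i
    induction i with
    | zero =>
      right
      refine ⟨x, hx, ?_, b5_mono (by omega) hxl⟩
      rw [hE0, hX]
      exact ⟨x, Subgroup.subset_normalClosure rfl, rfl⟩
    | succ i ih =>
      have hpos : 4 * d + 8 ≤ 4 ^ i * (ℓ + 4 * d + 8) := by
        have h1 : 1 ≤ 4 ^ i := Nat.one_le_pow _ _ (by norm_num)
        calc 4 * d + 8 ≤ 1 * (ℓ + 4 * d + 8) := by omega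
          _ ≤ 4 ^ i * (ℓ + 4 * d + 8) := Nat.mul_le_mul_right _ h1
      have hs : 4 ^ (i + 1) * (ℓ + 4 * d + 8) = 4 * (4 ^ i * (ℓ + 4 * d + 8)) := by
        rw [pow_succ]; ring
      rcases ih with ⟨y, hyM, hyN, hyl⟩ | ⟨y, hyM, hyE, hyl⟩
      · left
        exact ⟨y, hyM, hyN, b5_mono (by rw [hs]; omega) hyl⟩
      · obtain ⟨z, hz, hzN⟩ := lemmaN S hS h y hyM
        have hlen : cc y z ∈ Bl S (4 ^ (i + 1) * (ℓ + 4 * d + 8) - (4 * d + 8)) :=
          b5_mono (by rw [hs]; omega) (b5_cc hyl hz)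
        by_cases hc : cc y z ∈ M
        · left
          exact ⟨_, hc, hzN, hlen⟩
        · right
          exact ⟨_, hc, hcc i y z hyE, hlen⟩
  rcases key m with ⟨y, hyM, hyN, hyl⟩ | ⟨y, hyM, hyE, hyl⟩
  · exact ⟨y, hyM, hyN, b5_mono (by omega) hyl⟩
  · exfalso
    rw [hEm, Subgroup.mem_bot] at hyE
    exact hyM ((QuotientGroup.eq_one_iff y).1 hyE)

theorem dl_prim (h : Prim p d N M) (m : ℕ) (hm : 9 ^ 128 * d ^ 5 < 9 ^ (m + 1)) :
    derivedSeries G m ≤ M := by
  obtain ⟨hfin, hMn⟩ := b5_facts h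
  obtain ⟨hp, hMn', V, instA, instM, hfV, ρ, q, hinj, hirr, hdim, -⟩ := prim_rep h
  have hfm : Module.Finite (ZMod p) V := Module.Finite.of_finite
  have hnt : Nontrivial V := hirr.1
  have hd : 1 ≤ d := by
    rw [← hdim]
    exact Module.finrank_pos
  have hsol : Sol (G ⧸ M) := by
    obtain ⟨k, hk⟩ := h.solv
    refine ⟨k, ?_⟩
    rw [← map_derivedSeries_eq (QuotientGroup.mk'_surjective M) k, Subgroup.map_eq_bot_iff,
      QuotientGroup.ker_mk']
    exact hk.trans h.le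
  have h1 : derivedSeries (G ⧸ M) m = ⊥ :=
    lin_log p d m hm hd (G ⧸ M) V ρ hsol hinj (cr_of_irr ρ hirr) hdim.le
  rw [← map_derivedSeries_eq (QuotientGroup.mk'_surjective M) m, Subgroup.map_eq_bot_iff,
    QuotientGroup.ker_mk'] at h1
  exact h1

end Pool.Agent.Helper98.RS
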