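import Pool.Agent.Helper98.RS.B1
import Pool.Agent.Helper98.RS.B4
import Pool.Agent.Helper98.RS.B5

set_option autoImplicit false

open scoped Pointwise

namespace Pool.Agent.Helper98.RS

private theorem b6_one_mem {G : Type} [Group G] (S : Set G) (n : ℕ) : (1 : G) ∈ Bl S n := by
  unfold Bl
  exact Set.one_mem_pow (by simp)

private theorem b6_mul {G : Type} [Group G] (S : Set G) {m n : ℕ} {x y : G} (hx : x ∈ Bl S m)
    (hy : y ∈ Bl S n) : x * y ∈ Bl S (m + n) := by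
  unfold Bl at *
  rw [pow_add]
  exact Set.mul_mem_mul hx hy

private theorem b6_mono {G : Type} [Group G] (S : Set G) {m n : ℕ} (h : m ≤ n) :
    Bl S m ⊆ Bl S n := by
  obtain ⟨k, rfl⟩ := Nat.exists_eq_add_of_le h
  intro x hx
  have h1 := b6_mul S hx (b6_one_mem S k)
  rwa [mul_one] at h1

private theorem b6_inv {G : Type} [Group G] (S : Set G) {n : ℕ} {x : G} (hx : x ∈ Bl S n) :
    x⁻¹ ∈ Bl S n := by
  unfold Bl at *
  have h1 : (({1} : Set G) ∪ S ∪ S⁻¹)⁻¹ = ({1} : Set G) ∪ S ∪ S⁻¹ := by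
    ext y
    simp only [Set.mem_inv, Set.mem_union, Set.mem_singleton_iff, inv_eq_one, inv_inv]
    tauto
  have h2 : ((({1} : Set G) ∪ S ∪ S⁻¹) ^ n)⁻¹ = (({1} : Set G) ∪ S ∪ S⁻¹) ^ n := by
    rw [← inv_pow, h1]
  rw [← h2]
  simpa using hx

/-- Length of `cc x z`. -/
private theorem b6_cc {G : Type} [Group G] (S : Set G) {l k : ℕ} {x z : G} (hx : x ∈ Bl S l)
    (hz : z ∈ Bl S k) : cc x z ∈ Bl S (4 * l + 4 * k) := by
  have h1 : z⁻¹ * x * z ∈ Bl S (k + l + k) := b6_mul S (b6_mul S (b6_inv S hz) hx) hz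
  have h2 := b6_mul S (b6_mul S (b6_mul S (b6_inv S hx) (b6_inv S h1)) hx) h1
  have h3 : l + (k + l + k) + l + (k + l + k) = 4 * l + 4 * k := by ring
  rw [h3] at h2
  exact h2

/-- The numerical threshold. -/
private theorem b6_num (α : ℝ) (hα4 : α < 1 / 4) (C : ℝ) (hC : 0 < C) :
    ∃ D0 : ℕ, ∀ d : ℕ, D0 < d → (C * (d : ℝ) ^ 4) ^ α < d * Real.log 2 := by
  have hb : 0 < 1 - 4 * α := by linarith
  have ht := (tendsto_rpow_atTop hb).comp (tendsto_natCast_atTop_atTop (R := ℝ))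
  have h1 := ht.eventually_gt_atTop (C ^ α / Real.log 2)
  obtain ⟨D0, hD0⟩ := Filter.eventually_atTop.mp h1
  refine ⟨D0, fun d hd => ?_⟩
  have hd0 : (0 : ℝ) < d := by exact_mod_cast lt_of_le_of_lt (Nat.zero_le _) hd
  have h2 := hD0 d hd.le
  simp only [Function.comp] at h2
  have hlog : 0 < Real.log 2 := Real.log_pos (by norm_num)
  rw [div_lt_iff₀ hlog] at h2
  have h3 : (C * (d : ℝ) ^ 4) ^ α = C ^ α * (d : ℝ) ^ (4 * α) := by
    rw [Real.mul_rpow hC.le (by positivity), ← Real.rpow_natCast, ← Real.rpow_mul hd0.le]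
    norm_num
  have h4 : (d : ℝ) = (d : ℝ) ^ (1 - 4 * α) * (d : ℝ) ^ (4 * α) := by
    rw [← Real.rpow_add hd0]
    norm_num
  have h5 : 0 < (d : ℝ) ^ (4 * α) := Real.rpow_pos_of_pos hd0 _
  rw [h3]
  calc C ^ α * (d : ℝ) ^ (4 * α) < ((d : ℝ) ^ (1 - 4 * α) * Real.log 2) * (d : ℝ) ^ (4 * α) :=
        mul_lt_mul_of_pos_right h2 h5
    _ = ((d : ℝ) ^ (1 - 4 * α) * (d : ℝ) ^ (4 * α)) * Real.log 2 := by ring
    _ = d * Real.log 2 := by rw [← h4]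

/-- A pair of minimal index: nilpotency of the normal closure modulo `M'`. -/
private theorem b6_pair {G : Type} [Group G] {p d : ℕ} {N M : Subgroup G} (h : Prim p d N M)
    (x : G) (hx : x ∉ M) :
    ∃ (p' d' : ℕ) (N' M' : Subgroup G), Prim p' d' N' M' ∧ N ≤ N' ∧ x ∉ M' ∧
      ∀ (_ : M'.Normal), Group.IsNilpotent
        ((Subgroup.normalClosure {x}).map (QuotientGroup.mk' M')) := by
  classical
  have hex : ∃ n, ∃ (p' d' : ℕ) (N' M' : Subgroup G), Prim p' d' N' M' ∧ N ≤ N' ∧ x ∉ M' ∧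
      N'.index = n := ⟨_, p, d, N, M, h, le_rfl, hx, rfl⟩
  obtain ⟨p', d', N', M', hP, hN, hxM, hi⟩ := Nat.find_spec hex
  refine ⟨p', d', N', M', hP, hN, hxM, fun hMn => ?_⟩
  by_contra hnil
  have : M'.Normal := hMn
  have hfin : N'.FiniteIndex := hP.fin
  have : M'.FiniteIndex := Subgroup.finiteIndex_of_le hP.le
  obtain ⟨k, hk⟩ := hP.solv
  obtain ⟨p'', d'', N'', M'', hP2, hle, hX⟩ := exists_prim M' ⟨k, hk.trans hP.le⟩
    (Subgroup.normalClosure {x}) hnil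
  have hxM2 : x ∉ M'' := by
    intro hx2
    apply hX
    have hM2 : M''.Normal := hP2.nM
    exact Subgroup.normalClosure_le_normal (by simpa using hx2)
  have h1 := Nat.find_min' hex ⟨p'', d'', N'', M'', hP2, hN.trans (hP.le.trans hle), hxM2, rfl⟩
  rw [← hi] at h1
  have h2 : N''.index < N'.index :=
    Subgroup.index_strictAnti (lt_of_lt_of_le (lt_of_le_of_ne hP.le hP.ne) hle)
  omega

/-- The dimension of the pair is controlled by the length. -/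
private theorem b6_dim {G : Type} [Group G] (S : Set G) (hSf : S.Finite)
    (hS : Subgroup.closure S = ⊤) (α : ℝ) (hα : 0 < α) (hα4 : α < 1 / 4) (hG : GB S α)
    (ε : ℝ) (hε : 0 < ε) :
    ∃ D0 : ℕ, ∀ (p d : ℕ) (N M : Subgroup G), Prim p d N M → ∀ (x : G) (ℓ : ℕ), x ∉ M →
      x ∈ Bl S ℓ → (∀ (_ : M.Normal), Group.IsNilpotent
        ((Subgroup.normalClosure {x}).map (QuotientGroup.mk' M))) →
      (8 * d + 16 : ℝ) ≤ ε * ℓ ∨ d ≤ D0 := by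
  obtain ⟨n0, hn0⟩ := hG
  set C : ℝ := 16 * (24 / ε + 12) + 2 with hC
  have hC0 : 0 < C := by positivity
  obtain ⟨D1, hD1⟩ := b6_num α hα4 C hC0
  refine ⟨max n0 D1, fun p d N M hP x ℓ hx hxl hnil => ?_⟩
  by_contra hcon
  rw [not_or, not_le, not_le] at hcon
  obtain ⟨h1, h2⟩ := hcon
  have hdn0 : n0 < d := lt_of_le_of_lt (le_max_left _ _) h2
  have hdD1 : D1 < d := lt_of_le_of_lt (le_max_right _ _) h2
  have hd1 : 1 ≤ d := by omega
  set m := Nat.log 2 (4 * d) with hm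
  have hm1 : 2 ^ m ≤ 4 * d := Nat.pow_log_le_self 2 (by omega)
  have hm2 : 4 * d < 2 ^ (m + 1) := Nat.lt_pow_succ_log_self (by norm_num) _
  obtain ⟨y, hyM, hyN, hyl⟩ := nil_steps S hS hP x ℓ m hx hxl hnil hm2
  have h3 := growth_prim S hSf hS hP y _ hyl hyM hyN
  set n := d * (4 ^ m * (ℓ + 4 * d + 8) + 2 * d) with hn
  have hnn : n0 ≤ n := by
    have : d * 1 ≤ d * (4 ^ m * (ℓ + 4 * d + 8) + 2 * d) := Nat.mul_le_mul_left _ (by omega)
    omega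
  have h4 := hn0 n hnn
  have hdR : (1 : ℝ) ≤ d := by exact_mod_cast hd1
  have h4m : ((4 : ℝ) ^ m) ≤ 16 * (d : ℝ) ^ 2 := by
    have h5 : ((2 : ℝ) ^ m) ≤ 4 * d := by exact_mod_cast hm1
    have h6 : (4 : ℝ) ^ m = (2 ^ m) ^ 2 := by
      rw [← pow_mul, mul_comm, pow_mul]
      norm_num
    rw [h6]
    calc ((2 : ℝ) ^ m) ^ 2 ≤ (4 * d) ^ 2 := pow_le_pow_left₀ (by positivity) h5 2
      _ = 16 * (d : ℝ) ^ 2 := by ring
  have hl : (ℓ : ℝ) ≤ 24 / ε * d := by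
    rw [div_mul_eq_mul_div, le_div_iff₀ hε]
    nlinarith
  have hnC : (n : ℝ) ≤ C * (d : ℝ) ^ 4 := by
    rw [hn]
    push_cast
    have h5 : (ℓ : ℝ) + 4 * d + 8 ≤ (24 / ε + 12) * d := by nlinarith
    have h6 : (4 : ℝ) ^ m * (ℓ + 4 * d + 8) ≤ (16 * (d : ℝ) ^ 2) * ((24 / ε + 12) * d) :=
      mul_le_mul h4m h5 (by positivity) (by positivity)
    have h7 : (2 : ℝ) * d ≤ 2 * (d : ℝ) ^ 3 := by
      have : (d : ℝ) ≤ (d : ℝ) ^ 3 := by
        calc (d : ℝ) = (d : ℝ) ^ 1 := (pow_one _).symm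
          _ ≤ (d : ℝ) ^ 3 := pow_le_pow_right₀ hdR (by norm_num)
      linarith
    calc (d : ℝ) * ((4 : ℝ) ^ m * (ℓ + 4 * d + 8) + 2 * d)
        ≤ d * ((16 * (d : ℝ) ^ 2) * ((24 / ε + 12) * d) + 2 * (d : ℝ) ^ 3) :=
          mul_le_mul_of_nonneg_left (add_le_add h6 h7) (by positivity)
      _ = C * (d : ℝ) ^ 4 := by rw [hC]; ring
  have h5 : (2 : ℝ) ^ d ≤ Real.exp ((n : ℝ) ^ α) := by
    refine le_trans ?_ h4
    exact_mod_cast h3
  have h6 : (n : ℝ) ^ α ≤ (C * (d : ℝ) ^ 4) ^ α :=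
    Real.rpow_le_rpow (by positivity) hnC hα.le
  have h7 := hD1 d hdD1
  have h8 : Real.exp ((n : ℝ) ^ α) < Real.exp (d * Real.log 2) :=
    Real.exp_lt_exp.mpr (lt_of_le_of_lt h6 h7)
  have h9 : Real.exp (d * Real.log 2) = (2 : ℝ) ^ d := by
    rw [mul_comm, Real.exp_mul, Real.exp_log (by norm_num), Real.rpow_natCast]
  rw [h9] at h8
  exact absurd h5 (not_le.mpr h8)

/-- One cheap step. -/
theorem cheap_step {G : Type} [Group G] (S : Set G) (hSf : S.Finite)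
    (hS : Subgroup.closure S = ⊤) (α : ℝ) (hα : 0 < α) (hα4 : α < 1 / 4) (hG : GB S α)
    (ε : ℝ) (hε : 0 < ε) :
    ∃ C0 : ℕ, ∀ (p d : ℕ) (N M : Subgroup G), Prim p d N M → ∀ (x : G) (ℓ : ℕ), x ∉ M →
      x ∈ Bl S ℓ → ∃ z : G, cc x z ∉ N ∧ ∀ n : ℕ, (4 + ε) * ℓ + C0 ≤ (n : ℝ) → cc x z ∈ Bl S n := by
  obtain ⟨D0, hD0⟩ := b6_dim S hSf hS α hα hα4 hG ε hε
  refine ⟨8 * D0 + 16, fun p d N M hP x ℓ hx hxl => ?_⟩
  obtain ⟨p', d', N', M', hP', hNN, hxM, hnil⟩ := b6_pair hP x hx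
  obtain ⟨z, hz, hzN⟩ := lemmaN S hS hP' x hxM
  refine ⟨z, fun h => hzN (hNN h), fun n hn => ?_⟩
  have h1 := b6_cc S hxl hz
  refine b6_mono S ?_ h1
  have h2 : (4 * ℓ + 4 * (2 * d' + 4) : ℝ) ≤ n := by
    push_cast at hn
    rcases hD0 p' d' N' M' hP' x ℓ hxM hxl hnil with h | h
    · have : (0 : ℝ) ≤ D0 := Nat.cast_nonneg _
      linarith
    · have h3 : (d' : ℝ) ≤ D0 := by exact_mod_cast h
      have h4 : (0 : ℝ) ≤ ε * ℓ := by positivity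
      linarith
  exact_mod_cast h2

end Pool.Agent.Helper98.RS
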