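import Pool.Agent.Helper98.RS.Defs

set_option autoImplicit false

open scoped Pointwise

namespace Pool.Agent.Helper98.RS

theorem cls_sol : Cls Sol where
  of_inj := fun f hf hK => by
    have : Group.IsSolvable _ := hK
    exact Group.isSolvable_of_isSolvable_injective hf
  of_surj := fun f hf hH => by
    have : Group.IsSolvable _ := hH
    exact Group.isSolvable_of_surjective hf
  solv := fun h => h

theorem cls_nil : Cls Nil where
  of_inj := fun {H K} _ _ f hf hK => by
    have hK' : Group.IsNilpotent K := hK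
    have h1 : Group.IsNilpotent f.range := inferInstance
    exact Group.nilpotent_of_mulEquiv (MonoidHom.ofInjective hf).symm
  of_surj := fun f hf hH => by
    have : Group.IsNilpotent _ := hH
    exact Group.nilpotent_of_surjective f hf
  solv := fun h => by
    have : Group.IsNilpotent _ := h
    infer_instance

theorem dl_mono {H : Type} [Group H] {a b : ℕ} (h : a ≤ b) (ha : derivedSeries H a = ⊥) :
    derivedSeries H b = ⊥ := le_bot_iff.1 ((derivedSeries_antitone H h).trans ha.le)

theorem dl_ext {H : Type} [Group H] (K : Subgroup H) [K.Normal] (a b : ℕ)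
    (h1 : derivedSeries (H ⧸ K) a = ⊥) (h2 : derivedSeries K b = ⊥) :
    derivedSeries H (a + b) = ⊥ := by
  have h3 : derivedSeries H a ≤ K := by
    have h4 := (map_derivedSeries_le_derivedSeries (QuotientGroup.mk' K) a).trans h1.le
    have h5 := (derivedSeries H a).map_eq_bot_iff.mp (le_bot_iff.mp h4)
    rwa [QuotientGroup.ker_mk'] at h5
  have h6 : ∀ b, derivedSeries H (a + b) ≤ (derivedSeries K b).map K.subtype := by
    intro b
    induction b with
    | zero =>
      rw [add_zero, derivedSeries_zero, ← MonoidHom.range_eq_map, Subgroup.range_subtype]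
      exact h3
    | succ b ih =>
      rw [← add_assoc]
      exact Subgroup.commutator_le_map_commutator ih ih
  have h7 := h6 b
  rw [h2, Subgroup.map_bot] at h7
  exact le_bot_iff.1 h7

theorem dl_of_homs {H : Type} [Group H] (m : ℕ)
    (h : ∀ g : H, g ≠ 1 → ∃ (K : Type) (_ : Group K) (f : H →* K), f g ≠ 1 ∧
      derivedSeries K m = ⊥) : derivedSeries H m = ⊥ := by
  rw [eq_bot_iff]
  intro g hg
  rw [Subgroup.mem_bot]
  by_contra hne
  obtain ⟨K, _, f, hf, hK⟩ := h g hne
  apply hf
  have h1 := map_derivedSeries_le_derivedSeries f m (Subgroup.mem_map_of_mem f hg)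
  rw [hK, Subgroup.mem_bot] at h1
  exact h1

theorem dl_of_inj {H K : Type} [Group H] [Group K] (f : H →* K) (hf : Function.Injective f) (m : ℕ)
    (h : derivedSeries K m = ⊥) : derivedSeries H m = ⊥ := by
  refine dl_of_homs m fun g hg => ⟨K, inferInstance, f, fun h1 => hg ?_, h⟩
  exact hf (h1.trans (map_one f).symm)

theorem perm_mono {P : ∀ (H : Type) [Group H], Prop} {n n' m m' : ℕ} (h : PermDL P n m)
    (hn : n' ≤ n) (hm : m ≤ m') : PermDL P n' m' := by
  intro H _ _ X _ _ hP hf hX
  exact dl_mono hm (h H X hP hf (hX.trans hn))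

theorem lin_mono {P : ∀ (H : Type) [Group H], Prop} {p a a' m m' : ℕ} (h : LinDL P p a m)
    (hn : a' ≤ a) (hm : m ≤ m') : LinDL P p a' m' := by
  intro _ H _ _ V _ _ _ ρ hP hi hc hV
  exact dl_mono hm (h H V ρ hP hi hc (hV.trans hn))

private theorem A1_two (c : ZMod 2) : c = 0 ∨ c = 1 := by
  revert c
  decide

private theorem A1_scalar {p : ℕ} [Fact p.Prime] {V : Type} [AddCommGroup V] [Module (ZMod p) V]
    [Finite V] (hV : Module.finrank (ZMod p) V ≤ 1) (f : Module.End (ZMod p) V) :
    ∃ c : ZMod p, ∀ v, f v = c • v := by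
  have : Module.Finite (ZMod p) V := Module.Finite.of_finite
  rcases Nat.lt_or_ge (Module.finrank (ZMod p) V) 1 with h | h
  · have h0 : Module.finrank (ZMod p) V = 0 := by omega
    have hs : Subsingleton V := Module.finrank_zero_iff.1 h0
    exact ⟨0, fun v => Subsingleton.elim _ _⟩
  · have h1 : Module.finrank (ZMod p) V = 1 := by omega
    obtain ⟨v, _, hv⟩ := finrank_eq_one_iff'.1 h1
    obtain ⟨c, hc⟩ := hv (f v)
    refine ⟨c, fun w => ?_⟩
    obtain ⟨e, he⟩ := hv w
    rw [← he, map_smul, ← hc, smul_comm]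

theorem lin_one {P : ∀ (H : Type) [Group H], Prop} (p : ℕ) : LinDL P p 1 1 := by
  intro _ H _ _ V _ _ _ ρ _ hi _ hV
  have hc : ∀ g h : H, g * h = h * g := by
    intro g h
    apply hi
    obtain ⟨c, hc⟩ := A1_scalar hV (ρ g)
    rw [map_mul, map_mul]
    refine LinearMap.ext fun v => ?_
    rw [Module.End.mul_apply, Module.End.mul_apply, hc, hc, map_smul]
  rw [derivedSeries_one, commutator_def, Subgroup.commutator_eq_bot_iff_le_centralizer]
  intro g _
  rw [Subgroup.mem_centralizer_iff]
  intro h _
  exact hc h g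

theorem lin_two_one {P : ∀ (H : Type) [Group H], Prop} : LinDL P 2 1 0 := by
  intro _ H _ _ V _ _ _ ρ _ hi _ hV
  rw [derivedSeries_zero, eq_bot_iff]
  intro g _
  rw [Subgroup.mem_bot]
  apply hi
  rw [map_one]
  obtain ⟨c, hc⟩ := A1_scalar hV (ρ g)
  have h2 : c = 0 ∨ c = 1 := A1_two c
  refine LinearMap.ext fun v => ?_
  rw [hc, Module.End.one_apply]
  rcases h2 with h2 | h2
  · have h3 : ρ g⁻¹ (ρ g v) = v := by
      rw [← Module.End.mul_apply, ← map_mul, inv_mul_cancel, map_one, Module.End.one_apply]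
    rw [hc, h2, zero_smul, map_zero] at h3
    rw [h2, zero_smul]
    exact h3
  · rw [h2, one_smul]

theorem lin_zero {P : ∀ (H : Type) [Group H], Prop} (p : ℕ) : LinDL P p 0 0 := by
  intro _ H _ _ V _ _ _ ρ _ hi _ hV
  have : Module.Finite (ZMod p) V := Module.Finite.of_finite
  have h0 : Module.finrank (ZMod p) V = 0 := by omega
  have hs : Subsingleton V := Module.finrank_zero_iff.1 h0
  rw [derivedSeries_zero, eq_bot_iff]
  intro g _
  rw [Subgroup.mem_bot]
  apply hi
  exact LinearMap.ext fun v => Subsingleton.elim _ _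

end Pool.Agent.Helper98.RS
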