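import Pool.Agent.Helper98.RS.A1
import Pool.Agent.Helper98.RS.A2

set_option autoImplicit false

open scoped Pointwise

namespace Pool.Agent.Helper98.RS

private theorem A3_aux {k : Type} [Field k] {H : Type} [Group H] {W : Type} [AddCommGroup W]
    [Module k W] (σ : Representation k H W) (hirr : Irr σ) (g : H) (hne : σ g ≠ 1) :
    ∃ (K : Type) (_ : Group K) (f : H →* K) (τ : Representation k K W),
      Function.Surjective f ∧ Function.Injective τ ∧ Irr τ ∧ f g ≠ 1 := by
  let u : H →* (W →ₗ[k] W)ˣ := MonoidHom.toHomUnits σ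
  have hu : ∀ x, ((u x : (W →ₗ[k] W)ˣ) : W →ₗ[k] W) = σ x := fun x => rfl
  let τ : Representation k u.range W := (Units.coeHom (W →ₗ[k] W)).comp u.range.subtype
  have hτ : ∀ x : u.range, τ x = ((x : (W →ₗ[k] W)ˣ) : W →ₗ[k] W) := fun x => rfl
  refine ⟨u.range, inferInstance, u.rangeRestrict, τ, u.rangeRestrict_surjective, ?_, ?_, ?_⟩
  · intro x y hxy
    rw [hτ, hτ] at hxy
    exact Subtype.ext (Units.ext hxy)
  · refine ⟨hirr.1, fun W' hW' => hirr.2 W' fun x v hv => ?_⟩
    have h1 := hW' ⟨u x, ⟨x, rfl⟩⟩ v hv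
    rw [hτ] at h1
    exact h1
  · intro h1
    apply hne
    have h2 : u g = 1 := congrArg Subtype.val h1
    rw [← hu, h2]
    rfl

/-- Reduction of linear groups to irreducible ones. -/
theorem lin_of_irr {P : ∀ (H : Type) [Group H], Prop} (hP : Cls P) (p a m : ℕ)
    (h : ∀ [Fact p.Prime] (H : Type) [Group H] [Finite H] (V : Type) [AddCommGroup V]
      [Module (ZMod p) V] [Finite V] (ρ : Representation (ZMod p) H V), P H →
      Function.Injective ρ → Irr ρ → Module.finrank (ZMod p) V ≤ a → derivedSeries H m = ⊥) :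
    LinDL P p a m := by
  intro _ H _ _ V _ _ _ ρ hPH hinj hcr hfin
  have hVfin : Module.Finite (ZMod p) V := Module.Finite.of_finite
  refine dl_of_homs m fun g hg => ?_
  have hρg : ρ g ≠ 1 := fun h1 => hg (hinj (h1.trans (map_one ρ).symm))
  obtain ⟨W, hW, hirr, hne⟩ := cr_irr ρ hcr g hρg
  obtain ⟨K, _, f, τ, hf, hτ, hirr', hne'⟩ := A3_aux (subrep ρ W hW) hirr g hne
  have hKfin : Finite K := Finite.of_surjective f hf
  have hWle : Module.finrank (ZMod p) W ≤ a := (Submodule.finrank_le W).trans hfin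
  exact ⟨K, inferInstance, f, hne', h K W τ (hP.of_surj f hf hPH) hτ hirr' hWle⟩

/-- Reduction of permutation groups to transitive ones. -/
theorem perm_of_trans {P : ∀ (H : Type) [Group H], Prop} (hP : Cls P) (n m : ℕ)
    (h : ∀ (H : Type) [Group H] [Finite H] (X : Type) [Finite X] [MulAction H X], P H →
      (∀ h : H, (∀ x : X, h • x = x) → h = 1) → MulAction.IsPretransitive H X → Nat.card X ≤ n →
      derivedSeries H m = ⊥) : PermDL P n m := by
  intro H _ _ X _ _ hPH hf hX
  refine dl_of_homs m fun g hg => ?_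
  have hgx : ∃ x : X, g • x ≠ x := by
    by_contra hcon
    push Not at hcon
    exact hg (hf g hcon)
  obtain ⟨x, hx⟩ := hgx
  let π : H →* Equiv.Perm (MulAction.orbit H x) := MulAction.toPermHom H (MulAction.orbit H x)
  let τ : (H ⧸ π.ker) →* Equiv.Perm (MulAction.orbit H x) := QuotientGroup.kerLift π
  have hτ : ∀ y : H, τ (y : H ⧸ π.ker) = π y := fun y => rfl
  refine ⟨H ⧸ π.ker, inferInstance, QuotientGroup.mk' π.ker, ?_, ?_⟩
  · intro h1
    rw [QuotientGroup.mk'_apply, QuotientGroup.eq_one_iff, MonoidHom.mem_ker] at h1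
    have h2 := congrArg (fun e : Equiv.Perm (MulAction.orbit H x) =>
      ((e ⟨x, MulAction.mem_orbit_self x⟩ : MulAction.orbit H x) : X)) h1
    exact hx h2
  · let : MulAction (H ⧸ π.ker) (MulAction.orbit H x) :=
      MulAction.compHom (MulAction.orbit H x) τ
    have hact : ∀ (y : H) (z : MulAction.orbit H x), (y : H ⧸ π.ker) • z = y • z :=
      fun y z => rfl
    refine h (H ⧸ π.ker) (MulAction.orbit H x) ?_ ?_ ?_ ?_
    · exact hP.of_surj (QuotientGroup.mk' π.ker) (QuotientGroup.mk'_surjective _) hPH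
    · intro k hk
      apply QuotientGroup.kerLift_injective π
      rw [map_one]
      exact Equiv.ext hk
    · refine ⟨fun y z => ?_⟩
      obtain ⟨g', hg'⟩ := MulAction.exists_smul_eq H y z
      exact ⟨(g' : H ⧸ π.ker), (hact g' y).trans hg'⟩
    · exact (Nat.card_le_card_of_injective (Subtype.val : MulAction.orbit H x → X)
        Subtype.val_injective).trans hX

end Pool.Agent.Helper98.RS
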