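import Pool.Agent.Helper98.RS.All

set_option autoImplicit false

open scoped Pointwise

namespace Pool.Agent.Helper98.RS

private theorem vn_bot {G : Type} [Group G] (P : Subgroup G) (hP : P = ⊥) :
    ∃ H : Subgroup P, H.FiniteIndex ∧ Group.IsNilpotent H := by
  subst hP
  exact ⟨⊤, inferInstance, inferInstance⟩

/-- The final statement. -/
theorem all_final (G : Type) [Group G] (S : Set G) (hSf : S.Finite) (hS : Subgroup.closure S = ⊤)
    (α : ℝ) (hα : α < 1 / 4)
    (hgr : ∃ C : ℝ, 0 < C ∧ ∀ n : ℕ, (Nat.card ↥((({1} : Set G) ∪ S ∪ S⁻¹) ^ n) : ℝ) ≤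
      C * Real.exp ((C * n) ^ α)) :
    (∃ k : ℕ, (derivedSeries G k).FG ∧ derivedSeries G (k + 1) = derivedSeries G k ∧
      ∃ H : Subgroup (G ⧸ derivedSeries G k), H.FiniteIndex ∧ Group.IsNilpotent H) ∧
    ((∀ P : Subgroup G, P.FG → ⁅P, P⁆ = P →
        ∃ H : Subgroup P, H.FiniteIndex ∧ Group.IsNilpotent H) →
      ∃ H : Subgroup G, H.FiniteIndex ∧ Group.IsNilpotent H) ∧
    ((∀ g : G, g ≠ 1 → ∃ (N : Subgroup G) (_ : N.Normal), g ∉ N ∧ Group.IsSolvable (G ⧸ N)) →
      ∃ H : Subgroup G, H.FiniteIndex ∧ Group.IsNilpotent H) ∧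
    ((∃ lt : G → G → Prop, (∀ x y, lt x y ∨ x = y ∨ lt y x) ∧ (∀ x, ¬ lt x x) ∧
        (∀ x y z, lt x y → lt y z → lt x z) ∧ (∀ z x y, lt x y → lt (z * x) (z * y))) →
      ∃ H : Subgroup G, H.FiniteIndex ∧ Group.IsNilpotent H) := by
  obtain ⟨h1, h2⟩ := all_main G S hSf hS α hα hgr
  refine ⟨h1, h2, fun hres => ?_, ?_⟩
  · exact h2 fun P _ hPP => vn_bot P (all_perfect hres P hPP.ge)
  · rintro ⟨lt, htot, hirr, htr, hinv⟩
    have hsub : SubExp' G := by
      obtain ⟨C, hC, hgr⟩ := hgr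
      have hα4 : max α 0 < 1 / 4 := max_lt hα (by norm_num)
      obtain ⟨β, hβ1, hβ2⟩ := _root_.exists_between hα4
      have hβ0 : 0 < β := (le_max_right _ _).trans_lt hβ1
      have hαβ : α < β := (le_max_left _ _).trans_lt hβ1
      have hG : GB S β := by
        obtain ⟨n0, hn0⟩ := Pool.Agent.Helper94.RS4.fin_rpow C α β hC hβ0 hαβ
        exact ⟨n0, fun n hn => (hgr n).trans (hn0 n hn)⟩
      exact subexp_of_gb S hSf hS β (hβ2.trans (by norm_num)) hG
    refine h2 fun P hPfg hPP => vn_bot P ?_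
    by_contra hne
    have hnt : Nontrivial P := (Subgroup.nontrivial_iff_ne_bot P).2 hne
    refine lo_not_perfect ((Group.fg_iff_subgroup_fg _).2 hPfg)
      (Pool.Agent.Helper41.Gap.subexp_of_injective _ P.subtype_injective hsub)
      (fun x y => lt x y) ?_ (fun x => hirr x) (fun x y z => htr x y z)
      (fun z x y => hinv z x y) hnt ?_
    · intro x y
      rcases htot x y with h | h | h
      · exact Or.inl h
      · exact Or.inr (Or.inl (Subtype.ext h))
      · exact Or.inr (Or.inr h)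
    · apply Subgroup.map_injective P.subtype_injective
      rw [Subgroup.map_subtype_commutator, hPP, ← MonoidHom.range_eq_map, Subgroup.range_subtype]

end Pool.Agent.Helper98.RS
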