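import Pool.Agent.Helper98.RS.B0

set_option autoImplicit false

open scoped Pointwise

namespace Pool.Agent.Helper98.RS

variable {G : Type} [Group G] {p d : ℕ} {N M : Subgroup G}

private theorem b1_base (S : Set G) : (1 : G) ∈ (({1} : Set G) ∪ S ∪ S⁻¹) := by simp

private theorem b1_one_mem (S : Set G) (n : ℕ) : (1 : G) ∈ Bl S n := by
  unfold Bl
  exact Set.one_mem_pow (b1_base S)

private theorem b1_mul (S : Set G) {m n : ℕ} {x y : G} (hx : x ∈ Bl S m) (hy : y ∈ Bl S n) :
    x * y ∈ Bl S (m + n) := by
  unfold Bl at *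
  rw [pow_add]
  exact Set.mul_mem_mul hx hy

private theorem b1_inv (S : Set G) {n : ℕ} {x : G} (hx : x ∈ Bl S n) : x⁻¹ ∈ Bl S n := by
  unfold Bl at *
  have h1 : (({1} : Set G) ∪ S ∪ S⁻¹)⁻¹ = ({1} : Set G) ∪ S ∪ S⁻¹ := by
    ext y
    simp only [Set.mem_inv, Set.mem_union, Set.mem_singleton_iff, inv_eq_one, inv_inv]
    tauto
  have h2 : ((({1} : Set G) ∪ S ∪ S⁻¹) ^ n)⁻¹ = (({1} : Set G) ∪ S ∪ S⁻¹) ^ n := by
    rw [← inv_pow, h1]
  rw [← h2]
  simpa using hx

private theorem b1_mono (S : Set G) {m n : ℕ} (h : m ≤ n) : Bl S m ⊆ Bl S n := by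
  unfold Bl
  exact Set.pow_subset_pow_right (b1_base S) h

private theorem b1_finite (S : Set G) (hS : S.Finite) (n : ℕ) : (Bl S n).Finite := by
  unfold Bl
  have h : (({1} : Set G) ∪ S ∪ S⁻¹).Finite := ((Set.finite_singleton _).union hS).union hS.inv
  induction n with
  | zero =>
    rw [pow_zero]
    exact Set.finite_one
  | succ n ih =>
    rw [pow_succ]
    exact ih.mul h

private theorem b1_gen (S : Set G) {x : G} (hx : x ∈ S) : x ∈ Bl S 1 := by
  unfold Bl
  rw [pow_one]
  exact Or.inl (Or.inr hx)

private theorem b1_prod (S : Set G) (m : ℕ) : ∀ l : List G, (∀ x ∈ l, x ∈ Bl S m) →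
    l.prod ∈ Bl S (l.length * m) := by
  intro l
  induction l with
  | nil =>
    intro _
    simpa using b1_one_mem S 0
  | cons a l ih =>
    intro h
    rw [List.prod_cons, List.length_cons, Nat.succ_mul, Nat.add_comm]
    exact b1_mul S (h a (by simp)) (ih fun x hx => h x (by simp [hx]))

private theorem b1_q {V : Type} [AddCommGroup V] (q : G → V)
    (hadd : ∀ x ∈ M, ∀ y ∈ M, q (x * y) = q x + q y) (h1 : q 1 = 0) :
    ∀ l : List G, (∀ x ∈ l, x ∈ M) → q l.prod = (l.map q).sum := by
  intro l
  induction l with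
  | nil =>
    intro _
    simpa using h1
  | cons a l ih =>
    intro h
    rw [List.prod_cons, List.map_cons, List.sum_cons,
      hadd a (h a (by simp)) _ (Subgroup.list_prod_mem M fun x hx => h x (by simp [hx])),
      ih fun x hx => h x (by simp [hx])]

/-- the orbit of a non-zero vector under a ball of radius the dimension spans -/
private theorem b1_span (S : Set G) (hS : Subgroup.closure S = ⊤) [M.Normal] {k : Type} [Field k]
    {V : Type} [AddCommGroup V] [Module k V] [FiniteDimensional k V]
    (ρ : Representation k (G ⧸ M) V) (hirr : Irr ρ) (v0 : V) (hv0 : v0 ≠ 0) :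
    Submodule.span k ((fun g : G => ρ (QuotientGroup.mk g) v0) '' Bl S (Module.finrank k V)) = ⊤ := by
  classical
  set W : ℕ → Submodule k V := fun r =>
    Submodule.span k ((fun g : G => ρ (QuotientGroup.mk g) v0) '' Bl S r) with hW
  have hmono : ∀ r s : ℕ, r ≤ s → W r ≤ W s := fun r s hrs =>
    Submodule.span_mono (Set.image_mono (b1_mono S hrs))
  have hmem : ∀ r, v0 ∈ W r := by
    intro r
    refine Submodule.subset_span ⟨1, b1_one_mem S r, ?_⟩
    simp
  have hstab : ∀ r, W r = W (r + 1) → W r = ⊤ := by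
    intro r hr
    have h1 : ∀ g : G, g ∈ Bl S 1 → ∀ w ∈ W r, ρ (QuotientGroup.mk g) w ∈ W r := by
      intro g hg w hw
      have h2 : W r ≤ (W (r + 1)).comap (ρ (QuotientGroup.mk g)) := by
        refine Submodule.span_le.mpr ?_
        rintro _ ⟨g', hg', rfl⟩
        rw [SetLike.mem_coe, Submodule.mem_comap]
        refine Submodule.subset_span ⟨g * g', ?_, ?_⟩
        · rw [Nat.add_comm]
          exact b1_mul S hg hg'
        · simp only [QuotientGroup.mk_mul, map_mul, Module.End.mul_apply]
      have h3 := h2 hw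
      rw [Submodule.mem_comap, ← hr] at h3
      exact h3
    have h2 : ∀ g : G, ∀ w ∈ W r, ρ (QuotientGroup.mk g) w ∈ W r := by
      intro g
      have hg : g ∈ Subgroup.closure S := by rw [hS]; trivial
      induction hg using Subgroup.closure_induction'' with
      | mem x hx => exact h1 x (b1_gen S hx)
      | inv_mem x hx => exact h1 _ (b1_inv S (b1_gen S hx))
      | one =>
        intro w hw
        simpa using hw
      | mul x y _ _ hx hy =>
        intro w hw
        have := hx _ (hy w hw)
        simpa only [QuotientGroup.mk_mul, map_mul, Module.End.mul_apply] using this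
    rcases hirr.2 (W r) (fun h w hw => by
      obtain ⟨g, rfl⟩ := QuotientGroup.mk_surjective h
      exact h2 g w hw) with h3 | h3
    · exact absurd (h3 ▸ hmem r) (by simpa using hv0)
    · exact h3
  by_contra hcon
  have hlt : ∀ r, r ≤ Module.finrank k V → W r ≠ ⊤ := by
    intro r hr h1
    apply hcon
    exact top_le_iff.mp (h1 ▸ hmono r _ hr)
  have hdim : ∀ r, r ≤ Module.finrank k V → r + 1 ≤ Module.finrank k (W r) := by
    intro r
    induction r with
    | zero =>
      intro _
      rw [Nat.zero_add, Nat.one_le_iff_ne_zero]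
      intro h1
      have h2 := Submodule.finrank_eq_zero.mp h1
      have h3 := hmem 0
      rw [h2, Submodule.mem_bot] at h3
      exact hv0 h3
    | succ r ih =>
      intro hr
      have h1 := ih (by omega)
      have h2 : W r < W (r + 1) := by
        refine lt_of_le_of_ne (hmono r (r + 1) (by omega)) fun h3 => ?_
        exact hlt r (by omega) (hstab r h3)
      have h3 := Submodule.finrank_lt_finrank_of_lt h2
      omega
  have h1 := hdim _ le_rfl
  have h2 := Submodule.finrank_le (W (Module.finrank k V))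
  omega

theorem growth_prim (S : Set G) (hSf : S.Finite) (hS : Subgroup.closure S = ⊤)
    (h : Prim p d N M) (v : G) (L : ℕ) (hv : v ∈ Bl S L) (hvM : v ∈ M) (hvN : v ∉ N) :
    2 ^ d ≤ Nat.card ↥(Bl S (d * (L + 2 * d))) := by
  classical
  obtain ⟨_, _, V, _, _, _, ρ, q, -, hirr, hd, hadd, hker, -, hconj⟩ := prim_rep h
  have : FiniteDimensional (ZMod p) V := Module.Finite.of_finite
  have hv0 : q v ≠ 0 := fun h0 => hvN ((hker v hvM).mp h0)
  have hq1 : q 1 = 0 := (hker 1 M.one_mem).mpr N.one_mem
  have hspan := b1_span S hS ρ hirr (q v) hv0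
  rw [hd] at hspan
  obtain ⟨b, hbs, hbspan, hbli⟩ := exists_linearIndependent (ZMod p)
    ((fun g : G => ρ (QuotientGroup.mk g) (q v)) '' Bl S d)
  rw [hspan] at hbspan
  have hbc : Nat.card b = d := by
    let B : Module.Basis b (ZMod p) V := Module.Basis.mk hbli (by
      rw [Subtype.range_coe_subtype, Set.ofPred_mem_eq, hbspan])
    rw [← hd, Module.finrank_eq_nat_card_basis B]
  have hbfin : Finite b := Finite.of_injective (fun x : b => (x : V)) Subtype.val_injective
  obtain ⟨e⟩ : Nonempty (Fin d ≃ b) := ⟨(Finite.equivFinOfCardEq hbc).symm⟩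
  have hg : ∀ i : Fin d, ∃ g : G, g ∈ Bl S d ∧ ρ (QuotientGroup.mk g) (q v) = (e i : V) := by
    intro i
    obtain ⟨g, hg1, hg2⟩ := hbs (e i).2
    exact ⟨g, hg1, hg2⟩
  choose g hg1 hg2 using hg
  have hli : LinearIndependent (ZMod p) fun i : Fin d => ((e i : b) : V) :=
    hbli.comp e e.injective
  let y : (Fin d → Bool) → Fin d → G := fun s i => g i * (if s i then v else 1) * (g i)⁻¹
  have hyM : ∀ s i, y s i ∈ M := by
    intro s i
    refine Subgroup.Normal.conj_mem inferInstance _ ?_ _
    split_ifs
    · exact hvM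
    · exact M.one_mem
  have hyB : ∀ s i, y s i ∈ Bl S (L + 2 * d) := by
    intro s i
    have h1 : (if s i then v else 1) ∈ Bl S L := by
      split_ifs
      · exact hv
      · exact b1_one_mem S L
    have h2 := b1_mul S (b1_mul S (hg1 i) h1) (b1_inv S (hg1 i))
    have h3 : d + L + d = L + 2 * d := by ring
    rwa [h3] at h2
  have hyq : ∀ s i, q (y s i) = if s i then (e i : V) else 0 := by
    intro s i
    have hm : (if s i then v else 1) ∈ M := by
      split_ifs
      · exact hvM
      · exact M.one_mem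
    change q (g i * (if s i then v else 1) * (g i)⁻¹) = _
    rw [hconj (g i) _ hm]
    split_ifs
    · exact hg2 i
    · rw [hq1, map_zero]
  let F : (Fin d → Bool) → Bl S (d * (L + 2 * d)) := fun s =>
    ⟨(List.ofFn (y s)).prod, by
      have h1 := b1_prod S (L + 2 * d) (List.ofFn (y s)) (by
        intro x hx
        obtain ⟨i, rfl⟩ := (List.mem_ofFn' _ _).mp hx
        exact hyB s i)
      rwa [List.length_ofFn] at h1⟩
  have hF : Function.Injective F := by
    intro s t hst
    have h1 : (List.ofFn (y s)).prod = (List.ofFn (y t)).prod := congrArg Subtype.val hst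
    have h2 : ∀ s, q (List.ofFn (y s)).prod = ∑ i, (if s i then (1 : ZMod p) else 0) • (e i : V) := by
      intro s
      rw [b1_q (M := M) q hadd hq1 _ (by
        intro x hx
        obtain ⟨i, rfl⟩ := (List.mem_ofFn' _ _).mp hx
        exact hyM s i), List.map_ofFn, List.sum_ofFn]
      refine Finset.sum_congr rfl fun i _ => ?_
      rw [Function.comp_apply, hyq s i]
      split_ifs <;> simp
    have h3 := congrArg q h1
    rw [h2 s, h2 t, ← sub_eq_zero, ← Finset.sum_sub_distrib] at h3
    simp_rw [← sub_smul] at h3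
    have h4 := Fintype.linearIndependent_iff.mp hli _ h3
    funext i
    have h5 := h4 i
    cases hs : s i <;> cases ht : t i <;> simp [hs, ht] at h5 ⊢
  have : Finite (Bl S (d * (L + 2 * d))) := (b1_finite S hSf _).to_subtype
  have h1 := Nat.card_le_card_of_injective F hF
  simpa [Nat.card_eq_fintype_card] using h1

end Pool.Agent.Helper98.RS
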