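import Pool.Agent.Helper98.RS.Defs

set_option autoImplicit false

open scoped Pointwise

namespace Pool.Agent.Helper98.RS

/-- Over an algebraically closed field. -/
theorem b2_alg {K : Type} [Field K] [IsAlgClosed K] {q : ℕ} (hq : q.Prime)
    (hqK : (q : K) ≠ 0) (Q : Type) [Group Q] [Finite Q] (V : Type) [AddCommGroup V] [Module K V]
    [FiniteDimensional K V] (T : Q →* Module.End K V) (hinj : Function.Injective T)
    (hc : ∀ x y : Q, x * y = y * x) (hx : ∀ x : Q, x ^ q = 1) :
    Nat.card Q ≤ q ^ (Module.finrank K V) := by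
  classical
  have hss : ∀ x, (T x).IsSemisimple := by
    intro x
    apply Module.End.isSemisimple_of_squarefree_aeval_eq_zero (p := Polynomial.X ^ q - 1)
      (Polynomial.X_pow_sub_one_separable_iff.2 hqK).squarefree
    rw [map_sub, map_pow, Polynomial.aeval_X, map_one, ← map_pow, hx, map_one, sub_self]
  have hgen : ∀ x μ, (T x).maxGenEigenspace μ = (T x).eigenspace μ := fun x μ =>
    ((hss x).isFinitelySemisimple).maxGenEigenspace_eq_eigenspace μ
  have hcom : ∀ x y, Commute (T x) (T y) := fun x y => by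
    show T x * T y = T y * T x
    rw [← map_mul, ← map_mul, hc]
  have hmaps : ∀ i j φ, Set.MapsTo (T i) ((T j).maxGenEigenspace φ) ((T j).maxGenEigenspace φ) :=
    fun i j φ => Module.End.mapsTo_maxGenEigenspace_of_comm (hcom j i) φ
  have htop := Module.End.iSup_iInf_maxGenEigenspace_eq_top_of_forall_mapsTo (fun x => T x) hmaps
    (fun x => Module.End.iSup_maxGenEigenspace_eq_top (T x))
  have hind := Module.End.independent_iInf_maxGenEigenspace_of_forall_mapsTo (fun x => T x) hmaps
  let _ := hind.fintypeNeBotOfFiniteDimensional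
  have hcard := hind.subtype_ne_bot_le_finrank
  have hact : ∀ χ : Q → K, ∀ v ∈ (⨅ i, (T i).maxGenEigenspace (χ i)), ∀ x, T x v = χ x • v := by
    intro χ v hv x
    have : v ∈ (T x).maxGenEigenspace (χ x) := (Submodule.mem_iInf _).1 hv x
    rw [hgen] at this
    exact Module.End.mem_eigenspace_iff.1 this
  have hroot : ∀ χ : {χ : Q → K // (⨅ i, (T i).maxGenEigenspace (χ i)) ≠ ⊥}, ∀ x,
      χ.1 x ^ q = 1 := by
    intro χ x
    obtain ⟨v, hv, hv0⟩ := Submodule.exists_mem_ne_zero_of_ne_bot χ.2
    have h1 : ∀ n : ℕ, (T x ^ n) v = χ.1 x ^ n • v := by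
      intro n
      induction n with
      | zero => simp
      | succ n ih =>
        rw [pow_succ', Module.End.mul_apply, ih, map_smul, hact _ _ hv, smul_smul, pow_succ]
    have h2 := h1 q
    rw [← map_pow, hx, map_one] at h2
    have h3 : (χ.1 x ^ q - 1) • v = 0 := by
      rw [sub_smul, ← h2]; simp
    rcases smul_eq_zero.1 h3 with h | h
    · exact sub_eq_zero.1 h
    · exact absurd h hv0
  let S : Finset K := (Polynomial.nthRoots q (1 : K)).toFinset
  have hS : S.card ≤ q := (Multiset.toFinset_card_le _).trans (Polynomial.card_nthRoots q 1)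
  let F : Q → ({χ : Q → K // (⨅ i, (T i).maxGenEigenspace (χ i)) ≠ ⊥} → S) := fun x χ =>
    ⟨χ.1 x, by rw [Multiset.mem_toFinset, Polynomial.mem_nthRoots hq.pos]; exact hroot χ x⟩
  have hF : Function.Injective F := by
    intro x y hxy
    apply hinj
    have h1 : (⊤ : Submodule K V) ≤ LinearMap.eqLocus (T x) (T y) := by
      rw [← htop]
      apply iSup_le
      intro χ v hv
      by_cases h : (⨅ i, (T i).maxGenEigenspace (χ i)) = ⊥
      · have hv' : v ∈ (⨅ i, (T i).maxGenEigenspace (χ i)) := hv
        rw [h] at hv'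
        have : v = 0 := (Submodule.mem_bot K).1 hv'
        rw [this]
        exact Submodule.zero_mem _
      · rw [LinearMap.mem_eqLocus, hact χ v hv, hact χ v hv]
        congr 1
        exact congrArg Subtype.val (congrFun hxy ⟨χ, h⟩)
    apply LinearMap.ext
    intro v
    exact h1 (Submodule.mem_top)
  calc Nat.card Q
      ≤ Nat.card ({χ : Q → K // (⨅ i, (T i).maxGenEigenspace (χ i)) ≠ ⊥} → S) :=
        Nat.card_le_card_of_injective F hF
    _ = S.card ^ Fintype.card {χ : Q → K // (⨅ i, (T i).maxGenEigenspace (χ i)) ≠ ⊥} := by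
        rw [Nat.card_eq_fintype_card, Fintype.card_fun, Fintype.card_coe]
    _ ≤ q ^ Fintype.card {χ : Q → K // (⨅ i, (T i).maxGenEigenspace (χ i)) ≠ ⊥} :=
        Nat.pow_le_pow_left hS _
    _ ≤ q ^ Module.finrank K V := Nat.pow_le_pow_right hq.pos hcard

/-- An elementary abelian group of exponent `q`, prime to `p`, acting faithfully in dimension `d`
in characteristic `p` has order at most `q ^ d`. -/
theorem elab_rank {p q : ℕ} [Fact p.Prime] (hq : q.Prime) (hqp : q ≠ p) (Q : Type) [Group Q]
    [Finite Q] (V : Type) [AddCommGroup V] [Module (ZMod p) V] [Finite V]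
    (ρ : Representation (ZMod p) Q V) (hinj : Function.Injective ρ)
    (hc : ∀ x y : Q, x * y = y * x) (hx : ∀ x : Q, x ^ q = 1) :
    Nat.card Q ≤ q ^ (Module.finrank (ZMod p) V) := by
  classical
  have : Module.Finite (ZMod p) V := Module.Finite.of_finite
  let K := AlgebraicClosure (ZMod p)
  let b := Module.finBasis (ZMod p) V
  have hqK : (q : K) ≠ 0 := by
    intro h
    have h1 : (algebraMap (ZMod p) K) (q : ZMod p) = 0 := by simpa using h
    have h2 : (q : ZMod p) = 0 := (algebraMap (ZMod p) K).injective (by rw [h1, map_zero])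
    rw [ZMod.natCast_eq_zero_iff] at h2
    exact hqp ((Nat.prime_dvd_prime_iff_eq (Fact.out : p.Prime) hq).1 h2).symm
  let e1 : Module.End (ZMod p) V →* Matrix (Fin (Module.finrank (ZMod p) V))
      (Fin (Module.finrank (ZMod p) V)) (ZMod p) := (LinearMap.toMatrixAlgEquiv b : _ →* _)
  let e2 : Matrix (Fin (Module.finrank (ZMod p) V)) (Fin (Module.finrank (ZMod p) V)) (ZMod p) →*
      Matrix (Fin (Module.finrank (ZMod p) V)) (Fin (Module.finrank (ZMod p) V)) K :=
    ((algebraMap (ZMod p) K).mapMatrix).toMonoidHom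
  let e3 : Matrix (Fin (Module.finrank (ZMod p) V)) (Fin (Module.finrank (ZMod p) V)) K →*
      Module.End K (Fin (Module.finrank (ZMod p) V) → K) :=
    (Matrix.toLinAlgEquiv' : Matrix (Fin (Module.finrank (ZMod p) V))
      (Fin (Module.finrank (ZMod p) V)) K ≃ₐ[K] _)
  have h := b2_alg hq hqK Q (Fin (Module.finrank (ZMod p) V) → K)
    (e3.comp (e2.comp (e1.comp ρ))) ?_ hc hx
  · simpa using h
  · intro x y hxy
    apply hinj
    apply (LinearMap.toMatrixAlgEquiv b).injective
    have h3 : Function.Injective e3 := Matrix.toLinAlgEquiv'.injective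
    have h2 : Function.Injective e2 := by
      intro A B hAB
      ext i j
      exact (algebraMap (ZMod p) K).injective (congrFun (congrFun hAB i) j)
    exact h2 (h3 hxy)

end Pool.Agent.Helper98.RS
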