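import Pool.Agent.Helper98.RS.B0
import Pool.Agent.Helper98.RS.B2

set_option autoImplicit false

open scoped Pointwise

namespace Pool.Agent.Helper98.RS

section B3core

variable {F : Type} [Group F] {T : Set F}

private theorem b3_one_mem (n : ℕ) : (1 : F) ∈ Bl T n := by
  induction n with
  | zero => simp [Bl]
  | succ n ih =>
    unfold Bl at ih ⊢
    rw [pow_succ]
    exact ⟨1, ih, 1, Or.inl (Or.inl rfl), mul_one 1⟩

private theorem b3_mul_mem {m n : ℕ} {a b : F} (ha : a ∈ Bl T m) (hb : b ∈ Bl T n) :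
    a * b ∈ Bl T (m + n) := by
  unfold Bl at *
  rw [pow_add]
  exact Set.mul_mem_mul ha hb

private theorem b3_mono {m n : ℕ} (h : m ≤ n) {a : F} (ha : a ∈ Bl T m) : a ∈ Bl T n := by
  obtain ⟨k, rfl⟩ := Nat.exists_eq_add_of_le h
  have := b3_mul_mem ha (b3_one_mem (T := T) k)
  rwa [mul_one] at this

private theorem b3_base_inv : (({1} : Set F) ∪ T ∪ T⁻¹)⁻¹ = {1} ∪ T ∪ T⁻¹ := by
  rw [Set.union_inv, Set.union_inv, Set.inv_singleton, inv_one, inv_inv, Set.union_assoc,
    Set.union_assoc, Set.union_comm T⁻¹ T]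

private theorem b3_inv_mem {n : ℕ} {a : F} (ha : a ∈ Bl T n) : a⁻¹ ∈ Bl T n := by
  induction n generalizing a with
  | zero =>
    simp only [Bl, pow_zero, Set.mem_one] at ha ⊢
    rw [ha, inv_one]
  | succ n ih =>
    unfold Bl at ha
    rw [pow_succ] at ha
    obtain ⟨b, hb, c, hc, rfl⟩ := ha
    have h1 := ih hb
    have h2 : c⁻¹ ∈ (({1} : Set F) ∪ T ∪ T⁻¹) := by
      rw [← b3_base_inv]
      exact Set.inv_mem_inv.2 hc
    have h3 : c⁻¹ ∈ Bl T 1 := by
      unfold Bl
      rwa [pow_one]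
    have := b3_mul_mem h3 h1
    rw [add_comm] at this
    rwa [mul_inv_rev]

private theorem b3_base_mem {s : F} (hs : s ∈ T ∨ s⁻¹ ∈ T) : s ∈ Bl T 1 := by
  unfold Bl
  rw [pow_one]
  rcases hs with hs | hs
  · exact Or.inl (Or.inr hs)
  · exact Or.inr hs

/-- the subgroup generated by the conjugates of `a` -/
private def b3_D (T : Set F) (a : F) (r : ℕ) : Subgroup F :=
  Subgroup.closure {w | ∃ z ∈ Bl T r, w = z⁻¹ * a * z}

private theorem b3_D_mono (a : F) {r s : ℕ} (h : r ≤ s) : b3_D T a r ≤ b3_D T a s := by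
  refine Subgroup.closure_mono ?_
  rintro w ⟨z, hz, rfl⟩
  exact ⟨z, b3_mono h hz, rfl⟩

private theorem b3_D_self (a : F) (r : ℕ) : a ∈ b3_D T a r :=
  Subgroup.subset_closure ⟨1, b3_one_mem r, by simp⟩

private theorem b3_D_conj (a : F) (r : ℕ) {s g : F} (hs : s ∈ T ∨ s⁻¹ ∈ T)
    (hg : g ∈ b3_D T a r) : s⁻¹ * g * s ∈ b3_D T a (r + 1) := by
  unfold b3_D at hg
  induction hg using Subgroup.closure_induction with
  | mem w hw =>
    obtain ⟨z, hz, rfl⟩ := hw
    refine Subgroup.subset_closure ⟨z * s, b3_mul_mem hz (b3_base_mem hs), ?_⟩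
    group
  | one =>
    rw [mul_one, inv_mul_cancel]
    exact Subgroup.one_mem _
  | mul u v _ _ hu hv =>
    have e : s⁻¹ * (u * v) * s = (s⁻¹ * u * s) * (s⁻¹ * v * s) := by group
    rw [e]
    exact Subgroup.mul_mem _ hu hv
  | inv u _ hu =>
    have e : s⁻¹ * u⁻¹ * s = (s⁻¹ * u * s)⁻¹ := by group
    rw [e]
    exact Subgroup.inv_mem _ hu

private theorem b3_D_comm (a : F) (r : ℕ)
    (h : ∀ z ∈ Bl T r, ∀ w ∈ Bl T r, Commute (z⁻¹ * a * z) (w⁻¹ * a * w)) :
    ∀ u ∈ b3_D T a r, ∀ v ∈ b3_D T a r, u * v = v * u := by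
  intro u hu v hv
  unfold b3_D at hu hv
  induction hu, hv using Subgroup.closure_induction₂ with
  | mem u v hu hv =>
    obtain ⟨z, hz, rfl⟩ := hu
    obtain ⟨w, hw, rfl⟩ := hv
    exact h z hz w hw
  | one_left v _ => simp
  | one_right u _ => simp
  | mul_left u v w _ _ _ h1 h2 =>
    exact (Commute.mul_left h1 h2)
  | mul_right u v w _ _ _ h1 h2 =>
    exact (Commute.mul_right h1 h2)
  | inv_left u v _ _ h1 => exact Commute.inv_left h1
  | inv_right u v _ _ h1 => exact Commute.inv_right h1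

private theorem b3_D_exp (a : F) (r e : ℕ) (ha : a ^ e = 1)
    (h : ∀ z ∈ Bl T r, ∀ w ∈ Bl T r, Commute (z⁻¹ * a * z) (w⁻¹ * a * w)) :
    ∀ u ∈ b3_D T a r, u ^ e = 1 := by
  have hc := b3_D_comm a r h
  intro u hu
  unfold b3_D at hu
  induction hu using Subgroup.closure_induction with
  | mem w hw =>
    obtain ⟨z, hz, rfl⟩ := hw
    have e1 : z⁻¹ * a * z = MulAut.conj z⁻¹ a := by simp
    rw [e1, ← map_pow, ha, map_one]
  | one => exact one_pow e
  | mul u v hu' hv' hu hv =>
    have h1 : Commute u v := hc u hu' v hv'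
    rw [h1.mul_pow, hu, hv, one_mul]
  | inv u _ hu => rw [inv_pow, hu, inv_one]

/-- a subgroup which is stable under the generators is normal -/
private theorem b3_normal (hT : Subgroup.closure T = ⊤) (K : Subgroup F)
    (h : ∀ s, (s ∈ T ∨ s⁻¹ ∈ T) → ∀ g ∈ K, s⁻¹ * g * s ∈ K) : K.Normal := by
  have h1 : T ⊆ (Subgroup.normalizer (K : Set F) : Set F) := by
    intro s hs
    rw [SetLike.mem_coe, Subgroup.mem_normalizer_iff]
    intro g
    constructor
    · intro hg
      have := h s⁻¹ (Or.inr (by rwa [inv_inv])) g hg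
      rwa [inv_inv] at this
    · intro hg
      have := h s (Or.inl hs) _ hg
      have e : s⁻¹ * (s * g * s⁻¹) * s = g := by group
      rwa [e] at this
  rw [← Subgroup.normalizer_eq_top_iff, eq_top_iff, ← hT]
  exact (Subgroup.closure_le _).2 h1

/-- a sequence of exponents which is bounded and monotone has two equal consecutive terms -/
private theorem b3_dec (d : ℕ) (a : ℕ → ℕ) (h0 : a 0 ≤ d) (h : ∀ r, r ≤ d → a (r + 1) < a r) :
    False := by
  have : ∀ r, r ≤ d + 1 → a r + r ≤ d := by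
    intro r
    induction r with
    | zero => intro _; omega
    | succ r ih =>
      intro hr
      have := ih (by omega)
      have := h r (by omega)
      omega
  have := this (d + 1) le_rfl
  omega

private theorem b3_inc (d : ℕ) (a : ℕ → ℕ) (hd : a (d + 1) ≤ d) (h : ∀ r, r ≤ d → a r < a (r + 1)) :
    False := by
  have : ∀ r, r ≤ d + 1 → r ≤ a r := by
    intro r
    induction r with
    | zero => intro _; omega
    | succ r ih =>
      intro hr
      have := ih (by omega)
      have := h r (by omega)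
      omega
  have := this (d + 1) le_rfl
  omega

private theorem b3_core [Finite F] {p d : ℕ} (hp : p.Prime) (hT : Subgroup.closure T = ⊤)
    (U : Subgroup F) (nU : U.Normal) (hne : U ≠ ⊥) (hexp : ∀ u ∈ U, u ^ p = 1)
    (hcard : Nat.card U = p ^ d)
    (hmin : ∀ K : Subgroup F, K.Normal → K ≤ U → K = ⊥ ∨ K = U)
    (hcent : ∀ g : F, (∀ u ∈ U, g * u = u * g) → g ∈ U)
    (hrank : ∀ q : ℕ, q.Prime → q ≠ p → ∀ Q : Subgroup F, (∀ a ∈ Q, ∀ b ∈ Q, a * b = b * a) →
      (∀ a ∈ Q, a ^ q = 1) → Q ⊓ U = ⊥ → Nat.card Q ≤ q ^ d)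
    (x : F) (hx : x ∉ U) : ∃ z ∈ Bl T (2 * d + 4), cc x z ≠ 1 := by
  by_contra hcon
  push Not at hcon
  have hfact : Fact p.Prime := ⟨hp⟩
  -- conjugates of `x` commute
  have hxc : ∀ z ∈ Bl T (2 * d + 4), Commute x (z⁻¹ * x * z) := by
    intro z hz
    have h1 := hcon z hz
    unfold cc at h1
    show x * (z⁻¹ * x * z) = z⁻¹ * x * z * x
    have h2 : x⁻¹ * (z⁻¹ * x * z)⁻¹ * x * (z⁻¹ * x * z) =
        ((z⁻¹ * x * z) * x)⁻¹ * (x * (z⁻¹ * x * z)) := by group
    rw [h2] at h1
    exact (inv_mul_eq_one.1 h1).symm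
  have hcc : ∀ r, r ≤ d + 2 → ∀ z ∈ Bl T r, ∀ w ∈ Bl T r,
      Commute (z⁻¹ * x * z) (w⁻¹ * x * w) := by
    intro r hr z hz w hw
    have h1 : w * z⁻¹ ∈ Bl T (2 * d + 4) :=
      b3_mono (by omega) (b3_mul_mem hw (b3_inv_mem hz))
    have h2 := hxc _ h1
    have e1 : z⁻¹ * x * z = MulAut.conj z⁻¹ x := by simp
    have e2 : w⁻¹ * x * w = MulAut.conj z⁻¹ ((w * z⁻¹)⁻¹ * x * (w * z⁻¹)) := by
      simp only [MulAut.conj_apply]
      group
    rw [e1, e2]
    exact h2.map (MulAut.conj z⁻¹)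
  have hpow : ∀ k r, r ≤ d + 2 → ∀ z ∈ Bl T r, ∀ w ∈ Bl T r,
      Commute (z⁻¹ * x ^ k * z) (w⁻¹ * x ^ k * w) := by
    intro k r hr z hz w hw
    have h1 := (hcc r hr z hz w hw).pow_pow k k
    have e : ∀ z : F, z⁻¹ * x ^ k * z = (z⁻¹ * x * z) ^ k := by
      intro z
      have e1 : ∀ a : F, z⁻¹ * a * z = MulAut.conj z⁻¹ a := fun a => by simp
      rw [e1, e1, map_pow]
    rw [e, e]
    exact h1
  by_cases hcase : ∃ k, x ^ p ^ k = 1
  · -- the order of `x` is a power of `p`
    obtain ⟨k, hk⟩ := hcase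
    obtain ⟨W, hW⟩ : ∃ W : ℕ → Subgroup F, ∀ r, W r = U ⊓ Subgroup.centralizer (b3_D T x r : Set F) :=
      ⟨_, fun _ => rfl⟩
    have hWmono : ∀ r, W (r + 1) ≤ W r := by
      intro r
      rw [hW, hW]
      refine inf_le_inf le_rfl (Subgroup.centralizer_le ?_)
      exact b3_D_mono x (Nat.le_succ r)
    have hWp : ∀ r, ∃ a, a ≤ d ∧ Nat.card (W r) = p ^ a := by
      intro r
      have h1 : Nat.card (W r) ∣ Nat.card U := Subgroup.card_dvd_of_le (by rw [hW]; exact inf_le_left)
      rw [hcard] at h1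
      exact (Nat.dvd_prime_pow hp).1 h1
    choose a ha1 ha2 using hWp
    -- two consecutive ones are equal
    obtain ⟨r, hr, heq⟩ : ∃ r, r ≤ d ∧ W (r + 1) = W r := by
      by_contra hc
      push Not at hc
      refine b3_dec d a (ha1 0) fun r hr => ?_
      have h1 : Nat.card (W (r + 1)) < Nat.card (W r) := by
        have h2 := Subgroup.card_le_of_le (hWmono r)
        rcases h2.lt_or_eq with h3 | h3
        · exact h3
        · exact absurd (Subgroup.eq_of_le_of_card_ge (hWmono r) h3.ge) (hc r hr)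
      rw [ha2, ha2] at h1
      exact (Nat.pow_lt_pow_iff_right hp.one_lt).1 h1
    have hWn : (W r).Normal := by
      refine b3_normal hT _ fun s hs g hg => ?_
      have hg1 : g ∈ W (r + 1) := by rw [heq]; exact hg
      rw [hW] at hg1 ⊢
      obtain ⟨g1, g2⟩ := hg1
      refine ⟨?_, ?_⟩
      · have := nU.conj_mem g g1 s⁻¹
        rwa [inv_inv] at this
      · replace g2 := Subgroup.mem_centralizer_iff.1 g2
        refine Subgroup.mem_centralizer_iff.2 ?_
        intro b hb
        have hs' : s⁻¹ ∈ T ∨ s⁻¹⁻¹ ∈ T := by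
          rw [inv_inv]
          exact hs.symm
        have h1 := g2 _ (b3_D_conj x r hs' hb)
        rw [inv_inv] at h1
        have e : b = s⁻¹ * (s * b * s⁻¹) * s := by group
        rw [e]
        calc s⁻¹ * (s * b * s⁻¹) * s * (s⁻¹ * g * s) = s⁻¹ * ((s * b * s⁻¹) * g) * s := by group
          _ = s⁻¹ * (g * (s * b * s⁻¹)) * s := by rw [h1]
          _ = s⁻¹ * g * s * (s⁻¹ * (s * b * s⁻¹) * s) := by group
    rcases hmin (W r) hWn (by rw [hW]; exact inf_le_left) with h0 | h0
    · -- a `p`-group has nontrivial fixed points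
      have hBp : IsPGroup p (b3_D T x r) := by
        intro g
        refine ⟨k, Subtype.ext ?_⟩
        rw [Subgroup.coe_pow, Subgroup.coe_one]
        exact b3_D_exp x r (p ^ k) hk (hcc r (by omega)) g.1 g.2
      let act : MulAction (b3_D T x r) U :=
        MulAction.compHom U ((MulAut.conjNormal (G := F) (H := U)).comp (b3_D T x r).subtype)
      have hsmul : ∀ (b : b3_D T x r) (u : U), ((b • u : U) : F) = b.1 * u.1 * b.1⁻¹ := by
        intro b u
        exact MulAut.conjNormal_apply b.1 u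
      have hd : d ≠ 0 := by
        rintro rfl
        rw [pow_zero] at hcard
        exact hne (Subgroup.card_eq_one.1 hcard)
      have h1 : (1 : U) ∈ MulAction.fixedPoints (b3_D T x r) U := by
        intro b
        apply Subtype.ext
        rw [hsmul]
        simp
      obtain ⟨u, hu, hu1⟩ := hBp.exists_fixed_point_of_prime_dvd_card_of_fixed_point U
        (by rw [hcard]; exact dvd_pow_self p hd) h1
      apply hu1
      have h2 : (u : F) ∈ W r := by
        rw [hW]
        refine ⟨u.2, Subgroup.mem_centralizer_iff.2 ?_⟩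
        intro b hb
        have h3 := congrArg Subtype.val (hu ⟨b, hb⟩)
        rw [hsmul] at h3
        exact mul_inv_eq_iff_eq_mul.1 h3
      rw [h0, Subgroup.mem_bot] at h2
      exact Subtype.ext h2.symm
    · apply hx
      refine hcent x fun u hu => ?_
      have h1 : u ∈ W r := by rw [h0]; exact hu
      rw [hW] at h1
      exact (Subgroup.mem_centralizer_iff.1 h1.2) x (b3_D_self x r)
  · -- some power has prime order `q ≠ p`
    obtain ⟨q, hq, hqp, hqo⟩ : ∃ q, q.Prime ∧ q ≠ p ∧ q ∣ orderOf x := by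
      by_contra hc
      push Not at hc
      obtain ⟨e, m, hm, he⟩ := Nat.exists_eq_pow_mul_and_not_dvd (orderOf_pos x).ne' p hp.ne_one
      by_cases hm1 : m = 1
      · refine hcase ⟨e, ?_⟩
        rw [hm1, mul_one] at he
        rw [← he]
        exact pow_orderOf_eq_one x
      · obtain ⟨q, hq, hqm⟩ := Nat.exists_prime_and_dvd hm1
        refine hc q hq ?_ (he ▸ Dvd.dvd.mul_left hqm _)
        rintro rfl
        exact hm hqm
    obtain ⟨j, hj⟩ : ∃ j, j = orderOf x / q := ⟨_, rfl⟩
    have hyo : orderOf (x ^ j) = q := by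
      rw [hj]
      exact orderOf_pow_orderOf_div (orderOf_pos x).ne' hqo
    have hyq : (x ^ j) ^ q = 1 := by
      rw [← hyo]
      exact pow_orderOf_eq_one _
    have hy1 : x ^ j ≠ 1 := by
      intro h
      rw [h, orderOf_one] at hyo
      exact hq.one_lt.ne hyo
    have hQc : ∀ r, r ≤ d + 2 → ∀ u ∈ b3_D T (x ^ j) r, ∀ v ∈ b3_D T (x ^ j) r, u * v = v * u :=
      fun r hr => b3_D_comm _ r (hpow j r hr)
    have hQe : ∀ r, r ≤ d + 2 → ∀ u ∈ b3_D T (x ^ j) r, u ^ q = 1 :=
      fun r hr => b3_D_exp _ r q hyq (hpow j r hr)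
    have hQU : ∀ r, r ≤ d + 2 → b3_D T (x ^ j) r ⊓ U = ⊥ := by
      intro r hr
      rw [eq_bot_iff]
      rintro g ⟨g1, g2⟩
      have h1 := hQe r hr g g1
      have h2 := hexp g g2
      have h3 : orderOf g ∣ Nat.gcd q p := Nat.dvd_gcd (orderOf_dvd_of_pow_eq_one h1)
        (orderOf_dvd_of_pow_eq_one h2)
      rw [(Nat.coprime_primes hq hp).2 hqp, Nat.dvd_one, orderOf_eq_one_iff] at h3
      rw [Subgroup.mem_bot]
      exact h3
    have hfq : Fact q.Prime := ⟨hq⟩
    have hQp : ∀ r, r ≤ d + 2 → ∃ a, Nat.card (b3_D T (x ^ j) r) = q ^ a := by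
      intro r hr
      have h1 : IsPGroup q (b3_D T (x ^ j) r) := fun g => ⟨1, by
        apply Subtype.ext
        rw [pow_one, Subgroup.coe_pow, Subgroup.coe_one]
        exact hQe r hr g.1 g.2⟩
      exact IsPGroup.iff_card.1 h1
    obtain ⟨a, ha⟩ : ∃ a : ℕ → ℕ, ∀ r, r ≤ d + 2 → Nat.card (b3_D T (x ^ j) r) = q ^ a r := by
      choose! a ha using hQp
      exact ⟨a, ha⟩
    obtain ⟨r, hr, heq⟩ : ∃ r, r ≤ d ∧ b3_D T (x ^ j) r = b3_D T (x ^ j) (r + 1) := by
      by_contra hc
      push Not at hc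
      refine b3_inc d a ?_ fun r hr => ?_
      · have h1 := hrank q hq hqp _ (hQc (d + 1) (by omega)) (hQe (d + 1) (by omega))
          (hQU (d + 1) (by omega))
        rw [ha (d + 1) (by omega)] at h1
        exact (Nat.pow_le_pow_iff_right hq.one_lt).1 h1
      · have h1 : Nat.card (b3_D T (x ^ j) r) < Nat.card (b3_D T (x ^ j) (r + 1)) := by
          have h2 := Subgroup.card_le_of_le (b3_D_mono (T := T) (x ^ j) (Nat.le_succ r))
          rcases h2.lt_or_eq with h3 | h3
          · exact h3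
          · exact absurd (Subgroup.eq_of_le_of_card_ge (b3_D_mono (T := T) (x ^ j) (Nat.le_succ r))
              h3.ge) (hc r hr)
        rw [ha r (by omega), ha (r + 1) (by omega)] at h1
        exact (Nat.pow_lt_pow_iff_right hq.one_lt).1 h1
    have hn : (b3_D T (x ^ j) r).Normal := b3_normal hT _ fun s hs g hg => by
      rw [heq]
      exact b3_D_conj _ r hs hg
    have hyU : x ^ j ∈ U := by
      refine hcent _ fun u hu => ?_
      have hy := b3_D_self (T := T) (x ^ j) r
      have h1 : x ^ j * u * (x ^ j)⁻¹ * u⁻¹ ∈ b3_D T (x ^ j) r ⊓ U := by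
        refine ⟨?_, ?_⟩
        · have h2 := hn.conj_mem _ (Subgroup.inv_mem _ hy) u
          have e : x ^ j * u * (x ^ j)⁻¹ * u⁻¹ = x ^ j * (u * (x ^ j)⁻¹ * u⁻¹) := by group
          rw [e]
          exact Subgroup.mul_mem _ hy h2
        · exact Subgroup.mul_mem _ (nU.conj_mem u hu (x ^ j)) (Subgroup.inv_mem _ hu)
      rw [hQU r (by omega), Subgroup.mem_bot, mul_inv_eq_one, mul_inv_eq_iff_eq_mul] at h1
      exact h1
    have h1 : x ^ j ∈ b3_D T (x ^ j) r ⊓ U := ⟨b3_D_self _ r, hyU⟩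
    rw [hQU r (by omega), Subgroup.mem_bot] at h1
    exact hy1 h1

end B3core

variable {G : Type} [Group G] {p d : ℕ} {N M : Subgroup G}

private theorem b3_image [N.Normal] (S : Set G) (n : ℕ) :
    (QuotientGroup.mk' N) '' (Bl S n) = Bl ((QuotientGroup.mk' N) '' S) n := by
  unfold Bl
  rw [Set.image_pow]
  congr 1
  rw [Set.image_union, Set.image_union, Set.image_singleton, map_one]
  congr 1
  ext y
  constructor
  · rintro ⟨s, hs, rfl⟩
    exact ⟨s⁻¹, hs, by rw [map_inv]⟩
  · rintro ⟨s, hs, h⟩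
    exact ⟨s⁻¹, by rwa [Set.inv_mem_inv], by rw [map_inv, h, inv_inv]⟩

theorem lemmaN (S : Set G) (hS : Subgroup.closure S = ⊤) (h : Prim p d N M) (x : G)
    (hx : x ∉ M) : ∃ z ∈ Bl S (2 * d + 4), cc x z ∉ N := by
  have nN := h.nN
  have nM := h.nM
  have hfin := h.fin
  obtain ⟨hfp, _, V, _, _, _, ρ, qq, hinj, hirr, hfr, -, -, -, -⟩ := prim_rep h
  let π := QuotientGroup.mk' N
  have hπ : Function.Surjective π := QuotientGroup.mk'_surjective N
  have hker : ∀ g : G, π g = 1 ↔ g ∈ N := fun g => QuotientGroup.eq_one_iff g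
  have hmem : ∀ g : G, π g ∈ M.map π ↔ g ∈ M := by
    intro g
    constructor
    · rintro ⟨m, hm, hmg⟩
      have h1 : π (m⁻¹ * g) = 1 := by rw [map_mul, map_inv, hmg, inv_mul_cancel]
      have h2 := h.le ((hker _).1 h1)
      have h3 := M.mul_mem hm h2
      rwa [mul_inv_cancel_left] at h3
    · intro hg
      exact ⟨g, hg, rfl⟩
  have hcore := b3_core (F := G ⧸ N) (T := π '' S) (p := p) (d := d) h.prime
    (by
      rw [← MonoidHom.map_closure, hS]
      exact Subgroup.map_top_of_surjective π hπ)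
    (M.map π) (nM.map π hπ)
    (by
      intro hbot
      apply h.ne
      apply le_antisymm h.le
      intro m hm
      have h1 : π m ∈ M.map π := ⟨m, hm, rfl⟩
      rw [hbot, Subgroup.mem_bot] at h1
      exact (hker m).1 h1)
    (by
      rintro _ ⟨m, hm, rfl⟩
      rw [← map_pow, hker]
      exact h.exp m hm)
    (by
      have h1 := Subgroup.relIndex_comap (⊥ : Subgroup (G ⧸ N)) π M
      rw [MonoidHom.comap_bot, QuotientGroup.ker_mk', Subgroup.relIndex_bot_left] at h1
      rw [← h1]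
      exact h.card)
    (by
      intro K hK hKU
      have h1 : (K.comap π).Normal := hK.comap π
      rcases h.min (K.comap π) h1 (by
        intro n hn
        rw [Subgroup.mem_comap, (hker n).2 hn]
        exact K.one_mem) (by
        intro g hg
        exact (hmem g).1 (hKU hg)) with h2 | h2
      · left
        rw [eq_bot_iff]
        intro y hy
        obtain ⟨g, rfl⟩ := hπ y
        have : g ∈ K.comap π := hy
        rw [h2] at this
        rw [Subgroup.mem_bot]
        exact (hker g).2 this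
      · right
        apply le_antisymm hKU
        rintro _ ⟨m, hm, rfl⟩
        have : m ∈ K.comap π := by rw [h2]; exact hm
        exact this)
    (by
      intro y hy
      obtain ⟨g, rfl⟩ := hπ y
      rw [hmem]
      refine h.cent g fun m hm => ?_
      have h1 := hy (π m) ⟨m, hm, rfl⟩
      rw [← hker, map_mul, map_mul, map_mul, map_inv, map_inv, h1]
      group)
    (by
      intro q hq hqp Q hc he hQ
      let f : G ⧸ N →* G ⧸ M := QuotientGroup.map N M (MonoidHom.id G) h.le
      have hf : ∀ g : G, f (π g) = QuotientGroup.mk g := fun g => rfl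
      have hinj' : Function.Injective ((ρ.comp f).comp Q.subtype) := by
        rw [injective_iff_map_eq_one]
        rintro ⟨y, hy⟩ h1
        obtain ⟨g, rfl⟩ := hπ y
        have h2 : f (π g) = 1 := by
          apply hinj
          rw [map_one]
          exact h1
        rw [hf, QuotientGroup.eq_one_iff] at h2
        have h3 : π g ∈ Q ⊓ M.map π := ⟨hy, g, h2, rfl⟩
        rw [hQ, Subgroup.mem_bot] at h3
        exact Subtype.ext h3
      have := elab_rank (p := p) hq hqp Q V ((ρ.comp f).comp Q.subtype) hinj'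
        (fun a b => Subtype.ext (hc a.1 a.2 b.1 b.2)) fun a => Subtype.ext (by
          rw [Subgroup.coe_pow, Subgroup.coe_one]
          exact he a.1 a.2)
      rwa [hfr] at this)
    (π x) (by rwa [hmem])
  obtain ⟨z, hz, hz2⟩ := hcore
  rw [← b3_image] at hz
  obtain ⟨z, hz, rfl⟩ := hz
  refine ⟨z, hz, fun hN => hz2 ?_⟩
  have h1 := (hker _).2 hN
  unfold cc at h1 ⊢
  simp only [map_mul, map_inv] at h1
  exact h1

end Pool.Agent.Helper98.RS
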