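import Pool.Agent.Helper98.RS.B6

set_option autoImplicit false

open scoped Pointwise commutatorElement

namespace Pool.Agent.Helper98.RS

private theorem b7_one_mem {G : Type} [Group G] (S : Set G) (n : ℕ) : (1 : G) ∈ Bl S n := by
  unfold Bl
  exact Set.one_mem_pow (by simp)

private theorem b7_mono {G : Type} [Group G] (S : Set G) {m n : ℕ} (h : m ≤ n) :
    Bl S m ⊆ Bl S n := by
  obtain ⟨k, rfl⟩ := Nat.exists_eq_add_of_le h
  intro x hx
  have h1 : x * 1 ∈ Bl S m * Bl S k := Set.mul_mem_mul hx (b7_one_mem S k)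
  rw [mul_one] at h1
  unfold Bl at *
  rwa [← pow_add] at h1

private theorem b7_exists {G : Type} [Group G] (S : Set G) (hS : Subgroup.closure S = ⊤)
    (M : Subgroup G) (hM : M ≠ ⊤) : ∃ s ∈ Bl S 1, s ∉ M := by
  by_contra hcon
  push Not at hcon
  apply hM
  rw [eq_top_iff, ← hS, Subgroup.closure_le]
  intro s hs
  exact hcon s (by unfold Bl; rw [pow_one]; exact Or.inl (Or.inr hs))

private theorem b7_cc_mem {G : Type} [Group G] (j : ℕ) (x z : G) (hx : x ∈ derivedSeries G j) :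
    cc x z ∈ derivedSeries G (j + 1) := by
  have hn : (derivedSeries G j).Normal := inferInstance
  have h2 : z⁻¹ * x * z ∈ derivedSeries G j := by
    have := hn.conj_mem x hx z⁻¹
    simpa using this
  rw [derivedSeries_succ]
  have h3 : ⁅x⁻¹, (z⁻¹ * x * z)⁻¹⁆ ∈ ⁅derivedSeries G j, derivedSeries G j⁆ :=
    Subgroup.commutator_mem_commutator (Subgroup.inv_mem _ hx) (Subgroup.inv_mem _ h2)
  have h4 : ⁅x⁻¹, (z⁻¹ * x * z)⁻¹⁆ = cc x z := by
    unfold cc
    rw [commutatorElement_def, inv_inv, inv_inv]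
  rwa [h4] at h3

/-- The chain of commutators. -/
private theorem b7_chain {G : Type} [Group G] (S : Set G) (N M : Subgroup G) (a : ℕ → ℕ)
    (h0 : ∃ s ∈ Bl S (a 0), s ∉ M)
    (hstep : ∀ j, ∀ x ∈ Bl S (a j), x ∉ M → ∃ z, cc x z ∉ N ∧ cc x z ∈ Bl S (a (j + 1))) (j : ℕ) :
    (∃ x ∈ derivedSeries G j, x ∉ M ∧ x ∈ Bl S (a j)) ∨
      ∃ i ≤ j, ∃ y ∈ M, y ∉ N ∧ y ∈ Bl S (a i) := by
  induction j with
  | zero =>
    obtain ⟨s, hs, hsM⟩ := h0
    exact Or.inl ⟨s, by simp, hsM, hs⟩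
  | succ j ih =>
    rcases ih with ⟨x, hx, hxM, hxl⟩ | ⟨i, hi, y, hy, hyN, hyl⟩
    · obtain ⟨z, hzN, hzl⟩ := hstep j x hxl hxM
      by_cases hc : cc x z ∈ M
      · exact Or.inr ⟨j + 1, le_rfl, cc x z, hc, hzN, hzl⟩
      · exact Or.inl ⟨cc x z, b7_cc_mem j x z hx, hc, hzl⟩
    · exact Or.inr ⟨i, by omega, y, hy, hyN, hyl⟩

/-- The lengths. -/
private noncomputable def b7_a (l : ℝ) (C : ℕ) : ℕ → ℕ
  | 0 => 1
  | j + 1 => ⌈l * (b7_a l C j : ℝ)⌉₊ + C

private theorem b7_a_le (l : ℝ) (hl : 2 ≤ l) (C : ℕ) (j : ℕ) :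
    (b7_a l C j : ℝ) ≤ (C + 2) * l ^ j - (C + 1) := by
  induction j with
  | zero =>
    simp only [b7_a, pow_zero, mul_one, Nat.cast_one]
    linarith
  | succ j ih =>
    have h1 : (b7_a l C (j + 1) : ℝ) ≤ l * (b7_a l C j : ℝ) + 1 + C := by
      rw [b7_a]
      push_cast
      have := Nat.ceil_lt_add_one (a := l * (b7_a l C j : ℝ)) (by positivity)
      linarith
    have h2 : l * (b7_a l C j : ℝ) ≤ l * ((C + 2) * l ^ j - (C + 1)) :=
      mul_le_mul_of_nonneg_left ih (by linarith)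
    have h3 : (0 : ℝ) ≤ (l - 2) * (C + 1) := by
      have : (0 : ℝ) ≤ C := Nat.cast_nonneg C
      apply mul_nonneg <;> linarith
    rw [pow_succ]
    nlinarith [h1, h2, h3]

/-- The exponent. -/
private theorem b7_param (α : ℝ) (hα : 0 < α) (hα2 : α < Real.log 3 / Real.log 96) :
    ∃ κ l : ℝ, 4 < l ∧ 1 ≤ κ ∧ Real.log l = κ * Real.log 9 / 5 ∧ (1 + κ) * α < 1 := by
  have h3 : 0 < Real.log 3 := Real.log_pos (by norm_num)
  have h96 : 0 < Real.log 96 := Real.log_pos (by norm_num)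
  have h9 : 0 < Real.log 9 := Real.log_pos (by norm_num)
  have e9 : Real.log 9 = 2 * Real.log 3 := by
    rw [show (9 : ℝ) = 3 ^ 2 by norm_num, Real.log_pow]; norm_num
  have e4 : Real.log 4 = 2 * Real.log 2 := by
    rw [show (4 : ℝ) = 2 ^ 2 by norm_num, Real.log_pow]; norm_num
  have e96 : Real.log 96 = 5 * Real.log 2 + Real.log 3 := by
    rw [show (96 : ℝ) = 2 ^ 5 * 3 by norm_num, Real.log_mul (by norm_num) (by norm_num),
      Real.log_pow]; norm_num
  have h94 : Real.log 9 ≤ 5 * Real.log 4 := by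
    have : Real.log 9 ≤ Real.log (4 ^ 5) := Real.log_le_log (by norm_num) (by norm_num)
    rw [Real.log_pow] at this
    push_cast at this
    linarith
  set κ0 : ℝ := 5 * Real.log 4 / Real.log 9 with hκ0
  set κ1 : ℝ := 1 / α - 1 with hκ1
  have h01 : κ0 < κ1 := by
    have h5 : α * Real.log 96 < Real.log 3 := by
      rwa [lt_div_iff₀ h96] at hα2
    have h6 : 1 + κ0 = Real.log 96 / Real.log 3 := by
      rw [hκ0, e9, e4, e96]
      field_simp
      ring
    have h7 : 1 + κ0 < 1 / α := by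
      rw [h6, div_lt_div_iff₀ h3 hα]
      linarith
    rw [hκ1]
    linarith
  have h0 : 1 ≤ κ0 := by
    rw [hκ0, le_div_iff₀ h9]
    linarith
  refine ⟨(κ0 + κ1) / 2, Real.exp ((κ0 + κ1) / 2 * Real.log 9 / 5), ?_, by linarith, ?_, ?_⟩
  · have h8 : Real.log 4 < (κ0 + κ1) / 2 * Real.log 9 / 5 := by
      have h9' : κ0 * Real.log 9 = 5 * Real.log 4 := by
        rw [hκ0]
        field_simp
      have h10 : κ0 * Real.log 9 < (κ0 + κ1) / 2 * Real.log 9 :=
        mul_lt_mul_of_pos_right (by linarith) h9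
      linarith
    calc (4 : ℝ) = Real.exp (Real.log 4) := (Real.exp_log (by norm_num)).symm
      _ < _ := Real.exp_lt_exp.mpr h8
  · rw [Real.log_exp]
  · have h11 : (1 + (κ0 + κ1) / 2) * α < (1 + κ1) * α :=
      mul_lt_mul_of_pos_right (by linarith) hα
    have h12 : (1 + κ1) * α = 1 := by
      rw [hκ1]
      field_simp
      ring
    linarith

private theorem b7_pow (κ l : ℝ) (hl : 1 < l) (hlog : Real.log l = κ * Real.log 9 / 5) (d m : ℕ)
    (hd : 1 ≤ d) (hm : 9 ^ m ≤ 9 ^ 128 * d ^ 5) : l ^ m ≤ l ^ 128 * (d : ℝ) ^ κ := by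
  have h9 : 0 < Real.log 9 := Real.log_pos (by norm_num)
  have hl0 : 0 < l := by linarith
  have hll : 0 < Real.log l := Real.log_pos hl
  have hd0 : (0 : ℝ) < d := by exact_mod_cast hd
  have h1 : ((9 : ℝ) ^ m) ≤ 9 ^ 128 * (d : ℝ) ^ 5 := by exact_mod_cast hm
  have h2 := Real.log_le_log (by positivity) h1
  rw [Real.log_mul (by positivity) (by positivity), Real.log_pow, Real.log_pow, Real.log_pow] at h2
  push_cast at h2
  have h3 : l ^ m = Real.exp (m * Real.log l) := by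
    rw [← Real.log_pow, Real.exp_log (by positivity)]
  have h4 : l ^ 128 * (d : ℝ) ^ κ = Real.exp (128 * Real.log l + κ * Real.log d) := by
    rw [Real.exp_add, show (128 : ℝ) * Real.log l = Real.log (l ^ 128) by
      rw [Real.log_pow]; norm_num, Real.exp_log (by positivity), Real.rpow_def_of_pos hd0,
      mul_comm (Real.log (d : ℝ))]
  rw [h3, h4]
  apply Real.exp_le_exp.mpr
  have h5 : (m : ℝ) * Real.log l * Real.log 9 ≤
      (128 * Real.log l + κ * Real.log d) * Real.log 9 := by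
    have h6 : (m : ℝ) * Real.log 9 * Real.log l ≤
        (128 * Real.log 9 + 5 * Real.log d) * Real.log l :=
      mul_le_mul_of_nonneg_right h2 hll.le
    have h7 : 5 * Real.log d * Real.log l = κ * Real.log d * Real.log 9 := by
      rw [hlog]; ring
    nlinarith [h6, h7]
  exact le_of_mul_le_mul_right h5 h9

/-- The dimensions are bounded. -/
theorem dim_bounded {G : Type} [Group G] (S : Set G) (hSf : S.Finite)
    (hS : Subgroup.closure S = ⊤) (α : ℝ) (hα : 0 < α)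
    (hα2 : α < Real.log 3 / Real.log 96) (hG : GB S α) :
    ∃ D : ℕ, ∀ (p d : ℕ) (N M : Subgroup G), Prim p d N M → M ≠ ⊤ → d ≤ D := by
  obtain ⟨κ, l, hl4, hκ, hlog, hβ⟩ := b7_param α hα hα2
  have h3 : 0 < Real.log 3 := Real.log_pos (by norm_num)
  have h96 : 0 < Real.log 96 := Real.log_pos (by norm_num)
  have hα4 : α < 1 / 4 := by
    refine hα2.trans_le ?_
    rw [div_le_div_iff₀ h96 (by norm_num)]
    have : Real.log (3 ^ 4) ≤ Real.log 96 := Real.log_le_log (by norm_num) (by norm_num)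
    rw [Real.log_pow] at this
    push_cast at this
    linarith
  obtain ⟨C0, hC0⟩ := cheap_step S hSf hS α hα hα4 hG (l - 4) (by linarith)
  obtain ⟨n0, hn0⟩ := hG
  -- constants
  set A : ℝ := (C0 + 2) * l ^ 128 with hA
  have hl1 : (1 : ℝ) ≤ l := by linarith
  have hA0 : 0 ≤ A := by positivity
  set C3 : ℝ := A + 1 + n0 + 2 with hC3
  have hC30 : 0 < C3 := by positivity
  set β : ℝ := (1 + κ) * α with hβd
  have hlog2 : 0 < Real.log 2 := Real.log_pos (by norm_num)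
  refine ⟨⌈(C3 ^ α / Real.log 2) ^ (1 / (1 - β))⌉₊, ?_⟩
  intro p d N M hP hM
  rcases Nat.eq_zero_or_pos d with rfl | hd
  · exact Nat.zero_le _
  have hd1 : (1 : ℝ) ≤ d := by exact_mod_cast hd
  have hd0 : (0 : ℝ) < d := by linarith
  -- m
  set m : ℕ := Nat.log 9 (9 ^ 128 * d ^ 5) with hm
  have hm1 : 9 ^ m ≤ 9 ^ 128 * d ^ 5 := Nat.pow_log_le_self 9 (by positivity)
  have hm2 : 9 ^ 128 * d ^ 5 < 9 ^ (m + 1) := Nat.lt_pow_succ_log_self (by norm_num) _
  have hdl := dl_prim hP m hm2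
  -- chain
  have hch := b7_chain S N M (b7_a l C0) (by
      obtain ⟨s, hs, hsM⟩ := b7_exists S hS M hM
      exact ⟨s, by simpa [b7_a] using hs, hsM⟩) (by
      intro j x hx hxM
      obtain ⟨z, hz1, hz2⟩ := hC0 p d N M hP x (b7_a l C0 j) hxM hx
      refine ⟨z, hz1, hz2 _ ?_⟩
      rw [b7_a]
      push_cast
      have := Nat.le_ceil (l * (b7_a l C0 j : ℝ))
      linarith) m
  have hy : ∃ i ≤ m, ∃ y ∈ M, y ∉ N ∧ y ∈ Bl S (b7_a l C0 i) := by
    rcases hch with ⟨x, hx, hxM, -⟩ | h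
    · exact absurd (hdl hx) hxM
    · exact h
  obtain ⟨i, him, y, hyM, hyN, hyl⟩ := hy
  -- length
  set L : ℕ := ⌈A * (d : ℝ) ^ κ⌉₊ + n0 with hL
  have hiL : b7_a l C0 i ≤ L := by
    have h1 := b7_a_le l (by linarith) C0 i
    have h2 : l ^ i ≤ l ^ m := pow_le_pow_right₀ hl1 him
    have h3' := b7_pow κ l (by linarith) hlog d m hd hm1
    have h4 : (b7_a l C0 i : ℝ) ≤ A * (d : ℝ) ^ κ := by
      have h5 : ((C0 : ℝ) + 2) * l ^ i ≤ (C0 + 2) * (l ^ 128 * (d : ℝ) ^ κ) :=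
        mul_le_mul_of_nonneg_left (h2.trans h3') (by positivity)
      have h6 : (0 : ℝ) ≤ C0 := Nat.cast_nonneg _
      rw [hA]
      nlinarith [h1, h5, h6]
    have h7 : (b7_a l C0 i : ℝ) ≤ (L : ℝ) := by
      rw [hL]
      push_cast
      have := Nat.le_ceil (A * (d : ℝ) ^ κ)
      have h8 : (0 : ℝ) ≤ n0 := Nat.cast_nonneg _
      linarith
    exact_mod_cast h7
  have hyL : y ∈ Bl S L := b7_mono S hiL hyl
  have hgp := growth_prim S hSf hS hP y L hyL hyM hyN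
  have hge : n0 ≤ d * (L + 2 * d) := by
    have : n0 ≤ L := by rw [hL]; omega
    nlinarith
  have hcard := hn0 _ hge
  have h2d : (2 : ℝ) ^ d ≤ Real.exp (((d * (L + 2 * d) : ℕ) : ℝ) ^ α) := by
    refine le_trans ?_ hcard
    exact_mod_cast hgp
  have hdκ : (d : ℝ) ≤ (d : ℝ) ^ κ := by
    calc (d : ℝ) = (d : ℝ) ^ (1 : ℝ) := (Real.rpow_one _).symm
      _ ≤ (d : ℝ) ^ κ := Real.rpow_le_rpow_of_exponent_le hd1 hκ
  have hlen : ((d * (L + 2 * d) : ℕ) : ℝ) ≤ C3 * (d : ℝ) ^ (1 + κ) := by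
    have hLle : (L : ℝ) ≤ A * (d : ℝ) ^ κ + 1 + n0 := by
      rw [hL]
      push_cast
      have := Nat.ceil_lt_add_one (a := A * (d : ℝ) ^ κ) (by positivity)
      linarith
    have h1 : (L : ℝ) + 2 * d ≤ C3 * (d : ℝ) ^ κ := by
      have h5 : (1 : ℝ) ≤ (d : ℝ) ^ κ := hd1.trans hdκ
      have h6 : (0 : ℝ) ≤ n0 := Nat.cast_nonneg _
      rw [hC3]
      nlinarith [hLle, h5, h6, hdκ]
    rw [Real.rpow_add hd0, Real.rpow_one]
    push_cast
    calc (d : ℝ) * (L + 2 * d) ≤ d * (C3 * (d : ℝ) ^ κ) := mul_le_mul_of_nonneg_left h1 hd0.le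
      _ = C3 * (d * (d : ℝ) ^ κ) := by ring
  have hmain : (d : ℝ) * Real.log 2 ≤ C3 ^ α * (d : ℝ) ^ β := by
    have h1 := Real.log_le_log (by positivity) h2d
    rw [Real.log_pow, Real.log_exp] at h1
    refine h1.trans ?_
    have h2 : ((d * (L + 2 * d) : ℕ) : ℝ) ^ α ≤ (C3 * (d : ℝ) ^ (1 + κ)) ^ α :=
      Real.rpow_le_rpow (Nat.cast_nonneg _) hlen hα.le
    refine h2.trans (le_of_eq ?_)
    rw [Real.mul_rpow hC30.le (by positivity), ← Real.rpow_mul hd0.le]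
  have hβ1 : 0 < 1 - β := by linarith
  have hfin : (d : ℝ) ^ (1 - β) ≤ C3 ^ α / Real.log 2 := by
    rw [le_div_iff₀ hlog2, Real.rpow_sub hd0, Real.rpow_one, div_mul_eq_mul_div,
      div_le_iff₀ (by positivity)]
    exact hmain
  have hd2 : (d : ℝ) ≤ (C3 ^ α / Real.log 2) ^ (1 / (1 - β)) := by
    calc (d : ℝ) = ((d : ℝ) ^ (1 - β)) ^ (1 / (1 - β)) := by
          rw [← Real.rpow_mul hd0.le, mul_one_div_cancel hβ1.ne', Real.rpow_one]
      _ ≤ _ := Real.rpow_le_rpow (by positivity) hfin (by positivity)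
  have hd3 := hd2.trans (Nat.le_ceil _)
  exact_mod_cast hd3

end Pool.Agent.Helper98.RS
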