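import Pool.Agent.Helper98.RS.Defs
import Pool.Agent.Helper41.Gap.SubexpBasic

set_option autoImplicit false

open scoped Pointwise

namespace Pool.Agent.Helper98.RS

section PP

variable {P : Type} [Group P]

/-- Ping pong: no free subsemigroup in a group of subexponential growth. -/
theorem lo_pp (h : SubExp' P) (a b p : P) (J : Set P) (hp : p ∈ J)
    (ha : ∀ x ∈ J, a * x ∈ J) (hb : ∀ x ∈ J, b * x ∈ J)
    (hab : ∀ x ∈ J, ∀ y ∈ J, a * x ≠ b * y) : False := by
  classical
  set T : Set P := {a, b} with hT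
  have hTf : T.Finite := (Set.finite_singleton b).insert a
  have hfin : ∀ n, (T ^ n).Finite := by
    intro n
    induction n with
    | zero => simp
    | succ n ih =>
      rw [pow_succ]
      exact ih.mul hTf
  have hmem : ∀ n, ∀ u ∈ T ^ n, u * p ∈ J := by
    intro n
    induction n with
    | zero =>
      intro u hu
      rw [pow_zero, Set.mem_one] at hu
      rwa [hu, one_mul]
    | succ n ih =>
      intro u hu
      rw [pow_succ', Set.mem_mul] at hu
      obtain ⟨t, ht, v, hv, rfl⟩ := hu
      rw [mul_assoc]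
      rcases ht with rfl | ht
      · exact ha _ (ih v hv)
      · rw [Set.mem_singleton_iff.1 ht]
        exact hb _ (ih v hv)
  have hcard : ∀ n, (T ^ n).ncard = 2 ^ n := by
    intro n
    induction n with
    | zero => rw [pow_zero, pow_zero]; exact Set.ncard_singleton 1
    | succ n ih =>
      have h1 : T ^ (n + 1) = ((fun x => a * x) '' (T ^ n)) ∪ ((fun x => b * x) '' (T ^ n)) := by
        rw [pow_succ']
        ext x
        simp only [Set.mem_mul, Set.mem_union, Set.mem_image, hT, Set.mem_insert_iff,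
          Set.mem_singleton_iff, exists_eq_or_imp, exists_eq_left]
      rw [h1, Set.ncard_union_eq ?_ ((hfin n).image _) ((hfin n).image _),
        Set.ncard_image_of_injective _ (mul_right_injective a),
        Set.ncard_image_of_injective _ (mul_right_injective b), ih, pow_succ]
      · ring
      · rw [Set.disjoint_left]
        rintro _ ⟨u, hu, rfl⟩ ⟨v, hv, hvu⟩
        refine hab _ (hmem n u hu) _ (hmem n v hv) ?_
        rw [← mul_assoc, ← mul_assoc]
        exact congrArg (· * p) hvu.symm
  obtain ⟨C, hC⟩ := h T hTf (3 / 2) (by norm_num)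
  obtain ⟨n, hn⟩ := pow_unbounded_of_one_lt C (by norm_num : (1 : ℝ) < 4 / 3)
  have h2 := hC n
  rw [hcard n] at h2
  push_cast at h2
  have h3 : (2 : ℝ) ^ n = (4 / 3) ^ n * (3 / 2) ^ n := by rw [← mul_pow]; norm_num
  rw [h3] at h2
  have h4 : (0 : ℝ) < (3 / 2) ^ n := by positivity
  have h5 := le_of_mul_le_mul_right h2 h4
  linarith

end PP

section Ord

variable {P : Type} [Group P] [LinearOrder P]

/-- Hölder's theorem for archimedean left ordered groups. -/
theorem lo_hoelder (hmul : ∀ z x y : P, x < y → z * x < z * y)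
    (harch : ∀ a b : P, 1 < a → ∃ n : ℕ, b < a ^ n) (a b : P) : a * b = b * a := by
  have hmulle : ∀ z x y : P, x ≤ y → z * x ≤ z * y := fun z x y hxy => by
    rcases hxy.lt_or_eq with h | h
    · exact (hmul z x y h).le
    · rw [h]
  have hinv : ∀ x : P, x < 1 → 1 < x⁻¹ := fun x hx => by
    have := hmul x⁻¹ x 1 hx
    rwa [inv_mul_cancel, mul_one] at this
  have hinv' : ∀ x : P, 1 < x → x⁻¹ < 1 := fun x hx => by
    have := hmul x⁻¹ 1 x hx
    rwa [inv_mul_cancel, mul_one] at this
  -- conjugates of positive elements are positive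
  have hc1 : ∀ a z : P, 1 < a → 1 ≤ z → z < a * z := by
    intro a z ha hz
    by_contra hcon
    push Not at hcon
    have h1 : ∀ n : ℕ, a ^ n * z ≤ z := by
      intro n
      induction n with
      | zero => simp
      | succ n ih =>
        calc a ^ (n + 1) * z = a ^ n * (a * z) := by rw [pow_succ, mul_assoc]
          _ ≤ a ^ n * z := hmulle _ _ _ hcon
          _ ≤ z := ih
    obtain ⟨n, hn⟩ := harch a z ha
    have h2 : a ^ n ≤ a ^ n * z := by
      have := hmulle (a ^ n) 1 z hz
      rwa [mul_one] at this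
    exact absurd (h2.trans (h1 n)) (not_le.2 hn)
  have hc2 : ∀ a z : P, 1 < a → z < a * z := by
    intro a z ha
    rcases le_or_gt 1 z with hz | hz
    · exact hc1 a z ha hz
    · by_contra hcon
      push Not at hcon
      have hne : a * z ≠ z := fun h => ha.ne' (by simpa using h)
      have hlt : a * z < z := lt_of_le_of_ne hcon hne
      have h1 : z⁻¹ * (a * z) < 1 := by
        have := hmul z⁻¹ _ _ hlt
        rwa [inv_mul_cancel] at this
      have h2 := hinv _ h1
      have h3 := hc1 _ z⁻¹ h2 (hinv z hz).le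
      have h4 : (z⁻¹ * (a * z))⁻¹ * z⁻¹ = z⁻¹ * a⁻¹ := by group
      rw [h4] at h3
      have h5 := hmul z _ _ h3
      rw [mul_inv_cancel, mul_inv_cancel_left] at h5
      exact absurd h5 (not_lt.2 (hinv' a ha).le)
  have hmulr : ∀ z x y : P, x < y → x * z < y * z := by
    intro z x y hxy
    have h1 : 1 < x⁻¹ * y := by
      have := hmul x⁻¹ _ _ hxy
      rwa [inv_mul_cancel] at this
    have h2 := hmul x _ _ (hc2 _ z h1)
    rwa [show x * (x⁻¹ * y * z) = y * z by group] at h2
  have hmulrle : ∀ z x y : P, x ≤ y → x * z ≤ y * z := fun z x y hxy => by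
    rcases hxy.lt_or_eq with h | h
    · exact (hmulr z x y h).le
    · rw [h]
  have hmm : ∀ x y z w : P, x ≤ y → z ≤ w → x * z ≤ y * w := fun x y z w h1 h2 =>
    (hmulle x z w h2).trans (hmulrle w x y h1)
  -- floor
  have hfloor : ∀ d a : P, 1 < d → 1 ≤ a → ∃ n : ℕ, d ^ n ≤ a ∧ a < d ^ (n + 1) := by
    classical
    intro d a hd ha
    have hex := harch d a hd
    set n := Nat.find hex with hn
    have h1 : a < d ^ n := Nat.find_spec hex
    have h0 : n ≠ 0 := by
      intro h
      rw [h, pow_zero] at h1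
      exact absurd ha (not_le.2 h1)
    obtain ⟨k, hk⟩ := Nat.exists_eq_succ_of_ne_zero h0
    refine ⟨k, ?_, by rw [← Nat.succ_eq_add_one, ← hk]; exact h1⟩
    by_contra hcon
    exact Nat.find_min hex (m := k) (by omega) (not_le.1 hcon)
  -- no two positive elements with `b a < a b`
  have key : ∀ a b : P, 1 < a → 1 < b → ¬ b * a < a * b := by
    intro a b ha hb hlt
    set c := (b * a)⁻¹ * (a * b) with hc
    have hc1 : 1 < c := by
      have := hmul (b * a)⁻¹ _ _ hlt
      rwa [inv_mul_cancel] at this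
    by_cases hleast : ∃ e : P, 1 < e ∧ ∀ x : P, 1 < x → e ≤ x
    · obtain ⟨e, he, hmin⟩ := hleast
      have hp : ∀ x : P, 1 < x → ∃ n : ℕ, x = e ^ n := by
        intro x hx
        obtain ⟨n, h1, h2⟩ := hfloor e x he hx.le
        refine ⟨n, ?_⟩
        by_contra hne
        have h3 : 1 < (e ^ n)⁻¹ * x := by
          have := hmul (e ^ n)⁻¹ _ _ (lt_of_le_of_ne h1 (Ne.symm hne))
          rwa [inv_mul_cancel] at this
        have h4 := hmulle (e ^ n) _ _ (hmin _ h3)
        rw [mul_inv_cancel_left, ← pow_succ] at h4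
        exact absurd h2 (not_lt.2 h4)
      obtain ⟨m, hm⟩ := hp a ha
      obtain ⟨n, hn⟩ := hp b hb
      rw [hm, hn, ← pow_add, ← pow_add, add_comm] at hlt
      exact lt_irrefl _ hlt
    · push Not at hleast
      obtain ⟨d0, hd0, hd0c⟩ := hleast c hc1
      obtain ⟨d, hd, hdc⟩ : ∃ d : P, 1 < d ∧ d * d ≤ c := by
        have h1 : 1 < d0⁻¹ * c := by
          have := hmul d0⁻¹ _ _ hd0c
          rwa [inv_mul_cancel] at this
        refine ⟨min d0 (d0⁻¹ * c), lt_min hd0 h1, ?_⟩
        calc min d0 (d0⁻¹ * c) * min d0 (d0⁻¹ * c) ≤ d0 * (d0⁻¹ * c) :=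
              hmm _ _ _ _ (min_le_left _ _) (min_le_right _ _)
          _ = c := by group
      obtain ⟨m, hm1, hm2⟩ := hfloor d a hd ha.le
      obtain ⟨n, hn1, hn2⟩ := hfloor d b hd hb.le
      have h1 : a * b < d ^ (m + 1) * d ^ (n + 1) :=
        (hmul a _ _ hn2).trans (hmulr _ _ _ hm2)
      have h2 : d ^ n * d ^ m ≤ b * a := hmm _ _ _ _ hn1 hm1
      have h4 : b * a * c = a * b := by rw [hc]; group
      have h5 : d ^ n * d ^ m * (d * d) ≤ b * a * c := hmm _ _ _ _ h2 hdc
      rw [h4] at h5
      have h6 : d ^ n * d ^ m * (d * d) = d ^ (m + 1) * d ^ (n + 1) := by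
        rw [← pow_add, ← pow_two, ← pow_add, ← pow_add]
        congr 1
        ring
      rw [h6] at h5
      exact absurd h1 (not_lt.2 h5)
  have hpos : ∀ a b : P, 1 < a → 1 < b → a * b = b * a := by
    intro a b ha hb
    rcases lt_trichotomy (a * b) (b * a) with h | h | h
    · exact absurd h (key b a hb ha)
    · exact h
    · exact absurd h (key a b ha hb)
  have hpos1 : ∀ a b : P, 1 < a → a * b = b * a := by
    intro a b ha
    rcases lt_trichotomy b 1 with h | h | h
    · have h1 : Commute a b⁻¹ := hpos a _ ha (hinv b h)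
      have h2 := h1.inv_right
      rwa [inv_inv] at h2
    · rw [h, mul_one, one_mul]
    · exact hpos a b ha h
  rcases lt_trichotomy a 1 with h | h | h
  · have h1 : Commute a⁻¹ b := hpos1 _ b (hinv a h)
    have h2 := h1.inv_left
    rwa [inv_inv] at h2
  · rw [h, mul_one, one_mul]
  · exact hpos1 a b h

end Ord

end Pool.Agent.Helper98.RS
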